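import Pool.Agent.Lib.MP_e3f158_nt.TL.Pair

/-!
# MP_e3f158_nt, Theorem T2: from a heavy pair `(q, k)` to a progression, the major denominators
-/

set_option autoImplicit false

namespace Pool.Agent.Lib.MP_e3f158_nt.TL

open Finset Pool.MP_67663b_nt.Odd Pool.MP_dd84fd_nt.En Pool.MP_dd84fd_nt.E2 Pool.MP_dd84fd_nt.LS
open Pool.MP_dd84fd_nt.L2G (nrm)
open Pool.MP_dd84fd_nt.GX Pool.MP_dd84fd_nt.HX Pool.MP_dd84fd_nt.IX
open Pool.MP_dd84fd_nt.PL (rr hq)
open Pool.MP_dd84fd_nt.JX (Adm DecJ Str)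
open Pool.MP_dd84fd_nt.LX (dscG)

/-- from many `n` related to `n0` to a progression -/
theorem con_ap (X K3 q k : ℕ) (hq : 1 ≤ q) (hL : 1 ≤ Real.log (X : ℝ)) (S N0 : Finset ℕ)
    (n0 : ℕ) (hN : N0 ⊆ S) (hrel : ∀ n ∈ N0, n ≠ n0 ∧ Rel X K3 q k n0 n) :
    ∃ d M : ℕ, 1 ≤ d ∧ d ≤ q ∧ (q : ℝ) ≤ (Real.log X) ^ K3 * d ∧
      M = ⌊4 * X * (Real.log X) ^ K3 / (2 ^ k * (d : ℝ))⌋₊ ∧
      (N0.card : ℝ) ≤ (Real.log X) ^ K3 *
        (inAP S ((n0 : ℤ) - (M : ℤ) * (d : ℤ)) d (2 * M + 1)).card := by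
  classical
  set L : ℝ := Real.log (X : ℝ) with hLd
  have hL1 : 1 ≤ L ^ K3 := one_le_pow₀ hL
  have hL0 : 0 < L ^ K3 := by linarith
  obtain ⟨J, hJ⟩ : ∃ J : Finset ℕ, J = Icc 1 ⌊L ^ K3⌋₊ := ⟨_, rfl⟩
  have hJ1 : 1 ≤ ⌊L ^ K3⌋₊ := Nat.le_floor (by exact_mod_cast hL1)
  have hJn : J.Nonempty := by
    rw [hJ]
    exact ⟨1, mem_Icc.2 ⟨le_rfl, hJ1⟩⟩
  have hJc : (J.card : ℝ) ≤ L ^ K3 := by
    rw [hJ, Nat.card_Icc, Nat.add_sub_cancel]
    exact Nat.floor_le hL0.le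
  have hmap : ∀ n ∈ N0, q / Nat.gcd q (nd n0 n) ∈ J := by
    intro n hn
    obtain ⟨_, h1, _⟩ := hrel n hn
    have hg0 : 0 < Nat.gcd q (nd n0 n) := Nat.gcd_pos_of_pos_left _ (by omega)
    have hgr : (0 : ℝ) < (Nat.gcd q (nd n0 n) : ℝ) := by exact_mod_cast hg0
    have hdv : q / Nat.gcd q (nd n0 n) * Nat.gcd q (nd n0 n) = q :=
      Nat.div_mul_cancel (Nat.gcd_dvd_left _ _)
    rw [hJ, mem_Icc]
    refine ⟨?_, ?_⟩
    · rcases Nat.eq_zero_or_pos (q / Nat.gcd q (nd n0 n)) with h0 | h0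
      · rw [h0, zero_mul] at hdv
        omega
      · exact h0
    · apply Nat.le_floor
      have h2 : ((q / Nat.gcd q (nd n0 n) : ℕ) : ℝ) * (Nat.gcd q (nd n0 n) : ℝ) = q := by
        exact_mod_cast hdv
      rw [← h2] at h1
      exact le_of_mul_le_mul_right h1 hgr
  obtain ⟨i, hi, hcard⟩ := Finset.exists_le_card_fiber_of_nsmul_le_card_of_maps_to
    (b := (N0.card : ℝ) / L ^ K3) hmap hJn (by
      rw [nsmul_eq_mul]
      calc (J.card : ℝ) * ((N0.card : ℝ) / L ^ K3) ≤ L ^ K3 * ((N0.card : ℝ) / L ^ K3) :=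
            mul_le_mul_of_nonneg_right hJc (by positivity)
        _ = (N0.card : ℝ) := by field_simp)
  obtain ⟨N1, hN1⟩ : ∃ N1 : Finset ℕ, N1 = N0.filter (fun n => q / Nat.gcd q (nd n0 n) = i) :=
    ⟨_, rfl⟩
  rw [← hN1] at hcard
  rw [div_le_iff₀ hL0] at hcard
  rcases N1.eq_empty_or_nonempty with h0 | ⟨n1, hn1⟩
  · refine ⟨q, ⌊4 * X * L ^ K3 / (2 ^ k * (q : ℝ))⌋₊, hq, le_rfl, ?_, rfl, ?_⟩
    · exact le_mul_of_one_le_left (Nat.cast_nonneg _) hL1
    · rw [h0, card_empty, Nat.cast_zero, zero_mul] at hcard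
      exact hcard.trans (by positivity)
  · have hg : ∀ n ∈ N1, Nat.gcd q (nd n0 n) = Nat.gcd q (nd n0 n1) := by
      intro n hn
      rw [hN1, mem_filter] at hn hn1
      have h1 : q / Nat.gcd q (nd n0 n) * Nat.gcd q (nd n0 n) = q :=
        Nat.div_mul_cancel (Nat.gcd_dvd_left _ _)
      have h2 : q / Nat.gcd q (nd n0 n1) * Nat.gcd q (nd n0 n1) = q :=
        Nat.div_mul_cancel (Nat.gcd_dvd_left _ _)
      rw [hn.2] at h1
      rw [hn1.2] at h2
      have hi0 : 0 < i := by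
        rw [hJ, mem_Icc] at hi
        exact hi.1
      exact Nat.eq_of_mul_eq_mul_left hi0 (h1.trans h2.symm)
    have hd0 : 0 < Nat.gcd q (nd n0 n1) := Nat.gcd_pos_of_pos_left _ (by omega)
    obtain ⟨d, hd⟩ : ∃ d : ℕ, d = Nat.gcd q (nd n0 n1) := ⟨_, rfl⟩
    rw [← hd] at hd0
    have hn1' := hn1
    rw [hN1, mem_filter] at hn1'
    have hdr : (0 : ℝ) < d := by exact_mod_cast hd0
    refine ⟨d, ⌊4 * X * L ^ K3 / (2 ^ k * (d : ℝ))⌋₊, hd0, ?_, ?_, rfl, ?_⟩
    · rw [hd]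
      exact Nat.gcd_le_left _ (by omega)
    · rw [hd]
      exact (hrel n1 hn1'.1).2.1
    · refine hcard.trans ?_
      rw [mul_comm]
      refine mul_le_mul_of_nonneg_left ?_ hL0.le
      have hsub : N1 ⊆ inAP S ((n0 : ℤ) - (⌊4 * X * L ^ K3 / (2 ^ k * (d : ℝ))⌋₊ : ℤ) * (d : ℤ)) d
          (2 * ⌊4 * X * L ^ K3 / (2 ^ k * (d : ℝ))⌋₊ + 1) := by
        intro n hn
        obtain ⟨M, hM⟩ : ∃ M : ℕ, M = ⌊4 * X * L ^ K3 / (2 ^ k * (d : ℝ))⌋₊ := ⟨_, rfl⟩
        rw [← hM]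
        have hn' := hn
        rw [hN1, mem_filter] at hn'
        obtain ⟨hne, h1, h2⟩ := hrel n hn'.1
        unfold inAP
        rw [mem_filter]
        refine ⟨hN hn'.1, ?_⟩
        -- `d` divides `n - n0`
        have hdg : d = Nat.gcd q (nd n0 n) := by rw [hd, hg n hn]
        have hdv : d ∣ nd n0 n := by
          rw [hdg]
          exact Nat.gcd_dvd_right _ _
        obtain ⟨t, ht⟩ := hdv
        have hab : (t : ℤ) ≤ M := by
          have h3 : (t : ℝ) ≤ 4 * X * L ^ K3 / (2 ^ k * (d : ℝ)) := by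
            rw [le_div_iff₀ (by positivity)]
            have h4 : ((nd n0 n : ℕ) : ℝ) = d * t := by exact_mod_cast ht
            rw [h4] at h2
            calc (t : ℝ) * (2 ^ k * (d : ℝ)) = (d : ℝ) * t * 2 ^ k := by ring
              _ ≤ _ := h2
          have h5 : t ≤ M := by
            rw [hM]
            exact Nat.le_floor h3
          exact_mod_cast h5
        have hcase : ((n : ℤ) - n0 = (t : ℤ) * d) ∨ ((n : ℤ) - n0 = -((t : ℤ) * d)) := by
          unfold nd at ht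
          have h6 : (((n0 : ℤ) - n).natAbs : ℤ) = (d : ℤ) * t := by exact_mod_cast ht
          rcases Int.natAbs_eq ((n0 : ℤ) - n) with h7 | h7
          · right
            rw [h6] at h7
            linarith
          · left
            rw [h6] at h7
            linarith
        rcases hcase with h8 | h8
        · refine ⟨M + t, by omega, ?_⟩
          push_cast
          linarith
        · refine ⟨M - t, by omega, ?_⟩
          have h9 : t ≤ M := by exact_mod_cast hab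
          rw [Nat.cast_sub h9]
          linarith
      exact_mod_cast card_le_card hsub

/-- pigeonhole -/
theorem con_pig (S : Finset ℕ) (R : ℕ → ℕ → Prop) [∀ n n', Decidable (R n n')] (Y : ℝ)
    (h : (S.card : ℝ) ^ 2 / Y < ∑ n ∈ S, ((S.filter (R n)).card : ℝ)) :
    ∃ n ∈ S, (S.card : ℝ) / Y < ((S.filter (R n)).card : ℝ) := by
  by_contra hcon
  push Not at hcon
  have h1 : ∑ n ∈ S, ((S.filter (R n)).card : ℝ) ≤ ∑ _n ∈ S, (S.card : ℝ) / Y := sum_le_sum hcon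
  rw [sum_const, nsmul_eq_mul] at h1
  have h2 : (S.card : ℝ) * ((S.card : ℝ) / Y) = (S.card : ℝ) ^ 2 / Y := by ring
  linarith

theorem neg_mq (G : ℕ) [NeZero G] (X : ℕ) (v : ℕ → ℝ) (q : ℕ) (r : ℝ) :
    Mq G X (fun n => - v n) q r = Mq G X v q r := by
  unfold Mq
  congr 1
  refine sum_congr rfl fun j _ => ?_
  have : tr G X (fun n => - v n) j = - tr G X v j := by
    unfold tr
    rw [← sum_neg_distrib]
    refine sum_congr rfl fun n _ => ?_
    push_cast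
    ring
  rw [this, norm_neg]

theorem mq_split' (G : ℕ) [NeZero G] (X : ℕ) (v u err : ℕ → ℝ)
    (h : ∀ n ∈ Icc 1 X, v n = u n + err n) (q : ℕ) (r : ℝ) :
    Mq G X u q r ≤ 2 * Mq G X v q r + 2 * Mq G X err q r := by
  have h1 := mq_split G X u v (fun n => - err n) (fun n hn => by rw [h n hn]; ring) q r
  rwa [neg_mq] at h1

theorem nm2_split (G : ℕ) [NeZero G] (X : ℕ) (v u err : ℕ → ℝ)
    (h : ∀ n ∈ Icc 1 X, v n = u n + err n) :
    nm2 G (tr G X u) ≤ 2 * nm2 G (tr G X v) + 2 * nm2 G (tr G X err) := by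
  unfold nm2
  rw [← mul_assoc, ← mul_assoc, mul_comm 2 (1 / (G : ℝ)), mul_assoc, mul_assoc, ← mul_add]
  refine mul_le_mul_of_nonneg_left ?_ (by positivity)
  rw [mul_sum, mul_sum, ← sum_add_distrib]
  refine sum_le_sum fun j _ => ?_
  have e1 := tr_split G X v u err h j
  have e2 : tr G X u j = tr G X v j - tr G X err j := by rw [e1]; ring
  rw [e2]
  have h1 := norm_sub_le (tr G X v j) (tr G X err j)
  have h2 := norm_nonneg (tr G X v j)
  have h3 := norm_nonneg (tr G X err j)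
  have h4 := norm_nonneg (tr G X v j - tr G X err j)
  nlinarith [sq_nonneg (‖tr G X v j‖ - ‖tr G X err j‖)]

/-- `Mq` and the integral over the discs -/
theorem mq_dsc (K0 C1 : ℕ) (ww gg : ℕ → ℕ → ℝ) (hW : W1 K0 C1 ww gg) (D' : ℕ) :
    ∃ X0 : ℕ, ∀ X : ℕ, X0 ≤ X → ∀ (G : ℕ) [NeZero G], X ^ 10 ≤ G → ∀ (q : ℕ) (r : ℝ),
      1 ≤ q → (q : ℝ) ≤ X → 0 ≤ r → 2 * (q : ℝ) * r < X →
      Mq G X (cfI ww gg (-1) (wX D' X) X) q r ≤
        dscG (fun x => ‖WI ww gg (-1) (wX D' X) X x‖ ^ 2) X q r + 1 := by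
  obtain ⟨Xf, hXf⟩ := ft_facts K0 C1 ww gg hW D'
  refine ⟨max Xf 32, fun X hX G hG0 hG q r hq hqX hr hqr => ?_⟩
  have gf : Xf ≤ X := by omega
  have g1 : 32 ≤ X := by omega
  have hXr : (1 : ℝ) ≤ X := by
    have : 1 ≤ X := by omega
    exact_mod_cast this
  obtain ⟨F, hF⟩ : ∃ F : ℝ → ℂ, F = FT ww gg (wX D' X) X 1 := ⟨_, rfl⟩
  obtain ⟨f1, f2, f3⟩ := hXf X gf 1 (by omega)
  rw [← hF] at f1 f2 f3
  have hX4 : (X : ℝ) ^ 4 ≤ 14 * (X : ℝ) ^ 5 := by
    calc (X : ℝ) ^ 4 = 1 * (X : ℝ) ^ 4 := (one_mul _).symm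
      _ ≤ (14 * X) * (X : ℝ) ^ 4 := mul_le_mul_of_nonneg_right (by linarith) (by positivity)
      _ = 14 * (X : ℝ) ^ 5 := by ring
  have hX3 : (X : ℝ) ^ 3 ≤ (X : ℝ) ^ 4 := pow_le_pow_right₀ hXr (by norm_num)
  have h1 := rie_dq (fun x => ((‖F x‖ : ℝ) : ℂ)) X g1 (fun x => by
      show ((‖F (x + 1)‖ : ℝ) : ℂ) = ((‖F x‖ : ℝ) : ℂ)
      rw [f1]) (fun x y => by
      show ‖((‖F x‖ : ℝ) : ℂ) - ((‖F y‖ : ℝ) : ℂ)‖ ≤ _
      rw [← Complex.ofReal_sub, Complex.norm_real, Real.norm_eq_abs]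
      exact (abs_norm_sub_norm_le _ _).trans ((f2 x y).trans
        (mul_le_mul_of_nonneg_right hX4 (abs_nonneg _)))) (fun x => by
      show ‖((‖F x‖ : ℝ) : ℂ)‖ ≤ _
      rw [Complex.norm_real, norm_norm]
      exact (f3 x).trans hX3) G hG {q} (fun _ => r)
      (fun q' hq' => by
        rw [mem_singleton] at hq'
        rw [hq']
        exact ⟨hq, hqX, hr, hqr⟩) (by
        rw [card_singleton, Nat.cast_one]
        exact hXr)
  beta_reduce at h1
  rw [sum_singleton, sum_singleton] at h1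
  have h2 : (1 / (G : ℂ)) * ∑ j ∈ Dq G X q r, ((‖F (al G j)‖ : ℝ) : ℂ) =
        ((Mq G X (cfI ww gg (-1) (wX D' X) X) q r : ℝ) : ℂ) := by
    unfold Mq
    rw [Complex.ofReal_mul, Complex.ofReal_sum, Complex.ofReal_div, Complex.ofReal_one,
      Complex.ofReal_natCast]
    congr 1
    refine sum_congr rfl fun j _ => ?_
    rw [hF, ft_grid, norm_mul, chi_norm, mul_one, Complex.norm_real, Real.norm_eq_abs,
      abs_of_nonneg (by positivity)]
  have h3 : dsc (fun x => ((‖F x‖ : ℝ) : ℂ)) X q r =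
      ((dscG (fun x => ‖WI ww gg (-1) (wX D' X) X x‖ ^ 2) X q r : ℝ) : ℂ) := by
    have h4 : (fun x : ℝ => ((‖F x‖ : ℝ) : ℂ)) =
        fun x => ((‖WI ww gg (-1) (wX D' X) X x‖ ^ 2 : ℝ) : ℂ) := by
      funext x
      rw [hF, ft_norm]
    rw [h4]
    exact dsc_real (fun x => ‖WI ww gg (-1) (wX D' X) X x‖ ^ 2) X q r
  rw [h2, h3, ← Complex.ofReal_sub, Complex.norm_real, Real.norm_eq_abs] at h1
  have h5 := (abs_le.1 h1).2
  linarith

/-- the mass at a major denominator -/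
theorem mq_major (K0 C1 : ℕ) (ww gg : ℕ → ℕ → ℝ) (hW : W1 K0 C1 ww gg) (hM : MajI ww gg)
    (A3 K4 : ℕ) : ∃ D0 : ℕ, ∀ D' : ℕ, D0 ≤ D' →
    ∃ X0 : ℕ, ∀ X : ℕ, X0 ≤ X → ∀ (G : ℕ) [NeZero G], X ^ 10 ≤ G → ∀ (q : ℕ) (r : ℝ),
      1 ≤ q → 1 ≤ r → (q : ℝ) * r ≤ (Real.log X) ^ K4 →
      Mq G X (cfI ww gg (-1) (wX D' X) X) q r ≤ 4 * (X / (Real.log X) ^ A3) := by
  obtain ⟨D0, h0⟩ := hM (A3 + K4) (K4 + 1)
  refine ⟨D0, fun D' hD' => ?_⟩
  obtain ⟨X1, hX1⟩ := h0 D' hD'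
  obtain ⟨X2, hX2⟩ := mq_dsc K0 C1 ww gg hW D'
  obtain ⟨X3, hX3⟩ := MP_log_large 2
  obtain ⟨X4, hX4⟩ := MP_log_pow 3 (K4 + A3) (show (0 : ℝ) < 1 by norm_num)
  refine ⟨max (max X1 X2) (max X3 (max X4 1)), fun X hX G hG0 hG q r hq hr hqr => ?_⟩
  have g1 : X1 ≤ X := by omega
  have g2 : X2 ≤ X := by omega
  have g3 : X3 ≤ X := by omega
  have g4 : X4 ≤ X := by omega
  have g5 : 1 ≤ X := by omega
  have hL := hX3 X g3
  have h4 := hX4 X g4
  rw [Real.rpow_one] at h4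
  set L : ℝ := Real.log (X : ℝ) with hLd
  have hL0 : 0 < L := by linarith
  have hL1 : 1 ≤ L := by linarith
  have hXr : (1 : ℝ) ≤ X := by exact_mod_cast g5
  have hX0 : (0 : ℝ) < X := by linarith
  have hq1 : (1 : ℝ) ≤ q := by exact_mod_cast hq
  have hLK : L ^ K4 * 3 ≤ X := by
    calc L ^ K4 * 3 = 3 * (L ^ K4 * 1) := by ring
      _ ≤ 3 * (L ^ K4 * L ^ A3) := by
          refine mul_le_mul_of_nonneg_left ?_ (by norm_num)
          exact mul_le_mul_of_nonneg_left (one_le_pow₀ hL1) (by positivity)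
      _ = 3 * L ^ (K4 + A3) := by rw [pow_add]
      _ ≤ X := h4
  have hLK0 : 0 < L ^ K4 := by positivity
  have hLK1 : 1 ≤ L ^ K4 := one_le_pow₀ hL1
  have h1 := hX2 X g2 G hG q r hq (by nlinarith) (by linarith) (by nlinarith)
  refine h1.trans ?_
  have h2 : dscG (fun x => ‖WI ww gg (-1) (wX D' X) X x‖ ^ 2) X q r ≤
      (q : ℝ) * ((X / L ^ (A3 + K4)) ^ 2 * (2 * (r / X))) := by
    unfold dscG
    have h3 : ∀ a ∈ rr q, ∫ x in (-r / X)..(r / X),
        (fun x => ‖WI ww gg (-1) (wX D' X) X x‖ ^ 2) ((a : ℝ) / q + x) ≤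
        (X / L ^ (A3 + K4)) ^ 2 * (2 * (r / X)) := by
      intro a ha
      have hrX : 0 ≤ r / X := by positivity
      have e1 : -r / (X : ℝ) = -(r / X) := neg_div _ _
      rw [e1]
      have h5 : ∫ x in (-(r / X))..(r / X),
          (fun x => ‖WI ww gg (-1) (wX D' X) X x‖ ^ 2) ((a : ℝ) / q + x) ≤
          ∫ _x in (-(r / X))..(r / X), (X / L ^ (A3 + K4)) ^ 2 := by
        refine intervalIntegral.integral_mono_on (by linarith) ?_ ?_ ?_
        · refine Continuous.intervalIntegrable ?_ _ _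
          have := wi_cont ww gg (-1) (wX D' X) X
          fun_prop
        · exact intervalIntegrable_const
        · intro x hx
          rw [Set.mem_Icc] at hx
          have h6 : ‖WI ww gg (-1) (wX D' X) X ((a : ℝ) / q + x)‖ ≤ X / L ^ (A3 + K4) := by
            refine hX1 X g1 _ ?_
            unfold Pool.MP_dd84fd_nt.PL.rr at ha
            rw [mem_filter, mem_range] at ha
            refine ⟨q, (a : ℤ), hq, ?_, ?_⟩
            · rw [Int.gcd_natCast_natCast]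
              exact ha.2
            · have h7 : |(a : ℝ) / q + x - ((a : ℤ) : ℝ) / q| ≤ r / X := by
                rw [Int.cast_natCast, add_sub_cancel_left]
                exact abs_le.2 hx
              have h8 : X * |(a : ℝ) / q + x - ((a : ℤ) : ℝ) / q| ≤ r := by
                calc X * |(a : ℝ) / q + x - ((a : ℤ) : ℝ) / q| ≤ X * (r / X) :=
                      mul_le_mul_of_nonneg_left h7 hX0.le
                  _ = r := by field_simp
              calc (q : ℝ) * (1 + X * |(a : ℝ) / q + x - ((a : ℤ) : ℝ) / q|) ≤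
                    (q : ℝ) * (r + r) := mul_le_mul_of_nonneg_left (by linarith) (by linarith)
                _ = 2 * ((q : ℝ) * r) := by ring
                _ ≤ L * L ^ K4 := mul_le_mul hL hqr (by positivity) (by linarith)
                _ = L ^ (K4 + 1) := by ring
          show ‖WI ww gg (-1) (wX D' X) X ((a : ℝ) / q + x)‖ ^ 2 ≤ (X / L ^ (A3 + K4)) ^ 2
          exact pow_le_pow_left₀ (norm_nonneg _) h6 2
      refine h5.trans (le_of_eq ?_)
      rw [intervalIntegral.integral_const, smul_eq_mul]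
      ring
    refine (sum_le_sum h3).trans ?_
    rw [sum_const, nsmul_eq_mul]
    refine mul_le_mul_of_nonneg_right ?_ (by positivity)
    have h9 : (rr q).card ≤ q := by
      unfold Pool.MP_dd84fd_nt.PL.rr
      refine (card_filter_le _ _).trans ?_
      rw [card_range]
    exact_mod_cast h9
  have h3 : (q : ℝ) * ((X / L ^ (A3 + K4)) ^ 2 * (2 * (r / X))) ≤ 2 * (X / L ^ A3) := by
    calc (q : ℝ) * ((X / L ^ (A3 + K4)) ^ 2 * (2 * (r / X))) =
          2 * (X / L ^ (A3 + K4)) * (((q : ℝ) * r) / L ^ (A3 + K4)) := by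
            field_simp
      _ ≤ 2 * (X / L ^ (A3 + K4)) * (L ^ K4 / L ^ (A3 + K4)) := by
          refine mul_le_mul_of_nonneg_left ?_ (by positivity)
          exact div_le_div_of_nonneg_right hqr (by positivity)
      _ ≤ 2 * (X / L ^ (A3 + K4)) * 1 := by
          refine mul_le_mul_of_nonneg_left ?_ (by positivity)
          rw [div_le_one (by positivity)]
          exact pow_le_pow_right₀ hL1 (by omega)
      _ ≤ 2 * (X / L ^ A3) := by
          rw [mul_one]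
          refine mul_le_mul_of_nonneg_left ?_ (by norm_num)
          exact div_le_div_of_nonneg_left hX0.le (by positivity)
            (pow_le_pow_right₀ hL1 (by omega))
  have h5 : 1 ≤ X / L ^ A3 := by
    rw [le_div_iff₀ (by positivity), one_mul]
    calc L ^ A3 ≤ L ^ K4 * L ^ A3 := le_mul_of_one_le_left (by positivity) hLK1
      _ ≤ 3 * L ^ (K4 + A3) := by
          rw [← pow_add]
          have : 0 ≤ L ^ (K4 + A3) := by positivity
          linarith
      _ ≤ X := h4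
  linarith

end Pool.Agent.Lib.MP_e3f158_nt.TL
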