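import Pool.Agent.Lib.MP_dd84fd_nt.LX.Defs
import Pool.Agent.Lib.MP_dd84fd_nt.JX.GDefs
import Pool.Agent.Lib.MP_dd84fd_nt.JX.PlDefs
import Pool.Agent.Lib.MP_dd84fd_nt.IX.FaDefs

/-!
# MP_e3f158_nt, Theorem T2 (`(log N)^C` progressions): definitions and interface

Plan: `/team-store/TL33_plan.md` (helper33).  `P0 = P0I th e X = X^(1-th+3e/2)`, `L = log X`.
`Dq G X q r`: the grid points at distance `≤ r/X` (mod 1) of a reduced fraction with denominator `q`;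
`Mq`: the mass of `|v̂|²` on `Dq`; `Ov`: the mass on the intersection of two such sets.
-/

set_option autoImplicit false

namespace Pool.Agent.Lib.MP_e3f158_nt.TL

open Finset Pool.MP_67663b_nt.Odd Pool.MP_dd84fd_nt.En Pool.MP_dd84fd_nt.E2 Pool.MP_dd84fd_nt.LS
open Pool.MP_dd84fd_nt.L2G (nrm)
open Pool.MP_dd84fd_nt.GX Pool.MP_dd84fd_nt.HX Pool.MP_dd84fd_nt.IX
open Pool.MP_dd84fd_nt.PL (rr hq)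
open Pool.MP_dd84fd_nt.JX (Adm ZJ DecJ Str)
open Pool.MP_dd84fd_nt.LX (PhU)

/-- the grid points at distance `≤ r/X` (mod 1) of a reduced fraction with denominator `q` -/
noncomputable def Dq (G : ℕ) [NeZero G] (X q : ℕ) (r : ℝ) : Finset (ZMod G) :=
  open Classical in univ.filter (fun j : ZMod G => ∃ a ∈ rr q, ∃ z : ℤ,
    |al G j - (a : ℝ) / q - z| ≤ r / X)

/-- the mass of `|v̂|²` on `Dq` -/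
noncomputable def Mq (G : ℕ) [NeZero G] (X : ℕ) (v : ℕ → ℝ) (q : ℕ) (r : ℝ) : ℝ :=
  (1 / (G : ℝ)) * ∑ j ∈ Dq G X q r, ‖tr G X v j‖ ^ 2

/-- the mass of `|v̂|²` on the intersection of two sets `Dq` -/
noncomputable def Ov (G : ℕ) [NeZero G] (X : ℕ) (v : ℕ → ℝ) (q q' : ℕ) (r r' : ℝ) : ℝ :=
  (1 / (G : ℝ)) * ∑ j ∈ Dq G X q r ∩ Dq G X q' r', ‖tr G X v j‖ ^ 2

/-- (H1): the overlaps are small -/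
def OvP : Prop := ∀ (C : ℕ) (th e τ : ℝ), Adm th e τ → ∃ X0 : ℕ, ∀ X : ℕ, X0 ≤ X →
  ∀ (G : ℕ) [NeZero G], X ^ 10 ≤ G → ∀ u : ℕ → ℝ, Str C th e τ X u → ∀ (q q' : ℕ) (r r' : ℝ),
    q ≠ q' → 1 ≤ q → 1 ≤ q' → 1 ≤ r → 1 ≤ r' → (q : ℝ) * r ≤ 4 * P0I th e X →
    (q' : ℝ) * r' ≤ 4 * P0I th e X → Ov G X u q q' r r' ≤ (X : ℝ) ^ (1 - 6 * e)

/-- the heavy denominators -/
def HvP : Prop := ∀ (C : ℕ) (th e τ : ℝ), Adm th e τ → ∃ X0 : ℕ, ∀ X : ℕ, X0 ≤ X →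
  ∀ (G : ℕ) [NeZero G], X ^ 10 ≤ G → ∀ u : ℕ → ℝ, Str C th e τ X u → ∀ W : ℝ, (X : ℝ) ≤ W →
    W ≤ (X : ℝ) ^ (1 + e / 2) → nm2 G (tr G X u) ≤ W → ∀ r : ℝ, 1 ≤ r → ∀ S : Finset ℕ,
    (∀ q ∈ S, 1 ≤ q ∧ (q : ℝ) * r ≤ 4 * P0I th e X ∧ (X : ℝ) ^ (1 - e) ≤ Mq G X u q r) →
    ∑ q ∈ S, Mq G X u q r ≤ 2 * W

/-- the square of `|W_{-1}|` times `e(-n .)` -/
noncomputable def FT (ww gg : ℕ → ℕ → ℝ) (w X n : ℕ) (θ : ℝ) : ℂ :=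
  ((‖WI ww gg (-1) w X θ‖ ^ 2 : ℝ) : ℂ) * ee (-((n : ℝ) * θ))

/-- (H2): the pointwise lemma for `|W_{-1}|²`; `hq q n = q / (q, n)` -/
def PlT : Prop := ∀ A : ℕ, ∃ B : ℕ, ∀ K0 C1 C2 : ℕ, ∃ K3 : ℕ, ∀ th e τ : ℝ, Adm th e τ →
  ∀ ww gg : ℕ → ℕ → ℝ, W1 K0 C1 ww gg → DecJ B C2 th e τ ww → ∀ D' A0 : ℕ, 1 ≤ D' →
  ∃ X0 : ℕ, ∀ X : ℕ, X0 ≤ X → ∀ n : ℕ, 1 ≤ n → n ≤ X →
    ∀ (QQ : Finset ℕ) (N b : ℝ) (bq : ℕ → ℝ), (∀ q ∈ QQ, 1 ≤ q ∧ b ≤ bq q ∧ bq q ≤ 2 * b) →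
    (∀ q ∈ QQ, ∀ q' ∈ QQ, (Nat.lcm q q' : ℝ) ≤ N) → (QQ.card : ℝ) ≤ (X : ℝ) ^ (e / 2) →
    1 / (Real.log X) ^ A0 ≤ b → N * b ≤ (X : ℝ) ^ (1 - th + 3 / 2 * e) →
    (∀ q ∈ QQ, (Real.log X) ^ K3 ≤ (hq q n : ℝ) * (1 + n * b / X)) →
    ∑ q ∈ QQ, ‖∑ a ∈ rr q,
      ((∫ x in (bq q / X)..(2 * bq q / X), FT ww gg (wX D' X) X n ((a : ℝ) / q + x)) +
      ∫ x in (bq q / X)..(2 * bq q / X), FT ww gg (wX D' X) X n ((a : ℝ) / q - x))‖ ≤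
      X / (Real.log X) ^ A

/-- `|n - n'|` -/
def nd (n n' : ℕ) : ℕ := ((n : ℤ) - n').natAbs

/-- `(q, k)` relates `n` and `n'`: `q / (q, n - n') ≤ L^K3`, `|n - n'| ≤ 4 X L^K3 / 2^k` -/
def Rel (X K3 q k n n' : ℕ) : Prop :=
  (q : ℝ) ≤ (Real.log X) ^ K3 * (Nat.gcd q (nd n n') : ℝ) ∧
    (nd n n' : ℝ) * 2 ^ k ≤ 4 * X * (Real.log X) ^ K3

/-- the correlation of the structured parts for `n` and `n'` -/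
noncomputable def TT2 (G : ℕ) [NeZero G] (X : ℕ) (v : ℕ → ℝ) (ω ω' : ZMod G → ℂ) (n n' : ℕ) : ℂ :=
  (1 / (G : ℂ)) * ∑ j : ZMod G, ω j * ω' j * ((‖tr G X v j‖ ^ 2 : ℝ) : ℂ) *
    ZMod.stdAddChar (((n' : ZMod G) - (n : ZMod G)) * j)

open Classical in
/-- the pairs `(q, k)` relating `n` and `n'` -/
noncomputable def RS (th e : ℝ) (X K3 Λ Λ' n n' : ℕ) : Finset (ℕ × ℕ) :=
  ((QQi th e X Λ ∩ QQi th e X Λ') ×ˢ range (Nat.log 2 X + 2)).filter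
    (fun p : ℕ × ℕ => (p.1 : ℝ) * 2 ^ p.2 ≤ 2 * P0I th e X ∧ Rel X K3 p.1 p.2 n n')

/-- the pair lemma -/
def PairP : Prop := ∀ A : ℕ, ∃ B A' : ℕ, ∀ K0 C1 C2 : ℕ, ∃ K3 : ℕ, ∀ th e τ : ℝ, Adm th e τ →
  ∀ ww gg : ℕ → ℕ → ℝ, W1 K0 C1 ww gg → DecJ B C2 th e τ ww → ∀ D' C : ℕ, 1 ≤ D' →
  ∃ X0 : ℕ, ∀ X : ℕ, X0 ≤ X → ∀ (G : ℕ) [NeZero G], X ^ 10 ≤ G → ∀ u err : ℕ → ℝ,
    Str C th e τ X u → (∀ n ∈ Icc 1 X, cfI ww gg (-1) (wX D' X) X n = u n + err n) →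
    ∑ n ∈ Icc 1 X, err n ^ 2 ≤ X / (Real.log X) ^ A' → ∀ n ∈ Icc 1 X, ∀ n' ∈ Icc 1 X, n ≠ n' →
    ∀ (Λ Λ' : ℕ) (bb bb' : ℝ), 1 ≤ Λ → 1 ≤ bb → Λ * bb ≤ 2 * (X : ℝ) ^ (1 - th + e) →
    1 ≤ Λ' → 1 ≤ bb' → Λ' * bb' ≤ 2 * (X : ℝ) ^ (1 - th + e) →
    ‖TT2 G X u (fun j => 1 - wSI G th e X Λ bb j) (fun j => 1 - wSI G th e X Λ' bb' j) n n'‖ ≤
      X / (Real.log X) ^ A +
        (Real.log X) ^ 3 * ∑ p ∈ RS th e X K3 Λ Λ' n n', Mq G X u p.1 (2 ^ p.2)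

/-- concentration on one progression -/
def ConP : Prop := ∀ A CV : ℕ, ∃ B : ℕ, ∀ K0 C1 C2 : ℕ, ∃ C : ℕ, ∀ (K : ℕ) (th e τ : ℝ),
  Adm th e τ → ∀ ww gg : ℕ → ℕ → ℝ, W1 K0 C1 ww gg → DecJ B C2 th e τ ww → MajI ww gg →
  ∃ D0 : ℕ, ∀ D' : ℕ, D0 ≤ D' → ∃ X0 : ℕ, ∀ X : ℕ, X0 ≤ X → ∀ (G : ℕ) [NeZero G], X ^ 10 ≤ G →
    ∀ U : ZMod G → ℂ, VBH G X CV U → ∀ S : Finset ℕ, S ⊆ Icc 1 X →
    (X : ℝ) ^ (th - e / 5) ≤ S.card →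
    (∀ n ∈ S, (X : ℝ) / (Real.log X) ^ A <
      ‖PhU G X U (cfI ww gg (-1) (wX D' X) X) (fun _ => 1) n‖) →
    ∃ (c : ℤ) (q T : ℕ), 1 ≤ q ∧ (q : ℝ) ≤ (X : ℝ) ^ (1 - th + 3 * e) ∧
      (X : ℝ) ^ (th - 3 * e) ≤ (T : ℝ) ∧ (T : ℝ) ≤ X / (Real.log X) ^ K ∧
      (S.card : ℝ) ≤ (Real.log X) ^ C * (inAP S c q T).card

end Pool.Agent.Lib.MP_e3f158_nt.TL
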