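import Pool.Agent.Lib.MP_dd84fd_nt.LX.FaFacts
import Pool.Agent.Lib.MP_e3f158_nt.TL.Defs

/-!
# TL-Dual (0.4 h): duality

`ζ n` = conjugate sign of `PhU n`; `∑_n B ≤ ∑ ζ_n PhU n = (1/G) ∑_j U(j) v̂(j) K(j)`,
`K(j) = ∑_n ζ_n ω_n(j) χ(-n j)`; Cauchy: square `≤ nm2 U (1/G) ∑_j |v̂|² |K|²`, expand `|K|² = K conj K`
(`ω` real valued: `conj ω = ω`; `conj χ(-n' j) = χ(n' j)`), `|ζ| ≤ 1`.
-/

set_option autoImplicit false

namespace Pool.Agent.Lib.MP_e3f158_nt.TL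

open Finset Pool.MP_67663b_nt.Odd Pool.MP_dd84fd_nt.En Pool.MP_dd84fd_nt.E2 Pool.MP_dd84fd_nt.LS
open Pool.MP_dd84fd_nt.GX Pool.MP_dd84fd_nt.HX Pool.MP_dd84fd_nt.IX
open Pool.MP_dd84fd_nt.LX (PhU)

theorem dual (G : ℕ) [NeZero G] (X : ℕ) (U : ZMod G → ℂ) (v : ℕ → ℝ) (S : Finset ℕ)
    (ω : ℕ → ZMod G → ℂ) (hω : ∀ n ∈ S, ∀ j, (starRingEnd ℂ) (ω n j) = ω n j) (B : ℝ)
    (hB : 0 ≤ B) (h : ∀ n ∈ S, B ≤ ‖PhU G X U v (ω n) n‖) :
    (S.card * B) ^ 2 ≤ nm2 G U * ∑ n ∈ S, ∑ n' ∈ S, ‖TT2 G X v (ω n) (ω n') n n'‖ := by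
  classical
  have hG : (0 : ℝ) < (G : ℝ) := by exact_mod_cast Nat.pos_of_ne_zero (NeZero.ne G)
  have hGc : (G : ℂ) ≠ 0 := by exact_mod_cast (NeZero.ne G)
  -- the conjugate signs
  set ζ : ℕ → ℂ := fun n => (starRingEnd ℂ) (PhU G X U v (ω n) n) / (‖PhU G X U v (ω n) n‖ : ℂ)
    with hζ
  have hζ1 : ∀ n, ‖ζ n‖ ≤ 1 := by
    intro n
    simp only [hζ, norm_div, RCLike.norm_conj, Complex.norm_real, norm_norm]
    exact div_self_le_one _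
  have hζ2 : ∀ n, ζ n * PhU G X U v (ω n) n = ((‖PhU G X U v (ω n) n‖ : ℝ) : ℂ) := by
    intro n
    simp only [hζ]
    by_cases hz : PhU G X U v (ω n) n = 0
    · simp [hz]
    · have hn : ((‖PhU G X U v (ω n) n‖ : ℝ) : ℂ) ≠ 0 := by
        simpa using hz
      rw [div_mul_eq_mul_div, div_eq_iff hn, ← Complex.normSq_eq_conj_mul_self,
        Complex.normSq_eq_norm_sq]
      push_cast
      ring
  set K : ZMod G → ℂ := fun j => ∑ n ∈ S, ζ n * ω n j * ZMod.stdAddChar (-((n : ZMod G) * j))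
    with hK
  -- the linear form
  have h1 : ((∑ n ∈ S, ‖PhU G X U v (ω n) n‖ : ℝ) : ℂ) =
      (1 / (G : ℂ)) * ∑ j : ZMod G, U j * (tr G X v j * K j) := by
    push_cast
    have e1 : ∀ n ∈ S, ((‖PhU G X U v (ω n) n‖ : ℝ) : ℂ) = (1 / (G : ℂ)) *
        ∑ j : ZMod G, U j * (tr G X v j * (ζ n * ω n j * ZMod.stdAddChar (-((n : ZMod G) * j)))) := by
      intro n _
      rw [← hζ2 n]
      unfold PhU
      rw [mul_left_comm, mul_sum]
      congr 1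
      refine sum_congr rfl fun j _ => ?_
      ring
    rw [sum_congr rfl e1, ← mul_sum, sum_comm]
    congr 1
    refine sum_congr rfl fun j _ => ?_
    rw [hK]
    simp only [mul_sum]
  have h2 : (S.card : ℝ) * B ≤ ∑ n ∈ S, ‖PhU G X U v (ω n) n‖ := by
    calc (S.card : ℝ) * B = ∑ _n ∈ S, B := by rw [sum_const, nsmul_eq_mul]
      _ ≤ _ := sum_le_sum h
  have h3 : ∑ n ∈ S, ‖PhU G X U v (ω n) n‖ ≤ (1 / (G : ℝ)) * ∑ j : ZMod G, ‖U j‖ * ‖tr G X v j * K j‖ := by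
    have e2 : ∑ n ∈ S, ‖PhU G X U v (ω n) n‖ =
        ‖(1 / (G : ℂ)) * ∑ j : ZMod G, U j * (tr G X v j * K j)‖ := by
      rw [← h1, Complex.norm_real, Real.norm_eq_abs, abs_of_nonneg]
      exact sum_nonneg fun n _ => norm_nonneg _
    rw [e2, norm_mul]
    have e3 : ‖(1 / (G : ℂ))‖ = 1 / (G : ℝ) := by simp
    rw [e3]
    refine mul_le_mul_of_nonneg_left ?_ (by positivity)
    refine (norm_sum_le _ _).trans (le_of_eq ?_)
    exact sum_congr rfl fun j _ => norm_mul _ _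
  have h4 : ((1 / (G : ℝ)) * ∑ j : ZMod G, ‖U j‖ * ‖tr G X v j * K j‖) ^ 2 ≤
      nm2 G U * ((1 / (G : ℝ)) * ∑ j : ZMod G, ‖tr G X v j * K j‖ ^ 2) := by
    have := sum_mul_sq_le_sq_mul_sq (univ : Finset (ZMod G)) (fun j => ‖U j‖)
      (fun j => ‖tr G X v j * K j‖)
    unfold nm2
    calc ((1 / (G : ℝ)) * ∑ j : ZMod G, ‖U j‖ * ‖tr G X v j * K j‖) ^ 2 =
        (1 / (G : ℝ)) ^ 2 * (∑ j : ZMod G, ‖U j‖ * ‖tr G X v j * K j‖) ^ 2 := by ring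
      _ ≤ (1 / (G : ℝ)) ^ 2 * ((∑ j : ZMod G, ‖U j‖ ^ 2) *
          ∑ j : ZMod G, ‖tr G X v j * K j‖ ^ 2) :=
        mul_le_mul_of_nonneg_left this (by positivity)
      _ = _ := by ring
  -- the quadratic form
  have h5 : (((1 / (G : ℝ)) * ∑ j : ZMod G, ‖tr G X v j * K j‖ ^ 2 : ℝ) : ℂ) =
      ∑ n ∈ S, ∑ n' ∈ S, ζ n * (starRingEnd ℂ) (ζ n') * TT2 G X v (ω n) (ω n') n n' := by
    have e4 : ∀ j : ZMod G, ((‖tr G X v j * K j‖ ^ 2 : ℝ) : ℂ) = ∑ n ∈ S, ∑ n' ∈ S,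
        ζ n * (starRingEnd ℂ) (ζ n') * (ω n j * ω n' j * ((‖tr G X v j‖ ^ 2 : ℝ) : ℂ) *
          ZMod.stdAddChar (((n' : ZMod G) - (n : ZMod G)) * j)) := by
      intro j
      have e5 : ((‖tr G X v j * K j‖ ^ 2 : ℝ) : ℂ) =
          ((‖tr G X v j‖ ^ 2 : ℝ) : ℂ) * (K j * (starRingEnd ℂ) (K j)) := by
        rw [norm_mul, mul_pow]
        push_cast
        congr 1
        rw [Complex.mul_conj, Complex.normSq_eq_norm_sq]
        push_cast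
        rfl
      have e6 : (starRingEnd ℂ) (K j) = ∑ n' ∈ S, (starRingEnd ℂ) (ζ n') * ω n' j *
          ZMod.stdAddChar ((n' : ZMod G) * j) := by
        rw [hK]
        simp only [map_sum, map_mul]
        refine sum_congr rfl fun n' hn' => ?_
        rw [hω n' hn' j, conj_chi, neg_neg]
      rw [e5, e6, hK]
      simp only
      rw [sum_mul_sum, mul_sum]
      refine sum_congr rfl fun n _ => ?_
      rw [mul_sum]
      refine sum_congr rfl fun n' _ => ?_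
      have e7 : (ZMod.stdAddChar (((n' : ZMod G) - (n : ZMod G)) * j) : ℂ) =
          ZMod.stdAddChar (-((n : ZMod G) * j)) * ZMod.stdAddChar ((n' : ZMod G) * j) := by
        rw [← AddChar.map_add_eq_mul]
        congr 1
        ring
      rw [e7]
      ring
    rw [Complex.ofReal_mul, Complex.ofReal_sum, sum_congr rfl fun j _ => e4 j]
    unfold TT2
    rw [sum_comm, mul_sum]
    refine sum_congr rfl fun n _ => ?_
    rw [sum_comm, mul_sum]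
    refine sum_congr rfl fun n' _ => ?_
    rw [← mul_sum]
    push_cast
    ring
  have h6 : (1 / (G : ℝ)) * ∑ j : ZMod G, ‖tr G X v j * K j‖ ^ 2 ≤
      ∑ n ∈ S, ∑ n' ∈ S, ‖TT2 G X v (ω n) (ω n') n n'‖ := by
    have e8 : (1 / (G : ℝ)) * ∑ j : ZMod G, ‖tr G X v j * K j‖ ^ 2 =
        ‖∑ n ∈ S, ∑ n' ∈ S, ζ n * (starRingEnd ℂ) (ζ n') * TT2 G X v (ω n) (ω n') n n'‖ := by
      rw [← h5, Complex.norm_real, Real.norm_eq_abs, abs_of_nonneg]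
      positivity
    rw [e8]
    refine (norm_sum_le _ _).trans (sum_le_sum fun n _ => ?_)
    refine (norm_sum_le _ _).trans (sum_le_sum fun n' _ => ?_)
    rw [norm_mul, norm_mul, RCLike.norm_conj]
    have a1 := hζ1 n
    have a2 := hζ1 n'
    have a3 : ‖ζ n‖ * ‖ζ n'‖ ≤ 1 := mul_le_one₀ a1 (norm_nonneg _) a2
    calc ‖ζ n‖ * ‖ζ n'‖ * ‖TT2 G X v (ω n) (ω n') n n'‖ ≤
        1 * ‖TT2 G X v (ω n) (ω n') n n'‖ := mul_le_mul_of_nonneg_right a3 (norm_nonneg _)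
      _ = _ := one_mul _
  have hnm : 0 ≤ nm2 G U := by
    unfold nm2
    positivity
  have hc0 : 0 ≤ (S.card : ℝ) * B := by positivity
  calc (S.card * B) ^ 2 ≤ ((1 / (G : ℝ)) * ∑ j : ZMod G, ‖U j‖ * ‖tr G X v j * K j‖) ^ 2 :=
        pow_le_pow_left₀ hc0 (h2.trans h3) 2
    _ ≤ _ := h4
    _ ≤ _ := mul_le_mul_of_nonneg_left h6 hnm

end Pool.Agent.Lib.MP_e3f158_nt.TL
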