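import Pool.Agent.Lib.MP_e3f158_nt.TL.ConA
import Pool.Agent.Lib.MP_e3f158_nt.TL.Dual
import Pool.Agent.Lib.MP_dd84fd_nt.LX.STr
import Pool.Agent.Lib.MP_dd84fd_nt.JX.GStrW
import Pool.Agent.Lib.MP_dd84fd_nt.JX.FaFin

/-!
# MP_e3f158_nt, Theorem T2: concentration on one progression
-/

set_option autoImplicit false

namespace Pool.Agent.Lib.MP_e3f158_nt.TL

open Finset Pool.MP_67663b_nt.Odd Pool.MP_dd84fd_nt.En Pool.MP_dd84fd_nt.E2 Pool.MP_dd84fd_nt.LS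
open Pool.MP_dd84fd_nt.L2G (nrm)
open Pool.MP_dd84fd_nt.GX Pool.MP_dd84fd_nt.HX Pool.MP_dd84fd_nt.IX
open Pool.MP_dd84fd_nt.PL (rr hq)
open Pool.MP_dd84fd_nt.JX (Adm DecJ Str strWJ decJ_mono qq_factsJ)
open Pool.MP_dd84fd_nt.LX (PhU dscG tree_l_all cf_sq phU_add phU_one phU_cauchy)

theorem con_num (th e τ : ℝ) (hA : Adm th e τ) (N : ℕ) : ∃ X0 : ℕ, ∀ X : ℕ, X0 ≤ X →
    32 ≤ X ∧ 32 ≤ Real.log (X : ℝ) ∧ 4 * (X : ℝ) ^ (1 - th + 3 / 2 * e) < X ∧
    (Real.log X) ^ N ≤ (X : ℝ) ^ (e / 100) := by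
  obtain ⟨X1, hX1⟩ := pair_num th e τ hA 0
  obtain ⟨X2, hX2⟩ := MP_log_large 32
  obtain ⟨X3, hX3⟩ := MP_log_pow 1 N (show 0 < e / 100 by linarith [hA.2.2.1])
  refine ⟨max X1 (max X2 X3), fun X hX => ?_⟩
  obtain ⟨h1, _, h3, _⟩ := hX1 X (by omega)
  have h4 := hX3 X (by omega)
  rw [one_mul] at h4
  exact ⟨h1, hX2 X (by omega), h3, h4⟩

theorem tt2_le (G : ℕ) [NeZero G] (X : ℕ) (v : ℕ → ℝ) (ω ω' : ZMod G → ℂ)
    (h : ∀ j, ‖ω j‖ ≤ 1) (h' : ∀ j, ‖ω' j‖ ≤ 1) (n n' : ℕ) :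
    ‖TT2 G X v ω ω' n n'‖ ≤ nm2 G (tr G X v) := by
  unfold TT2 nm2
  rw [norm_mul]
  have e1 : ‖(1 / (G : ℂ))‖ = 1 / (G : ℝ) := by
    rw [norm_div, norm_one, Complex.norm_natCast]
  rw [e1]
  refine mul_le_mul_of_nonneg_left ?_ (by positivity)
  refine (norm_sum_le _ _).trans (sum_le_sum fun j _ => ?_)
  rw [norm_mul, norm_mul, norm_mul, chi_norm, mul_one, Complex.norm_real, Real.norm_eq_abs,
    abs_of_nonneg (by positivity)]
  have h1 : ‖ω j‖ * ‖ω' j‖ ≤ 1 * 1 := mul_le_mul (h j) (h' j) (norm_nonneg _) (by norm_num)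
  calc ‖ω j‖ * ‖ω' j‖ * ‖tr G X v j‖ ^ 2 ≤ 1 * 1 * ‖tr G X v j‖ ^ 2 :=
        mul_le_mul_of_nonneg_right h1 (by positivity)
    _ = ‖tr G X v j‖ ^ 2 := by ring

theorem con_alg (X L s : ℝ) (A CV : ℕ) (hL : 32 ≤ L) (hX : 0 < X)
    (hs : L ^ (2 * A + CV + 10) ≤ s)
    (h : (s * (X / L ^ (A + 1))) ^ 2 ≤ X * L ^ CV * (s * (X * L ^ 5) +
      s ^ 2 * (3 * (X / L ^ (2 * A + CV + 6))) +
      L ^ 3 * (s ^ 2 / L ^ (2 * A + CV + 16) * (6 * X * L ^ 6)))) : False := by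
  have hL0 : 0 < L := by linarith
  have hs0 : 0 < s := lt_of_lt_of_le (by positivity) hs
  obtain ⟨Z, hZ⟩ : ∃ Z : ℝ, Z = s ^ 2 * X ^ 2 / L ^ (2 * A + 2) := ⟨_, rfl⟩
  have hZ0 : 0 < Z := by
    rw [hZ]
    positivity
  have e0 : (s * (X / L ^ (A + 1))) ^ 2 = Z := by
    rw [hZ, mul_pow, _root_.div_pow, ← pow_mul]
    rw [show (A + 1) * 2 = 2 * A + 2 by ring]
    ring
  have e1 : X * L ^ CV * (s * (X * L ^ 5)) ≤ Z / L ^ 3 := by
    have h1 : X * L ^ CV * (s * (X * L ^ 5)) * L ^ (2 * A + 5) =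
        X ^ 2 * s * L ^ (2 * A + CV + 10) := by
      rw [show 2 * A + CV + 10 = CV + 5 + (2 * A + 5) by ring, pow_add, pow_add]
      ring
    have h2 : X ^ 2 * s * L ^ (2 * A + CV + 10) ≤ X ^ 2 * s * s :=
      mul_le_mul_of_nonneg_left hs (by positivity)
    have h3 : Z / L ^ 3 = X ^ 2 * s * s / L ^ (2 * A + 5) := by
      rw [hZ, show 2 * A + 5 = 2 * A + 2 + 3 by ring, pow_add L (2 * A + 2) 3]
      field_simp
    rw [h3, le_div_iff₀ (by positivity), h1]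
    exact h2
  have e2 : X * L ^ CV * (s ^ 2 * (3 * (X / L ^ (2 * A + CV + 6)))) = 3 * Z / L ^ 4 := by
    rw [hZ, show 2 * A + CV + 6 = 2 * A + 2 + 4 + CV by ring, pow_add L (2 * A + 2 + 4) CV,
      pow_add L (2 * A + 2) 4]
    field_simp
  have e3 : X * L ^ CV * (L ^ 3 * (s ^ 2 / L ^ (2 * A + CV + 16) * (6 * X * L ^ 6))) =
      6 * Z / L ^ 5 := by
    rw [hZ, show 2 * A + CV + 16 = 2 * A + 2 + CV + 14 by ring, pow_add L (2 * A + 2 + CV) 14,
      pow_add L (2 * A + 2) CV]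
    field_simp
  rw [e0, mul_add, mul_add, e2, e3] at h
  have h5 : Z / L ^ 3 ≤ Z / 4 :=
    div_le_div_of_nonneg_left hZ0.le (by norm_num) (by nlinarith [pow_le_pow_left₀ (by norm_num) hL 3])
  have h6 : 3 * Z / L ^ 4 ≤ 3 * Z / 12 :=
    div_le_div_of_nonneg_left (by linarith) (by norm_num)
      (by nlinarith [pow_le_pow_left₀ (by norm_num) hL 4])
  have h7 : 6 * Z / L ^ 5 ≤ 6 * Z / 24 :=
    div_le_div_of_nonneg_left (by linarith) (by norm_num)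
      (by nlinarith [pow_le_pow_left₀ (by norm_num) hL 5])
  linarith

/-- the denominators and exponents -/
noncomputable def KK (X : ℕ) : Finset ℕ := range (Nat.log 2 X + 2)

theorem kk_card (X : ℕ) (hX : 1 ≤ X) (hL : 2 ≤ Real.log (X : ℝ)) :
    ((KK X).card : ℝ) ≤ 3 * Real.log (X : ℝ) := by
  unfold KK
  rw [card_range]
  have h1 : 2 ^ (Nat.log 2 X) ≤ X := Nat.pow_log_le_self 2 (by omega)
  have h2 : (2 : ℝ) ^ (Nat.log 2 X) ≤ X := by exact_mod_cast h1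
  have h3 := Real.log_le_log (by positivity) h2
  rw [Real.log_pow] at h3
  have h4 : (1 : ℝ) / 2 ≤ Real.log 2 := by
    have := Real.log_two_gt_d9
    linarith
  have h5 : ((Nat.log 2 X : ℕ) : ℝ) * (1 / 2) ≤ ((Nat.log 2 X : ℕ) : ℝ) * Real.log 2 :=
    mul_le_mul_of_nonneg_left h4 (Nat.cast_nonneg _)
  push_cast
  linarith

open Classical in
/-- the heavy pairs -/
noncomputable def HH (G : ℕ) [NeZero G] (th e : ℝ) (X K4 : ℕ) (u : ℕ → ℝ) : Finset (ℕ × ℕ) :=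
  (Icc 1 ⌊2 * P0I th e X⌋₊ ×ˢ KK X).filter (fun p : ℕ × ℕ => (p.1 : ℝ) * 2 ^ p.2 ≤ 2 * P0I th e X ∧
    (Real.log X) ^ K4 < (p.1 : ℝ) * 2 ^ p.2 ∧ (X : ℝ) ^ (1 - e) ≤ Mq G X u p.1 (2 ^ p.2))

open Classical in
/-- the major pairs -/
noncomputable def ZZ (X K4 : ℕ) : Finset (ℕ × ℕ) :=
  (Icc 1 ⌊(Real.log X) ^ K4⌋₊ ×ˢ KK X).filter
    (fun p : ℕ × ℕ => (p.1 : ℝ) * 2 ^ p.2 ≤ (Real.log X) ^ K4)

/-- a sum over pairs, grouped by the second component -/
theorem sum_pairs (A K : Finset ℕ) (c : ℕ × ℕ → Prop) [DecidablePred c] (f : ℕ × ℕ → ℝ) :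
    ∑ p ∈ (A ×ˢ K).filter c, f p = ∑ k ∈ K, ∑ q ∈ A.filter (fun q => c (q, k)), f (q, k) := by
  rw [sum_filter, sum_product_right]
  refine sum_congr rfl fun k _ => ?_
  rw [sum_filter]

theorem hh_sum (G : ℕ) [NeZero G] (th e : ℝ) (X K4 : ℕ) (u : ℕ → ℝ) (W : ℝ)
    (h : ∀ r : ℝ, 1 ≤ r → ∀ S : Finset ℕ,
      (∀ q ∈ S, 1 ≤ q ∧ (q : ℝ) * r ≤ 4 * P0I th e X ∧ (X : ℝ) ^ (1 - e) ≤ Mq G X u q r) →
      ∑ q ∈ S, Mq G X u q r ≤ 2 * W) :
    ∑ p ∈ HH G th e X K4 u, Mq G X u p.1 (2 ^ p.2) ≤ ((KK X).card : ℝ) * (2 * W) := by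
  classical
  unfold HH
  rw [sum_pairs _ _ _ (fun p : ℕ × ℕ => Mq G X u p.1 (2 ^ p.2))]
  rw [← nsmul_eq_mul]
  refine sum_le_card_nsmul _ _ _ fun k _ => ?_
  refine h (2 ^ k) (one_le_pow₀ (by norm_num)) _ fun q hq => ?_
  rw [mem_filter, mem_Icc] at hq
  obtain ⟨⟨h1, _⟩, h2, _, h3⟩ := hq
  refine ⟨h1, ?_, h3⟩
  have h4 : 0 ≤ P0I th e X := by
    unfold P0I
    positivity
  have h5 : (q : ℝ) * 2 ^ k ≤ 2 * P0I th e X := h2
  linarith

theorem zz_sum (G : ℕ) [NeZero G] (X K4 : ℕ) (hX1 : 1 ≤ X) (hL : 2 ≤ Real.log (X : ℝ))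
    (v u err : ℕ → ℝ) (hv : ∀ n ∈ Icc 1 X, v n = u n + err n)
    (hX : 2 * (Real.log X) ^ (3 * K4) < X) (Y E : ℝ) (hY : 0 ≤ Y) (hE : 0 ≤ E)
    (h1 : ∀ (q : ℕ) (r : ℝ), 1 ≤ q → 1 ≤ r → (q : ℝ) * r ≤ (Real.log X) ^ K4 → Mq G X v q r ≤ Y)
    (h2 : nm2 G (tr G X err) ≤ E) :
    ∑ p ∈ ZZ X K4, Mq G X u p.1 (2 ^ p.2) ≤
      3 * Real.log X * (2 * (Real.log X) ^ K4 * Y + 2 * E) := by
  classical
  unfold ZZ
  rw [sum_pairs _ _ _ (fun p : ℕ × ℕ => Mq G X u p.1 (2 ^ p.2))]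
  set L : ℝ := Real.log (X : ℝ) with hLd
  have hL0 : 0 < L := by linarith
  have hL1 : 1 ≤ L := by linarith
  have hLK : 1 ≤ L ^ K4 := one_le_pow₀ hL1
  have h3 : ∀ k ∈ KK X, ∑ q ∈ (Icc 1 ⌊L ^ K4⌋₊).filter
      (fun q => ((q, k) : ℕ × ℕ).1 * (2 : ℝ) ^ ((q, k) : ℕ × ℕ).2 ≤ L ^ K4),
      Mq G X u ((q, k) : ℕ × ℕ).1 (2 ^ ((q, k) : ℕ × ℕ).2) ≤ 2 * L ^ K4 * Y + 2 * E := by
    intro k _
    simp only
    obtain ⟨Z, hZ⟩ : ∃ Z : Finset ℕ, Z = (Icc 1 ⌊L ^ K4⌋₊).filter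
      (fun q : ℕ => (q : ℝ) * (2 : ℝ) ^ k ≤ L ^ K4) := ⟨_, rfl⟩
    rw [← hZ]
    have hk1 : (1 : ℝ) ≤ 2 ^ k := one_le_pow₀ (by norm_num)
    have hmem : ∀ q ∈ Z, 1 ≤ q ∧ (q : ℝ) * 2 ^ k ≤ L ^ K4 := by
      intro q hq
      rw [hZ, mem_filter, mem_Icc] at hq
      exact ⟨hq.1.1, hq.2⟩
    have h4 : ∑ q ∈ Z, Mq G X u q (2 ^ k) ≤
        2 * ∑ q ∈ Z, Mq G X v q (2 ^ k) + 2 * ∑ q ∈ Z, Mq G X err q (2 ^ k) := by
      rw [mul_sum, mul_sum, ← sum_add_distrib]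
      exact sum_le_sum fun q _ => mq_split' G X v u err hv q _
    have h5 : ∑ q ∈ Z, Mq G X err q (2 ^ k) ≤ E := by
      refine (mq_disj G X err Z (fun _ => (2 : ℝ) ^ k) ?_).trans h2
      intro q hq q' hq' hne
      obtain ⟨a1, a2⟩ := hmem q hq
      obtain ⟨b1, b2⟩ := hmem q' hq'
      refine dq_disj G X q q' hX1 a1 b1 hne _ _ ?_
      have hq1 : (1 : ℝ) ≤ q := by exact_mod_cast a1
      have hq1' : (1 : ℝ) ≤ q' := by exact_mod_cast b1
      have c1 : (Nat.lcm q q' : ℝ) ≤ (q : ℝ) * q' := by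
        exact_mod_cast Nat.le_of_dvd (Nat.mul_pos (by omega) (by omega)) (Nat.lcm_dvd_mul q q')
      have c2 : (q' : ℝ) ≤ L ^ K4 := le_trans (le_mul_of_one_le_right (by linarith) hk1) b2
      calc (Nat.lcm q q' : ℝ) * (2 ^ k + 2 ^ k) ≤ ((q : ℝ) * q') * (2 ^ k + 2 ^ k) :=
            mul_le_mul_of_nonneg_right c1 (by positivity)
        _ = 2 * (((q : ℝ) * 2 ^ k) * q') := by ring
        _ ≤ 2 * (L ^ K4 * L ^ K4) := by
            refine mul_le_mul_of_nonneg_left ?_ (by norm_num)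
            exact mul_le_mul a2 c2 (by positivity) (by positivity)
        _ ≤ 2 * L ^ (3 * K4) := by
            refine mul_le_mul_of_nonneg_left ?_ (by norm_num)
            rw [← pow_add]
            exact pow_le_pow_right₀ hL1 (by omega)
        _ < X := hX
    have h6 : ∑ q ∈ Z, Mq G X v q (2 ^ k) ≤ L ^ K4 * Y := by
      have h7 : ∑ q ∈ Z, Mq G X v q (2 ^ k) ≤ Z.card • Y :=
        sum_le_card_nsmul _ _ _ fun q hq => h1 q (2 ^ k) (hmem q hq).1 hk1 (hmem q hq).2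
      rw [nsmul_eq_mul] at h7
      refine h7.trans (mul_le_mul_of_nonneg_right ?_ hY)
      have h8 : Z.card ≤ ⌊L ^ K4⌋₊ := by
        rw [hZ]
        refine (card_filter_le _ _).trans ?_
        rw [Nat.card_Icc, Nat.add_sub_cancel]
      calc (Z.card : ℝ) ≤ (⌊L ^ K4⌋₊ : ℝ) := by exact_mod_cast h8
        _ ≤ L ^ K4 := Nat.floor_le (by positivity)
    calc ∑ q ∈ Z, Mq G X u q (2 ^ k) ≤ 2 * (L ^ K4 * Y) + 2 * E := by linarith
      _ = 2 * L ^ K4 * Y + 2 * E := by ring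
  refine (sum_le_card_nsmul _ _ _ h3).trans ?_
  rw [nsmul_eq_mul]
  exact mul_le_mul_of_nonneg_right (kk_card X hX1 hL) (by positivity)

/-- the sum over `RS`: light, major and heavy pairs -/
theorem rs_sum (G : ℕ) [NeZero G] (th e : ℝ) (X K3 K4 Λ Λ' n n' : ℕ) (u : ℕ → ℝ) (hne : n ≠ n')
    (hQ : ∀ q ∈ QQi th e X Λ, 1 ≤ q) :
    ∑ p ∈ RS th e X K3 Λ Λ' n n', Mq G X u p.1 (2 ^ p.2) ≤
      ((QQi th e X Λ).card : ℝ) * (KK X).card * (X : ℝ) ^ (1 - e) +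
      ∑ p ∈ ZZ X K4, Mq G X u p.1 (2 ^ p.2) +
      ∑ p ∈ HH G th e X K4 u, open Classical in
        (if n' ≠ n ∧ Rel X K3 p.1 p.2 n n' then Mq G X u p.1 (2 ^ p.2) else 0) := by
  classical
  obtain ⟨R, hR⟩ : ∃ R : Finset (ℕ × ℕ), R = RS th e X K3 Λ Λ' n n' := ⟨_, rfl⟩
  obtain ⟨f, hf⟩ : ∃ f : ℕ × ℕ → ℝ, f = fun p => Mq G X u p.1 (2 ^ p.2) := ⟨_, rfl⟩
  have hf0 : ∀ p, 0 ≤ f p := by
    intro p
    rw [hf]
    exact mq_nonneg G X u _ _
  have hmem : ∀ p ∈ R, p.1 ∈ QQi th e X Λ ∧ p.2 ∈ KK X ∧ (p.1 : ℝ) * 2 ^ p.2 ≤ 2 * P0I th e X ∧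
      Rel X K3 p.1 p.2 n n' := by
    intro p hp
    rw [hR] at hp
    unfold RS at hp
    rw [mem_filter, mem_product, mem_inter] at hp
    exact ⟨hp.1.1.1, hp.1.2, hp.2.1, hp.2.2⟩
  rw [← hR]
  have hfe : ∀ p : ℕ × ℕ, Mq G X u p.1 (2 ^ p.2) = f p := fun p => by rw [hf]
  simp only [hfe]
  rw [← sum_filter_add_sum_filter_not R (fun p => f p < (X : ℝ) ^ (1 - e))]
  rw [← sum_filter_add_sum_filter_not (R.filter (fun p => ¬ f p < (X : ℝ) ^ (1 - e)))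
    (fun p : ℕ × ℕ => (p.1 : ℝ) * 2 ^ p.2 ≤ (Real.log X) ^ K4)]
  rw [← add_assoc]
  refine add_le_add (add_le_add ?_ ?_) ?_
  · -- light
    have h1 : ∑ p ∈ R.filter (fun p => f p < (X : ℝ) ^ (1 - e)), f p ≤
        (R.filter (fun p => f p < (X : ℝ) ^ (1 - e))).card • (X : ℝ) ^ (1 - e) :=
      sum_le_card_nsmul _ _ _ fun p hp => (mem_filter.1 hp).2.le
    refine h1.trans ?_
    rw [nsmul_eq_mul]
    refine mul_le_mul_of_nonneg_right ?_ (by positivity)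
    have h2 : R.filter (fun p => f p < (X : ℝ) ^ (1 - e)) ⊆ QQi th e X Λ ×ˢ KK X := by
      intro p hp
      obtain ⟨a1, a2, _⟩ := hmem p (mem_filter.1 hp).1
      exact mem_product.2 ⟨a1, a2⟩
    have h3 := card_le_card h2
    rw [card_product] at h3
    exact_mod_cast h3
  · -- major
    refine sum_le_sum_of_subset_of_nonneg ?_ fun p _ _ => hf0 p
    intro p hp
    rw [mem_filter, mem_filter] at hp
    obtain ⟨a1, a2, a3, a4⟩ := hmem p hp.1.1
    unfold ZZ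
    rw [mem_filter, mem_product, mem_Icc]
    have h1 := hQ p.1 a1
    refine ⟨⟨⟨h1, ?_⟩, a2⟩, hp.2⟩
    apply Nat.le_floor
    refine le_trans ?_ hp.2
    exact le_mul_of_one_le_right (Nat.cast_nonneg _) (one_le_pow₀ (by norm_num))
  · -- heavy
    have h1 : ∀ p ∈ (R.filter (fun p => ¬ f p < (X : ℝ) ^ (1 - e))).filter
        (fun p : ℕ × ℕ => ¬ (p.1 : ℝ) * 2 ^ p.2 ≤ (Real.log X) ^ K4),
        f p = (if n' ≠ n ∧ Rel X K3 p.1 p.2 n n' then f p else 0) := by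
      intro p hp
      rw [mem_filter, mem_filter] at hp
      obtain ⟨a1, a2, a3, a4⟩ := hmem p hp.1.1
      rw [if_pos ⟨hne.symm, a4⟩]
    rw [sum_congr rfl h1]
    refine sum_le_sum_of_subset_of_nonneg ?_ fun p _ _ => ?_
    · intro p hp
      rw [mem_filter, mem_filter] at hp
      obtain ⟨a1, a2, a3, a4⟩ := hmem p hp.1.1
      unfold HH
      rw [mem_filter, mem_product, mem_Icc]
      have h2 := hQ p.1 a1
      refine ⟨⟨⟨h2, ?_⟩, a2⟩, a3, not_le.1 hp.2, ?_⟩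
      · apply Nat.le_floor
        refine le_trans ?_ a3
        exact le_mul_of_one_le_right (Nat.cast_nonneg _) (one_le_pow₀ (by norm_num))
      · have h3 := not_lt.1 hp.1.2
        rw [hf] at h3
        exact h3
    · split_ifs
      · exact hf0 p
      · exact le_rfl

theorem wSI_le' (G : ℕ) (th e : ℝ) (X Λ : ℕ) (bb : ℝ) (j : ZMod G) :
    ‖1 - wSI G th e X Λ bb j‖ ≤ 1 := by
  unfold wSI
  split_ifs <;> simp

theorem wSI_le (G : ℕ) (th e : ℝ) (X Λ : ℕ) (bb : ℝ) (j : ZMod G) :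
    ‖wSI G th e X Λ bb j‖ ≤ 1 := by
  unfold wSI
  split_ifs <;> simp

theorem con_p (hpair : PairP) (hhv : HvP) : ConP := by
  classical
  intro A CV
  obtain ⟨A2, hA2⟩ : ∃ A2 : ℕ, A2 = 2 * A + CV + 6 := ⟨_, rfl⟩
  obtain ⟨Bp, A', hp⟩ := hpair A2
  obtain ⟨Bs, hs⟩ := strWJ (A' + 2 * A2 + 20)
  refine ⟨max Bp Bs, fun K0 C1 C2 => ?_⟩
  obtain ⟨K3, hp⟩ := hp K0 C1 C2
  obtain ⟨Cs, hs⟩ := hs K0 C1 C2
  obtain ⟨A5, hA5⟩ : ∃ A5 : ℕ, A5 = 2 * A + CV + 16 := ⟨_, rfl⟩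
  refine ⟨A5 + K3 + 1, fun K th e τ hA ww gg hW hD hM => ?_⟩
  have hDp := decJ_mono (le_max_left Bp Bs) hD
  have hDs := decJ_mono (le_max_right Bp Bs) hD
  obtain ⟨K4, hK4⟩ : ∃ K4 : ℕ, K4 = 2 * K3 + K + 1 := ⟨_, rfl⟩
  obtain ⟨A3, hA3⟩ : ∃ A3 : ℕ, A3 = A2 + K4 + 10 := ⟨_, rfl⟩
  obtain ⟨D1, hmaj⟩ := mq_major K0 C1 ww gg hW hM A3 K4
  refine ⟨max D1 1, fun D' hD' => ?_⟩
  have hD1 : D1 ≤ D' := (le_max_left _ _).trans hD'
  have hD2 : 1 ≤ D' := (le_max_right _ _).trans hD'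
  obtain ⟨X1, h1⟩ := hmaj D' hD1
  obtain ⟨X2, h2⟩ := hp th e τ hA ww gg hW hDp D' Cs hD2
  obtain ⟨X3, h3⟩ := hs th e τ hA ww gg hW hDs D' hD2
  obtain ⟨X4, h4⟩ := tree_l_all (A + 1) Cs CV th e τ hA
  obtain ⟨X5, h5⟩ := hhv Cs th e τ hA
  obtain ⟨X6, h6⟩ := cf_sq K0 C1 ww gg hW D'
  obtain ⟨X7, h7⟩ := qq_factsJ th e τ hA
  obtain ⟨X8, h8⟩ := con_num th e τ hA (A2 + 3 * K4 + 2 * K + 20)
  refine ⟨max (max (max X1 X2) (max X3 X4)) (max (max X5 X6) (max X7 X8)),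
    fun X hX G hG0 hG U hU S hS hSc hbig => ?_⟩
  have g1 : X1 ≤ X := by omega
  have g2 : X2 ≤ X := by omega
  have g3 : X3 ≤ X := by omega
  have g4 : X4 ≤ X := by omega
  have g5 : X5 ≤ X := by omega
  have g6 : X6 ≤ X := by omega
  have g7 : X7 ≤ X := by omega
  have g8 : X8 ≤ X := by omega
  obtain ⟨n1, n2, n3, n4⟩ := h8 X g8
  obtain ⟨u, err, hu, hue, herr⟩ := h3 X g3 (-1) (by norm_num)
  obtain ⟨a1, a2, a3, a4, a5⟩ := id hA
  set L : ℝ := Real.log (X : ℝ) with hLd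
  obtain ⟨P, hP⟩ : ∃ P : ℝ, P = (X : ℝ) ^ (1 - th + 3 / 2 * e) := ⟨_, rfl⟩
  have hPI : P0I th e X = P := by rw [hP]; rfl
  rw [← hP] at n3
  have hX1 : 1 ≤ X := by omega
  have hXr : (1 : ℝ) ≤ X := by exact_mod_cast hX1
  have hX0 : (0 : ℝ) < X := by linarith
  have hL0 : 0 < L := by linarith
  have hL1 : 1 ≤ L := by linarith
  have hP0 : 0 < P := by rw [hP]; positivity
  -- powers of `L`
  have hpow : ∀ (m : ℕ) (s : ℝ), m ≤ A2 + 3 * K4 + 2 * K + 20 → e / 100 ≤ s →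
      L ^ m ≤ (X : ℝ) ^ s := by
    intro m s hm hs
    exact ((pow_le_pow_right₀ hL1 hm).trans n4).trans (Real.rpow_le_rpow_of_exponent_le hXr hs)
  obtain ⟨v, hv⟩ : ∃ v : ℕ → ℝ, v = cfI ww gg (-1) (wX D' X) X := ⟨_, rfl⟩
  have hvue : ∀ n ∈ Icc 1 X, v n = u n + err n := by
    rw [hv]
    exact hue
  have hXG : X < G := by
    have q1 : X < X ^ 10 := by
      calc X = X ^ 1 := (pow_one X).symm
        _ < X ^ 10 := Nat.pow_lt_pow_right (by omega) (by norm_num)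
    omega
  have hG5 : X ^ 5 ≤ G := (Nat.pow_le_pow_right (by omega) (by norm_num)).trans hG
  obtain ⟨E, hEd⟩ : ∃ E : ℝ, E = X / L ^ (A' + 2 * A2 + 20) := ⟨_, rfl⟩
  have hE : nm2 G (tr G X err) ≤ E := by
    unfold nm2
    rw [parseval G X hXG, hEd]
    exact herr
  have hE0 : 0 ≤ E := by
    rw [hEd]
    positivity
  have hEX : E ≤ X := by
    rw [hEd]
    exact div_le_self hX0.le (one_le_pow₀ hL1)
  have hV : nm2 G (tr G X v) ≤ X * L ^ 4 := by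
    unfold nm2
    rw [parseval G X hXG, hv]
    exact h6 X g6 (-1) (by norm_num)
  have hUu : nm2 G (tr G X u) ≤ X * L ^ 5 := by
    have q1 := nm2_split G X v u err hvue
    have q2 : X ≤ X * L ^ 4 := le_mul_of_one_le_right hX0.le (one_le_pow₀ hL1)
    have q3 : 4 * (X * L ^ 4) ≤ L * (X * L ^ 4) :=
      mul_le_mul_of_nonneg_right (by linarith) (by positivity)
    have q4 : X * L ^ 5 = L * (X * L ^ 4) := by ring
    rw [q4]
    linarith
  -- the good part of `S`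
  obtain ⟨S', hS'⟩ : ∃ S' : Finset ℕ, S' = S.filter (fun n => ∃ (Λ : ℕ) (bb : ℝ), 1 ≤ Λ ∧ 1 ≤ bb ∧
    (Λ : ℝ) * bb ≤ 2 * (X : ℝ) ^ (1 - th + e) ∧
    ‖PhU G X U u (wSI G th e X Λ bb) n‖ ≤ X / L ^ (A + 1)) := ⟨_, rfl⟩
  have hS'S : S' ⊆ S := by
    rw [hS']
    exact filter_subset _ _
  have hbad : ((S \ S').card : ℝ) ≤ (X : ℝ) ^ (th - e / 4) := by
    refine h4 X g4 G hG5 U hU u hu (S \ S') (sdiff_subset.trans hS) ?_
    intro n hn Λ bb q1 q2 q3
    rw [mem_sdiff, hS', mem_filter] at hn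
    by_contra hcon
    exact hn.2 ⟨hn.1, Λ, bb, q1, q2, q3, not_lt.1 hcon⟩
  have hhalf : (S.card : ℝ) ≤ 2 * S'.card := by
    have q1 : (S.card : ℝ) = (S \ S').card + S'.card := by
      exact_mod_cast (card_sdiff_add_card_eq_card hS'S).symm
    have q2 : 2 * (X : ℝ) ^ (th - e / 4) ≤ (X : ℝ) ^ (th - e / 5) := by
      calc 2 * (X : ℝ) ^ (th - e / 4) ≤ (X : ℝ) ^ (e / 20) * (X : ℝ) ^ (th - e / 4) := by
            refine mul_le_mul_of_nonneg_right ?_ (by positivity)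
            have := hpow 1 (e / 20) (by omega) (by linarith)
            rw [pow_one] at this
            linarith
        _ = (X : ℝ) ^ (th - e / 5) := by
            rw [← Real.rpow_add hX0]
            congr 1
            ring
    linarith
  choose! Lam bbf hLb using (fun n (hn : n ∈ S') => by
    rw [hS', mem_filter] at hn
    exact hn.2 : ∀ n ∈ S', ∃ (Λ : ℕ) (bb : ℝ), 1 ≤ Λ ∧ 1 ≤ bb ∧
      (Λ : ℝ) * bb ≤ 2 * (X : ℝ) ^ (1 - th + e) ∧
      ‖PhU G X U u (wSI G th e X Λ bb) n‖ ≤ X / L ^ (A + 1))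
  -- the lower bound for the structured part
  obtain ⟨ω, hω⟩ : ∃ ω : ℕ → ZMod G → ℂ, ω = fun n j => 1 - wSI G th e X (Lam n) (bbf n) j :=
    ⟨_, rfl⟩
  have hω1 : ∀ n j, ‖ω n j‖ ≤ 1 := by
    intro n j
    rw [hω]
    exact wSI_le' G th e X _ _ j
  have hω2 : ∀ n ∈ S', ∀ j, (starRingEnd ℂ) (ω n j) = ω n j := by
    intro n _ j
    rw [hω]
    show (starRingEnd ℂ) (1 - wSI G th e X (Lam n) (bbf n) j) = 1 - wSI G th e X (Lam n) (bbf n) j
    unfold wSI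
    split_ifs <;> simp
  have herrU : ∀ n, ‖PhU G X U err (fun _ => 1) n‖ ≤ X / L ^ (A + 1) := by
    intro n
    have q1 := phU_cauchy G X U err (fun _ => 1) (fun _ => by simp) n
    have q2 : nm2 G U * nm2 G (tr G X err) ≤ (X / L ^ (A + 1)) ^ 2 := by
      have q3 : 0 ≤ nm2 G (tr G X err) := by
        unfold nm2
        positivity
      calc nm2 G U * nm2 G (tr G X err) ≤ (X * L ^ CV) * E :=
            mul_le_mul hU.1 hE q3 (by positivity)
        _ ≤ (X * L ^ CV) * (X / L ^ (2 * A + CV + 2)) := by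
            refine mul_le_mul_of_nonneg_left ?_ (by positivity)
            rw [hEd]
            exact div_le_div_of_nonneg_left hX0.le (by positivity)
              (pow_le_pow_right₀ hL1 (by omega))
        _ = (X / L ^ (A + 1)) ^ 2 := by
            rw [_root_.div_pow, ← pow_mul, show 2 * A + CV + 2 = CV + (A + 1) * 2 by ring,
              pow_add L CV]
            field_simp
    exact (sq_le_sq₀ (norm_nonneg _) (by positivity)).1 (q1.trans q2)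
  have hlow : ∀ n ∈ S', X / L ^ (A + 1) ≤ ‖PhU G X U u (ω n) n‖ := by
    intro n hn
    obtain ⟨q1, q2, q3, q4⟩ := hLb n hn
    have q5 := hbig n (hS'S hn)
    rw [← hv] at q5
    have q6 := phU_add G X n U v u err (fun _ => 1) hvue
    have q7 := phU_one G th e X (Lam n) n (bbf n) U u
    have q8 : PhU G X U u (fun j => 1 - wSI G th e X (Lam n) (bbf n) j) n =
        PhU G X U u (ω n) n := by rw [hω]
    rw [q8] at q7
    have q9 : ‖PhU G X U v (fun _ => 1) n‖ ≤ ‖PhU G X U u (ω n) n‖ + X / L ^ (A + 1) +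
        X / L ^ (A + 1) := by
      rw [q6, q7]
      refine (norm_add_le _ _).trans (add_le_add ((norm_add_le _ _).trans ?_) (herrU n))
      linarith
    have q10 : (X : ℝ) / L ^ A = L * (X / L ^ (A + 1)) := by
      rw [pow_succ]
      field_simp
    have q11 : 3 * (X / L ^ (A + 1)) ≤ L * (X / L ^ (A + 1)) :=
      mul_le_mul_of_nonneg_right (by linarith) (by positivity)
    linarith
  have hdual := dual G X U u S' ω hω2 (X / L ^ (A + 1)) (by positivity) hlow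
  -- the pairs
  obtain ⟨f, hf⟩ : ∃ f : ℕ × ℕ → ℝ, f = fun p => Mq G X u p.1 (2 ^ p.2) := ⟨_, rfl⟩
  have hf0 : ∀ p, 0 ≤ f p := by
    intro p
    rw [hf]
    exact mq_nonneg G X u _ _
  obtain ⟨H, hH⟩ : ∃ H : Finset (ℕ × ℕ), H = HH G th e X K4 u := ⟨_, rfl⟩
  have hHs : ∑ p ∈ H, f p ≤ 6 * X * L ^ 6 := by
    have q1 := hh_sum G th e X K4 u (X * L ^ 5) (fun r hr S hS => by
      refine h5 X g5 G hG u hu (X * L ^ 5) ?_ ?_ hUu r hr S hS
      · exact le_mul_of_one_le_right hX0.le (one_le_pow₀ hL1)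
      · calc X * L ^ 5 ≤ X * (X : ℝ) ^ (e / 2) := by
              refine mul_le_mul_of_nonneg_left ?_ hX0.le
              exact hpow 5 (e / 2) (by omega) (by linarith)
          _ = (X : ℝ) ^ (1 + e / 2) := by
              rw [Real.rpow_add hX0, Real.rpow_one])
    rw [← hH] at q1
    have q2 := kk_card X hX1 (by linarith : 2 ≤ L)
    calc ∑ p ∈ H, f p ≤ ((KK X).card : ℝ) * (2 * (X * L ^ 5)) := by
          rw [hf]
          exact q1
      _ ≤ (3 * L) * (2 * (X * L ^ 5)) := mul_le_mul_of_nonneg_right q2 (by positivity)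
      _ = 6 * X * L ^ 6 := by ring
  have hZs : ∑ p ∈ ZZ X K4, f p ≤ X / L ^ (A2 + 3) := by
    have q1 := zz_sum G X K4 hX1 (by linarith : 2 ≤ L) v u err hvue (by
      calc 2 * L ^ (3 * K4) ≤ L * L ^ (3 * K4) :=
            mul_le_mul_of_nonneg_right (by linarith) (by positivity)
        _ = L ^ (3 * K4 + 1) := by ring
        _ ≤ (X : ℝ) ^ (1 / 2 : ℝ) := hpow _ _ (by omega) (by linarith)
        _ < (X : ℝ) ^ (1 : ℝ) := by
            apply Real.rpow_lt_rpow_of_exponent_lt _ (by norm_num)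
            have : (32 : ℝ) ≤ X := by exact_mod_cast n1
            linarith
        _ = X := Real.rpow_one _) (4 * (X / L ^ A3)) E (by positivity) hE0 (by
      rw [hv]
      exact h1 X g1 G hG) hE
    have q2 : ∑ p ∈ ZZ X K4, f p ≤ 3 * L * (2 * L ^ K4 * (4 * (X / L ^ A3)) + 2 * E) := by
      rw [hf]
      exact q1
    refine q2.trans ?_
    have q3 : 2 * L ^ K4 * (4 * (X / L ^ A3)) ≤ X / L ^ (A2 + 5) := by
      calc 2 * L ^ K4 * (4 * (X / L ^ A3)) = 8 * (X / L ^ (A2 + 10)) := by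
            rw [hA3, show A2 + K4 + 10 = K4 + (A2 + 10) by ring, pow_add L K4]
            field_simp
            ring
        _ ≤ L * (X / L ^ (A2 + 10)) := mul_le_mul_of_nonneg_right (by linarith) (by positivity)
        _ = X / L ^ (A2 + 9) := by
            rw [show A2 + 10 = A2 + 9 + 1 by ring, pow_succ L (A2 + 9)]
            field_simp
        _ ≤ X / L ^ (A2 + 5) := div_le_div_of_nonneg_left hX0.le (by positivity)
            (pow_le_pow_right₀ hL1 (by omega))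
    have q4 : 2 * E ≤ X / L ^ (A2 + 5) := by
      calc 2 * E ≤ L * E := mul_le_mul_of_nonneg_right (by linarith) hE0
        _ = X / L ^ (A' + 2 * A2 + 19) := by
            rw [hEd, show A' + 2 * A2 + 20 = A' + 2 * A2 + 19 + 1 by ring,
              pow_succ L (A' + 2 * A2 + 19)]
            field_simp
        _ ≤ X / L ^ (A2 + 5) := div_le_div_of_nonneg_left hX0.le (by positivity)
            (pow_le_pow_right₀ hL1 (by omega))
    calc 3 * L * (2 * L ^ K4 * (4 * (X / L ^ A3)) + 2 * E) ≤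
          3 * L * (X / L ^ (A2 + 5) + X / L ^ (A2 + 5)) :=
          mul_le_mul_of_nonneg_left (by linarith) (by positivity)
      _ = 6 * L * (X / L ^ (A2 + 5)) := by ring
      _ ≤ (L * L) * (X / L ^ (A2 + 5)) := by
          refine mul_le_mul_of_nonneg_right ?_ (by positivity)
          exact mul_le_mul_of_nonneg_right (by linarith) hL0.le
      _ = X / L ^ (A2 + 3) := by
          rw [show A2 + 5 = A2 + 3 + 2 by ring, pow_add L (A2 + 3) 2]
          field_simp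
  have hfe : ∀ p : ℕ × ℕ, Mq G X u p.1 (2 ^ p.2) = f p := fun p => by rw [hf]
  obtain ⟨R, hR⟩ : ∃ R : ℕ × ℕ → ℕ → ℕ → Prop, R = fun p n n' =>
    n' ≠ n ∧ Rel X K3 p.1 p.2 n n' := ⟨_, rfl⟩
  have hpairs : ∀ n ∈ S', ∀ n' ∈ S', ‖TT2 G X u (ω n) (ω n') n n'‖ ≤
      (if n = n' then X * L ^ 5 else 0) + 3 * (X / L ^ A2) +
        L ^ 3 * ∑ p ∈ H, (if R p n n' then f p else 0) := by
    intro n hn n' hn'
    have hs0 : 0 ≤ ∑ p ∈ H, (if R p n n' then f p else 0) := by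
      refine sum_nonneg fun p _ => ?_
      split_ifs
      · exact hf0 p
      · exact le_rfl
    have hs1 : 0 ≤ L ^ 3 * ∑ p ∈ H, (if R p n n' then f p else 0) := by positivity
    have hs2 : 0 ≤ X / L ^ A2 := by positivity
    by_cases hnn : n = n'
    · rw [if_pos hnn]
      have q1 := tt2_le G X u (ω n) (ω n') (hω1 n) (hω1 n') n n'
      linarith
    · rw [if_neg hnn]
      obtain ⟨b1, b2, b3, _⟩ := hLb n hn
      obtain ⟨c1, c2, c3, _⟩ := hLb n' hn'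
      have q1 := h2 X g2 G hG u err hu hue (herr.trans
        (div_le_div_of_nonneg_left hX0.le (by positivity) (pow_le_pow_right₀ hL1 (by omega))))
        n (hS (hS'S hn)) n' (hS (hS'S hn')) hnn (Lam n) (Lam n') (bbf n) (bbf n') b1 b2 b3 c1 c2 c3
      have q2 : ‖TT2 G X u (ω n) (ω n') n n'‖ ≤ X / L ^ A2 +
          L ^ 3 * ∑ p ∈ RS th e X K3 (Lam n) (Lam n') n n', Mq G X u p.1 (2 ^ p.2) := by
        rw [hω]
        exact q1
      obtain ⟨r1, _, r3, _⟩ := h7 X g7 (Lam n) (bbf n) b1 b2 b3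
      have q3 := rs_sum G th e X K3 K4 (Lam n) (Lam n') n n' u hnn (fun q hq => (r1 q hq).1)
      rw [← hH] at q3
      simp only [hfe] at q3 q2
      have q4 : ((QQi th e X (Lam n)).card : ℝ) * (KK X).card * (X : ℝ) ^ (1 - e) ≤
          X / L ^ (A2 + 3) := by
        have k1 := kk_card X hX1 (by linarith : 2 ≤ L)
        rw [le_div_iff₀ (by positivity)]
        calc ((QQi th e X (Lam n)).card : ℝ) * (KK X).card * (X : ℝ) ^ (1 - e) * L ^ (A2 + 3) ≤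
            (X : ℝ) ^ (e / 2) * (3 * L) * (X : ℝ) ^ (1 - e) * L ^ (A2 + 3) := by
              refine mul_le_mul_of_nonneg_right ?_ (by positivity)
              refine mul_le_mul_of_nonneg_right ?_ (by positivity)
              exact mul_le_mul r3 k1 (Nat.cast_nonneg _) (by positivity)
          _ ≤ (X : ℝ) ^ (e / 2) * (L * L) * (X : ℝ) ^ (1 - e) * L ^ (A2 + 3) := by
              refine mul_le_mul_of_nonneg_right ?_ (by positivity)
              refine mul_le_mul_of_nonneg_right ?_ (by positivity)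
              refine mul_le_mul_of_nonneg_left ?_ (by positivity)
              exact mul_le_mul_of_nonneg_right (by linarith) hL0.le
          _ = ((X : ℝ) ^ (e / 2) * (X : ℝ) ^ (1 - e)) * L ^ (A2 + 5) := by ring
          _ ≤ ((X : ℝ) ^ (e / 2) * (X : ℝ) ^ (1 - e)) * (X : ℝ) ^ (e / 2) :=
              mul_le_mul_of_nonneg_left (hpow _ _ (by omega) (by linarith)) (by positivity)
          _ = X := by
              rw [← Real.rpow_add hX0, ← Real.rpow_add hX0]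
              rw [show e / 2 + (1 - e) + e / 2 = 1 by ring, Real.rpow_one]
      have q5 : L ^ 3 * (X / L ^ (A2 + 3)) = X / L ^ A2 := by
        rw [pow_add]
        field_simp
      have q6 : ∑ p ∈ H, (if n' ≠ n ∧ Rel X K3 p.1 p.2 n n' then f p else 0) =
          ∑ p ∈ H, (if R p n n' then f p else 0) := by
        refine sum_congr rfl fun p _ => ?_
        simp only [hR]
      rw [q6] at q3
      have q7 : L ^ 3 * ∑ p ∈ RS th e X K3 (Lam n) (Lam n') n n', f p ≤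
          L ^ 3 * (X / L ^ (A2 + 3) + X / L ^ (A2 + 3) +
            ∑ p ∈ H, (if R p n n' then f p else 0)) :=
        mul_le_mul_of_nonneg_left (by linarith) (by positivity)
      rw [mul_add, mul_add, q5] at q7
      linarith
  -- the size of `S'`
  have hSbig : L ^ (2 * A + CV + 10) ≤ (S'.card : ℝ) := by
    have q1 : 2 * L ^ (2 * A + CV + 10) ≤ (X : ℝ) ^ (th - e / 5) := by
      calc 2 * L ^ (2 * A + CV + 10) ≤ L * L ^ (2 * A + CV + 10) :=
            mul_le_mul_of_nonneg_right (by linarith) (by positivity)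
        _ = L ^ (2 * A + CV + 11) := by ring
        _ ≤ (X : ℝ) ^ (th - e / 5) := hpow _ _ (by omega) (by linarith)
    linarith
  have hS0 : (0 : ℝ) < S'.card := lt_of_lt_of_le (by positivity) hSbig
  -- a pair with many relations
  have hex : ∃ p ∈ H, (S'.card : ℝ) ^ 2 / L ^ A5 <
      ∑ n ∈ S', ((S'.filter (R p n)).card : ℝ) := by
    by_contra hcon
    push Not at hcon
    have q1 : ∑ n ∈ S', ∑ n' ∈ S', ‖TT2 G X u (ω n) (ω n') n n'‖ ≤
        (S'.card : ℝ) * (X * L ^ 5) + (S'.card : ℝ) ^ 2 * (3 * (X / L ^ (2 * A + CV + 6))) +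
        L ^ 3 * ((S'.card : ℝ) ^ 2 / L ^ (2 * A + CV + 16) * (6 * X * L ^ 6)) := by
      have q2 : ∑ n ∈ S', ∑ n' ∈ S', ‖TT2 G X u (ω n) (ω n') n n'‖ ≤
          ∑ n ∈ S', ∑ n' ∈ S', ((if n = n' then X * L ^ 5 else 0) + 3 * (X / L ^ A2) +
            L ^ 3 * ∑ p ∈ H, (if R p n n' then f p else 0)) :=
        sum_le_sum fun n hn => sum_le_sum fun n' hn' => hpairs n hn n' hn'
      refine q2.trans ?_
      simp only [sum_add_distrib]
      refine add_le_add (add_le_add ?_ ?_) ?_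
      · have q3 : ∀ n ∈ S', ∑ n' ∈ S', (if n = n' then X * L ^ 5 else 0) = X * L ^ 5 := by
          intro n hn
          rw [sum_ite_eq, if_pos hn]
        rw [sum_congr rfl q3, sum_const, nsmul_eq_mul]
      · rw [sum_const, sum_const, nsmul_eq_mul, nsmul_eq_mul, hA2]
        exact le_of_eq (by ring)
      · have q3 : ∑ n ∈ S', ∑ n' ∈ S', L ^ 3 * ∑ p ∈ H, (if R p n n' then f p else 0) =
            L ^ 3 * ∑ p ∈ H, f p * ∑ n ∈ S', ((S'.filter (R p n)).card : ℝ) := by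
          simp only [← mul_sum]
          congr 1
          have q4 : ∀ n ∈ S', ∑ n' ∈ S', ∑ p ∈ H, (if R p n n' then f p else 0) =
              ∑ p ∈ H, f p * ((S'.filter (R p n)).card : ℝ) := by
            intro n _
            rw [sum_comm]
            refine sum_congr rfl fun p _ => ?_
            rw [← sum_filter, sum_const, nsmul_eq_mul, mul_comm]
          rw [sum_congr rfl q4, sum_comm]
          refine sum_congr rfl fun p _ => ?_
          rw [mul_sum]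
        rw [q3]
        refine mul_le_mul_of_nonneg_left ?_ (by positivity)
        calc ∑ p ∈ H, f p * ∑ n ∈ S', ((S'.filter (R p n)).card : ℝ) ≤
            ∑ p ∈ H, f p * ((S'.card : ℝ) ^ 2 / L ^ A5) :=
              sum_le_sum fun p hp => mul_le_mul_of_nonneg_left (hcon p hp) (hf0 p)
          _ = (S'.card : ℝ) ^ 2 / L ^ A5 * ∑ p ∈ H, f p := by
              rw [← sum_mul, mul_comm]
          _ ≤ (S'.card : ℝ) ^ 2 / L ^ A5 * (6 * X * L ^ 6) :=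
              mul_le_mul_of_nonneg_left hHs (div_nonneg (sq_nonneg _) (pow_nonneg hL0.le _))
          _ = (S'.card : ℝ) ^ 2 / L ^ (2 * A + CV + 16) * (6 * X * L ^ 6) := by rw [hA5]
    refine con_alg X L S'.card A CV n2 hX0 hSbig ?_
    refine hdual.trans ?_
    refine mul_le_mul hU.1 q1 ?_ (by positivity)
    exact sum_nonneg fun n _ => sum_nonneg fun n' _ => norm_nonneg _
  obtain ⟨p, hp, hRp⟩ := hex
  obtain ⟨n0, hn0, hN0⟩ := con_pig S' (R p) (L ^ A5) hRp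
  obtain ⟨q, hq⟩ : ∃ q : ℕ, q = p.1 := ⟨_, rfl⟩
  obtain ⟨k, hk⟩ : ∃ k : ℕ, k = p.2 := ⟨_, rfl⟩
  rw [hH] at hp
  unfold HH at hp
  rw [mem_filter, mem_product, mem_Icc, hPI, ← hq, ← hk] at hp
  obtain ⟨⟨⟨p1, _⟩, _⟩, p2, p3, _⟩ := hp
  rw [← hLd] at p3
  obtain ⟨d, M, d1, d2, d3, d4, d5⟩ := con_ap X K3 q k p1 hL1 S (S'.filter (R p n0)) n0
    ((filter_subset _ _).trans hS'S) (fun n hn => by
      have := (mem_filter.1 hn).2
      rw [hR, ← hq, ← hk] at this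
      exact this)
  rw [← hLd] at d3 d4 d5
  have hk0 : (0 : ℝ) < 2 ^ k := by positivity
  have hk1 : (1 : ℝ) ≤ 2 ^ k := one_le_pow₀ (by norm_num)
  have hq1 : (1 : ℝ) ≤ q := by exact_mod_cast p1
  have hdr : (1 : ℝ) ≤ d := by exact_mod_cast d1
  have hdq : (d : ℝ) ≤ q := by exact_mod_cast d2
  have hLK3 : 1 ≤ L ^ K3 := one_le_pow₀ hL1
  obtain ⟨Y, hY⟩ : ∃ Y : ℝ, Y = 4 * X * L ^ K3 / (2 ^ k * (d : ℝ)) := ⟨_, rfl⟩
  rw [← hY] at d4
  have hkd0 : 0 < 2 ^ k * (d : ℝ) := by positivity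
  have hY0 : 0 ≤ Y := by
    rw [hY]
    positivity
  have hMY : (M : ℝ) ≤ Y := by
    rw [d4]
    exact Nat.floor_le hY0
  have hYM : Y < (M : ℝ) + 1 := by
    rw [d4]
    exact Nat.lt_floor_add_one _
  have hPX : 2 * P ≤ (X : ℝ) ^ (1 - th + 3 * e) := by
    calc 2 * P ≤ (X : ℝ) ^ (3 / 2 * e) * P := by
          refine mul_le_mul_of_nonneg_right ?_ hP0.le
          have := hpow 1 (3 / 2 * e) (by omega) (by linarith)
          rw [pow_one] at this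
          linarith
      _ = (X : ℝ) ^ (1 - th + 3 * e) := by
          rw [hP, ← Real.rpow_add hX0]
          congr 1
          ring
  refine ⟨(n0 : ℤ) - (M : ℤ) * (d : ℤ), d, 2 * M + 1, d1, ?_, ?_, ?_, ?_⟩
  · -- `d ≤ X^(1-th+3e)`
    have q1 : (q : ℝ) ≤ q * 2 ^ k := le_mul_of_one_le_right (by linarith) hk1
    linarith
  · -- `X^(th-3e) ≤ T`
    have q1 : 2 * (X : ℝ) ^ (th - 3 * e) ≤ Y := by
      rw [hY, le_div_iff₀ hkd0]
      have q2 : 2 ^ k * (d : ℝ) ≤ 2 * P := by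
        calc 2 ^ k * (d : ℝ) ≤ 2 ^ k * (q : ℝ) := mul_le_mul_of_nonneg_left hdq hk0.le
          _ = (q : ℝ) * 2 ^ k := mul_comm _ _
          _ ≤ 2 * P := p2
      calc 2 * (X : ℝ) ^ (th - 3 * e) * (2 ^ k * (d : ℝ)) ≤
          2 * (X : ℝ) ^ (th - 3 * e) * (X : ℝ) ^ (1 - th + 3 * e) :=
            mul_le_mul_of_nonneg_left (q2.trans hPX) (by positivity)
        _ = 2 * X := by
            rw [mul_assoc, ← Real.rpow_add hX0, show th - 3 * e + (1 - th + 3 * e) = 1 by ring,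
              Real.rpow_one]
        _ ≤ 4 * X * 1 := by linarith
        _ ≤ 4 * X * L ^ K3 := mul_le_mul_of_nonneg_left hLK3 (by positivity)
    have q3 : (1 : ℝ) ≤ (X : ℝ) ^ (th - 3 * e) := Real.one_le_rpow hXr (by linarith)
    have q4 : (0 : ℝ) ≤ M := Nat.cast_nonneg M
    push_cast
    linarith
  · -- `T ≤ X / L^K`
    have q1 : L ^ K4 < L ^ K3 * (2 ^ k * (d : ℝ)) := by
      calc L ^ K4 < (q : ℝ) * 2 ^ k := p3
        _ ≤ (L ^ K3 * d) * 2 ^ k := mul_le_mul_of_nonneg_right d3 hk0.le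
        _ = L ^ K3 * (2 ^ k * (d : ℝ)) := by ring
    have q2 : Y ≤ 4 * (X / L ^ (K + 1)) := by
      rw [hY, div_le_iff₀ hkd0]
      have q3 : L ^ K4 = L ^ K3 * L ^ K3 * L ^ (K + 1) := by
        rw [hK4]
        ring
      rw [q3] at q1
      have q4 : L ^ K3 * L ^ (K + 1) ≤ 2 ^ k * (d : ℝ) := by
        refine le_of_mul_le_mul_left ?_ (by positivity : 0 < L ^ K3)
        rw [← mul_assoc]
        exact q1.le
      calc 4 * X * L ^ K3 = 4 * (X / L ^ (K + 1)) * (L ^ K3 * L ^ (K + 1)) := by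
            field_simp
        _ ≤ 4 * (X / L ^ (K + 1)) * (2 ^ k * (d : ℝ)) :=
            mul_le_mul_of_nonneg_left q4 (by positivity)
    have q5 : X / L ^ K = L * (X / L ^ (K + 1)) := by
      rw [pow_succ L K]
      field_simp
    have q6 : 1 ≤ X / L ^ (K + 1) := by
      rw [le_div_iff₀ (by positivity), one_mul]
      calc L ^ (K + 1) ≤ (X : ℝ) ^ (1 : ℝ) := hpow _ _ (by omega) (by linarith)
        _ = X := Real.rpow_one _
    have q7 : 32 * (X / L ^ (K + 1)) ≤ L * (X / L ^ (K + 1)) :=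
      mul_le_mul_of_nonneg_right n2 (by linarith)
    rw [q5]
    push_cast
    linarith
  · -- the number of elements
    obtain ⟨I, hI⟩ : ∃ I : Finset ℕ, I = inAP S ((n0 : ℤ) - (M : ℤ) * (d : ℤ)) d (2 * M + 1) :=
      ⟨_, rfl⟩
    rw [← hI] at d5 ⊢
    rw [div_lt_iff₀ (by positivity)] at hN0
    have hI0 : (0 : ℝ) ≤ I.card := Nat.cast_nonneg _
    calc (S.card : ℝ) ≤ 2 * S'.card := hhalf
      _ ≤ 2 * ((S'.filter (R p n0)).card * L ^ A5) := by linarith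
      _ ≤ 2 * ((L ^ K3 * I.card) * L ^ A5) := by
          refine mul_le_mul_of_nonneg_left ?_ (by norm_num)
          exact mul_le_mul_of_nonneg_right d5 (by positivity)
      _ ≤ L * ((L ^ K3 * I.card) * L ^ A5) :=
          mul_le_mul_of_nonneg_right (by linarith)
            (mul_nonneg (mul_nonneg (pow_nonneg hL0.le _) hI0) (pow_nonneg hL0.le _))
      _ = L ^ (A5 + K3 + 1) * I.card := by ring

end Pool.Agent.Lib.MP_e3f158_nt.TL
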