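import Pool.Agent.Lib.MP_dd84fd_nt.JX.FaDisc
import Pool.Agent.Lib.MP_dd84fd_nt.HX.GrFrac
import Pool.Agent.Lib.MP_e3f158_nt.TL.Defs

/-!
# TL-DqL (0.5 h): the sets `Dq`

`dq_disj`: `α = al G j`, `|α - a/q - z| ≤ r/X`, `|α - a'/q' - z'| ≤ r'/X` with `q ≠ q'` reduced:
`1/lcm(q, q') ≤ |a/q - a'/q' + z - z'|` (`fd_dist` of `JX/FaDisc.lean`, private, or `IX.fr_dist`)
`≤ (r + r')/X < 1/lcm`.  `din_dq`: for one `q` with `2 q r < X` at most one `a` (same argument, `fd_dist` with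
`q = q'`, `a ≠ a'`; `lcm(q, q) = q`).  `ws_dq`: `JX.disc_sumJ` and `din_dq` (`rdi ≥ 1`, `q rdi ≤ y3`,
`2 y3 < X`: `JX.qq_factsJ`).
-/

set_option autoImplicit false

namespace Pool.Agent.Lib.MP_e3f158_nt.TL

open Finset Pool.MP_67663b_nt.Odd Pool.MP_dd84fd_nt.En Pool.MP_dd84fd_nt.E2 Pool.MP_dd84fd_nt.LS
open Pool.MP_dd84fd_nt.L2G (nrm)
open Pool.MP_dd84fd_nt.GX Pool.MP_dd84fd_nt.HX Pool.MP_dd84fd_nt.IX
open Pool.MP_dd84fd_nt.PL (rr)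
open Pool.MP_dd84fd_nt.JX (Adm qq_factsJ disc_sumJ)

theorem dq_mono (G : ℕ) [NeZero G] (X q : ℕ) {r r' : ℝ} (h : r ≤ r') :
    Dq G X q r ⊆ Dq G X q r' := by
  classical
  intro j hj
  unfold Dq at hj ⊢
  rw [mem_filter] at hj ⊢
  obtain ⟨h1, a, ha, z, hz⟩ := hj
  exact ⟨h1, a, ha, z, hz.trans (div_le_div_of_nonneg_right h (Nat.cast_nonneg X))⟩

private theorem dq_mem {G : ℕ} [NeZero G] {X q : ℕ} {r : ℝ} {j : ZMod G} :
    j ∈ Dq G X q r ↔ ∃ a ∈ rr q, ∃ z : ℤ, |al G j - (a : ℝ) / q - z| ≤ r / X := by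
  classical
  unfold Dq
  rw [mem_filter]
  exact ⟨fun h => h.2, fun h => ⟨mem_univ _, h⟩⟩

/-- two discs which meet -/
private theorem dq_meet {X q q' a a' : ℕ} (hX : 1 ≤ X) (hq : 1 ≤ q) (hq' : 1 ≤ q') (ha : a ∈ rr q)
    (ha' : a' ∈ rr q') (hne : ¬ (q = q' ∧ a = a')) {α r r' : ℝ} {z z' : ℤ}
    (hz : |α - (a : ℝ) / q - z| ≤ r / X) (hz' : |α - (a' : ℝ) / q' - z'| ≤ r' / X) :
    (X : ℝ) ≤ (Nat.lcm q q' : ℝ) * (r + r') := by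
  have hX0 : (0 : ℝ) < X := by exact_mod_cast hX
  have hl : (0 : ℝ) < (Nat.lcm q q' : ℝ) := by
    exact_mod_cast Nat.lcm_pos (by omega) (by omega)
  have h1 := Pool.MP_dd84fd_nt.HX.fr_dist hq hq' ha ha' hne (z' - z)
  have h2 : (a : ℝ) / q - (a' : ℝ) / q' - ((z' - z : ℤ) : ℝ) =
      (α - (a' : ℝ) / q' - z') - (α - (a : ℝ) / q - z) := by
    push_cast
    ring
  rw [h2] at h1
  have h3 : 1 / (Nat.lcm q q' : ℝ) ≤ (r + r') / X := by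
    rw [add_div]
    have h4 := abs_sub (α - (a' : ℝ) / q' - z') (α - (a : ℝ) / q - z)
    linarith
  rw [div_le_div_iff₀ hl hX0, one_mul] at h3
  linarith

theorem dq_disj (G : ℕ) [NeZero G] (X q q' : ℕ) (hX : 1 ≤ X) (hq : 1 ≤ q) (hq' : 1 ≤ q')
    (hne : q ≠ q') (r r' : ℝ) (h : (Nat.lcm q q' : ℝ) * (r + r') < X) :
    Disjoint (Dq G X q r) (Dq G X q' r') := by
  rw [Finset.disjoint_left]
  intro j hj hj'
  obtain ⟨a, ha, z, hz⟩ := dq_mem.1 hj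
  obtain ⟨a', ha', z', hz'⟩ := dq_mem.1 hj'
  have := dq_meet hX hq hq' ha ha' (fun h => hne h.1) hz hz'
  linarith

theorem din_dq (G : ℕ) [NeZero G] (X q : ℕ) (hX : 1 ≤ X) (hq : 1 ≤ q) (r : ℝ)
    (h : 2 * (q : ℝ) * r < X) (j : ZMod G) :
    ∑ a ∈ rr q, din ((a : ℝ) / q) (r / X) (al G j) =
      open Classical in (if j ∈ Dq G X q r then (1 : ℂ) else 0) := by
  classical
  by_cases hj : j ∈ Dq G X q r
  · rw [if_pos hj]
    obtain ⟨a, ha, z, hz⟩ := dq_mem.1 hj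
    rw [Finset.sum_eq_single_of_mem a ha]
    · unfold din
      rw [if_pos ⟨z, hz⟩]
    · intro a' ha' hne
      unfold din
      rw [if_neg]
      rintro ⟨z', hz'⟩
      have h1 := dq_meet hX hq hq ha' ha (fun h => hne h.2) hz' hz
      rw [Nat.lcm_self] at h1
      linarith
  · rw [if_neg hj]
    refine Finset.sum_eq_zero fun a ha => ?_
    unfold din
    rw [if_neg]
    rintro ⟨z, hz⟩
    exact hj (dq_mem.2 ⟨a, ha, z, hz⟩)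

private theorem dq_small (th e τ : ℝ) (hA : Adm th e τ) (X : ℕ) (hX : 1025 ≤ X) :
    2 * y3 (dl th e) X < X := by
  have hX17 : (1025 : ℝ) ≤ X := by exact_mod_cast hX
  have hX0 : (0 : ℝ) < X := by linarith
  obtain ⟨a1, a2, a3, a4, a5⟩ := hA
  have h1 : 2 * (X : ℝ) ^ (9 / 10 : ℝ) < X := by
    have h2 : (2 : ℝ) < (X : ℝ) ^ (1 / 10 : ℝ) := by
      have h3 : ((1024 : ℝ)) ^ (1 / 10 : ℝ) < (X : ℝ) ^ (1 / 10 : ℝ) :=
        Real.rpow_lt_rpow (by norm_num) (by linarith) (by norm_num)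
      have h4 : ((1024 : ℝ)) ^ (1 / 10 : ℝ) = 2 := by
        rw [show (1024 : ℝ) = 2 ^ (10 : ℝ) by norm_num, ← Real.rpow_mul (by norm_num)]
        norm_num
      rwa [h4] at h3
    calc 2 * (X : ℝ) ^ (9 / 10 : ℝ) < (X : ℝ) ^ (1 / 10 : ℝ) * (X : ℝ) ^ (9 / 10 : ℝ) :=
          mul_lt_mul_of_pos_right h2 (Real.rpow_pos_of_pos hX0 _)
      _ = X := by
          rw [← Real.rpow_add hX0]
          norm_num
  rw [y3_dl]
  refine lt_of_le_of_lt ?_ h1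
  have : (X : ℝ) ^ (1 - th + 3 * e) ≤ (X : ℝ) ^ (9 / 10 : ℝ) :=
    Real.rpow_le_rpow_of_exponent_le (by linarith) (by linarith)
  linarith

theorem ws_dq (th e τ : ℝ) (hA : Adm th e τ) : ∃ X0 : ℕ, ∀ X : ℕ, X0 ≤ X →
    ∀ (Λ : ℕ) (bb : ℝ), 1 ≤ Λ → 1 ≤ bb → Λ * bb ≤ 2 * (X : ℝ) ^ (1 - th + e) →
    ∀ (G : ℕ) [NeZero G], ∀ j : ZMod G, 1 - wSI G th e X Λ bb j =
      ∑ q ∈ QQi th e X Λ, open Classical in
        (if j ∈ Dq G X q (rdi th e X Λ bb q) then (1 : ℂ) else 0) := by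
  obtain ⟨X1, hX1⟩ := disc_sumJ th e τ hA
  obtain ⟨X2, hX2⟩ := qq_factsJ th e τ hA
  refine ⟨max (max X1 X2) 1025, fun X hX Λ bb hΛ hb hΛb G _ j => ?_⟩
  have hXa : X1 ≤ X := ((le_max_left _ _).trans (le_max_left _ _)).trans hX
  have hXb : X2 ≤ X := ((le_max_right _ _).trans (le_max_left _ _)).trans hX
  have hXc : 1025 ≤ X := (le_max_right _ _).trans hX
  rw [hX1 X hXa Λ bb hΛ hb hΛb G j]
  obtain ⟨F1, -, -, -⟩ := hX2 X hXb Λ bb hΛ hb hΛb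
  have hs := dq_small th e τ hA X hXc
  refine Finset.sum_congr rfl fun q hq => ?_
  obtain ⟨q1, -, r2, -⟩ := F1 q hq
  exact din_dq G X q (by omega) q1 _ (by linarith) j

end Pool.Agent.Lib.MP_e3f158_nt.TL
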