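import Pool.Agent.Lib.MP_dd84fd_nt.JX.GVb
import Pool.Agent.Lib.MP_dd84fd_nt.JX.GVl
import Pool.Agent.Lib.MP_e3f158_nt.TL.DqL

/-!
# TL-OvB (0.5 h): blocks on the overlaps

As `JX.od_t2` (`JX/GVb.lean`) with `O = Dq q r ∩ Dq q' r'`, `δ = 4 P0I / X ≤ 1/4`: for `j ∈ O`,
`|q α - (a + z q)| ≤ q r/X ≤ δ`, so `round (q α) = a + z q`, coprime to `q` (compare `od_facts` in `JX/GOd.lean`), and
`(a + z q) q' = (a' + z' q') q` would give `q = q'`.  `M δ ≤ 4 yB P0I/X = 4 X^(-3e/2) ≤ 1`.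
`tr G X w j = ES X w (al G j) = Bf M K a c (al G j)` (`es_bl`, `bf_disc`; `LX.tr_cfI`/`tr_ee`).
Numerics must hold for all `th > 1/8` (`P0I ≤ X^(89/100)`).
-/

set_option autoImplicit false

namespace Pool.Agent.Lib.MP_e3f158_nt.TL

open Finset Pool.MP_67663b_nt.Odd Pool.MP_dd84fd_nt.En Pool.MP_dd84fd_nt.E2 Pool.MP_dd84fd_nt.LS
open Pool.MP_dd84fd_nt.L2G (nrm)
open Pool.MP_dd84fd_nt.GX Pool.MP_dd84fd_nt.HX Pool.MP_dd84fd_nt.IX
open Pool.MP_dd84fd_nt.PL (rr lt_tau)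
open Pool.MP_dd84fd_nt.JX (Adm ZJ vlemP Bf es_bl bf_disc)

private theorem ovb_log (K : ℕ) (A η : ℝ) (hη : 0 < η) : ∃ X0 : ℕ, ∀ X : ℕ, X0 ≤ X →
    A * (Real.log X) ^ K ≤ (X : ℝ) ^ η := by
  have h1 := (isLittleO_log_rpow_rpow_atTop (K : ℝ) hη).bound
    (show (0 : ℝ) < 1 / (|A| + 1) by positivity)
  obtain ⟨x0, hx0⟩ := Filter.eventually_atTop.1 h1
  refine ⟨max ⌈x0⌉₊ 1, fun X hX => ?_⟩
  have hX1 : 1 ≤ X := (le_max_right _ _).trans hX
  have hX2 : x0 ≤ X := (Nat.le_ceil x0).trans (by exact_mod_cast (le_max_left _ _).trans hX)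
  have h2 := hx0 X hX2
  have hL : 0 ≤ Real.log X := Real.log_natCast_nonneg X
  have hXp : (0 : ℝ) ≤ (X : ℝ) ^ η := Real.rpow_nonneg (Nat.cast_nonneg X) _
  rw [Real.rpow_natCast, Real.norm_eq_abs, Real.norm_eq_abs, abs_of_nonneg (pow_nonneg hL K),
    abs_of_nonneg hXp] at h2
  calc A * (Real.log X) ^ K ≤ |A| * (Real.log X) ^ K :=
        mul_le_mul_of_nonneg_right (le_abs_self A) (pow_nonneg hL K)
    _ ≤ |A| * (1 / (|A| + 1) * (X : ℝ) ^ η) := mul_le_mul_of_nonneg_left h2 (abs_nonneg A)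
    _ = (|A| / (|A| + 1)) * (X : ℝ) ^ η := by ring
    _ ≤ 1 * (X : ℝ) ^ η := by
        apply mul_le_mul_of_nonneg_right _ hXp
        rw [div_le_one (by positivity)]
        linarith
    _ = (X : ℝ) ^ η := one_mul _

private theorem ovb_big (T : ℝ) : ∃ X0 : ℕ, ∀ X : ℕ, X0 ≤ X → T ≤ Real.log X := by
  refine ⟨⌈Real.exp T⌉₊, fun X hX => ?_⟩
  have h1 : Real.exp T ≤ X := (Nat.le_ceil _).trans (by exact_mod_cast hX)
  rw [Real.le_log_iff_exp_le ((Real.exp_pos T).trans_le h1)]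
  exact h1

private theorem ovb_tau (e : ℝ) (he : 0 < e) : ∃ D : ℝ, 1 ≤ D ∧ ∀ h X : ℕ, 1 ≤ h → h ≤ X →
    (h.divisors.card : ℝ) ≤ D * (X : ℝ) ^ (e / 10) := by
  obtain ⟨k, hk⟩ := exists_nat_gt (10 / e)
  have hk0 : (0 : ℝ) < k := lt_trans (by positivity) hk
  obtain ⟨D, hD, h4⟩ := lt_tau k
  refine ⟨D, hD, fun h X hh hX => ?_⟩
  have hX' : (h : ℝ) ≤ X := by exact_mod_cast hX
  have hX1 : (1 : ℝ) ≤ X := by exact_mod_cast hh.trans hX
  have hτ0 : (0 : ℝ) ≤ (h.divisors.card : ℝ) := Nat.cast_nonneg _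
  have hke : 1 / (k : ℝ) ≤ e / 10 := by
    rw [div_le_div_iff₀ hk0 (by norm_num)]
    rw [div_lt_iff₀ he] at hk
    linarith
  calc (h.divisors.card : ℝ) = ((h.divisors.card : ℝ) ^ k) ^ (1 / (k : ℝ)) := by
        rw [← Real.rpow_natCast, ← Real.rpow_mul hτ0]
        rw [mul_one_div, div_self hk0.ne', Real.rpow_one]
    _ ≤ (D * X) ^ (1 / (k : ℝ)) :=
        Real.rpow_le_rpow (by positivity) ((h4 h hh).trans
          (mul_le_mul_of_nonneg_left hX' (by linarith))) (by positivity)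
    _ = D ^ (1 / (k : ℝ)) * (X : ℝ) ^ (1 / (k : ℝ)) :=
        Real.mul_rpow (by linarith) (by positivity)
    _ ≤ D ^ (1 : ℝ) * (X : ℝ) ^ (e / 10) := by
        refine mul_le_mul ?_ (Real.rpow_le_rpow_of_exponent_le hX1 hke) (by positivity)
          (by positivity)
        refine Real.rpow_le_rpow_of_exponent_le hD ?_
        rw [div_le_one hk0]
        have : (0 : ℕ) < k := by exact_mod_cast hk0
        exact_mod_cast this
    _ = D * (X : ℝ) ^ (e / 10) := by rw [Real.rpow_one]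

private theorem ovb_round {x : ℝ} {m : ℤ} (h : |x - m| < 1 / 2) : round x = m := by
  have h1 := abs_sub_round x
  have h2 : |((round x : ℤ) : ℝ) - m| < 1 := by
    have : ((round x : ℤ) : ℝ) - m = (x - m) - (x - round x) := by ring
    rw [this]
    calc |(x - m) - (x - round x)| ≤ |x - m| + |x - round x| := abs_sub _ _
      _ < 1 / 2 + 1 / 2 := by linarith
      _ = 1 := by norm_num
  have h3 : |round x - m| < 1 := by exact_mod_cast h2
  have h4 := Int.abs_lt_one_iff.mp h3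
  omega

/-- the points of `Dq` -/
private theorem ovb_dq (G : ℕ) [NeZero G] {X q : ℕ} {r δ : ℝ} (hX : 1 ≤ X) (hq : 1 ≤ q)
    (h1 : (q : ℝ) * r / X ≤ δ) (h3 : δ ≤ 1 / 4) {j : ZMod G} (hj : j ∈ Dq G X q r) :
    nrm ((q : ℝ) * al G j) ≤ δ ∧ Int.gcd (round ((q : ℝ) * al G j)) q = 1 := by
  classical
  unfold Dq at hj
  rw [mem_filter] at hj
  obtain ⟨-, a, ha, z, hja⟩ := hj
  have hX0 : (0 : ℝ) < X := by exact_mod_cast hX
  have hq0 : (0 : ℝ) < q := by exact_mod_cast hq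
  have e1 : |(q : ℝ) * al G j - (((a : ℤ) + z * q : ℤ) : ℝ)| ≤ δ := by
    have : (q : ℝ) * al G j - (((a : ℤ) + z * q : ℤ) : ℝ) = q * (al G j - (a : ℝ) / q - z) := by
      push_cast
      field_simp
      ring
    rw [this, abs_mul, abs_of_pos hq0]
    calc (q : ℝ) * |al G j - (a : ℝ) / q - z| ≤ q * (r / X) :=
          mul_le_mul_of_nonneg_left hja hq0.le
      _ = q * r / X := by ring
      _ ≤ δ := h1
  have r1 : round ((q : ℝ) * al G j) = (a : ℤ) + z * q :=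
    ovb_round (lt_of_le_of_lt e1 (by linarith))
  refine ⟨?_, ?_⟩
  · unfold nrm
    rw [r1]
    exact e1
  · rw [r1, Int.gcd_add_mul_right_left, Int.gcd_natCast_natCast]
    exact (mem_filter.mp ha).2

private theorem ovb_ne {q q' : ℕ} {b b' : ℤ} (hne : q ≠ q') (h : Int.gcd b q = 1)
    (h' : Int.gcd b' q' = 1) : b * (q' : ℤ) - b' * (q : ℤ) ≠ 0 := by
  intro h0
  have h1 : b * (q' : ℤ) = b' * q := by linarith
  have hd1 : (q : ℤ) ∣ q' := by
    have : (q : ℤ) ∣ b * q' := ⟨b', by rw [h1]; ring⟩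
    exact Int.dvd_of_dvd_mul_right_of_gcd_one this (by rw [Int.gcd_comm]; exact h)
  have hd2 : (q' : ℤ) ∣ q := by
    have : (q' : ℤ) ∣ b' * q := ⟨b, by rw [← h1]; ring⟩
    exact Int.dvd_of_dvd_mul_right_of_gcd_one this (by rw [Int.gcd_comm]; exact h')
  exact hne (Nat.dvd_antisymm (by exact_mod_cast hd1) (by exact_mod_cast hd2))

theorem ov_b (th e τ : ℝ) (hA : Adm th e τ) (C : ℕ) : ∃ X0 : ℕ, ∀ X : ℕ, X0 ≤ X →
    ∀ (G : ℕ) [NeZero G], X ^ 10 ≤ G → ∀ (M K : ℕ) (a c : ℕ → ℝ),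
    (∀ n, |a n| ≤ (Real.log X) ^ C ∧ |c n| ≤ (Real.log X) ^ C) →
    (X : ℝ) ^ τ / 2 ≤ M → (M : ℝ) ≤ yB th e X → K * M ≤ X →
    (∀ m, a m ≠ 0 → M < m ∧ m ≤ 2 * M ∧ m * K ≤ X) → ∀ (q q' : ℕ) (r r' : ℝ),
    q ≠ q' → 1 ≤ q → 1 ≤ q' → 1 ≤ r → 1 ≤ r' → (q : ℝ) * r ≤ 4 * P0I th e X →
    (q' : ℝ) * r' ≤ 4 * P0I th e X →
    Ov G X (fun n => ∑ m ∈ n.divisors, (if n / m ≤ K then a m * c (n / m) else 0)) q q' r r' ≤
      (X : ℝ) ^ (1 - 7 * e) := by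
  obtain ⟨hth1, hth2, he, hτ1, hτ2⟩ := hA
  obtain ⟨C0, X1, hC0, hV⟩ := vlemP
  obtain ⟨D, hD, htau⟩ := ovb_tau e he
  obtain ⟨X2, h2⟩ := ovb_big 1
  obtain ⟨X3, h3⟩ := ovb_log 0 16 (11 / 100) (by norm_num)
  obtain ⟨X4, h4⟩ := ovb_log 0 4 (3 / 2 * e) (by linarith)
  obtain ⟨X5, h5⟩ := ovb_log (4 * C + 1) (16 * C0) (992 * e) (by linarith)
  obtain ⟨X6, h6⟩ := ovb_log 0 D (9 / 10 * e) (by linarith)
  refine ⟨max (max (max X1 X2) (max X3 X4)) (max (max X5 X6) 1), ?_⟩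
  intro X hX G _ hG10 M K a c hac hM1 hM2 hKM hsupp q q' r r' hqq hq1 hq1' hr hr' hqr hqr'
  have hX1 : X1 ≤ X := le_trans (by simp) hX
  have hX2 : X2 ≤ X := le_trans (by simp) hX
  have hX3 : X3 ≤ X := le_trans (by simp) hX
  have hX4 : X4 ≤ X := le_trans (by simp) hX
  have hX5 : X5 ≤ X := le_trans (by simp) hX
  have hX6 : X6 ≤ X := le_trans (by simp) hX
  have hXone : 1 ≤ X := le_trans (by simp) hX
  have hG : X ^ 5 ≤ G := (Nat.pow_le_pow_right hXone (by norm_num)).trans hG10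
  have g2 := h2 X hX2
  have g3 := h3 X hX3
  have g4 := h4 X hX4
  have g5 := h5 X hX5
  have g6 := h6 X hX6
  rw [pow_zero, mul_one] at g3 g4 g6
  have hX0 : (0 : ℝ) < X := by exact_mod_cast hXone
  have hX1R : (1 : ℝ) ≤ X := by exact_mod_cast hXone
  have htr : ∀ j : ZMod G, tr G X (fun n => ∑ m ∈ n.divisors,
      (if n / m ≤ K then a m * c (n / m) else 0)) j = Bf M K a c (al G j) := by
    intro j
    rw [← es_bl X M K a c hsupp, tr_ee]
    rfl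
  unfold Ov
  simp only [htr]
  obtain ⟨L, hL⟩ : ∃ L : ℝ, L = Real.log X := ⟨_, rfl⟩
  rw [← hL] at g2 g5 hac
  rcases Nat.eq_zero_or_pos K with hK0 | hKpos
  · subst hK0
    have h0 : ∀ θ : ℝ, Bf M 0 a c θ = 0 := by
      intro θ
      unfold Bf
      simp
    simp only [h0, norm_zero]
    simp
    positivity
  have hP : P0I th e X ≤ (X : ℝ) ^ (89 / 100 : ℝ) := by
    unfold P0I
    refine Real.rpow_le_rpow_of_exponent_le hX1R ?_
    linarith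
  have hP0 : 0 ≤ P0I th e X := by
    unfold P0I
    positivity
  obtain ⟨δ, hδ⟩ : ∃ δ : ℝ, δ = 4 * P0I th e X / X := ⟨_, rfl⟩
  have hδ0 : 0 ≤ δ := by
    rw [hδ]
    positivity
  have hP16 : 16 * P0I th e X ≤ X := by
    calc 16 * P0I th e X ≤ (X : ℝ) ^ (11 / 100 : ℝ) * (X : ℝ) ^ (89 / 100 : ℝ) :=
          mul_le_mul g3 hP hP0 (by positivity)
      _ = X := by
          rw [← Real.rpow_add hX0]
          norm_num
  have hδ4 : δ ≤ 1 / 4 := by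
    rw [hδ, div_le_iff₀ hX0]
    linarith
  have hMpos : 1 ≤ M := by
    have h : (0 : ℝ) < M := lt_of_lt_of_le (by positivity) hM1
    exact_mod_cast h
  have hMδ : (M : ℝ) * δ ≤ 1 := by
    calc (M : ℝ) * δ ≤ yB th e X * δ := mul_le_mul_of_nonneg_right hM2 hδ0
      _ = (yB th e X * P0I th e X / X) * 4 := by
          rw [hδ]
          ring
      _ = (X : ℝ) ^ (-(3 / 2 * e)) * 4 := by
          congr 1
          unfold yB P0I
          rw [← Real.rpow_add hX0]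
          nth_rewrite 2 [← Real.rpow_one (X : ℝ)]
          rw [← Real.rpow_sub hX0]
          congr 1
          ring
      _ ≤ (X : ℝ) ^ (-(3 / 2 * e)) * (X : ℝ) ^ (3 / 2 * e) :=
          mul_le_mul_of_nonneg_left g4 (by positivity)
      _ = 1 := by
          rw [← Real.rpow_add hX0]
          simp
  have hK : (K : ℝ) ≤ 2 * (X : ℝ) ^ (1 - 1000 * e) := by
    have hM0 : (0 : ℝ) < M := by exact_mod_cast hMpos
    have hKM' : (K : ℝ) * M ≤ X := by exact_mod_cast hKM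
    have hXτ : (X : ℝ) ^ (1000 * e) ≤ 2 * M := by
      calc (X : ℝ) ^ (1000 * e) ≤ (X : ℝ) ^ τ := Real.rpow_le_rpow_of_exponent_le hX1R hτ2
        _ ≤ 2 * M := by linarith
    have h1 : (K : ℝ) * (X : ℝ) ^ (1000 * e) ≤ 2 * X := by
      calc (K : ℝ) * (X : ℝ) ^ (1000 * e) ≤ K * (2 * M) :=
            mul_le_mul_of_nonneg_left hXτ (Nat.cast_nonneg K)
        _ = 2 * (K * M) := by ring
        _ ≤ 2 * X := by linarith
    have h2 : (0 : ℝ) < (X : ℝ) ^ (1000 * e) := by positivity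
    calc (K : ℝ) ≤ 2 * X / (X : ℝ) ^ (1000 * e) := by
          rw [le_div_iff₀ h2]
          exact h1
      _ = 2 * (X : ℝ) ^ (1 - 1000 * e) := by
          rw [Real.rpow_sub hX0, Real.rpow_one]
          ring
  have hT : ∀ v : ℕ, 1 ≤ v → v ≤ X → (v.divisors.card : ℝ) ≤ (X : ℝ) ^ e := by
    intro v hv1 hv2
    calc (v.divisors.card : ℝ) ≤ D * (X : ℝ) ^ (e / 10) := htau v X hv1 hv2
      _ ≤ (X : ℝ) ^ (9 / 10 * e) * (X : ℝ) ^ (e / 10) :=
          mul_le_mul_of_nonneg_right g6 (by positivity)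
      _ = (X : ℝ) ^ e := by
          rw [← Real.rpow_add hX0]
          congr 1
          ring
  have hT1 : (1 : ℝ) ≤ (X : ℝ) ^ e := Real.one_le_rpow hX1R he.le
  have hA1 : (1 : ℝ) ≤ L ^ C := one_le_pow₀ g2
  have hqle : ∀ (p : ℕ) (s : ℝ), 1 ≤ s → (p : ℝ) * s ≤ 4 * P0I th e X → p ≤ X := by
    intro p s hs hps
    have h1 : (p : ℝ) ≤ p * s := le_mul_of_one_le_right (Nat.cast_nonneg p) hs
    have : (p : ℝ) ≤ X := by linarith
    exact_mod_cast this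
  have hr1 : (q : ℝ) * r / X ≤ δ := by
    rw [hδ]
    exact div_le_div_of_nonneg_right hqr hX0.le
  have hr2 : (q' : ℝ) * r' / X ≤ δ := by
    rw [hδ]
    exact div_le_div_of_nonneg_right hqr' hX0.le
  have hfacts : ∀ j ∈ Dq G X q r ∩ Dq G X q' r', nrm ((q : ℝ) * al G j) ≤ δ ∧
      nrm ((q' : ℝ) * al G j) ≤ δ ∧ Int.gcd (round ((q : ℝ) * al G j)) q = 1 ∧
      round ((q : ℝ) * al G j) * (q' : ℤ) - round ((q' : ℝ) * al G j) * (q : ℤ) ≠ 0 := by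
    intro j hj
    rw [mem_inter] at hj
    obtain ⟨f1, f2⟩ := ovb_dq G hXone hq1 hr1 hδ4 hj.1
    obtain ⟨f3, f4⟩ := ovb_dq G hXone hq1' hr2 hδ4 hj.2
    exact ⟨f1, f3, f2, ovb_ne hqq f2 f4⟩
  have hMK : M * K ≤ X := by
    rw [mul_comm]
    exact hKM
  have hmain := hV X hX1 G hG M K q q' hMpos hKpos hMK hq1 (hqle q r hr hqr) hq1'
    (hqle q' r' hr' hqr') δ (L ^ C) ((X : ℝ) ^ e)
    hδ0 hδ4 hA1 hT1 (fun m => ((a m : ℝ) : ℂ)) (fun k => ((c k : ℝ) : ℂ))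
    (fun m => by
      rw [Complex.norm_real, Real.norm_eq_abs]
      exact (hac m).1)
    (fun k => by
      rw [Complex.norm_real, Real.norm_eq_abs]
      exact (hac k).2)
    (Dq G X q r ∩ Dq G X q' r') hfacts hT
  rw [← hL] at hmain
  calc (1 / (G : ℝ)) * ∑ j ∈ Dq G X q r ∩ Dq G X q' r', ‖Bf M K a c (al G j)‖ ^ 2
      = (1 / (G : ℝ)) * ∑ j ∈ Dq G X q r ∩ Dq G X q' r', ‖∑ m ∈ Ioc M (2 * M),
          ∑ k ∈ Icc 1 K, ((a m : ℝ) : ℂ) * ((c k : ℝ) : ℂ) *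
            ZMod.stdAddChar (((m * k : ℕ) : ZMod G) * j)‖ ^ 2 := by
        congr 1
        refine sum_congr rfl fun j _ => ?_
        rw [bf_disc]
    _ ≤ C0 * (L ^ C) ^ 4 * (X : ℝ) ^ e * (1 + M * δ) ^ 2 * K * (1 + L) := hmain
    _ ≤ C0 * (L ^ C) ^ 4 * (X : ℝ) ^ e * (1 + 1) ^ 2 * (2 * (X : ℝ) ^ (1 - 1000 * e)) *
          (2 * L) := by
        have h1 : (1 + (M : ℝ) * δ) ^ 2 ≤ (1 + 1) ^ 2 := by
          refine pow_le_pow_left₀ (by positivity) ?_ 2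
          linarith
        have h2 : 1 + L ≤ 2 * L := by linarith
        have h3 : (0 : ℝ) ≤ C0 * (L ^ C) ^ 4 * (X : ℝ) ^ e := by positivity
        refine mul_le_mul (mul_le_mul (mul_le_mul_of_nonneg_left h1 h3) hK (by positivity)
          (by positivity)) h2 (by linarith) (by positivity)
    _ = (16 * C0 * L ^ (4 * C + 1)) * (X : ℝ) ^ e * (X : ℝ) ^ (1 - 1000 * e) := by
        ring
    _ ≤ (X : ℝ) ^ (992 * e) * (X : ℝ) ^ e * (X : ℝ) ^ (1 - 1000 * e) := by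
        refine mul_le_mul_of_nonneg_right (mul_le_mul_of_nonneg_right g5 (by positivity))
          (by positivity)
    _ = (X : ℝ) ^ (1 - 7 * e) := by
        rw [← Real.rpow_add hX0, ← Real.rpow_add hX0]
        congr 1
        ring

end Pool.Agent.Lib.MP_e3f158_nt.TL
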