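import Pool.Agent.Lib.MP_e3f158_nt.TL.OvI
import Pool.Agent.Lib.MP_e3f158_nt.TL.OvB

/-!
# TL-OvS (0.4 h, uses OvI, OvB): structured functions on the overlaps, heavy denominators

`ov_p`: `Str`: `‖û‖² ≤ 2 I (∑ ‖T_i‖² + ∑ ‖B_i‖²)`, `Ov u ≤ 2 I² · 2 X^(1-7e) ≤ 4 L^(2C) X^(1-7e) ≤ X^(1-6e)` (compare
`JX/GOv.lean`).
`hv_p`: for `S` with `#S ≤ X^(2e) + 1`: `∑_S Mq = (1/G) ∑_j ν(j) |û(j)|²`, `ν(j) = #{q ∈ S : j ∈ Dq q r}`,
`ν ≤ 1 + ν (ν - 1)`, so `∑_S Mq ≤ nm2 û + ∑_{q ≠ q'} Ov ≤ W + (#S)² X^(1-6e) ≤ W + 4 X^(1-2e) ≤ 2 W`.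
If `#S > X^(2e)` take a subset with `⌊X^(2e)⌋₊ + 1` elements: `X^(2e) X^(1-e) ≤ 2 W ≤ 2 X^(1+e/2)`, false (compare
`JX/GHv.lean`).
-/

set_option autoImplicit false

namespace Pool.Agent.Lib.MP_e3f158_nt.TL

open Finset Pool.MP_67663b_nt.Odd Pool.MP_dd84fd_nt.En Pool.MP_dd84fd_nt.E2 Pool.MP_dd84fd_nt.LS
open Pool.MP_dd84fd_nt.L2G (nrm)
open Pool.MP_dd84fd_nt.GX Pool.MP_dd84fd_nt.HX Pool.MP_dd84fd_nt.IX
open Pool.MP_dd84fd_nt.PL (rr)
open Pool.MP_dd84fd_nt.JX (Adm ZJ Str)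

private theorem ovs_congr (G : ℕ) [NeZero G] (X : ℕ) (c d : ℕ → ℝ) (j : ZMod G)
    (h : ∀ n ∈ Icc 1 X, c n = d n) : tr G X c j = tr G X d j := by
  unfold tr
  refine sum_congr rfl fun n hn => ?_
  rw [h n hn]

private theorem ovs_sum (G : ℕ) [NeZero G] (X : ℕ) (t : Finset ℕ) (c : ℕ → ℕ → ℝ) (j : ZMod G) :
    tr G X (fun n => ∑ i ∈ t, c i n) j = ∑ i ∈ t, tr G X (c i) j := by
  unfold tr
  rw [sum_comm]
  refine sum_congr rfl fun n _ => ?_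
  push_cast
  rw [sum_mul]

/-- Cauchy's inequality for a sum of two sums -/
private theorem ovs_cauchy (I : ℕ) (f g : ℕ → ℂ) :
    ‖∑ i ∈ range I, f i + ∑ i ∈ range I, g i‖ ^ 2 ≤
      2 * (I : ℝ) * (∑ i ∈ range I, ‖f i‖ ^ 2 + ∑ i ∈ range I, ‖g i‖ ^ 2) := by
  have h : ∀ f : ℕ → ℂ, ‖∑ i ∈ range I, f i‖ ^ 2 ≤ (I : ℝ) * ∑ i ∈ range I, ‖f i‖ ^ 2 := by
    intro f
    have h1 : ‖∑ i ∈ range I, f i‖ ≤ ∑ i ∈ range I, ‖f i‖ := norm_sum_le _ _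
    have h2 : (∑ i ∈ range I, ‖f i‖) ^ 2 ≤ ((range I).card : ℝ) * ∑ i ∈ range I, ‖f i‖ ^ 2 :=
      sq_sum_le_card_mul_sum_sq
    rw [card_range] at h2
    exact (pow_le_pow_left₀ (norm_nonneg _) h1 2).trans h2
  have h3 := norm_add_le (∑ i ∈ range I, f i) (∑ i ∈ range I, g i)
  have h4 := h f
  have h5 := h g
  have h6 := sq_nonneg (‖∑ i ∈ range I, f i‖ - ‖∑ i ∈ range I, g i‖)
  have h7 : ‖∑ i ∈ range I, f i + ∑ i ∈ range I, g i‖ ^ 2 ≤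
      (‖∑ i ∈ range I, f i‖ + ‖∑ i ∈ range I, g i‖) ^ 2 :=
    pow_le_pow_left₀ (norm_nonneg _) h3 2
  nlinarith

/-- `Ov` of a sum of two sums -/
private theorem ovs_two (G : ℕ) [NeZero G] (X I : ℕ) (u : ℕ → ℝ) (f g : ℕ → ℕ → ℝ)
    (hS : ∀ j : ZMod G, tr G X u j = ∑ i ∈ range I, tr G X (f i) j +
      ∑ i ∈ range I, tr G X (g i) j) (q q' : ℕ) (r r' : ℝ) :
    Ov G X u q q' r r' ≤ 2 * (I : ℝ) * (∑ i ∈ range I, Ov G X (f i) q q' r r' +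
      ∑ i ∈ range I, Ov G X (g i) q q' r r') := by
  unfold Ov
  rw [← mul_sum, ← mul_sum, ← mul_add, sum_comm (s := range I)
    (f := fun i j => ‖tr G X (f i) j‖ ^ 2), sum_comm (s := range I)
    (f := fun i j => ‖tr G X (g i) j‖ ^ 2), ← sum_add_distrib]
  calc (1 / (G : ℝ)) * ∑ j ∈ Dq G X q r ∩ Dq G X q' r', ‖tr G X u j‖ ^ 2
      ≤ (1 / (G : ℝ)) * ∑ j ∈ Dq G X q r ∩ Dq G X q' r', 2 * (I : ℝ) *
        (∑ i ∈ range I, ‖tr G X (f i) j‖ ^ 2 + ∑ i ∈ range I, ‖tr G X (g i) j‖ ^ 2) := by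
        refine mul_le_mul_of_nonneg_left (sum_le_sum fun j _ => ?_) (by positivity)
        rw [hS]
        exact ovs_cauchy I _ _
    _ = 2 * (I : ℝ) * ((1 / (G : ℝ)) * ∑ j ∈ Dq G X q r ∩ Dq G X q' r',
        (∑ i ∈ range I, ‖tr G X (f i) j‖ ^ 2 + ∑ i ∈ range I, ‖tr G X (g i) j‖ ^ 2)) := by
        rw [← mul_sum]
        ring

/-- the numerical facts -/
private theorem ovs_num (e : ℝ) (he : 0 < e) (C : ℕ) : ∃ X0 : ℕ,
    ∀ X : ℕ, X0 ≤ X → 1 ≤ X ∧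
      4 * (Real.log X) ^ (2 * C) * (X : ℝ) ^ (1 - 7 * e) ≤ (X : ℝ) ^ (1 - 6 * e) := by
  obtain ⟨X4, h4⟩ := MP_log_pow 4 (2 * C) (ε := e) he
  refine ⟨max X4 1, fun X hX => ?_⟩
  simp only [max_le_iff] at hX
  obtain ⟨g4, g5⟩ := hX
  have k4 := h4 X g4
  have hX1 : (1 : ℝ) ≤ X := by exact_mod_cast g5
  have hX0 : (0 : ℝ) < X := by linarith
  refine ⟨g5, ?_⟩
  have e1 : (X : ℝ) ^ (1 - 6 * e) = (X : ℝ) ^ e * (X : ℝ) ^ (1 - 7 * e) := by
    rw [← Real.rpow_add hX0]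
    congr 1
    ring
  rw [e1]
  exact mul_le_mul_of_nonneg_right k4 (by positivity)

theorem ov_p : OvP := by
  intro C th e τ hA
  obtain ⟨X1, h1⟩ := ov_i th e τ hA C
  obtain ⟨X2, h2⟩ := ov_b th e τ hA C
  obtain ⟨X3, h3⟩ := ovs_num e hA.2.2.1 C
  refine ⟨max (max X1 X2) X3, fun X hX G _ hG u hu q q' r r' hqq hq hq' hr hr' hqr hqr' => ?_⟩
  simp only [max_le_iff] at hX
  obtain ⟨⟨g1, g2⟩, g3⟩ := hX
  obtain ⟨k1, k3⟩ := h3 X g3
  obtain ⟨I, γ, α, M, K, a, c, c1, c2, c3, c4, c5, c6, c7, c8⟩ := hu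
  have hL0 : 0 ≤ Real.log X := Real.log_natCast_nonneg X
  have hI0 : (0 : ℝ) ≤ I := Nat.cast_nonneg _
  have hXe : 0 ≤ (X : ℝ) ^ (1 - 7 * e) := by positivity
  have htr : ∀ j : ZMod G, tr G X u j =
      ∑ i ∈ range I, tr G X (fun n => γ i n * ∑ l ∈ n.divisors, α i l) j +
      ∑ i ∈ range I, tr G X (fun n => ∑ m ∈ n.divisors,
        (if n / m ≤ K i then a i m * c i (n / m) else 0)) j := by
    intro j
    rw [ovs_congr G X u _ j c8, tr_add, ovs_sum, ovs_sum]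
  have s1 := ovs_two G X I u (fun i n => γ i n * ∑ l ∈ n.divisors, α i l)
    (fun i n => ∑ m ∈ n.divisors, (if n / m ≤ K i then a i m * c i (n / m) else 0))
    htr q q' r r'
  have s3 : ∑ i ∈ range I, Ov G X (fun n => γ i n * ∑ l ∈ n.divisors, α i l) q q' r r' ≤
      (I : ℝ) * (X : ℝ) ^ (1 - 7 * e) := by
    refine (sum_le_card_nsmul _ _ _ fun i _ =>
      h1 X g1 G hG (γ i) (α i) (c2 i).1 (c2 i).2 (c3 i) (c4 i) q q' r r' hqq hq hq' hr hr' hqr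
        hqr').trans ?_
    rw [nsmul_eq_mul, card_range]
  have s4 : ∑ i ∈ range I, Ov G X (fun n => ∑ m ∈ n.divisors,
      (if n / m ≤ K i then a i m * c i (n / m) else 0)) q q' r r' ≤
      (I : ℝ) * (X : ℝ) ^ (1 - 7 * e) := by
    refine (sum_le_card_nsmul _ _ _ fun i _ =>
      h2 X g2 G hG (M i) (K i) (a i) (c i) (c5 i) (c6 i).1 (c6 i).2.1 (c6 i).2.2 (fun m hm =>
        ⟨(c7 i m hm).1, (c7 i m hm).2.1, (c7 i m hm).2.2.2⟩) q q' r r' hqq hq hq' hr hr' hqr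
        hqr').trans ?_
    rw [nsmul_eq_mul, card_range]
  have hI2 : (I : ℝ) * I ≤ (Real.log X) ^ (2 * C) := by
    calc (I : ℝ) * I ≤ (Real.log X) ^ C * (Real.log X) ^ C :=
          mul_le_mul c1 c1 hI0 (by positivity)
      _ = (Real.log X) ^ (2 * C) := by
          rw [← pow_add]
          congr 1
          ring
  refine s1.trans ?_
  calc _ ≤ 2 * (I : ℝ) * ((I : ℝ) * (X : ℝ) ^ (1 - 7 * e) +
        (I : ℝ) * (X : ℝ) ^ (1 - 7 * e)) :=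
        mul_le_mul_of_nonneg_left (add_le_add s3 s4) (by positivity)
    _ = 4 * ((I : ℝ) * I) * (X : ℝ) ^ (1 - 7 * e) := by ring
    _ ≤ 4 * (Real.log X) ^ (2 * C) * (X : ℝ) ^ (1 - 7 * e) := by
        refine mul_le_mul_of_nonneg_right ?_ hXe
        exact mul_le_mul_of_nonneg_left hI2 (by norm_num)
    _ ≤ (X : ℝ) ^ (1 - 6 * e) := k3

/-- the multiplicity argument -/
private theorem ovs_mult (G : ℕ) [NeZero G] (X : ℕ) (u : ℕ → ℝ) (S : Finset ℕ) (r B : ℝ)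
    (hB : 0 ≤ B) (h : ∀ q ∈ S, ∀ q' ∈ S, q ≠ q' → Ov G X u q q' r r ≤ B) :
    ∑ q ∈ S, Mq G X u q r ≤ nm2 G (tr G X u) + (S.card : ℝ) ^ 2 * B := by
  classical
  obtain ⟨F, hF⟩ : ∃ F : ZMod G → ℝ, F = fun j => ‖tr G X u j‖ ^ 2 := ⟨_, rfl⟩
  have hF0 : ∀ j, 0 ≤ F j := by
    intro j
    rw [hF]
    positivity
  obtain ⟨x, hx⟩ : ∃ x : ℕ → ZMod G → ℝ, x = fun q j => if j ∈ Dq G X q r then 1 else 0 :=
    ⟨_, rfl⟩
  have hx2 : ∀ q j, x q j * x q j = x q j := by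
    intro q j
    rw [hx]
    simp only
    split_ifs <;> norm_num
  have hMq : ∀ q, Mq G X u q r = (1 / (G : ℝ)) * ∑ j : ZMod G, x q j * F j := by
    intro q
    unfold Mq
    congr 1
    rw [hx, hF]
    simp only [ite_mul, one_mul, zero_mul]
    rw [sum_ite_mem, univ_inter]
  have hOv : ∀ q q', Ov G X u q q' r r =
      (1 / (G : ℝ)) * ∑ j : ZMod G, x q j * x q' j * F j := by
    intro q q'
    have h1 : ∀ j : ZMod G, x q j * x q' j * F j =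
        if j ∈ Dq G X q r ∩ Dq G X q' r then ‖tr G X u j‖ ^ 2 else 0 := by
      intro j
      rw [hx, hF]
      simp only [mem_inter]
      by_cases h1 : j ∈ Dq G X q r
      · by_cases h2 : j ∈ Dq G X q' r
        · simp [h1, h2]
        · simp [h1, h2]
      · simp [h1]
    simp only [h1]
    rw [sum_ite_mem, univ_inter]
    rfl
  have hkey : ∀ j : ZMod G, ∑ q ∈ S, x q j ≤
      1 + ∑ q ∈ S, ∑ q' ∈ S.erase q, x q j * x q' j := by
    intro j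
    have e1 : (∑ q ∈ S, x q j) * (∑ q ∈ S, x q j) =
        ∑ q ∈ S, x q j + ∑ q ∈ S, ∑ q' ∈ S.erase q, x q j * x q' j := by
      rw [sum_mul_sum, ← sum_add_distrib]
      refine sum_congr rfl fun q hq => ?_
      rw [← add_sum_erase S (fun q' => x q j * x q' j) hq]
      simp only [hx2]
    nlinarith [sq_nonneg ((∑ q ∈ S, x q j) - 1)]
  have e2 : (1 / (G : ℝ)) * ∑ j : ZMod G, (∑ q ∈ S, ∑ q' ∈ S.erase q, x q j * x q' j) * F j =
      ∑ q ∈ S, ∑ q' ∈ S.erase q, Ov G X u q q' r r := by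
    simp only [hOv, ← mul_sum]
    congr 1
    simp only [sum_mul]
    rw [sum_comm]
    refine sum_congr rfl fun q _ => ?_
    rw [sum_comm]
    refine sum_congr rfl fun j _ => ?_
    rw [mul_sum, sum_mul]
  have e3 : ∑ q ∈ S, ∑ q' ∈ S.erase q, Ov G X u q q' r r ≤ (S.card : ℝ) ^ 2 * B := by
    calc ∑ q ∈ S, ∑ q' ∈ S.erase q, Ov G X u q q' r r
        ≤ ∑ q ∈ S, ∑ _q' ∈ S.erase q, B := sum_le_sum fun q hq => sum_le_sum fun q' hq' =>
          h q hq q' (mem_of_mem_erase hq') (ne_of_mem_erase hq').symm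
      _ ≤ ∑ _q ∈ S, (S.card : ℝ) * B := sum_le_sum fun q _ => by
          rw [sum_const, nsmul_eq_mul]
          exact mul_le_mul_of_nonneg_right
            (by exact_mod_cast card_le_card (erase_subset _ _)) hB
      _ = (S.card : ℝ) ^ 2 * B := by
          rw [sum_const, nsmul_eq_mul]
          ring
  calc ∑ q ∈ S, Mq G X u q r = (1 / (G : ℝ)) * ∑ j : ZMod G, (∑ q ∈ S, x q j) * F j := by
        simp only [hMq]
        rw [← mul_sum, sum_comm]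
        congr 1
        refine sum_congr rfl fun j _ => ?_
        rw [sum_mul]
    _ ≤ (1 / (G : ℝ)) * ∑ j : ZMod G,
        (1 + ∑ q ∈ S, ∑ q' ∈ S.erase q, x q j * x q' j) * F j :=
        mul_le_mul_of_nonneg_left (sum_le_sum fun j _ =>
          mul_le_mul_of_nonneg_right (hkey j) (hF0 j)) (by positivity)
    _ = (1 / (G : ℝ)) * ∑ j : ZMod G, F j +
        (1 / (G : ℝ)) * ∑ j : ZMod G, (∑ q ∈ S, ∑ q' ∈ S.erase q, x q j * x q' j) * F j := by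
        rw [← mul_add, ← sum_add_distrib]
        congr 1
        refine sum_congr rfl fun j _ => ?_
        ring
    _ ≤ nm2 G (tr G X u) + (S.card : ℝ) ^ 2 * B := by
        rw [e2]
        refine add_le_add (le_of_eq ?_) e3
        unfold nm2
        rw [hF]

theorem hv_p : HvP := by
  intro C th e τ hA
  obtain ⟨X1, h1⟩ := ov_p C th e τ hA
  have he : 0 < e := hA.2.2.1
  obtain ⟨X2, h2⟩ := MP_log_pow 4 0 (ε := e / 2) (by linarith)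
  refine ⟨max (max X1 X2) 1, fun X hX G _ hG u hu W hW1 hW2 hnm r hr S hS => ?_⟩
  simp only [max_le_iff] at hX
  obtain ⟨⟨g1, g2⟩, g3⟩ := hX
  have hX1 : (1 : ℝ) ≤ X := by exact_mod_cast g3
  have hX0 : (0 : ℝ) < X := lt_of_lt_of_le one_pos hX1
  have k2 := h2 X g2
  rw [pow_zero, mul_one] at k2
  have k3 : (4 : ℝ) ≤ (X : ℝ) ^ (2 * e) :=
    k2.trans (Real.rpow_le_rpow_of_exponent_le hX1 (by linarith))
  have hp1 : (1 : ℝ) ≤ (X : ℝ) ^ (2 * e) := by linarith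
  have hmul : ∀ T : Finset ℕ, T ⊆ S → (T.card : ℝ) ≤ 2 * (X : ℝ) ^ (2 * e) →
      ∑ q ∈ T, Mq G X u q r ≤ 2 * W := by
    intro T hT hcard
    have h3 := ovs_mult G X u T r ((X : ℝ) ^ (1 - 6 * e)) (by positivity)
      (fun q hq q' hq' hne => h1 X g1 G hG u hu q q' r r hne (hS q (hT hq)).1
        (hS q' (hT hq')).1 hr hr (hS q (hT hq)).2.1 (hS q' (hT hq')).2.1)
    refine h3.trans ?_
    have e2 : (T.card : ℝ) ^ 2 ≤ 4 * (X : ℝ) ^ (4 * e) := by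
      calc (T.card : ℝ) ^ 2 ≤ (2 * (X : ℝ) ^ (2 * e)) ^ 2 :=
            pow_le_pow_left₀ (Nat.cast_nonneg _) hcard 2
        _ = 4 * (X : ℝ) ^ (4 * e) := by
            rw [mul_pow, sq ((X : ℝ) ^ (2 * e)), ← Real.rpow_add hX0]
            norm_num
            congr 1
            ring
    have e3 : (T.card : ℝ) ^ 2 * (X : ℝ) ^ (1 - 6 * e) ≤ X := by
      calc (T.card : ℝ) ^ 2 * (X : ℝ) ^ (1 - 6 * e)
          ≤ 4 * (X : ℝ) ^ (4 * e) * (X : ℝ) ^ (1 - 6 * e) :=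
            mul_le_mul_of_nonneg_right e2 (by positivity)
        _ = 4 * (X : ℝ) ^ (1 - 2 * e) := by
            rw [mul_assoc, ← Real.rpow_add hX0]
            congr 2
            ring
        _ ≤ (X : ℝ) ^ (2 * e) * (X : ℝ) ^ (1 - 2 * e) :=
            mul_le_mul_of_nonneg_right k3 (by positivity)
        _ = X := by
            rw [← Real.rpow_add hX0]
            norm_num
    linarith
  by_cases hcard : (S.card : ℝ) ≤ 2 * (X : ℝ) ^ (2 * e)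
  · exact hmul S (Finset.Subset.refl S) hcard
  · exfalso
    push Not at hcard
    have hfl : ((⌊(X : ℝ) ^ (2 * e)⌋₊ : ℕ) : ℝ) ≤ (X : ℝ) ^ (2 * e) :=
      Nat.floor_le (by positivity)
    have hfl2 : (X : ℝ) ^ (2 * e) < (⌊(X : ℝ) ^ (2 * e)⌋₊ : ℕ) + 1 := Nat.lt_floor_add_one _
    have hle : ⌊(X : ℝ) ^ (2 * e)⌋₊ + 1 ≤ S.card := by
      have : ((⌊(X : ℝ) ^ (2 * e)⌋₊ + 1 : ℕ) : ℝ) ≤ S.card := by
        push_cast
        linarith
      exact_mod_cast this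
    obtain ⟨T, hTS, hTc⟩ := Finset.exists_subset_card_eq hle
    have hT := hmul T hTS (by
      rw [hTc]
      push_cast
      linarith)
    have hlow : (T.card : ℝ) * (X : ℝ) ^ (1 - e) ≤ ∑ q ∈ T, Mq G X u q r := by
      rw [← nsmul_eq_mul]
      exact Finset.card_nsmul_le_sum _ _ _ fun q hq => (hS q (hTS hq)).2.2
    have hcT : (X : ℝ) ^ (2 * e) ≤ (T.card : ℝ) := by
      rw [hTc]
      push_cast
      exact hfl2.le
    have h3 : (X : ℝ) ^ (2 * e) * (X : ℝ) ^ (1 - e) =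
        (X : ℝ) ^ (1 + e / 2) * (X : ℝ) ^ (e / 2) := by
      rw [← Real.rpow_add hX0, ← Real.rpow_add hX0]
      congr 1
      ring
    have h4 : (X : ℝ) ^ (1 + e / 2) * (X : ℝ) ^ (e / 2) ≤ (X : ℝ) ^ (1 + e / 2) * 2 := by
      rw [← h3]
      calc (X : ℝ) ^ (2 * e) * (X : ℝ) ^ (1 - e) ≤ (T.card : ℝ) * (X : ℝ) ^ (1 - e) :=
            mul_le_mul_of_nonneg_right hcT (by positivity)
        _ ≤ 2 * W := hlow.trans hT
        _ ≤ (X : ℝ) ^ (1 + e / 2) * 2 := by linarith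
    have h5 : (X : ℝ) ^ (e / 2) ≤ 2 := le_of_mul_le_mul_left h4 (by positivity)
    linarith

end Pool.Agent.Lib.MP_e3f158_nt.TL
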