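import Pool.Agent.Lib.MP_dd84fd_nt.JX.PlLam
import Pool.Agent.Lib.MP_e3f158_nt.TL.Defs

/-!
# TL-LamG (0.6 h): a function independent of `a` against type II, the number `nn q` depends on `q`

`lam_two_g`: port of `JXP.lam_two_j` (`JX/PlLam.lean`; `lt_one` needs only `1 ≤ n ≤ X`); `StdJ X X ..` for the
family.  `lam_two_t`: `|Bq(lam, conj f; n)| = |Bq(lam', f; n')|` with `n' = q - n % q ∈ [1, q]`,
`lam' x = conj (lam x) e(σ (n + n') x)` (`n + n'` is a multiple of `q`; `hq q n' = hq q n`, `q ≤ N ≤ X`).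
-/

set_option autoImplicit false

namespace Pool.Agent.Lib.MP_e3f158_nt.TL

open Finset Pool.MP_67663b_nt.Odd Pool.MP_dd84fd_nt.PL Pool.MP_dd84fd_nt.HX Pool.MP_dd84fd_nt.HXP
  Pool.MP_dd84fd_nt.JXP
open Pool.MP_dd84fd_nt.JX (Adm)

theorem lam_two_g : ∃ C : ℝ, 0 < C ∧ ∀ (th e τ : ℝ) (A1 : ℕ), Adm th e τ → ∃ X0 : ℕ,
    ∀ X : ℕ, X0 ≤ X → ∀ (nn : ℕ → ℕ) (b N σ : ℝ) (QQ : Finset ℕ) (bq : ℕ → ℝ),
    StdJ X X th e A1 b N σ QQ bq → (∀ q ∈ QQ, 1 ≤ nn q ∧ nn q ≤ X) →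
    ∀ (lam : ℕ → ℝ → ℂ) (Λ0 : ℝ), (∀ q, Continuous (lam q)) → 0 ≤ Λ0 → Λ0 ≤ X →
    (∀ q ∈ QQ, ∀ x, ‖lam q x‖ ≤ Λ0 * X / q) →
    ∀ (M Am S : ℝ) (K : ℕ) (MM : Finset ℕ) (a c : ℕ → ℂ),
    0 ≤ Am → Am ≤ X → 0 ≤ S → S ≤ X → BlkJ X th e τ M K MM a c Am S →
    ∑ q ∈ QQ, ‖Bq X (bq q) σ (nn q) q (fun _ x => lam q x) (f2f MM a (tp K (cq q c)) σ q)‖ ≤
      C * (Real.log X) ^ 2 * Λ0 * Am * Real.sqrt S * (1 + b) * X *
        (Real.sqrt (∑ q ∈ QQ, 1 / ((q : ℝ) * (hq q (nn q) : ℝ) ^ (1 / 4 : ℝ))) +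
          (X : ℝ) ^ (-(τ / 10))) + 1 := by
  obtain ⟨C, hC, h1⟩ := lt_one
  obtain ⟨D4, hD4, h4⟩ := lt_D4
  refine ⟨200 * C * (3 * D4 + 6), by positivity, ?_⟩
  intro th e τ A1 hpar
  obtain ⟨X0, hX0⟩ := j2_std th e τ A1 hpar
  obtain ⟨hp1, hp2, hp3, hp4, hp5⟩ := hpar
  have hτ0 : 0 < τ := by linarith
  obtain ⟨X1, hX1e⟩ := j2_tau 3 (τ / 8) (by positivity)
  obtain ⟨X2, hX2e⟩ := j2_log 1 2 (τ / 8) (by positivity)
  obtain ⟨X3, hX3e⟩ := j2_rpow (128 * C) 1 (by norm_num)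
  obtain ⟨X4, hX4e⟩ := j2_rpow 2 τ hτ0
  refine ⟨max (max X0 X1) (max X2 (max X3 X4)), ?_⟩
  intro X hX nn b N σ QQ bq hstd hnn lam Λ0 hlam hΛ0 hΛX hlb M Am S K MM a c hAm hAmX hS hSX hblk
  obtain ⟨hX16, hL1, hb0, hNX, hbX, -, hNbM', hqq'⟩ :=
    hX0 X ((le_max_left _ _).trans ((le_max_left _ _).trans hX)) X b N σ QQ bq hstd
  have g1 := hX1e X ((le_max_right _ _).trans ((le_max_left _ _).trans hX))
  have g2 := hX2e X ((le_max_left _ _).trans ((le_max_right _ _).trans hX))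
  have g3 := hX3e X ((le_max_left _ _).trans ((le_max_right _ _).trans
    ((le_max_right _ _).trans hX)))
  have g4 := hX4e X ((le_max_right _ _).trans ((le_max_right _ _).trans
    ((le_max_right _ _).trans hX)))
  rw [Real.rpow_one] at g3
  rw [pow_one] at g2
  obtain ⟨-, -, hσ, hbA, hN1, hNb, hFam, -, hbq⟩ := hstd
  obtain ⟨hM1, hM2, hK, hMM, ha, hc⟩ := hblk
  have hX16' : (16 : ℝ) ≤ X := by exact_mod_cast hX16
  have hXp : (0 : ℝ) < X := by linarith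
  have hX1 : 1 ≤ X := by omega
  have hX1' : (1 : ℝ) ≤ X := by linarith
  -- powers
  obtain ⟨g, hg⟩ : ∃ g : ℝ, g = (X : ℝ) ^ (τ / 8) := ⟨_, rfl⟩
  have hg1 : 1 ≤ g := by rw [hg]; exact Real.one_le_rpow hX1' (by positivity)
  have hg0 : 0 < g := by linarith
  have hg8 : g ^ 8 = (X : ℝ) ^ τ := by
    rw [hg, ← Real.rpow_natCast, ← Real.rpow_mul hXp.le]
    congr 1
    push_cast
    ring
  have em : 1 / g ≤ (X : ℝ) ^ (-(τ / 10)) := by
    rw [hg, one_div, ← Real.rpow_neg hXp.le]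
    exact Real.rpow_le_rpow_of_exponent_le hX1' (by linarith)
  have hMy : g ^ 8 / 2 ≤ M := by
    rw [hg8]
    exact hM1
  have hM12 : 1 ≤ M := by
    refine le_trans ?_ hM1
    linarith
  have hM0 : 0 < M := by linarith
  have hMX' : M ≤ X := by
    calc M ≤ (X : ℝ) ^ (th - 3 * e) := hM2
      _ ≤ (X : ℝ) ^ (1 : ℝ) := Real.rpow_le_rpow_of_exponent_le hX1' (by linarith)
      _ = X := Real.rpow_one _
  have hMX : M ≤ 2 * X := by linarith
  have hNbM : N * b * M ≤ X := hNbM' M hM2 hM0.le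
  have hqq : ∀ q ∈ QQ, 1 ≤ q ∧ q ≤ X := fun q hqm => ⟨(hqq' q hqm).1, (hqq' q hqm).2.1⟩
  -- bound of the inner polynomial
  have hcq : ∀ q k : ℕ, ‖cq q c k‖ ≤ ‖c k‖ := by
    intro q k
    unfold cq
    split_ifs
    · exact le_rfl
    · rw [norm_zero]
      exact norm_nonneg _
  have hBs : ∀ (q : ℕ) (x : ℝ), ‖tp K (cq q c) x‖ ≤ 2 * (X : ℝ) ^ 2 := by
    intro q x
    unfold tp
    refine (norm_sum_le _ _).trans ?_
    have h2 : ∀ k ∈ Icc 1 K, ‖cq q c k * ee ((k : ℝ) * x)‖ ≤ 1 + ‖c k‖ ^ 2 := by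
      intro k _
      have h3 : ‖ee ((k : ℝ) * x)‖ = 1 := by
        unfold ee
        rw [Complex.norm_exp]
        simp
      rw [norm_mul, h3, mul_one]
      refine (hcq q k).trans ?_
      nlinarith [sq_nonneg (‖c k‖ - 1), norm_nonneg (c k)]
    refine (Finset.sum_le_sum h2).trans ?_
    rw [Finset.sum_add_distrib]
    have h5 : ∑ _k ∈ Icc 1 K, (1 : ℝ) ≤ X := by
      simp only [Finset.sum_const, Nat.card_Icc, nsmul_eq_mul, mul_one]
      have : K + 1 - 1 = K := by omega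
      rw [this]
      exact_mod_cast hK
    have h6 : S * X / M ≤ X ^ 2 := by
      rw [div_le_iff₀ (by linarith)]
      nlinarith
    nlinarith [hc.trans h6]
  -- the masses
  obtain ⟨Z, hZ⟩ : ∃ Z : ℕ → ℝ, Z = fun q => ∑ r ∈ rr q, ∫ t in (0 : ℝ)..1,
    ‖tp K (cq q c) ((r : ℝ) / q + σ * (M * (bq q / X)) * Real.exp (2 * Int.fract t))‖ ^ 2 :=
      ⟨_, rfl⟩
  have hZ0 : ∀ q ∈ QQ, 0 ≤ Z q := by
    intro q _
    rw [hZ]
    refine Finset.sum_nonneg fun r _ => ?_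
    refine intervalIntegral.integral_nonneg (by norm_num) fun t _ => by positivity
  obtain ⟨S', hS'⟩ : ∃ S' : ℝ, S' = 12 * (Real.log X) ^ 2 * S := ⟨_, rfl⟩
  have hS'0 : 0 ≤ S' := by rw [hS']; positivity
  have hsS' : Real.sqrt S' ≤ 4 * Real.log X * Real.sqrt S := by
    rw [hS', Real.sqrt_mul (by positivity)]
    refine mul_le_mul_of_nonneg_right ?_ (Real.sqrt_nonneg _)
    rw [Real.sqrt_le_left (by linarith)]
    nlinarith [sq_nonneg (Real.log X)]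
  have hNlog : 3 * (1 + Real.log N) ^ 2 ≤ 12 * (Real.log X) ^ 2 := by
    have h2 : Real.log N ≤ Real.log X := Real.log_le_log (by linarith) hNX
    have h3 : 0 ≤ Real.log N := Real.log_nonneg hN1
    nlinarith
  have hZs : ∑ q ∈ QQ, Z q ≤ (8 * N + X / (M * b)) * (S' * X / M) := by
    have h2 := bmass_c X hX1 b N σ M hb0 hN1 (by linarith) hσ QQ hFam bq hbq K c
    rw [hZ]
    refine h2.trans ?_
    rw [hS']
    have h3 : 0 ≤ 8 * N + X / (M * b) := by positivity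
    calc 3 * (1 + Real.log N) ^ 2 * (8 * N + X / (M * b)) * ∑ k ∈ Icc 1 K, ‖c k‖ ^ 2
        ≤ 12 * (Real.log X) ^ 2 * (8 * N + X / (M * b)) * (S * X / M) :=
          mul_le_mul (mul_le_mul_of_nonneg_right hNlog h3) hc
            (Finset.sum_nonneg fun k _ => by positivity) (by positivity)
      _ = (8 * N + X / (M * b)) * (12 * (Real.log X) ^ 2 * S * X / M) := by ring
  -- the bound for one modulus
  have hper : ∀ q ∈ QQ, ‖Bq X (bq q) σ (nn q) q (fun _ x => lam q x)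
      (f2f MM a (tp K (cq q c)) σ q)‖ ≤
      50 * C * Real.log X * Λ0 * Am * (b * (ltK (hq q (nn q)) / Real.sqrt q * Real.sqrt (Z q) *
        (M + Real.sqrt (2 * M * (1 + b)) * Real.sqrt (hq q (nn q))))) + 128 * C / (X : ℝ) ^ 3 := by
    intro q hqm
    obtain ⟨hq1, hqX⟩ := hqq q hqm
    have hq1' : (1 : ℝ) ≤ q := by exact_mod_cast hq1
    have hqX' : (q : ℝ) ≤ X := by exact_mod_cast hqX
    have : NeZero q := ⟨by omega⟩
    have hβ := hbq q hqm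
    have h2 := h1 X (nn q) q (bq q) σ hX1 (hnn q hqm).2 (by linarith) hσ (hnn q hqm).1 (lam q) (Λ0 * X / q) (hlam q)
      (hlb q hqm) M Am K MM a (cq q c) hM12 hAm hMM ha (2 * (X : ℝ) ^ 2) (8 * (X : ℝ) ^ 4)
      (X ^ 24) (hBs q)
      (by
        rw [div_le_iff₀ (by linarith)]
        have h3 : Λ0 * X ≤ X * X := mul_le_mul_of_nonneg_right hΛX hXp.le
        have h5 : (X : ℝ) * X ≤ 8 * X ^ 4 := by nlinarith [pow_le_pow_left₀ (by norm_num) hX1' 2]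
        have h6 : 8 * (X : ℝ) ^ 4 ≤ 8 * (X : ℝ) ^ 4 * q := by nlinarith [pow_pos hXp 4]
        linarith)
      (by
        calc 2 * M * Am * (2 * (X : ℝ) ^ 2) ≤ 2 * (2 * X) * X * (2 * (X : ℝ) ^ 2) := by
              refine mul_le_mul_of_nonneg_right (mul_le_mul (by linarith) hAmX hAm (by linarith))
                (by positivity)
          _ = 8 * (X : ℝ) ^ 4 := by ring)
      (Nat.one_le_pow _ _ hX1)
      (by
        have h3 : bq q ≤ 2 * X := by linarith [hβ.2]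
        have h5 : (16 : ℝ) * X ≤ X ^ 24 := by
          calc (16 : ℝ) * X ≤ X * X := by nlinarith
            _ = X ^ 2 := by ring
            _ ≤ X ^ 24 := pow_le_pow_right₀ hX1' (by norm_num)
        push_cast
        linarith)
    refine h2.trans ?_
    have hlogJ : Real.log ((X ^ 24 : ℕ) : ℝ) = 24 * Real.log X := by
      push_cast
      rw [Real.log_pow]
      norm_num
    rw [hlogJ]
    have h3 := lt_per C X b (bq q) Λ0 q (Nat.totient q) (ltK (hq q (nn q))) (Z q) Am M (hq q (nn q))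
      (Real.log X) (8 * (X : ℝ) ^ 4) ((X ^ 24 : ℕ) : ℝ) hC hX1' hb0 hβ.1 hβ.2 hbX hΛ0 hq1' hqX'
      (Nat.cast_nonneg _) (by exact_mod_cast Nat.totient_le q) (ltK_nonneg _) hAm (by linarith)
      (Nat.cast_nonneg _) hL1 rfl (by push_cast; ring)
    rw [hZ] at h3 ⊢
    exact h3
  have hh1 : ∀ q ∈ QQ, 1 ≤ hq q (nn q) ∧ hq q (nn q) ≤ X := by
    intro q hqm
    obtain ⟨hq1, hqX⟩ := hqq q hqm
    unfold hq
    exact ⟨Nat.div_pos (Nat.le_of_dvd hq1 (Nat.gcd_dvd_left q (nn q)))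
      (Nat.gcd_pos_of_pos_left _ hq1), (Nat.div_le_self _ _).trans hqX⟩
  refine (Finset.sum_le_sum hper).trans ?_
  rw [Finset.sum_add_distrib]
  have htail : ∑ _q ∈ QQ, 128 * C / (X : ℝ) ^ 3 ≤ 1 := by
    rw [Finset.sum_const, nsmul_eq_mul]
    have hcard : (QQ.card : ℝ) ≤ X := by
      have : QQ.card ≤ X := by
        calc QQ.card ≤ (Icc 1 X).card := Finset.card_le_card fun q hqm => Finset.mem_Icc.2 (hqq q hqm)
          _ = X := by simp
      exact_mod_cast this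
    calc (QQ.card : ℝ) * (128 * C / (X : ℝ) ^ 3) ≤ X * (128 * C / (X : ℝ) ^ 3) :=
          mul_le_mul_of_nonneg_right hcard (by positivity)
      _ = 128 * C / X ^ 2 := by field_simp
      _ ≤ 1 := by
          rw [div_le_one (by positivity)]
          nlinarith
  refine add_le_add ?_ htail
  rw [← Finset.mul_sum, ← Finset.mul_sum]
  have hcs := lt_cs QQ (fun q => ltK (hq q (nn q))) (fun q => (hq q (nn q) : ℝ)) Z M
    (Real.sqrt (2 * M * (1 + b))) (fun q _ => Nat.cast_nonneg _) hZ0 (by linarith)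
    (Real.sqrt_nonneg _)
  have hU1 : ∑ q ∈ QQ, ltK (hq q (nn q)) ^ 2 / q ≤
      D4 * ∑ q ∈ QQ, 1 / ((q : ℝ) * (hq q (nn q) : ℝ) ^ (1 / 4 : ℝ)) := by
    rw [Finset.mul_sum]
    refine Finset.sum_le_sum fun q hqm => ?_
    have hq0 : (0 : ℝ) < q := by exact_mod_cast (hqq q hqm).1
    calc ltK (hq q (nn q)) ^ 2 / q ≤ D4 * (1 / (hq q (nn q) : ℝ) ^ (1 / 4 : ℝ)) / q :=
          div_le_div_of_nonneg_right (h4 _ (hh1 q hqm).1) hq0.le
      _ = D4 * (1 / ((q : ℝ) * (hq q (nn q) : ℝ) ^ (1 / 4 : ℝ))) := by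
          rw [mul_div_assoc, div_div, mul_comm ((hq q (nn q) : ℝ) ^ (1 / 4 : ℝ))]
  have hU2 : ∑ q ∈ QQ, ltK (hq q (nn q)) ^ 2 * (hq q (nn q) : ℝ) / q ≤ g ^ 2 := by
    have h5 : ∀ q ∈ QQ, ltK (hq q (nn q)) ^ 2 * (hq q (nn q) : ℝ) / q ≤ g * (1 / (q : ℝ)) := by
      intro q hqm
      have hq0 : (0 : ℝ) < q := by exact_mod_cast (hqq q hqm).1
      have hh0 : (0 : ℝ) < hq q (nn q) := by exact_mod_cast (hh1 q hqm).1
      rw [mul_one_div]
      refine div_le_div_of_nonneg_right ?_ hq0.le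
      have h6 := ltK_sq (hq q (nn q)) (hh1 q hqm).1
      rw [le_div_iff₀ hh0] at h6
      refine h6.trans ?_
      rw [hg]
      refine g1 (hq q (nn q)) (hh1 q hqm).1 ?_
      have h7 : (hq q (nn q) : ℝ) ≤ X := by exact_mod_cast (hh1 q hqm).2
      have h8 : (2 * X : ℝ) ≤ (2 * X) ^ 3 := le_self_pow₀ (by linarith) (by norm_num)
      linarith
    calc ∑ q ∈ QQ, ltK (hq q (nn q)) ^ 2 * (hq q (nn q) : ℝ) / q ≤ ∑ q ∈ QQ, g * (1 / (q : ℝ)) :=
          Finset.sum_le_sum h5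
      _ = g * ∑ q ∈ QQ, 1 / (q : ℝ) := by rw [Finset.mul_sum]
      _ ≤ g * g := by
          refine mul_le_mul_of_nonneg_left ?_ hg0.le
          rw [← hg] at g2
          have := lamj_harm X QQ hqq
          linarith
      _ = g ^ 2 := by ring
  have hY0 : 0 ≤ ∑ q ∈ QQ, 1 / ((q : ℝ) * (hq q (nn q) : ℝ) ^ (1 / 4 : ℝ)) :=
    Finset.sum_nonneg fun q _ => by positivity
  have hnum := lamj_num g X b N M S' (∑ q ∈ QQ, ltK (hq q (nn q)) ^ 2 / q)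
    (∑ q ∈ QQ, ltK (hq q (nn q)) ^ 2 * (hq q (nn q) : ℝ) / q) (∑ q ∈ QQ, Z q)
    (∑ q ∈ QQ, 1 / ((q : ℝ) * (hq q (nn q) : ℝ) ^ (1 / 4 : ℝ))) D4 hg1 hXp hb0 (by linarith)
    hMy hNbM hS'0 hY0 (Finset.sum_nonneg hZ0) hZs
    (Finset.sum_nonneg fun q _ => by positivity) hU1 (Finset.sum_nonneg fun q _ => by positivity)
    hU2 hD4
  have hfin := (mul_le_mul_of_nonneg_left hcs hb0.le).trans hnum
  have hc0 : 0 ≤ 50 * C * Real.log X * Λ0 * Am := by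
    have : 0 ≤ Real.log X := by linarith
    positivity
  refine (mul_le_mul_of_nonneg_left hfin hc0).trans ?_
  set Y := ∑ q ∈ QQ, 1 / ((q : ℝ) * (hq q (nn q) : ℝ) ^ (1 / 4 : ℝ)) with hYd
  have hL0 : 0 ≤ Real.log X := by linarith
  have hD0 : 0 ≤ D4 := by linarith
  calc 50 * C * Real.log X * Λ0 * Am * ((3 * D4 + 6) * (1 + b) * Real.sqrt S' * X *
        (Real.sqrt Y + 1 / g)) ≤
      50 * C * Real.log X * Λ0 * Am * ((3 * D4 + 6) * (1 + b) *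
        (4 * Real.log X * Real.sqrt S) * X * (Real.sqrt Y + (X : ℝ) ^ (-(τ / 10)))) := by
        refine mul_le_mul_of_nonneg_left ?_ hc0
        refine mul_le_mul (mul_le_mul_of_nonneg_right (mul_le_mul_of_nonneg_left hsS'
          (by positivity)) hXp.le) (by linarith) (by positivity) (by positivity)
    _ = _ := by ring

private theorem conj_ee (x : ℝ) : (starRingEnd ℂ) (ee x) = ee (-x) := by
  unfold ee
  rw [← Complex.exp_conj]
  congr 1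
  simp only [map_mul, Complex.conj_I, Complex.conj_ofReal, Complex.ofReal_neg]
  have h2 : (starRingEnd ℂ) 2 = 2 := Complex.conj_ofNat 2
  rw [h2]
  ring

private theorem conj_ii (a b : ℝ) (f : ℝ → ℂ) :
    (starRingEnd ℂ) (∫ x in a..b, f x) = ∫ x in a..b, (starRingEnd ℂ) (f x) := by
  unfold intervalIntegral
  rw [map_sub, ← integral_conj, ← integral_conj]

private theorem cont_ee' : Continuous ee := by
  unfold ee
  fun_prop

/-- the conjugate identity -/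
private theorem bq_conj (X : ℕ) (β σ : ℝ) (n q : ℕ) (hq1 : 1 ≤ q) (lam : ℝ → ℂ)
    (f : ℕ → ℝ → ℂ) :
    (starRingEnd ℂ) (Bq X β σ n q (fun _ x => lam x) (fun a' x => (starRingEnd ℂ) (f a' x))) =
      Bq X β σ (q - n % q) q (fun _ x => (starRingEnd ℂ) (lam x) *
        ee (σ * ((n + (q - n % q) : ℕ) : ℝ) * x)) f := by
  unfold Bq
  rw [map_sum]
  refine Finset.sum_congr rfl fun a _ => ?_
  rw [conj_ii]
  congr 1
  funext x
  rw [map_mul, map_mul, Complex.conj_conj, conj_ee, neg_neg]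
  obtain ⟨k, hk⟩ : ∃ k : ℕ, n + (q - n % q) = q * k := by
    refine ⟨n / q + 1, ?_⟩
    have hmod := Nat.mod_lt n (show 0 < q by omega)
    have hdm := Nat.div_add_mod n q
    rw [Nat.mul_add, Nat.mul_one]
    omega
  have hq0 : (q : ℝ) ≠ 0 := by
    have : (0 : ℝ) < q := by exact_mod_cast hq1
    exact this.ne'
  generalize q - n % q = v at *
  have key : ee ((n : ℝ) * ((a : ℝ) / q + σ * x)) =
      ee (σ * ((n + v : ℕ) : ℝ) * x) * ee (-((v : ℝ) * ((a : ℝ) / q + σ * x))) := by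
    rw [← ee_add]
    have e0 : (n : ℝ) = (q : ℝ) * (k : ℝ) - (v : ℝ) := by
      have : (n : ℝ) + (v : ℝ) = (q : ℝ) * (k : ℝ) := by exact_mod_cast hk
      linarith
    have e4 : ((n + v : ℕ) : ℝ) = (q : ℝ) * (k : ℝ) := by exact_mod_cast hk
    have e1 : (n : ℝ) * ((a : ℝ) / q + σ * x) =
        σ * ((n + v : ℕ) : ℝ) * x + -((v : ℝ) * ((a : ℝ) / q + σ * x)) +
          (((k * a : ℕ) : ℤ) : ℝ) := by
      have e5 : (((k * a : ℕ) : ℤ) : ℝ) = (k : ℝ) * (a : ℝ) := by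
        push_cast
        ring
      rw [e4, e5, e0]
      field_simp
      ring
    rw [e1, ee_add_int]
  rw [key]
  ring

private theorem hq_neg (q n : ℕ) (hq1 : 1 ≤ q) : hq q (q - n % q) = hq q n := by
  unfold hq
  have hmod := Nat.mod_lt n (show 0 < q by omega)
  have h1 : Nat.gcd q (q - n % q) = Nat.gcd q n := by
    rw [Nat.gcd_self_sub_right hmod.le, Nat.gcd_comm q (n % q), ← Nat.gcd_rec]
  rw [h1]

theorem lam_two_t : ∃ C : ℝ, 0 < C ∧ ∀ (th e τ : ℝ) (A1 : ℕ), Adm th e τ → ∃ X0 : ℕ,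
    ∀ X : ℕ, X0 ≤ X → ∀ (n : ℕ) (b N σ : ℝ) (QQ : Finset ℕ) (bq : ℕ → ℝ), 1 ≤ n → n ≤ X →
    StdJ X X th e A1 b N σ QQ bq →
    ∀ (lam : ℕ → ℝ → ℂ) (Λ0 : ℝ), (∀ q, Continuous (lam q)) → 0 ≤ Λ0 → Λ0 ≤ X →
    (∀ q ∈ QQ, ∀ x, ‖lam q x‖ ≤ Λ0 * X / q) →
    ∀ (M Am S : ℝ) (K : ℕ) (MM : Finset ℕ) (a c : ℕ → ℂ),
    0 ≤ Am → Am ≤ X → 0 ≤ S → S ≤ X → BlkJ X th e τ M K MM a c Am S →
    ∑ q ∈ QQ, ‖Bq X (bq q) σ n q (fun _ x => lam q x)
      (fun a' x => (starRingEnd ℂ) (f2f MM a (tp K (cq q c)) σ q a' x))‖ ≤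
      C * (Real.log X) ^ 2 * Λ0 * Am * Real.sqrt S * (1 + b) * X *
        (Real.sqrt (∑ q ∈ QQ, 1 / ((q : ℝ) * (hq q n : ℝ) ^ (1 / 4 : ℝ))) +
          (X : ℝ) ^ (-(τ / 10))) + 1 := by
  obtain ⟨C, hC, h1⟩ := lam_two_g
  refine ⟨C, hC, ?_⟩
  intro th e τ A1 hpar
  obtain ⟨X0, hX0⟩ := h1 th e τ A1 hpar
  obtain ⟨X1, hX1⟩ := j2_std th e τ A1 hpar
  refine ⟨max X0 X1, ?_⟩
  intro X hX n b N σ QQ bq hn1 hnX hstd lam Λ0 hlam hΛ0 hΛX hlb M Am S K MM a c hAm hAmX hS hSX hblk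
  obtain ⟨-, -, -, -, -, -, -, hqq⟩ := hX1 X ((le_max_right _ _).trans hX) X b N σ QQ bq hstd
  have h2 := hX0 X ((le_max_left _ _).trans hX) (fun q => q - n % q) b N σ QQ bq hstd
    (fun q hqm => by
      obtain ⟨hq1, hqX, -⟩ := hqq q hqm
      have hmod := Nat.mod_lt n (show 0 < q by omega)
      constructor
      · show 1 ≤ q - n % q
        omega
      · show q - n % q ≤ X
        omega)
    (fun q x => (starRingEnd ℂ) (lam q x) * ee (σ * ((n + (q - n % q) : ℕ) : ℝ) * x)) Λ0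
    (fun q => (Complex.continuous_conj.comp (hlam q)).mul
      (cont_ee'.comp (continuous_const.mul continuous_id))) hΛ0 hΛX
    (fun q hqm x => by
      rw [norm_mul, norm_ee, mul_one, RCLike.norm_conj]
      exact hlb q hqm x) M Am S K MM a c hAm hAmX hS hSX hblk
  have e1 : ∀ q ∈ QQ, ‖Bq X (bq q) σ n q (fun _ x => lam q x)
      (fun a' x => (starRingEnd ℂ) (f2f MM a (tp K (cq q c)) σ q a' x))‖ =
      ‖Bq X (bq q) σ (q - n % q) q (fun _ x => (starRingEnd ℂ) (lam q x) *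
        ee (σ * ((n + (q - n % q) : ℕ) : ℝ) * x)) (f2f MM a (tp K (cq q c)) σ q)‖ := by
    intro q hqm
    rw [← bq_conj X (bq q) σ n q (hqq q hqm).1 (lam q), RCLike.norm_conj]
  have e2 : ∀ q ∈ QQ, 1 / ((q : ℝ) * (hq q n : ℝ) ^ (1 / 4 : ℝ)) =
      1 / ((q : ℝ) * (hq q (q - n % q) : ℝ) ^ (1 / 4 : ℝ)) := by
    intro q hqm
    rw [hq_neg q n (hqq q hqm).1]
  rw [Finset.sum_congr rfl e1, Finset.sum_congr rfl e2]
  exact h2

end Pool.Agent.Lib.MP_e3f158_nt.TL
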