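import Pool.Agent.Lib.MP_dd84fd_nt.JX.LvOne
import Pool.Agent.Lib.MP_e3f158_nt.TL.Defs

/-!
# TL-LvG (0.6 h): type II against type II for one modulus, general functions `F1`, `F2`

Port of `HXP.h2_one` (`HX/PlTwo.lean`) and `JXP.lv_one` (`JX/LvOne.lean`) with general continuous functions
`F1, F2` of period 1 for `tp K_i c_i` (the library lemmas `one_q`, `cvf_struct`, `cvf_eq`, `Bq_eq`, `lv_split`,
`fq_cvf_norm`, `alm_le`, `fq_parseval` are already general) and without `X < 2 n`: `1 + β` is replaced by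
`1 + |ρ| = 1 + n β / X` in the denominators (`|ρ| ≤ β` as `n ≤ X`).  In `lv_one_g` the bound of the coefficients
`fq` (in `lv_one` from `fq_tp_tail`) is a hypothesis.
-/

set_option autoImplicit false

namespace Pool.Agent.Lib.MP_e3f158_nt.TL

open Finset Pool.MP_67663b_nt.Odd Pool.MP_dd84fd_nt.PL Pool.MP_dd84fd_nt.HX Pool.MP_dd84fd_nt.HXP
  Pool.MP_dd84fd_nt.JXP

private theorem f2f_cont_g (MM : Finset ℕ) (a : ℕ → ℂ) (F : ℝ → ℂ) (hF : Continuous F) (σ : ℝ) (q a' : ℕ) :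
    Continuous (f2f MM a F σ q a') := by
  unfold f2f
  refine continuous_finsetSum _ fun m _ => ?_
  refine continuous_const.mul (hF.comp ?_)
  fun_prop

theorem h2_one_g : ∃ C : ℝ, 0 < C ∧ ∀ (X n q : ℕ) [NeZero q] (β σ : ℝ), 1 ≤ X → n ≤ X →
    0 < β → (σ = 1 ∨ σ = -1) → ∀ (M1 M2 Am : ℝ) (MM1 MM2 : Finset ℕ) (a1 a2 : ℕ → ℂ)
    (F1 F2 : ℝ → ℂ), Continuous F1 → Continuous F2 → (∀ x, F1 (x + 1) = F1 x) →
    (∀ x, F2 (x + 1) = F2 x) → 1 ≤ M1 → 1 ≤ M2 → 0 ≤ Am →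
    (∀ m ∈ MM1, M1 < (m : ℝ) ∧ (m : ℝ) ≤ 2 * M1) → (∀ m ∈ MM2, M2 < (m : ℝ) ∧ (m : ℝ) ≤ 2 * M2) →
    (∀ m ∈ MM1, ‖a1 m‖ ≤ Am) → (∀ m ∈ MM2, ‖a2 m‖ ≤ Am) →
    ∀ (Bs Bd : ℝ) (J : ℕ), (∀ x, ‖F1 x‖ ≤ Bs) → (∀ x, ‖F2 x‖ ≤ Bs) →
    2 * M1 * Am * Bs ≤ Bd → 2 * M2 * Am * Bs ≤ Bd → 1 ≤ J → 8 * β ≤ J →
    ‖Bq X β σ n q (f2f MM1 a1 F1 σ q) (f2f MM2 a2 F2 σ q)‖ ≤
      β / X * (C * (1 + Real.log J) * ltK (hq q n) *
        (Real.sqrt (∑ r ∈ rr q, ∫ t in (0 : ℝ)..1,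
            ‖F1 ((r : ℝ) / q + σ * (M1 * (β / X)) * Real.exp (2 * Int.fract t))‖ ^ 2) *
          Real.sqrt (∑ r ∈ rr q, ∫ t in (0 : ℝ)..1,
            ‖F2 ((r : ℝ) / q + σ * (M2 * (β / X)) * Real.exp (2 * Int.fract t))‖ ^ 2)) *
        (Am ^ 2 * (Real.sqrt (M1 * (hq q n * (1 + n * β / X) + M1)) *
          Real.sqrt (M2 * (hq q n * (1 + n * β / X) + M2))) / Real.sqrt (1 + n * β / X)) +
      C * Nat.totient q * Bd ^ 2 / Real.sqrt J) := by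
  obtain ⟨C0, hC0, h0⟩ := one_q
  obtain ⟨C1, hC1, h1⟩ := cvf_struct
  refine ⟨C0 * (1 + 2 * C1), by positivity, ?_⟩
  intro X n q _ β σ hX hn hβ hσ M1 M2 Am MM1 MM2 a1 a2 F1 F2 hF1 hF2 hp1 hp2 hM1 hM2 hAm hMM1 hMM2 ha1 ha2
    Bs Bd J hBs1 hBs2 hMB1 hMB2 hJ hβJ
  have hX0 : (0 : ℝ) < X := by exact_mod_cast hX
  have hq1 : 1 ≤ q := Nat.pos_of_ne_zero (NeZero.ne q)
  have hd : hq q n ∣ q := Nat.div_dvd_of_dvd (Nat.gcd_dvd_left q n)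
  have hh1 : 1 ≤ hq q n := by
    unfold hq
    exact Nat.div_pos (Nat.le_of_dvd hq1 (Nat.gcd_dvd_left q n)) (Nat.gcd_pos_of_pos_left _ hq1)
  have : NeZero (hq q n) := ⟨by omega⟩
  have hBs0 : 0 ≤ Bs := (norm_nonneg _).trans (hBs1 0)
  have hBd0 : 0 ≤ Bd := le_trans (by positivity) hMB1
  set r1 := σ * (M1 * (β / X)) with hr1
  set r2 := σ * (M2 * (β / X)) with hr2
  obtain ⟨hgm1, hgb1, α1, β1, hα1, hβ1, hab1, hcos1, hsum1, hts1⟩ :=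
    h1 q (hq q n) hd M1 Am r1 MM1 a1 F1 Bs hM1 hAm hMM1 ha1 hF1 hBs1
  obtain ⟨hgm2, hgb2, α2, β2, hα2, hβ2, hab2, hcos2, hsum2, hts2⟩ :=
    h1 q (hq q n) hd M2 Am r2 MM2 a2 F2 Bs hM2 hAm hMM2 ha2 hF2 hBs2
  -- rewrite Bq
  have e1 := Bq_eq X hX β σ hβ n q (f2f MM1 a1 F1 σ q) (f2f MM2 a2 F2 σ q)
    (cvf q MM1 a1 M1 r1 F1) (cvf q MM2 a2 M2 r2 F2)
    (fun a' => f2f_cont_g MM1 a1 F1 hF1 σ q a')
    (fun a' => f2f_cont_g MM2 a2 F2 hF2 σ q a')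
    (by
      intro a' _ t ht ht'
      rw [hr1]
      exact cvf_eq q MM1 a1 M1 (β / X) σ F1 (by linarith) hMM1 hp1 a' t ht ht')
    (by
      intro a' _ t ht ht'
      rw [hr2]
      exact cvf_eq q MM2 a2 M2 (β / X) σ F2 (by linarith) hMM2 hp2 a' t ht ht')
  rw [e1, norm_mul, Complex.norm_real, Real.norm_of_nonneg (by positivity)]
  refine mul_le_mul_of_nonneg_left ?_ (by positivity)
  set ρ : ℝ := -((n : ℝ) * σ * β / X) with hρ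
  have hρe : |ρ| = n * β / X := by
    rw [hρ, abs_neg, abs_div, abs_mul, abs_mul, abs_of_pos hX0, abs_of_pos hβ,
      abs_of_nonneg (Nat.cast_nonneg n)]
    have hs1 : |σ| = 1 := by rcases hσ with h | h <;> rw [h] <;> norm_num
    rw [hs1, mul_one]
  have hρa : |ρ| ≤ β := by
    rw [hρe, div_le_iff₀ hX0]
    have : (n : ℝ) ≤ X := by exact_mod_cast hn
    nlinarith
  have h2 := h0 q (hq q n) n rfl hd (cvf q MM1 a1 M1 r1 F1) (cvf q MM2 a2 M2 r2 F2)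
    Bd hBd0 hgm1 hgm2 (fun y t => (hgb1 y t).trans hMB1) (fun y t => (hgb2 y t).trans hMB2)
    α1 β1 α2 β2 hα1 hβ1 hα2 hβ2 hab1 hab2
    (C1 * Am ^ 2 * M1 * Nat.totient (hq q n)) (C1 * Am ^ 2 * M1 * M1)
    (C1 * Am ^ 2 * M2 * Nat.totient (hq q n)) (C1 * Am ^ 2 * M2 * M2)
    ((1 / (Nat.totient q : ℝ)) *
        ∑ y ∈ univ.filter (fun y : ZMod q => IsUnit y), ∫ t in (0 : ℝ)..1,
          ‖Bt q F1 r1 y t‖ ^ 2)
    ((1 / (Nat.totient q : ℝ)) *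
        ∑ y ∈ univ.filter (fun y : ZMod q => IsUnit y), ∫ t in (0 : ℝ)..1,
          ‖Bt q F2 r2 y t‖ ^ 2)
    (by positivity) (by positivity) (by positivity) (by positivity)
    (fun T hT χ k => (hcos1 T hT χ k).trans (le_of_eq (by ring)))
    (fun T hT χ k => (hcos2 T hT χ k).trans (le_of_eq (by ring)))
    hsum1 hts1 hsum2 hts2 ρ J hJ (by linarith [abs_nonneg ρ])
  refine h2.trans ?_
  rw [← hρe]
  have hsu : ∀ (F : ℝ → ℂ) (r : ℝ), ∑ y ∈ univ.filter (fun y : ZMod q => IsUnit y),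
      ∫ t in (0 : ℝ)..1, ‖Bt q F r y t‖ ^ 2 = ∑ r' ∈ rr q, ∫ t in (0 : ℝ)..1,
    ‖F ((r' : ℝ) / q + r * Real.exp (2 * Int.fract t))‖ ^ 2 := by
    intro F r
    rw [← sum_units q (fun r' : ℕ => ∫ t in (0 : ℝ)..1,
      ‖F ((r' : ℝ) / q + r * Real.exp (2 * Int.fract t))‖ ^ 2)]
    rfl
  rw [hsu F1 r1, hsu F2 r2]
  set Z1 := ∑ r' ∈ rr q, ∫ t in (0 : ℝ)..1,
    ‖F1 ((r' : ℝ) / q + r1 * Real.exp (2 * Int.fract t))‖ ^ 2 with hZ1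
  set Z2 := ∑ r' ∈ rr q, ∫ t in (0 : ℝ)..1,
    ‖F2 ((r' : ℝ) / q + r2 * Real.exp (2 * Int.fract t))‖ ^ 2 with hZ2
  have hZ10 : 0 ≤ Z1 := by
    rw [hZ1]
    refine Finset.sum_nonneg fun r' _ => ?_
    refine intervalIntegral.integral_nonneg (by norm_num) fun t _ => by positivity
  have hZ20 : 0 ≤ Z2 := by
    rw [hZ2]
    refine Finset.sum_nonneg fun r' _ => ?_
    refine intervalIntegral.integral_nonneg (by norm_num) fun t _ => by positivity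
  have hφ : (0 : ℝ) < Nat.totient q := by exact_mod_cast Nat.totient_pos.2 hq1
  have hφh : (0 : ℝ) < Nat.totient (hq q n) := by exact_mod_cast Nat.totient_pos.2 hh1
  have hφh' : (Nat.totient (hq q n) : ℝ) ≤ hq q n := by exact_mod_cast Nat.totient_le _
  have hh0 : (0 : ℝ) ≤ hq q n := Nat.cast_nonneg _
  have e2 : (Nat.totient q : ℝ) * Real.sqrt (1 / (Nat.totient q : ℝ) * Z1 *
      (1 / (Nat.totient q : ℝ) * Z2)) = Real.sqrt Z1 * Real.sqrt Z2 := by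
    have e3 : 1 / (Nat.totient q : ℝ) * Z1 * (1 / (Nat.totient q : ℝ) * Z2) =
        (1 / (Nat.totient q : ℝ)) ^ 2 * (Z1 * Z2) := by ring
    rw [e3, Real.sqrt_mul (by positivity), Real.sqrt_sq (by positivity), Real.sqrt_mul hZ10]
    field_simp
  have hp : (0 : ℝ) < 1 + |ρ| := by positivity
  have e3 : Real.sqrt ((C1 * Am ^ 2 * M1 * Nat.totient (hq q n) * (1 + |ρ|) + C1 * Am ^ 2 * M1 * M1) *
      (C1 * Am ^ 2 * M2 * Nat.totient (hq q n) * (1 + |ρ|) + C1 * Am ^ 2 * M2 * M2)) /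
        Real.sqrt (1 + |ρ|) ≤
      2 * C1 * (Am ^ 2 * (Real.sqrt (M1 * (hq q n * (1 + |ρ|) + M1)) *
          Real.sqrt (M2 * (hq q n * (1 + |ρ|) + M2))) / Real.sqrt (1 + |ρ|)) := by
    have e4 : (C1 * Am ^ 2 * M1 * Nat.totient (hq q n) * (1 + |ρ|) + C1 * Am ^ 2 * M1 * M1) *
      (C1 * Am ^ 2 * M2 * Nat.totient (hq q n) * (1 + |ρ|) + C1 * Am ^ 2 * M2 * M2) =
      (C1 * Am ^ 2) ^ 2 * ((M1 * (Nat.totient (hq q n) * (1 + |ρ|) + M1)) *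
        (M2 * (Nat.totient (hq q n) * (1 + |ρ|) + M2))) := by ring
    rw [e4, Real.sqrt_mul (by positivity), Real.sqrt_sq (by positivity), Real.sqrt_mul (by positivity)]
    have m1 : ∀ M : ℝ, 1 ≤ M → Real.sqrt (M * (Nat.totient (hq q n) * (1 + |ρ|) + M)) ≤
        Real.sqrt (M * (hq q n * (1 + |ρ|) + M)) := by
      intro M hM
      refine Real.sqrt_le_sqrt (mul_le_mul_of_nonneg_left (add_le_add ?_ le_rfl) (by linarith))
      exact mul_le_mul_of_nonneg_right hφh' hp.le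
    have m2 : 1 / Real.sqrt (1 + |ρ|) ≤ 2 / Real.sqrt (1 + |ρ|) := by
      exact div_le_div_of_nonneg_right (by norm_num) (Real.sqrt_nonneg _)
    have hA2 : 0 ≤ C1 * Am ^ 2 := by positivity
    calc C1 * Am ^ 2 * (Real.sqrt (M1 * (Nat.totient (hq q n) * (1 + |ρ|) + M1)) *
          Real.sqrt (M2 * (Nat.totient (hq q n) * (1 + |ρ|) + M2))) / Real.sqrt (1 + |ρ|)
        = C1 * Am ^ 2 * (Real.sqrt (M1 * (Nat.totient (hq q n) * (1 + |ρ|) + M1)) *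
          Real.sqrt (M2 * (Nat.totient (hq q n) * (1 + |ρ|) + M2))) * (1 / Real.sqrt (1 + |ρ|)) := by
          ring
      _ ≤ C1 * Am ^ 2 * (Real.sqrt (M1 * (hq q n * (1 + |ρ|) + M1)) *
          Real.sqrt (M2 * (hq q n * (1 + |ρ|) + M2))) * (2 / Real.sqrt (1 + |ρ|)) := by
          refine mul_le_mul (mul_le_mul_of_nonneg_left (mul_le_mul (m1 M1 hM1) (m1 M2 hM2)
            (Real.sqrt_nonneg _) (Real.sqrt_nonneg _)) hA2) m2 (by positivity) (by positivity)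
      _ = _ := by ring
  have hlog : 0 ≤ Real.log J := Real.log_nonneg (by exact_mod_cast hJ)
  have hκ0 : 0 ≤ ltK (hq q n) := ltK_nonneg _
  set E := Am ^ 2 * (Real.sqrt (M1 * (hq q n * (1 + |ρ|) + M1)) *
          Real.sqrt (M2 * (hq q n * (1 + |ρ|) + M2))) / Real.sqrt (1 + |ρ|) with hE
  have hE0 : 0 ≤ E := by positivity
  refine add_le_add ?_ ?_
  · have e5 : C0 * (1 + Real.log J) *
        (Real.sqrt ((hq q n : ℝ) * (hq q n).divisors.card) / Nat.totient (hq q n)) *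
        Nat.totient q * Real.sqrt (1 / (Nat.totient q : ℝ) * Z1 * (1 / (Nat.totient q : ℝ) * Z2)) *
        Real.sqrt ((C1 * Am ^ 2 * M1 * Nat.totient (hq q n) * (1 + |ρ|) + C1 * Am ^ 2 * M1 * M1) *
          (C1 * Am ^ 2 * M2 * Nat.totient (hq q n) * (1 + |ρ|) + C1 * Am ^ 2 * M2 * M2)) /
        Real.sqrt (1 + |ρ|) = (C0 * (1 + Real.log J) * ltK (hq q n) *
        (Nat.totient q * Real.sqrt (1 / (Nat.totient q : ℝ) * Z1 * (1 / (Nat.totient q : ℝ) * Z2)))) *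
        (Real.sqrt ((C1 * Am ^ 2 * M1 * Nat.totient (hq q n) * (1 + |ρ|) + C1 * Am ^ 2 * M1 * M1) *
          (C1 * Am ^ 2 * M2 * Nat.totient (hq q n) * (1 + |ρ|) + C1 * Am ^ 2 * M2 * M2)) /
        Real.sqrt (1 + |ρ|)) := by
      unfold ltK
      ring
    rw [e5, e2]
    have h4 : 0 ≤ C0 * (1 + Real.log J) * ltK (hq q n) * (Real.sqrt Z1 * Real.sqrt Z2) := by
      positivity
    refine (mul_le_mul_of_nonneg_left e3 h4).trans ?_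
    nlinarith [mul_nonneg h4 hE0]
  · have h6 : 0 ≤ C0 * Nat.totient q * Bd ^ 2 / Real.sqrt J := by positivity
    have e7 : C0 * (1 + 2 * C1) * Nat.totient q * Bd ^ 2 / Real.sqrt J =
      (1 + 2 * C1) * (C0 * Nat.totient q * Bd ^ 2 / Real.sqrt J) := by ring
    rw [e7]
    nlinarith

theorem lv_one_g (k : ℕ) (hk : 1 ≤ k) : ∃ C : ℝ, 0 < C ∧ ∀ (X n q : ℕ) [NeZero q] (β σ : ℝ),
    16 ≤ X → n ≤ X → 0 < β → β ≤ 2 * X → q ≤ X → (σ = 1 ∨ σ = -1) →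
    ∀ (M1 M2 Am : ℝ) (MM1 MM2 : Finset ℕ) (a1 a2 : ℕ → ℂ) (F1 F2 : ℝ → ℂ),
    Continuous F1 → Continuous F2 → (∀ x, F1 (x + 1) = F1 x) → (∀ x, F2 (x + 1) = F2 x) →
    1 ≤ M1 → 1 ≤ M2 → M1 ≤ X → M2 ≤ X → 0 < Am → Am ≤ X →
    (∀ m ∈ MM1, M1 < (m : ℝ) ∧ (m : ℝ) ≤ 2 * M1) → (∀ m ∈ MM2, M2 < (m : ℝ) ∧ (m : ℝ) ≤ 2 * M2) →
    (∀ m ∈ MM1, ‖a1 m‖ ≤ Am) → (∀ m ∈ MM2, ‖a2 m‖ ≤ Am) →
    (∀ x, ‖F1 x‖ ≤ 2 * (X : ℝ) ^ 2) → (∀ x, ‖F2 x‖ ≤ 2 * (X : ℝ) ^ 2) →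
    (∀ p : DirichletCharacter ℂ q × ℤ, p.2 ≠ 0 →
      ‖fq q (Bt q F1 (σ * (M1 * (β / X)))) p.1 p.2‖ ≤ 100 * (X : ℝ) ^ 4 / |(p.2 : ℝ)|) →
    (∀ p : DirichletCharacter ℂ q × ℤ, p.2 ≠ 0 →
      ‖fq q (Bt q F2 (σ * (M2 * (β / X)))) p.1 p.2‖ ≤ 100 * (X : ℝ) ^ 4 / |(p.2 : ℝ)|) →
    ∀ (v D : ℝ), 0 < v → v ≤ 1 → 1 ≤ D →
    (∀ m : ℕ, 1 ≤ m → (m : ℝ) ≤ (2 * M1) ^ k → (m.divisors.card : ℝ) ^ k ≤ D) →
    (∀ m : ℕ, 1 ≤ m → (m : ℝ) ≤ (2 * M2) ^ k → (m.divisors.card : ℝ) ^ k ≤ D) →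
    (hq q n : ℝ) * (1 + β) ≤ M1 ^ k → (hq q n : ℝ) * (1 + β) ≤ M2 ^ k →
    ‖Bq X β σ n q (f2f MM1 a1 F1 σ q) (f2f MM2 a2 F2 σ q)‖ ≤
      C * Real.log X * (β / X) * Am ^ 2 * (M1 * M2) *
        (Real.sqrt (∑ r ∈ rr q, ∫ t in (0 : ℝ)..1,
            ‖F1 ((r : ℝ) / q + σ * (M1 * (β / X)) * Real.exp (2 * Int.fract t))‖ ^ 2) *
          Real.sqrt (∑ r ∈ rr q, ∫ t in (0 : ℝ)..1,
            ‖F2 ((r : ℝ) / q + σ * (M2 * (β / X)) * Real.exp (2 * Int.fract t))‖ ^ 2)) *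
        (ltK (hq q n) / Real.sqrt (1 + n * β / X) * (D ^ 2 / v ^ (2 * k)) + v) +
        C / (X : ℝ) ^ 3 := by
  obtain ⟨C0, hC0, h0⟩ := lv_split
  obtain ⟨C1, hC1, h1⟩ := lv_coset k hk
  refine ⟨C0 * (4000 + 3300 * C1), by positivity, ?_⟩
  intro X n q _ β σ hX16 hn hβ hβX hqX hσ M1 M2 Am MM1 MM2 a1 a2 F1 F2 hF1 hF2 hpe1 hpe2 hM1 hM2 hM1X hM2X
    hAm hAmX hMM1 hMM2 ha1 ha2 hBs1 hBs2 hW1 hW2 v D hv hv1 hD hD1 hD2 hhM1 hhM2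
  have hX16' : (16 : ℝ) ≤ X := by exact_mod_cast hX16
  have hX : 1 ≤ X := by omega
  have hX0 : (0 : ℝ) < X := by linarith
  have hX1' : (1 : ℝ) ≤ X := by linarith
  have hL1 : 1 ≤ Real.log X := by
    rw [Real.le_log_iff_exp_le hX0]
    linarith [Real.exp_one_lt_d9]
  have hq1 : 1 ≤ q := Nat.pos_of_ne_zero (NeZero.ne q)
  have hqR : (1 : ℝ) ≤ q := by exact_mod_cast hq1
  have hqXR : (q : ℝ) ≤ X := by exact_mod_cast hqX
  have hd : hq q n ∣ q := Nat.div_dvd_of_dvd (Nat.gcd_dvd_left q n)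
  have hh1 : 1 ≤ hq q n := by
    unfold hq
    exact Nat.div_pos (Nat.le_of_dvd hq1 (Nat.gcd_dvd_left q n)) (Nat.gcd_pos_of_pos_left _ hq1)
  have : NeZero (hq q n) := ⟨by omega⟩
  have hM10 : 0 < M1 := by linarith
  have hM20 : 0 < M2 := by linarith
  obtain ⟨r1, hr1⟩ : ∃ r : ℝ, r = σ * (M1 * (β / X)) := ⟨_, rfl⟩
  obtain ⟨r2, hr2⟩ : ∃ r : ℝ, r = σ * (M2 * (β / X)) := ⟨_, rfl⟩
  have hσ1 : |σ| = 1 := by
    rcases hσ with h | h <;> rw [h] <;> simp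
  -- counting
  have hcount : ∀ (M : ℝ) (MM : Finset ℕ) (a : ℕ → ℂ), 1 ≤ M →
      (∀ m ∈ MM, M < (m : ℝ) ∧ (m : ℝ) ≤ 2 * M) → (∀ m ∈ MM, ‖a m‖ ≤ Am) →
      (∀ m : ℕ, 1 ≤ m → (m : ℝ) ≤ (2 * M) ^ k → (m.divisors.card : ℝ) ^ k ≤ D) →
      ∀ T : ℕ, 1 ≤ T → ∀ (χ : DirichletCharacter ℂ q) (j0 : ℤ),
      ∑ ξ : DirichletCharacter ℂ (hq q n), ∑ j ∈ Icc (j0 - T) (j0 + T),
        (if v * Am * M < ‖alm q MM a M (DirichletCharacter.changeLevel hd ξ * χ, j)‖ then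
          (1 : ℝ) else 0) ≤
        (C1 * (Am / (v * Am * M)) ^ (2 * k) * D ^ 2 * M ^ k * Nat.totient (hq q n)) * T +
          C1 * (Am / (v * Am * M)) ^ (2 * k) * D ^ 2 * M ^ k * M ^ k := by
    intro M MM a hM hMM ha hDM T hT χ j0
    have h2 := h1 q (hq q n) hd M Am (v * Am * M) D (MM.filter (fun m => Nat.Coprime m q))
      (fun m => (starRingEnd ℂ) (a m)) χ j0 T hM hT hAm.le (by positivity) hD
      (fun m hm => hMM m (Finset.mem_filter.1 hm).1)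
      (fun m hm => by rw [RCLike.norm_conj]; exact ha m (Finset.mem_filter.1 hm).1) hDM
    unfold alm
    exact h2.trans (le_of_eq (by ring))
  -- rewrite Bq
  have e1 := Bq_eq X hX β σ hβ n q (f2f MM1 a1 F1 σ q) (f2f MM2 a2 F2 σ q)
    (cvf q MM1 a1 M1 r1 F1) (cvf q MM2 a2 M2 r2 F2)
    (fun a' => f2f_cont_g MM1 a1 F1 hF1 σ q a')
    (fun a' => f2f_cont_g MM2 a2 F2 hF2 σ q a')
    (by
      intro a' _ t ht ht'
      rw [hr1]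
      exact cvf_eq q MM1 a1 M1 (β / X) σ F1 (by linarith) hMM1 hpe1 a' t ht ht')
    (by
      intro a' _ t ht ht'
      rw [hr2]
      exact cvf_eq q MM2 a2 M2 (β / X) σ F2 (by linarith) hMM2 hpe2 a' t ht ht')
  rw [e1, norm_mul, Complex.norm_real, Real.norm_of_nonneg (by positivity)]
  set ρ : ℝ := -((n : ℝ) * σ * β / X) with hρ
  have hρe : |ρ| = n * β / X := by
    rw [hρ, abs_neg, abs_div, abs_mul, abs_mul, abs_of_pos hX0, abs_of_pos hβ,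
      abs_of_nonneg (Nat.cast_nonneg n), hσ1, mul_one]
  have hρa : |ρ| ≤ β := by
    rw [hρe, div_le_iff₀ hX0]
    have : (n : ℝ) ≤ X := by exact_mod_cast hn
    nlinarith
  obtain ⟨C3, hC3, hstr⟩ := cvf_struct
  obtain ⟨hgm1, hgb1, -⟩ :=
    hstr q (hq q n) hd M1 Am r1 MM1 a1 F1 _ hM1 hAm.le hMM1 ha1 hF1 hBs1
  obtain ⟨hgm2, hgb2, -⟩ :=
    hstr q (hq q n) hd M2 Am r2 MM2 a2 F2 _ hM2 hAm.le hMM2 ha2 hF2 hBs2
  have hBd : ∀ M : ℝ, 0 < M → M ≤ X → 2 * M * Am * (2 * (X : ℝ) ^ 2) ≤ 4 * (X : ℝ) ^ 4 := by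
    intro M hM hMX
    calc 2 * M * Am * (2 * (X : ℝ) ^ 2) ≤ 2 * X * X * (2 * (X : ℝ) ^ 2) := by gcongr
      _ = 4 * (X : ℝ) ^ 4 := by ring
  have hpar : ∀ (F : ℝ → ℂ) (r : ℝ), Continuous F → (∀ x, ‖F x‖ ≤ 2 * (X : ℝ) ^ 2) →
      HasSum (fun p : DirichletCharacter ℂ q × ℤ => ‖fq q (Bt q F r) p.1 p.2‖ ^ 2)
      ((1 / (Nat.totient q : ℝ)) * ∑ r' ∈ rr q, ∫ t in (0 : ℝ)..1,
        ‖F ((r' : ℝ) / q + r * Real.exp (2 * Int.fract t))‖ ^ 2) := by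
    intro F r hF hFB
    have hm : ∀ y : ZMod q, Measurable (Bt q F r y) := by
      intro y
      unfold Bt
      refine hF.measurable.comp ?_
      refine measurable_const.add (measurable_const.mul ?_)
      exact Real.measurable_exp.comp (measurable_const.mul measurable_fract)
    have h3 := fq_parseval q (Bt q F r) (2 * (X : ℝ) ^ 2) hm (fun y t => hFB _)
    have h4 : ∑ y ∈ univ.filter (fun y : ZMod q => IsUnit y),
        ∫ t in (0 : ℝ)..1, ‖Bt q F r y t‖ ^ 2 = ∑ r' ∈ rr q, ∫ t in (0 : ℝ)..1,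
        ‖F ((r' : ℝ) / q + r * Real.exp (2 * Int.fract t))‖ ^ 2 := by
      rw [← sum_units q (fun r' : ℕ => ∫ t in (0 : ℝ)..1,
        ‖F ((r' : ℝ) / q + r * Real.exp (2 * Int.fract t))‖ ^ 2)]
      rfl
    rwa [h4] at h3
  obtain ⟨Z1, hZ1⟩ : ∃ Z : ℝ, Z = ∑ r' ∈ rr q, ∫ t in (0 : ℝ)..1,
    ‖F1 ((r' : ℝ) / q + r1 * Real.exp (2 * Int.fract t))‖ ^ 2 := ⟨_, rfl⟩
  obtain ⟨Z2, hZ2⟩ : ∃ Z : ℝ, Z = ∑ r' ∈ rr q, ∫ t in (0 : ℝ)..1,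
    ‖F2 ((r' : ℝ) / q + r2 * Real.exp (2 * Int.fract t))‖ ^ 2 := ⟨_, rfl⟩
  have hp1 := hpar F1 r1 hF1 hBs1
  have hp2 := hpar F2 r2 hF2 hBs2
  rw [← hZ1] at hp1
  rw [← hZ2] at hp2
  have hφ : (0 : ℝ) < Nat.totient q := by exact_mod_cast Nat.totient_pos.2 hq1
  have hφq : (Nat.totient q : ℝ) ≤ q := by exact_mod_cast Nat.totient_le q
  have hφX : (Nat.totient q : ℝ) ≤ X := hφq.trans hqXR
  have hcardrr : ((rr q).card : ℝ) ≤ Nat.totient q := by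
    have h3 : ∑ y ∈ univ.filter (fun y : ZMod q => IsUnit y), (1 : ℝ) = ∑ r' ∈ rr q, (1 : ℝ) := by
      rw [← sum_units q (fun _ : ℕ => (1 : ℝ))]
    rw [Finset.sum_const, Finset.sum_const, nsmul_eq_mul, nsmul_eq_mul, mul_one, mul_one] at h3
    rw [← h3]
    have h4 : (univ.filter (fun y : ZMod q => IsUnit y)).card = Nat.totient q := by
      rw [← ZMod.card_units_eq_totient, ← Finset.card_univ,
        ← Finset.card_map ⟨((↑) : (ZMod q)ˣ → ZMod q), Units.val_injective⟩]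
      congr 1
      ext x
      simp only [Finset.mem_filter, Finset.mem_univ, true_and, Finset.mem_map,
        Function.Embedding.coeFn_mk]
      rfl
    rw [h4]
  have hZle : ∀ (F : ℝ → ℂ) (r : ℝ), Continuous F → (∀ x, ‖F x‖ ≤ 2 * (X : ℝ) ^ 2) →
      ∑ r' ∈ rr q, ∫ t in (0 : ℝ)..1,
        ‖F ((r' : ℝ) / q + r * Real.exp (2 * Int.fract t))‖ ^ 2 ≤
        Nat.totient q * (2 * (X : ℝ) ^ 2) ^ 2 := by
    intro F r hF hFB
    calc ∑ r' ∈ rr q, ∫ t in (0 : ℝ)..1,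
        ‖F ((r' : ℝ) / q + r * Real.exp (2 * Int.fract t))‖ ^ 2 ≤
        ∑ _r' ∈ rr q, (2 * (X : ℝ) ^ 2) ^ 2 := by
          refine Finset.sum_le_sum fun r' _ => ?_
          have h3 := intervalIntegral.norm_integral_le_of_norm_le_const (a := (0 : ℝ)) (b := 1)
            (C := (2 * (X : ℝ) ^ 2) ^ 2)
            (f := fun t => ‖F ((r' : ℝ) / q + r * Real.exp (2 * Int.fract t))‖ ^ 2)
            (fun t _ => by
              rw [Real.norm_of_nonneg (by positivity)]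
              exact pow_le_pow_left₀ (norm_nonneg _) (hFB _) 2)
          rw [sub_zero, abs_one, mul_one] at h3
          exact (le_abs_self _).trans h3
      _ = (rr q).card * (2 * (X : ℝ) ^ 2) ^ 2 := by rw [Finset.sum_const, nsmul_eq_mul]
      _ ≤ _ := mul_le_mul_of_nonneg_right hcardrr (by positivity)
  have hZ1le := hZle F1 r1 hF1 hBs1
  have hZ2le := hZle F2 r2 hF2 hBs2
  rw [← hZ1] at hZ1le
  rw [← hZ2] at hZ2le
  have hZ10 : 0 ≤ Z1 := by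
    rw [hZ1]
    refine Finset.sum_nonneg fun r' _ => ?_
    refine intervalIntegral.integral_nonneg (by norm_num) fun t _ => by positivity
  have hZ20 : 0 ≤ Z2 := by
    rw [hZ2]
    refine Finset.sum_nonneg fun r' _ => ?_
    refine intervalIntegral.integral_nonneg (by norm_num) fun t _ => by positivity
  obtain ⟨S1, hS1⟩ : ∃ S : ℝ, S = 1 / (Nat.totient q : ℝ) * Z1 := ⟨_, rfl⟩
  obtain ⟨S2, hS2⟩ : ∃ S : ℝ, S = 1 / (Nat.totient q : ℝ) * Z2 := ⟨_, rfl⟩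
  rw [← hS1] at hp1
  rw [← hS2] at hp2
  have hS10 : 0 ≤ S1 := by rw [hS1]; positivity
  have hS20 : 0 ≤ S2 := by rw [hS2]; positivity
  have hSle : ∀ Z : ℝ, Z ≤ Nat.totient q * (2 * (X : ℝ) ^ 2) ^ 2 →
      1 / (Nat.totient q : ℝ) * Z ≤ (2 * (X : ℝ) ^ 2) ^ 2 := by
    intro Z hZ
    rw [one_div, inv_mul_le_iff₀ hφ]
    exact hZ
  have hsS1 : Real.sqrt S1 ≤ 2 * (X : ℝ) ^ 2 := by
    rw [hS1]
    exact (Real.sqrt_le_sqrt (hSle Z1 hZ1le)).trans (le_of_eq (Real.sqrt_sq (by positivity)))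
  have hsS2 : Real.sqrt S2 ≤ 2 * (X : ℝ) ^ 2 := by
    rw [hS2]
    exact (Real.sqrt_le_sqrt (hSle Z2 hZ2le)).trans (le_of_eq (Real.sqrt_sq (by positivity)))
  have hvA1 : 0 ≤ v * Am * M1 := by positivity
  have hvA2 : 0 ≤ v * Am * M2 := by positivity
  have hJ16 : 8 * |ρ| ≤ ((X ^ 200 : ℕ) : ℝ) := by
    push_cast
    calc 8 * |ρ| ≤ 16 * X := by linarith
      _ ≤ X * X := by nlinarith
      _ = (X : ℝ) ^ 2 := by ring
      _ ≤ (X : ℝ) ^ 200 := pow_le_pow_right₀ hX1' (by norm_num)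
  have h2 := h0 q (hq q n) n rfl hd (cvf q MM1 a1 M1 r1 F1) (cvf q MM2 a2 M2 r2 F2)
    (4 * (X : ℝ) ^ 4) (by positivity) hgm1 hgm2 (fun y t => (hgb1 y t).trans (hBd M1 hM10 hM1X))
    (fun y t => (hgb2 y t).trans (hBd M2 hM20 hM2X))
    (fun p => ‖alm q MM1 a1 M1 p‖) (fun p => ‖fq q (Bt q F1 r1) p.1 p.2‖)
    (fun p => ‖alm q MM2 a2 M2 p‖) (fun p => ‖fq q (Bt q F2 r2) p.1 p.2‖)
    (fun p => norm_nonneg _) (fun p => norm_nonneg _) (fun p => norm_nonneg _)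
    (fun p => norm_nonneg _)
    (fun p => (fq_cvf_norm q MM1 a1 M1 r1 F1 hF1 _ hBs1 p).le)
    (fun p => (fq_cvf_norm q MM2 a2 M2 r2 F2 hF2 _ hBs2 p).le)
    (2 * Am * M1) (v * Am * M1) (2 * Am * M2) (v * Am * M2) hvA1
    (by nlinarith [mul_pos hAm hM10]) hvA2 (by nlinarith [mul_pos hAm hM20])
    (fun p => alm_le q MM1 a1 M1 Am hM1 hAm.le hMM1 ha1 p)
    (fun p => alm_le q MM2 a2 M2 Am hM2 hAm.le hMM2 ha2 p)
    (C1 * (Am / (v * Am * M1)) ^ (2 * k) * D ^ 2 * M1 ^ k * Nat.totient (hq q n))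
    (C1 * (Am / (v * Am * M1)) ^ (2 * k) * D ^ 2 * M1 ^ k * M1 ^ k)
    (C1 * (Am / (v * Am * M2)) ^ (2 * k) * D ^ 2 * M2 ^ k * Nat.totient (hq q n))
    (C1 * (Am / (v * Am * M2)) ^ (2 * k) * D ^ 2 * M2 ^ k * M2 ^ k) S1 S2
    (by positivity) (by positivity) (by positivity) (by positivity)
    (fun T hT χ j0 => hcount M1 MM1 a1 hM1 hMM1 ha1 hD1 T hT χ j0)
    (fun T hT χ j0 => hcount M2 MM2 a2 hM2 hMM2 ha2 hD2 T hT χ j0)
    hp1.summable hp1.tsum_eq.le hp2.summable hp2.tsum_eq.le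
    (100 * (X : ℝ) ^ 4) (by positivity)
    (fun p hp => by rw [hr1]; exact hW1 p hp)
    (fun p hp => by rw [hr2]; exact hW2 p hp)
    ρ (X ^ 40) (X ^ 200) (Nat.one_le_pow _ _ hX) (Nat.one_le_pow _ _ hX) hJ16
  refine (mul_le_mul_of_nonneg_left h2 (by positivity)).trans ?_
  rw [← hr1, ← hr2, ← hZ1, ← hZ2]
  clear h2 hcount e1
  have hφh : (0 : ℝ) < Nat.totient (hq q n) := by exact_mod_cast Nat.totient_pos.2 hh1
  have hφh' : (Nat.totient (hq q n) : ℝ) ≤ hq q n := by exact_mod_cast Nat.totient_le _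
  have hab1 := lo_ab C1 v D M1 Am ρ (Nat.totient (hq q n)) (hq q n) β k hC1 hv hM1 hAm hρa hφh.le
    hφh' hβ hhM1
  have hab2 := lo_ab C1 v D M2 Am ρ (Nat.totient (hq q n)) (hq q n) β k hC1 hv hM2 hAm hρa hφh.le
    hφh' hβ hhM2
  have e2 : (Nat.totient q : ℝ) * Real.sqrt (S1 * S2) = Real.sqrt Z1 * Real.sqrt Z2 := by
    have e3 : S1 * S2 = (1 / (Nat.totient q : ℝ)) ^ 2 * (Z1 * Z2) := by
      rw [hS1, hS2]
      ring
    rw [e3, Real.sqrt_mul (by positivity), Real.sqrt_sq (by positivity), Real.sqrt_mul hZ10]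
    field_simp
  have hlogJ : Real.log ((X ^ 200 : ℕ) : ℝ) = 200 * Real.log X := by
    push_cast
    rw [Real.log_pow]
    norm_num
  have hss : Real.sqrt (1 + |ρ|) ≤ 2 * Real.sqrt (1 + |ρ|) := by
    linarith [Real.sqrt_nonneg (1 + |ρ|)]
  have m1 := lo_main C0 C1 (Real.log X) (ltK (hq q n)) (Nat.totient q) S1 S2
    (Real.sqrt Z1 * Real.sqrt Z2) Am M1 M2 _ _ (D ^ 2 / v ^ (2 * k)) (Real.sqrt (1 + |ρ|))
    (Real.sqrt (1 + |ρ|)) v hC0 hC1 hL1 (ltK_nonneg _) e2 (by positivity) hM10 hM20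
    (by positivity) (by positivity) (by positivity)
    (hab1.trans (le_of_eq (by ring))) (hab2.trans (le_of_eq (by ring)))
    (Real.sqrt_pos.2 (by positivity)) (Real.sqrt_pos.2 (by positivity)) hss hv.le
  have m2 := lo_tail C0 C1 X (Nat.totient q) q Am M1 M2 (Real.sqrt S1) (Real.sqrt S2)
    ((X ^ 40 : ℕ) : ℝ) ((X ^ 200 : ℕ) : ℝ) hC0 hC1 hX1' hφ.le hφX (by linarith) hqXR hAm hAmX hM10
    hM1X hM20 hM2X hsS1 hsS2 (Real.sqrt_nonneg _) (Real.sqrt_nonneg _) (by push_cast; rfl)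
    (by push_cast; rfl)
  rw [hlogJ, ← hρe]
  have hβX2 : β / X ≤ 2 := by
    rw [div_le_iff₀ hX0]
    exact hβX
  have hβX0 : 0 ≤ β / X := by positivity
  have hltK : Real.sqrt ((hq q n : ℝ) * (hq q n).divisors.card) / Nat.totient (hq q n) =
      ltK (hq q n) := rfl
  rw [hltK]
  refine le_trans (le_of_eq ?_) ((add_le_add (mul_le_mul_of_nonneg_left m1 hβX0)
    ((mul_le_mul_of_nonneg_left m2 hβX0).trans (mul_le_mul_of_nonneg_right hβX2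
      (by positivity)))).trans (le_of_eq ?_))
  · ring
  · field_simp
    ring

end Pool.Agent.Lib.MP_e3f158_nt.TL
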