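import Pool.Agent.Lib.MP_dd84fd_nt.JX.PlTwo
import Pool.Agent.Lib.MP_e3f158_nt.TL.LvG

/-!
# TL-TwoT: type II against the conjugate of type II

Port of `JXP.two_q_j`, `JXP.two_two_j` (`JX/PlTwo.lean`).
-/

set_option autoImplicit false

namespace Pool.Agent.Lib.MP_e3f158_nt.TL

open Finset Pool.MP_67663b_nt.Odd Pool.MP_dd84fd_nt.PL Pool.MP_dd84fd_nt.HX Pool.MP_dd84fd_nt.HXP
  Pool.MP_dd84fd_nt.JXP
open Pool.MP_dd84fd_nt.JX (Adm)

/-- Fourier coefficients of the conjugate -/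
private theorem tt_fc (f : ℝ → ℂ) (j : ℤ) :
    fc (fun t => (starRingEnd ℂ) (f t)) j = (starRingEnd ℂ) (fc f (-j)) := by
  unfold fc
  rw [intervalIntegral.integral_of_le zero_le_one, intervalIntegral.integral_of_le zero_le_one,
    ← integral_conj]
  refine MeasureTheory.integral_congr_ae (Filter.Eventually.of_forall fun t => ?_)
  simp only
  rw [map_mul]
  congr 1
  unfold ee
  rw [← Complex.exp_conj]
  congr 1
  rw [map_mul, map_mul, map_mul, Complex.conj_ofReal, Complex.conj_ofReal, Complex.conj_I,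
    Complex.conj_ofNat]
  push_cast
  ring

private theorem tt_fq_conj (q : ℕ) [NeZero q] (B : ℝ → ℂ) (r : ℝ) (χ : DirichletCharacter ℂ q)
    (j : ℤ) : ‖fq q (Bt q (fun x => (starRingEnd ℂ) (B x)) r) χ j‖ = ‖fq q (Bt q B r) χ⁻¹ (-j)‖ := by
  have h1 : fq q (Bt q (fun x => (starRingEnd ℂ) (B x)) r) χ j =
      (starRingEnd ℂ) (fq q (Bt q B r) χ⁻¹ (-j)) := by
    unfold fq
    rw [map_mul, map_sum, map_div₀, map_one, Complex.conj_natCast]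
    congr 1
    refine Finset.sum_congr rfl fun x _ => ?_
    rw [map_mul]
    congr 1
    · have h2 := MulChar.star_apply' χ⁻¹ x
      rw [inv_inv] at h2
      exact h2.symm
    · exact tt_fc (Bt q B r x) j
  rw [h1, RCLike.norm_conj]

private theorem tt_fq (X q : ℕ) [NeZero q] (hX : 16 ≤ X) (K : ℕ) (hK : K ≤ X) (c : ℕ → ℂ)
    (hc : ∑ k ∈ Icc 1 K, ‖c k‖ ≤ 2 * (X : ℝ) ^ 2) (r : ℝ) (hr : |r| ≤ 2 * X)
    (χ : DirichletCharacter ℂ q) (j : ℤ) (hj : j ≠ 0) :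
    ‖fq q (Bt q (tp K c) r) χ j‖ ≤ 100 * (X : ℝ) ^ 4 / |(j : ℝ)| := by
  refine (fq_tp_tail q K c (2 * (X : ℝ) ^ 2) r hc χ j hj).trans ?_
  refine div_le_div_of_nonneg_right ?_ (abs_nonneg _)
  have hX16 : (16 : ℝ) ≤ X := by exact_mod_cast hX
  have hKX : (K : ℝ) ≤ X := by exact_mod_cast hK
  have h1 : 21 * |r| * K ≤ 42 * (X : ℝ) ^ 2 := by
    calc 21 * |r| * K ≤ 21 * (2 * X) * X := by gcongr
      _ = 42 * (X : ℝ) ^ 2 := by ring
  have h2 : (1 : ℝ) ≤ (X : ℝ) ^ 2 := by nlinarith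
  calc 2 * (X : ℝ) ^ 2 * (1 + 21 * |r| * K) ≤ 2 * (X : ℝ) ^ 2 * ((X : ℝ) ^ 2 + 42 * (X : ℝ) ^ 2) :=
        mul_le_mul_of_nonneg_left (by linarith) (by positivity)
    _ = 86 * (X : ℝ) ^ 4 := by ring
    _ ≤ 100 * (X : ℝ) ^ 4 := by
        have : 0 ≤ (X : ℝ) ^ 4 := by positivity
        linarith

private theorem tt_per (C X b β ρ0 ρ φ κ Z1 Z2 Am M1 M2 h L Bd JJ : ℝ) (hC : 0 < C) (hX : 1 ≤ X)
    (hb : 0 < b) (hβ1 : b ≤ β) (hβ2 : β ≤ 2 * b) (hbX : b ≤ X) (hρ0 : 0 ≤ ρ0) (hρ1 : ρ0 ≤ ρ)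
    (hρ2 : ρ ≤ 2 * ρ0)
    (hφ0 : 0 ≤ φ) (hφ : φ ≤ X) (hκ : 0 ≤ κ) (hM1 : 0 ≤ M1) (hM2 : 0 ≤ M2)
    (hh : 0 ≤ h) (hL : 1 ≤ L) (hBd : Bd = 8 * X ^ 4) (hJJ : JJ = X ^ 24) :
    β / X * (C * (1 + 24 * L) * κ * (Real.sqrt Z1 * Real.sqrt Z2) *
        (Am ^ 2 * (Real.sqrt (M1 * (h * (1 + ρ) + M1)) * Real.sqrt (M2 * (h * (1 + ρ) + M2))) /
          Real.sqrt (1 + ρ)) + C * φ * Bd ^ 2 / Real.sqrt JJ) ≤
      50 * C * L * Am ^ 2 * (b / X) * (Real.sqrt Z1 * Real.sqrt Z2 * (κ / Real.sqrt (1 + ρ0) *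
        (Real.sqrt (M1 * (2 * (h * (1 + ρ0)) + M1)) *
          Real.sqrt (M2 * (2 * (h * (1 + ρ0)) + M2))))) + 128 * C / X ^ 3 := by
  have hX0 : 0 < X := by linarith
  have hβ0 : 0 < β := by linarith
  have e3 : Real.sqrt JJ = X ^ 12 := by
    rw [hJJ, show X ^ 24 = (X ^ 12) ^ 2 by ring, Real.sqrt_sq (by positivity)]
  have m1 : ∀ M : ℝ, 0 ≤ M → Real.sqrt (M * (h * (1 + ρ) + M)) ≤
      Real.sqrt (M * (2 * (h * (1 + ρ0)) + M)) := by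
    intro M hM
    refine Real.sqrt_le_sqrt (mul_le_mul_of_nonneg_left ?_ hM)
    have : h * (1 + ρ) ≤ h * (2 * (1 + ρ0)) := mul_le_mul_of_nonneg_left (by linarith) hh
    linarith
  have m2 : 1 / Real.sqrt (1 + ρ) ≤ 1 / Real.sqrt (1 + ρ0) :=
    one_div_le_one_div_of_le (Real.sqrt_pos.2 (by linarith)) (Real.sqrt_le_sqrt (by linarith))
  have p1 : β / X * (C * (1 + 24 * L) * κ * (Real.sqrt Z1 * Real.sqrt Z2) *
        (Am ^ 2 * (Real.sqrt (M1 * (h * (1 + ρ) + M1)) * Real.sqrt (M2 * (h * (1 + ρ) + M2))) /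
          Real.sqrt (1 + ρ))) ≤
      50 * C * L * Am ^ 2 * (b / X) * (Real.sqrt Z1 * Real.sqrt Z2 * (κ / Real.sqrt (1 + ρ0) *
        (Real.sqrt (M1 * (2 * (h * (1 + ρ0)) + M1)) *
          Real.sqrt (M2 * (2 * (h * (1 + ρ0)) + M2))))) := by
    calc β / X * (C * (1 + 24 * L) * κ * (Real.sqrt Z1 * Real.sqrt Z2) *
        (Am ^ 2 * (Real.sqrt (M1 * (h * (1 + ρ) + M1)) * Real.sqrt (M2 * (h * (1 + ρ) + M2))) /
          Real.sqrt (1 + ρ))) =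
        (C * κ * (Real.sqrt Z1 * Real.sqrt Z2) * Am ^ 2) * (β / X * (1 + 24 * L)) *
          (Real.sqrt (M1 * (h * (1 + ρ) + M1)) * Real.sqrt (M2 * (h * (1 + ρ) + M2))) *
          (1 / Real.sqrt (1 + ρ)) := by ring
      _ ≤ (C * κ * (Real.sqrt Z1 * Real.sqrt Z2) * Am ^ 2) * (50 * (b / X) * L) *
          (Real.sqrt (M1 * (2 * (h * (1 + ρ0)) + M1)) *
            Real.sqrt (M2 * (2 * (h * (1 + ρ0)) + M2))) * (1 / Real.sqrt (1 + ρ0)) := by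
          refine mul_le_mul (mul_le_mul (mul_le_mul_of_nonneg_left ?_ (by positivity))
            (mul_le_mul (m1 M1 hM1) (m1 M2 hM2) (by positivity) (by positivity))
            (by positivity) (by positivity)) m2 (by positivity) (by positivity)
          calc β / X * (1 + 24 * L) ≤ (2 * b / X) * (25 * L) :=
                mul_le_mul (div_le_div_of_nonneg_right hβ2 hX0.le) (by linarith) (by positivity)
                  (by positivity)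
            _ = 50 * (b / X) * L := by ring
      _ = _ := by ring
  have p2 : β / X * (C * φ * Bd ^ 2 / Real.sqrt JJ) ≤ 128 * C / X ^ 3 := by
    rw [e3, hBd]
    calc β / X * (C * φ * (8 * X ^ 4) ^ 2 / X ^ 12) ≤ (2 * X) / X * (C * X * (8 * X ^ 4) ^ 2 / X ^ 12) := by
          refine mul_le_mul (div_le_div_of_nonneg_right (by linarith) hX0.le)
            (div_le_div_of_nonneg_right (mul_le_mul_of_nonneg_right
              (mul_le_mul_of_nonneg_left (by linarith) hC.le) (by positivity)) (by positivity))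
            (by positivity) (by positivity)
      _ = 128 * C / X ^ 3 := by
          field_simp
          ring
  rw [mul_add]
  exact add_le_add p1 p2

/-- one modulus -/
theorem two_q_t : ∃ C1 : ℝ, 0 < C1 ∧ ∀ (th e τ : ℝ) (A1 : ℕ), Adm th e τ → ∃ X0 : ℕ, ∃ C2 : ℝ,
    0 < C2 ∧ ∀ X : ℕ, X0 ≤ X → ∀ (n : ℕ) (b N σ : ℝ) (QQ : Finset ℕ) (bq : ℕ → ℝ), n ≤ X →
    StdJ X X th e A1 b N σ QQ bq → ∀ H : ℝ, 1 ≤ H → ∀ q ∈ QQ,
    H ≤ (hq q n : ℝ) * (1 + n * b / X) →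
    ∀ (M1 M2 Am S : ℝ) (K1 K2 : ℕ) (MM1 MM2 : Finset ℕ) (a1 a2 c1 c2 : ℕ → ℂ),
    0 < Am → Am ≤ X → 0 ≤ S → S ≤ X → BlkJ X th e τ M1 K1 MM1 a1 c1 Am S →
    BlkJ X th e τ M2 K2 MM2 a2 c2 Am S →
    ‖Bq X (bq q) σ n q (f2f MM1 a1 (tp K1 (cq q c1)) σ q)
        (f2f MM2 (fun m => (starRingEnd ℂ) (a2 m)) (fun x => (starRingEnd ℂ) (tp K2 (cq q c2) x))
          σ q)‖ ≤
      Real.log X * Am ^ 2 * (b / X) * (Real.sqrt (∑ r ∈ rr q, ∫ t in (0 : ℝ)..1,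
          ‖tp K1 (cq q c1) ((r : ℝ) / q + σ * (M1 * (bq q / X)) * Real.exp (2 * Int.fract t))‖ ^ 2) *
        Real.sqrt (∑ r ∈ rr q, ∫ t in (0 : ℝ)..1,
          ‖tp K2 (cq q c2) ((r : ℝ) / q + σ * (M2 * (bq q / X)) * Real.exp (2 * Int.fract t))‖ ^ 2) *
        (M1 * M2 * (C1 * H ^ (-(1 / 4) : ℝ) + (X : ℝ) ^ (-(τ ^ 2 / 400))))) + C2 / (X : ℝ) ^ 3 := by
  obtain ⟨C, hC, h1⟩ := h2_one_g
  obtain ⟨D, hD, h4⟩ := h2_D
  refine ⟨200 * C * D, by positivity, ?_⟩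
  intro th e τ A1 hpar
  obtain ⟨hp1, hp2, hp3, hp4, hp5⟩ := hpar
  have hτ0 : 0 < τ := by linarith
  obtain ⟨k, hk⟩ : ∃ k : ℕ, k = ⌈1 / τ⌉₊ := ⟨_, rfl⟩
  have hk1 : 1 ≤ k := by
    rw [hk]
    exact Nat.one_le_iff_ne_zero.2 (Nat.ceil_pos.2 (by positivity)).ne'
  obtain ⟨Ck, hCk, h2⟩ := lv_one_g k hk1
  obtain ⟨X1, hX1⟩ := j2_std th e τ A1 ⟨hp1, hp2, hp3, hp4, hp5⟩
  obtain ⟨X2, hX2⟩ := j2_par τ Ck D hτ0 hp4 hCk hD
  obtain ⟨X3, hX3⟩ := j2_tau k (τ / 100) (by positivity)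
  rw [← hk] at hX2
  refine ⟨max (max X1 X2) (max X3 16), 128 * C + Ck, by positivity, ?_⟩
  intro X hX n b N σ QQ bq hnX hstd H hH q hqm hHq M1 M2 Am S K1 K2 MM1 MM2 a1 a2 c1 c2 hAm0 hAmX hS hSX
    hblk1 hblk2
  obtain ⟨hX16, hL1, hb0, hNX, hbX, hNb82, hNbM, hqq⟩ :=
    hX1 X ((le_max_left _ _).trans ((le_max_left _ _).trans hX)) X b N σ QQ bq hstd
  obtain ⟨y1, y2, y3, y4⟩ := hX2 X ((le_max_right _ _).trans ((le_max_left _ _).trans hX))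
  have y5 := hX3 X ((le_max_left _ _).trans ((le_max_right _ _).trans hX))
  obtain ⟨-, -, hσ, hbA, hN1, hNb, hFam, -, hbq⟩ := hstd
  obtain ⟨hM11, hM12, hK1, hMM1, ha1, hc1⟩ := hblk1
  obtain ⟨hM21, hM22, hK2, hMM2, ha2, hc2⟩ := hblk2
  have hX16' : (16 : ℝ) ≤ X := by exact_mod_cast hX16
  have hXp : (0 : ℝ) < X := by linarith
  have hX1 : 1 ≤ X := by omega
  have hX1' : (1 : ℝ) ≤ X := by linarith
  have hM1 : 1 ≤ M1 := y2.trans hM11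
  have hM2 : 1 ≤ M2 := y2.trans hM21
  have hM10 : 0 < M1 := by linarith
  have hM20 : 0 < M2 := by linarith
  have hMX : ∀ M : ℝ, M ≤ (X : ℝ) ^ (th - 3 * e) → M ≤ X := by
    intro M hM
    refine hM.trans ?_
    have h5 : (X : ℝ) ^ (th - 3 * e) ≤ (X : ℝ) ^ (1 : ℝ) :=
      Real.rpow_le_rpow_of_exponent_le hX1' (by linarith)
    rwa [Real.rpow_one] at h5
  have hAm : 0 ≤ Am := hAm0.le
  -- the inner polynomial
  have hBsum : ∀ (M : ℝ) (K : ℕ) (c : ℕ → ℂ), 1 ≤ M → K ≤ X →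
      ∑ k ∈ Icc 1 K, ‖c k‖ ^ 2 ≤ S * X / M → ∑ k ∈ Icc 1 K, ‖c k‖ ≤ 2 * (X : ℝ) ^ 2 := by
    intro M K c hM hK hc
    have h2 : ∀ k ∈ Icc 1 K, ‖c k‖ ≤ 1 + ‖c k‖ ^ 2 := by
      intro k _
      nlinarith [sq_nonneg (‖c k‖ - 1), norm_nonneg (c k)]
    refine (Finset.sum_le_sum h2).trans ?_
    rw [Finset.sum_add_distrib]
    have h5 : ∑ _k ∈ Icc 1 K, (1 : ℝ) ≤ X := by
      simp only [Finset.sum_const, Nat.card_Icc, nsmul_eq_mul, mul_one]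
      have : K + 1 - 1 = K := by omega
      rw [this]
      exact_mod_cast hK
    have h6 : S * X / M ≤ X ^ 2 := by
      rw [div_le_iff₀ (by linarith)]
      nlinarith
    nlinarith [hc.trans h6]
  have hBs : ∀ (K : ℕ) (c : ℕ → ℂ), ∑ k ∈ Icc 1 K, ‖c k‖ ≤ 2 * (X : ℝ) ^ 2 →
      ∀ x, ‖tp K c x‖ ≤ 2 * (X : ℝ) ^ 2 := by
    intro K c hc x
    unfold tp
    refine (norm_sum_le _ _).trans (le_trans (Finset.sum_le_sum fun k _ => ?_) hc)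
    rw [norm_mul]
    have h3 : ‖ee ((k : ℝ) * x)‖ = 1 := by
      unfold ee
      rw [Complex.norm_exp]
      simp
    rw [h3, mul_one]
  have hs1 := hBsum M1 K1 (cq q c1) hM1 hK1 ((h2_cq_norm q K1 c1).trans hc1)
  have hs2 := hBsum M2 K2 (cq q c2) hM2 hK2 ((h2_cq_norm q K2 c2).trans hc2)
  obtain ⟨hq1, hqX, hqN⟩ := hqq q hqm
  have hqX' : (q : ℝ) ≤ X := by exact_mod_cast hqX
  have : NeZero q := ⟨by omega⟩
  have hβ := hbq q hqm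
  have hh1 : 1 ≤ hq q n := by
    unfold hq
    exact Nat.div_pos (Nat.le_of_dvd hq1 (Nat.gcd_dvd_left q n)) (Nat.gcd_pos_of_pos_left _ hq1)
  have hh0 : (0 : ℝ) < hq q n := by exact_mod_cast hh1
  have hhq : (hq q n : ℝ) ≤ N := by
    have h6 : hq q n ≤ q := Nat.div_le_self _ _
    have h6' : (hq q n : ℝ) ≤ q := by exact_mod_cast h6
    linarith
  obtain ⟨Z1, hZ1⟩ : ∃ Z : ℝ, Z = ∑ r ∈ rr q, ∫ t in (0 : ℝ)..1,
          ‖tp K1 (cq q c1) ((r : ℝ) / q + σ * (M1 * (bq q / X)) * Real.exp (2 * Int.fract t))‖ ^ 2 :=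
    ⟨_, rfl⟩
  obtain ⟨Z2, hZ2⟩ : ∃ Z : ℝ, Z = ∑ r ∈ rr q, ∫ t in (0 : ℝ)..1,
          ‖tp K2 (cq q c2) ((r : ℝ) / q + σ * (M2 * (bq q / X)) * Real.exp (2 * Int.fract t))‖ ^ 2 :=
    ⟨_, rfl⟩
  have hZ0 : 0 ≤ Real.sqrt Z1 * Real.sqrt Z2 := by positivity
  have hL0 : 0 ≤ Real.log X := by linarith
  have hH0 : 0 < H := by linarith
  have hH4 : 0 ≤ H ^ (-(1 / 4) : ℝ) := Real.rpow_nonneg hH0.le _
  have hXτ0 : 0 ≤ (X : ℝ) ^ (-(τ ^ 2 / 400)) := by positivity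
  have hκ0 : 0 ≤ ltK (hq q n) := ltK_nonneg _
  obtain ⟨ρ0, hρ0⟩ : ∃ r : ℝ, r = n * b / X := ⟨_, rfl⟩
  obtain ⟨ρ, hρ⟩ : ∃ r : ℝ, r = n * bq q / X := ⟨_, rfl⟩
  have hnR : (0 : ℝ) ≤ n := Nat.cast_nonneg n
  have hρ00 : 0 ≤ ρ0 := by rw [hρ0]; positivity
  have hρ1 : ρ0 ≤ ρ := by
    rw [hρ0, hρ]
    exact div_le_div_of_nonneg_right (mul_le_mul_of_nonneg_left hβ.1 hnR) hXp.le
  have hρ2 : ρ ≤ 2 * ρ0 := by
    rw [hρ0, hρ, ← mul_div_assoc]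
    refine div_le_div_of_nonneg_right ?_ hXp.le
    calc (n : ℝ) * bq q ≤ n * (2 * b) := mul_le_mul_of_nonneg_left hβ.2 hnR
      _ = 2 * (n * b) := by ring
  rw [← hρ0] at hHq
  have hF2c : Continuous (fun x => (starRingEnd ℂ) (tp K2 (cq q c2) x)) :=
    Complex.continuous_conj.comp (h2_tp_cont K2 (cq q c2))
  have hF2p : ∀ x, (starRingEnd ℂ) (tp K2 (cq q c2) (x + 1)) = (starRingEnd ℂ) (tp K2 (cq q c2) x) := by
    intro x
    rw [h2_tp_per]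
  have ha2' : ∀ m ∈ MM2, ‖(starRingEnd ℂ) (a2 m)‖ ≤ Am := by
    intro m hm
    rw [RCLike.norm_conj]
    exact ha2 m hm
  have hF2b : ∀ x, ‖(starRingEnd ℂ) (tp K2 (cq q c2) x)‖ ≤ 2 * (X : ℝ) ^ 2 := by
    intro x
    rw [RCLike.norm_conj]
    exact hBs K2 (cq q c2) hs2 x
  rcases le_total ((hq q n : ℝ) * (1 + ρ0)) ((X : ℝ) ^ (τ / 4)) with hA | hB
  · -- few frequencies
    have hMB : ∀ M : ℝ, 1 ≤ M → M ≤ (X : ℝ) ^ (th - 3 * e) →
        2 * M * Am * (2 * (X : ℝ) ^ 2) ≤ 8 * (X : ℝ) ^ 4 := by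
      intro M hM hM'
      have hMX' := hMX M hM'
      calc 2 * M * Am * (2 * (X : ℝ) ^ 2) ≤ 2 * (2 * X) * X * (2 * (X : ℝ) ^ 2) := by
            refine mul_le_mul_of_nonneg_right (mul_le_mul (by linarith) hAmX hAm (by linarith))
              (by positivity)
        _ = 8 * (X : ℝ) ^ 4 := by ring
    have g2 := h1 X n q (bq q) σ hX1 hnX (by linarith) hσ M1 M2 Am MM1 MM2 a1
      (fun m => (starRingEnd ℂ) (a2 m)) (tp K1 (cq q c1))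
      (fun x => (starRingEnd ℂ) (tp K2 (cq q c2) x)) (h2_tp_cont K1 (cq q c1)) hF2c
      (h2_tp_per K1 (cq q c1)) hF2p
      hM1 hM2 hAm hMM1 hMM2 ha1 ha2' (2 * (X : ℝ) ^ 2) (8 * (X : ℝ) ^ 4) (X ^ 24)
      (hBs K1 (cq q c1) hs1) hF2b (hMB M1 hM1 hM12)
      (hMB M2 hM2 hM22)
      (Nat.one_le_pow _ _ hX1)
      (by
        have h3 : bq q ≤ 2 * X := by linarith [hβ.2]
        have h5 : (16 : ℝ) * X ≤ X ^ 24 := by
          calc (16 : ℝ) * X ≤ X * X := by nlinarith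
            _ = X ^ 2 := by ring
            _ ≤ X ^ 24 := pow_le_pow_right₀ hX1' (by norm_num)
        push_cast
        linarith)
    refine g2.trans ?_
    have hlogJ : Real.log ((X ^ 24 : ℕ) : ℝ) = 24 * Real.log X := by
      push_cast
      rw [Real.log_pow]
      norm_num
    simp only [RCLike.norm_conj]
    rw [hlogJ, ← hZ1, ← hZ2, ← hρ]
    have g3 := tt_per C X b (bq q) ρ0 ρ (Nat.totient q) (ltK (hq q n)) Z1 Z2
      Am M1 M2 (hq q n) (Real.log X) (8 * (X : ℝ) ^ 4) ((X ^ 24 : ℕ) : ℝ) hC hX1' hb0 hβ.1 hβ.2 hbX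
      hρ00 hρ1 hρ2
      (Nat.cast_nonneg _) (le_trans (by exact_mod_cast Nat.totient_le q) hqX') hκ0
      (by linarith) (by linarith)
      (Nat.cast_nonneg _) hL1 rfl (by push_cast; ring)
    refine g3.trans ?_
    have sM : ∀ M : ℝ, (X : ℝ) ^ τ / 2 ≤ M → 0 < M →
        Real.sqrt (M * (2 * ((hq q n : ℝ) * (1 + ρ0)) + M)) ≤ 2 * M := by
      intro M hM hM0
      rw [Real.sqrt_le_left (by linarith)]
      nlinarith [hA.trans (y1.trans hM)]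
    have t1 := h2_num1 (ltK (hq q n)) (1 + ρ0) (hq q n) H D hκ0 (by linarith) hh0 hH
      hHq hD (h4 _ hh1)
    have t2 : ltK (hq q n) / Real.sqrt (1 + ρ0) *
        (Real.sqrt (M1 * (2 * ((hq q n : ℝ) * (1 + ρ0)) + M1)) *
          Real.sqrt (M2 * (2 * ((hq q n : ℝ) * (1 + ρ0)) + M2))) ≤
        (D * H ^ (-(1 / 4) : ℝ)) * ((2 * M1) * (2 * M2)) :=
      mul_le_mul t1 (mul_le_mul (sM M1 hM11 hM10) (sM M2 hM21 hM20) (Real.sqrt_nonneg _)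
        (by linarith)) (by positivity) (by positivity)
    have t3 : 50 * C * Real.log X * Am ^ 2 * (b / X) * (Real.sqrt Z1 * Real.sqrt Z2 *
        (ltK (hq q n) / Real.sqrt (1 + ρ0) *
        (Real.sqrt (M1 * (2 * ((hq q n : ℝ) * (1 + ρ0)) + M1)) *
          Real.sqrt (M2 * (2 * ((hq q n : ℝ) * (1 + ρ0)) + M2))))) ≤
        Real.log X * Am ^ 2 * (b / X) * (Real.sqrt Z1 * Real.sqrt Z2 *
          (M1 * M2 * (200 * C * D * H ^ (-(1 / 4) : ℝ) + (X : ℝ) ^ (-(τ ^ 2 / 400))))) := by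
      have c0 : 0 ≤ 50 * C * Real.log X * Am ^ 2 * (b / X) * (Real.sqrt Z1 * Real.sqrt Z2) := by
        positivity
      have c1 : 0 ≤ Real.log X * Am ^ 2 * (b / X) * (Real.sqrt Z1 * Real.sqrt Z2 * (M1 * M2)) := by
        positivity
      calc _ = 50 * C * Real.log X * Am ^ 2 * (b / X) * (Real.sqrt Z1 * Real.sqrt Z2) *
            (ltK (hq q n) / Real.sqrt (1 + ρ0) *
            (Real.sqrt (M1 * (2 * ((hq q n : ℝ) * (1 + ρ0)) + M1)) *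
              Real.sqrt (M2 * (2 * ((hq q n : ℝ) * (1 + ρ0)) + M2)))) := by ring
        _ ≤ 50 * C * Real.log X * Am ^ 2 * (b / X) * (Real.sqrt Z1 * Real.sqrt Z2) *
            ((D * H ^ (-(1 / 4) : ℝ)) * ((2 * M1) * (2 * M2))) := mul_le_mul_of_nonneg_left t2 c0
        _ = Real.log X * Am ^ 2 * (b / X) * (Real.sqrt Z1 * Real.sqrt Z2 * (M1 * M2)) *
            (200 * C * D * H ^ (-(1 / 4) : ℝ)) := by ring
        _ ≤ Real.log X * Am ^ 2 * (b / X) * (Real.sqrt Z1 * Real.sqrt Z2 * (M1 * M2)) *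
            (200 * C * D * H ^ (-(1 / 4) : ℝ) + (X : ℝ) ^ (-(τ ^ 2 / 400))) :=
          mul_le_mul_of_nonneg_left (by linarith) c1
        _ = _ := by ring
    have t4 : 128 * C / (X : ℝ) ^ 3 ≤ (128 * C + Ck) / (X : ℝ) ^ 3 :=
      div_le_div_of_nonneg_right (by linarith) (by positivity)
    exact add_le_add t3 t4
  · -- many frequencies
    have hβ2X : bq q ≤ 2 * X := by linarith [hβ.2]
    have hD' : 1 ≤ (X : ℝ) ^ (τ / 100) := Real.one_le_rpow hX1' (by positivity)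
    have hv0 : 0 < (X : ℝ) ^ (-(τ ^ 2 / 200)) := by positivity
    have hv1 : (X : ℝ) ^ (-(τ ^ 2 / 200)) ≤ 1 :=
      Real.rpow_le_one_of_one_le_of_nonpos hX1' (by
        have : 0 ≤ τ ^ 2 / 200 := by positivity
        linarith)
    have hdiv : ∀ M : ℝ, M ≤ (X : ℝ) ^ (th - 3 * e) → 0 < M → ∀ m : ℕ, 1 ≤ m →
        (m : ℝ) ≤ (2 * M) ^ k → (m.divisors.card : ℝ) ^ k ≤ (X : ℝ) ^ (τ / 100) := by
      intro M hM hM0 m hm hmM
      refine y5 m hm (hmM.trans (pow_le_pow_left₀ (by linarith) ?_ k))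
      linarith [hMX M hM]
    have hT1 : (hq q n : ℝ) * (1 + bq q) ≤ 2 * (N * (1 + b)) := by
      have h5 : (hq q n : ℝ) * (1 + bq q) ≤ N * (2 * (1 + b)) := by
        apply mul_le_mul hhq (by linarith [hβ.2]) (by linarith [hβ.1]) (by linarith)
      linarith
    have hTM : ∀ M : ℝ, (X : ℝ) ^ τ / 2 ≤ M → (hq q n : ℝ) * (1 + bq q) ≤ M ^ k := by
      intro M hM
      have h5 : ((X : ℝ) ^ τ / 2) ^ k ≤ M ^ k := pow_le_pow_left₀ (by linarith) hM k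
      linarith
    have hr : ∀ M : ℝ, 1 ≤ M → M ≤ (X : ℝ) ^ (th - 3 * e) → |σ * (M * (bq q / X))| ≤ 2 * X := by
      intro M hM hM'
      have h5 : |σ| = 1 := by
        rcases hσ with h6 | h6 <;> rw [h6] <;> norm_num
      have hβ0 : 0 < bq q := by linarith [hβ.1]
      rw [abs_mul, h5, one_mul, abs_of_nonneg (by positivity)]
      calc M * (bq q / X) ≤ X * (2 * X / X) :=
            mul_le_mul (hMX M hM') (div_le_div_of_nonneg_right hβ2X hXp.le) (by positivity) hXp.le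
        _ = 2 * X := by field_simp
    have g2 := h2 X n q (bq q) σ hX16 hnX (by linarith) hβ2X hqX hσ M1 M2 Am MM1 MM2
      a1 (fun m => (starRingEnd ℂ) (a2 m)) (tp K1 (cq q c1))
      (fun x => (starRingEnd ℂ) (tp K2 (cq q c2) x)) (h2_tp_cont K1 (cq q c1)) hF2c
      (h2_tp_per K1 (cq q c1)) hF2p hM1 hM2 (hMX M1 hM12) (hMX M2 hM22) hAm0 hAmX
      hMM1 hMM2 ha1 ha2' (hBs K1 (cq q c1) hs1) hF2b
      (fun p hp => tt_fq X q hX16 K1 hK1 (cq q c1) hs1 _ (hr M1 hM1 hM12) p.1 p.2 hp)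
      (fun p hp => by
        rw [tt_fq_conj]
        have h5 := tt_fq X q hX16 K2 hK2 (cq q c2) hs2 _ (hr M2 hM2 hM22) p.1⁻¹ (-p.2)
          (neg_ne_zero.2 hp)
        rw [Int.cast_neg, abs_neg] at h5
        exact h5) _ _ hv0 hv1 hD' (hdiv M1 hM12 hM10) (hdiv M2 hM22 hM20)
      (hTM M1 hM11) (hTM M2 hM21)
    refine g2.trans ?_
    simp only [RCLike.norm_conj]
    rw [← hZ1, ← hZ2, ← hρ]
    have t1 := h2_num1 (ltK (hq q n)) (1 + ρ0) (hq q n) ((X : ℝ) ^ (τ / 4)) D hκ0 (by linarith) hh0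
      (Real.one_le_rpow hX1' (by positivity)) hB hD (h4 _ hh1)
    have t1' : ltK (hq q n) / Real.sqrt (1 + ρ) ≤ D * ((X : ℝ) ^ (τ / 4)) ^ (-(1 / 4) : ℝ) := by
      refine le_trans ?_ t1
      refine div_le_div_of_nonneg_left hκ0 (Real.sqrt_pos.2 (by linarith)) ?_
      exact Real.sqrt_le_sqrt (by linarith)
    obtain ⟨W, hW⟩ : ∃ W : ℝ, W = ((X : ℝ) ^ (τ / 100)) ^ 2 /
      ((X : ℝ) ^ (-(τ ^ 2 / 200))) ^ (2 * k) := ⟨_, rfl⟩
    have hW0 : 0 ≤ W := by rw [hW]; positivity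
    rw [← hW] at y4 ⊢
    obtain ⟨vv, hvv⟩ : ∃ vv : ℝ, vv = (X : ℝ) ^ (-(τ ^ 2 / 200)) := ⟨_, rfl⟩
    rw [← hvv] at y4 hv0 ⊢
    have t2 : Ck * Real.log X * (bq q / X) * Am ^ 2 * (M1 * M2) * (Real.sqrt Z1 * Real.sqrt Z2) *
        (ltK (hq q n) / Real.sqrt (1 + ρ) * W + vv) ≤
        Real.log X * Am ^ 2 * (b / X) * (Real.sqrt Z1 * Real.sqrt Z2 *
          (M1 * M2 * (200 * C * D * H ^ (-(1 / 4) : ℝ) + (X : ℝ) ^ (-(τ ^ 2 / 400))))) := by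
      have c1 : 0 ≤ Real.log X * Am ^ 2 * (b / X) * (Real.sqrt Z1 * Real.sqrt Z2 * (M1 * M2)) := by
        positivity
      have c2 : 0 ≤ ltK (hq q n) / Real.sqrt (1 + ρ) * W + vv := by positivity
      have hbq2 : Ck * Real.log X * (bq q / X) * Am ^ 2 * (M1 * M2) * (Real.sqrt Z1 * Real.sqrt Z2) ≤
          Ck * Real.log X * (2 * b / X) * Am ^ 2 * (M1 * M2) * (Real.sqrt Z1 * Real.sqrt Z2) := by
        have : bq q / X ≤ 2 * b / X := div_le_div_of_nonneg_right hβ.2 hXp.le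
        gcongr
      calc _ ≤ Ck * Real.log X * (2 * b / X) * Am ^ 2 * (M1 * M2) * (Real.sqrt Z1 * Real.sqrt Z2) *
            (ltK (hq q n) / Real.sqrt (1 + ρ) * W + vv) := mul_le_mul_of_nonneg_right hbq2 c2
        _ = Real.log X * Am ^ 2 * (b / X) * (Real.sqrt Z1 * Real.sqrt Z2 * (M1 * M2)) *
            (2 * Ck * (ltK (hq q n) / Real.sqrt (1 + ρ) * W + vv)) := by ring
        _ ≤ Real.log X * Am ^ 2 * (b / X) * (Real.sqrt Z1 * Real.sqrt Z2 * (M1 * M2)) *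
            (2 * Ck * (D * ((X : ℝ) ^ (τ / 4)) ^ (-(1 / 4) : ℝ) * W + vv)) := by
          refine mul_le_mul_of_nonneg_left (mul_le_mul_of_nonneg_left ?_ (by positivity)) c1
          have := mul_le_mul_of_nonneg_right t1' hW0
          linarith
        _ ≤ Real.log X * Am ^ 2 * (b / X) * (Real.sqrt Z1 * Real.sqrt Z2 * (M1 * M2)) *
            (200 * C * D * H ^ (-(1 / 4) : ℝ) + (X : ℝ) ^ (-(τ ^ 2 / 400))) := by
          refine mul_le_mul_of_nonneg_left (y4.trans ?_) c1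
          have : 0 ≤ 200 * C * D * H ^ (-(1 / 4) : ℝ) := by positivity
          linarith
        _ = _ := by ring
    have t3 : Ck / (X : ℝ) ^ 3 ≤ (128 * C + Ck) / (X : ℝ) ^ 3 :=
      div_le_div_of_nonneg_right (by linarith) (by positivity)
    exact add_le_add t2 t3

theorem two_two_t : ∃ C : ℝ, 0 < C ∧ ∀ (th e τ : ℝ) (A1 : ℕ), Adm th e τ → ∃ X0 : ℕ,
    ∀ X : ℕ, X0 ≤ X → ∀ (n : ℕ) (b N σ : ℝ) (QQ : Finset ℕ) (bq : ℕ → ℝ), 1 ≤ n → n ≤ X →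
    StdJ X X th e A1 b N σ QQ bq → ∀ H : ℝ, 1 ≤ H →
    (∀ q ∈ QQ, H ≤ (hq q n : ℝ) * (1 + n * b / X)) →
    ∀ (M1 M2 Am S : ℝ) (K1 K2 : ℕ) (MM1 MM2 : Finset ℕ) (a1 a2 c1 c2 : ℕ → ℂ),
    0 < Am → Am ≤ X → 0 ≤ S → S ≤ X → BlkJ X th e τ M1 K1 MM1 a1 c1 Am S →
    BlkJ X th e τ M2 K2 MM2 a2 c2 Am S →
    ∑ q ∈ QQ, ‖Bq X (bq q) σ n q (f2f MM1 a1 (tp K1 (cq q c1)) σ q)
        (fun a x => (starRingEnd ℂ) (f2f MM2 a2 (tp K2 (cq q c2)) σ q a x))‖ ≤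
      C * (Real.log X) ^ 3 * Am ^ 2 * S * X * (H ^ (-(1 / 4) : ℝ) + (X : ℝ) ^ (-(τ ^ 2 / 400))) +
        1 := by
  obtain ⟨C1, hC1, h1⟩ := two_q_t
  refine ⟨108 * (C1 + 1), by positivity, ?_⟩
  intro th e τ A1 hpar
  obtain ⟨X0, C2, hC2, h2⟩ := h1 th e τ A1 hpar
  obtain ⟨X1, hX1⟩ := j2_std th e τ A1 hpar
  obtain ⟨X2, hX2⟩ := j2_rpow 2 τ (by obtain ⟨-, -, h, -, h'⟩ := hpar; linarith)
  obtain ⟨X3, hX3⟩ := j2_rpow C2 1 (by norm_num)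
  refine ⟨max (max X0 X1) (max X2 X3), ?_⟩
  intro X hX n b N σ QQ bq hn1 hnX hstd H hH hHq M1 M2 Am S K1 K2 MM1 MM2 a1 a2 c1 c2 hAm0 hAmX hS hSX
    hblk1 hblk2
  obtain ⟨hX16, hL1, hb0, hNX, hbX, hNb82, hNbM, hqq⟩ :=
    hX1 X ((le_max_right _ _).trans ((le_max_left _ _).trans hX)) X b N σ QQ bq hstd
  have hXτ := hX2 X ((le_max_left _ _).trans ((le_max_right _ _).trans hX))
  have hXC := hX3 X ((le_max_right _ _).trans ((le_max_right _ _).trans hX))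
  rw [Real.rpow_one] at hXC
  have hper := fun q hqm => h2 X ((le_max_left _ _).trans ((le_max_left _ _).trans hX)) n b N σ QQ
    bq hnX hstd H hH q hqm (hHq q hqm) M1 M2 Am S K1 K2 MM1 MM2 a1 a2 c1 c2 hAm0 hAmX hS hSX hblk1 hblk2
  obtain ⟨-, -, hσ, hbA, hN1, hNb, hFam, -, hbq⟩ := hstd
  obtain ⟨hM11, hM12, hK1, hMM1, ha1, hc1⟩ := hblk1
  obtain ⟨hM21, hM22, hK2, hMM2, ha2, hc2⟩ := hblk2
  have hX16' : (16 : ℝ) ≤ X := by exact_mod_cast hX16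
  have hXp : (0 : ℝ) < X := by linarith
  have hX1 : 1 ≤ X := by omega
  have hX1' : (1 : ℝ) ≤ X := by linarith
  have hM1 : 1 ≤ M1 := le_trans (by linarith) hM11
  have hM2 : 1 ≤ M2 := le_trans (by linarith) hM21
  have hM10 : 0 < M1 := by linarith
  have hM20 : 0 < M2 := by linarith
  have hN0 : 0 ≤ N := by linarith
  -- the masses
  obtain ⟨Z, hZ⟩ : ∃ Z : ℝ → ℕ → (ℕ → ℂ) → ℕ → ℝ, Z = fun M K c q => ∑ r ∈ rr q,
    ∫ t in (0 : ℝ)..1,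
    ‖tp K (cq q c) ((r : ℝ) / q + σ * (M * (bq q / X)) * Real.exp (2 * Int.fract t))‖ ^ 2 :=
    ⟨_, rfl⟩
  have hZ0 : ∀ (M : ℝ) (K : ℕ) (c : ℕ → ℂ), ∀ q ∈ QQ, 0 ≤ Z M K c q := by
    intro M K c q _
    rw [hZ]
    refine Finset.sum_nonneg fun r _ => ?_
    refine intervalIntegral.integral_nonneg (by norm_num) fun t _ => by positivity
  obtain ⟨Λ, hΛ⟩ : ∃ Λ : ℝ, Λ = 12 * (Real.log X) ^ 2 := ⟨_, rfl⟩
  have hΛ0 : 0 ≤ Λ := by rw [hΛ]; positivity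
  have hlogN : 3 * (1 + Real.log N) ^ 2 ≤ Λ := by
    have h5 : Real.log N ≤ Real.log X := Real.log_le_log (by linarith) hNX
    have h6 : 0 ≤ Real.log N := Real.log_nonneg hN1
    have h7 : (1 + Real.log N) ^ 2 ≤ (2 * Real.log X) ^ 2 :=
      pow_le_pow_left₀ (by linarith) (by linarith) 2
    rw [hΛ]
    nlinarith
  have hZs : ∀ (M : ℝ) (K : ℕ) (c : ℕ → ℂ), 1 ≤ M →
      ∑ k ∈ Icc 1 K, ‖c k‖ ^ 2 ≤ S * X / M →
      ∑ q ∈ QQ, Z M K c q ≤ Λ * (8 * N + X / (M * b)) * (S * X / M) := by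
    intro M K c hM hc
    have h2 := bmass_c X hX1 b N σ M hb0 hN1 (by linarith) hσ QQ hFam bq hbq K c
    rw [hZ]
    refine h2.trans ?_
    have hc0 : 0 ≤ ∑ k ∈ Icc 1 K, ‖c k‖ ^ 2 := Finset.sum_nonneg fun k _ => by positivity
    have h5 : 0 ≤ 8 * N + X / (M * b) := by positivity
    exact mul_le_mul (mul_le_mul_of_nonneg_right hlogN h5) hc hc0 (by positivity)
  have hconj : ∀ q : ℕ, (fun (a : ℕ) (x : ℝ) => (starRingEnd ℂ) (f2f MM2 a2 (tp K2 (cq q c2)) σ q a x)) =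
      f2f MM2 (fun m => (starRingEnd ℂ) (a2 m)) (fun x => (starRingEnd ℂ) (tp K2 (cq q c2) x)) σ q := by
    intro q
    funext a x
    unfold f2f
    rw [map_sum]
    exact Finset.sum_congr rfl fun m _ => map_mul _ _ _
  simp only [hconj]
  refine (Finset.sum_le_sum hper).trans ?_
  rw [Finset.sum_add_distrib]
  have htail : ∑ _q ∈ QQ, C2 / (X : ℝ) ^ 3 ≤ 1 := by
    rw [Finset.sum_const, nsmul_eq_mul]
    have hcard : (QQ.card : ℝ) ≤ X := by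
      have : QQ.card ≤ X := by
        calc QQ.card ≤ (Icc 1 X).card := Finset.card_le_card fun q hqm =>
              Finset.mem_Icc.2 ⟨(hqq q hqm).1, (hqq q hqm).2.1⟩
          _ = X := by simp
      exact_mod_cast this
    calc (QQ.card : ℝ) * (C2 / (X : ℝ) ^ 3) ≤ X * (C2 / (X : ℝ) ^ 3) :=
          mul_le_mul_of_nonneg_right hcard (by positivity)
      _ = C2 / X ^ 2 := by field_simp
      _ ≤ 1 := by
          rw [div_le_one (by positivity)]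
          nlinarith
  refine add_le_add ?_ htail
  rw [← Finset.mul_sum]
  obtain ⟨V1, hV1⟩ : ∃ V : ℝ, V = Λ * (8 * N + X / (M1 * b)) * (S * X / M1) := ⟨_, rfl⟩
  obtain ⟨V2, hV2⟩ : ∃ V : ℝ, V = Λ * (8 * N + X / (M2 * b)) * (S * X / M2) := ⟨_, rfl⟩
  have hV10 : 0 ≤ V1 := by rw [hV1]; positivity
  have hV20 : 0 ≤ V2 := by rw [hV2]; positivity
  have hH0 : 0 < H := by linarith
  have hH4 : 0 ≤ H ^ (-(1 / 4) : ℝ) := Real.rpow_nonneg hH0.le _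
  have hXe0 : 0 ≤ (X : ℝ) ^ (-(τ ^ 2 / 400)) := by positivity
  obtain ⟨η, hη⟩ : ∃ η : ℝ, η = C1 * H ^ (-(1 / 4) : ℝ) + (X : ℝ) ^ (-(τ ^ 2 / 400)) := ⟨_, rfl⟩
  have hη0 : 0 ≤ η := by rw [hη]; positivity
  obtain ⟨E, hE⟩ : ∃ E : ℝ, E = 9 * Λ * (S * (X : ℝ) ^ 2 / b) := ⟨_, rfl⟩
  have hE0 : 0 ≤ E := by rw [hE]; positivity
  have hMV : ∀ M V : ℝ, 0 < M → N * b * M ≤ X → V = Λ * (8 * N + X / (M * b)) * (S * X / M) →
      Real.sqrt V * M ≤ Real.sqrt E := by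
    intro M V hM hNM hV
    have e1 : Real.sqrt V * M = Real.sqrt (V * M ^ 2) := by
      rw [Real.sqrt_mul' _ (by positivity), Real.sqrt_sq hM.le]
    rw [e1]
    refine Real.sqrt_le_sqrt ?_
    have e2 : V * M ^ 2 = Λ * S * X * (8 * (N * M) + X / b) := by
      rw [hV]
      field_simp
    have e3 : N * M ≤ X / b := by
      rw [le_div_iff₀ hb0]
      linarith
    rw [e2, hE]
    calc Λ * S * X * (8 * (N * M) + X / b) ≤ Λ * S * X * (8 * (X / b) + X / b) :=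
          mul_le_mul_of_nonneg_left (by linarith) (by positivity)
      _ = 9 * Λ * (S * (X : ℝ) ^ 2 / b) := by ring
  have n1 := hMV M1 V1 hM10 (hNbM M1 hM12 hM10.le) hV1
  have n2 := hMV M2 V2 hM20 (hNbM M2 hM22 hM20.le) hV2
  have hG : ∀ q ∈ QQ, Real.sqrt V1 * Real.sqrt V2 * (M1 * M2 * η) ≤ E * η := by
    intro q _
    calc Real.sqrt V1 * Real.sqrt V2 * (M1 * M2 * η) =
        ((Real.sqrt V1 * M1) * (Real.sqrt V2 * M2)) * η := by ring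
      _ ≤ (Real.sqrt E * Real.sqrt E) * η := by
          refine mul_le_mul_of_nonneg_right ?_ hη0
          exact mul_le_mul n1 n2 (by positivity) (by positivity)
      _ = E * η := by rw [Real.mul_self_sqrt hE0]
  have hcs := h2_cs2 QQ (Z M1 K1 c1) (Z M2 K2 c2) (fun q => M1 * M2 * η) V1 V2 (E * η)
      (hZ0 M1 K1 c1) (hZ0 M2 K2 c2) (fun q _ => by positivity)
      (by rw [hV1]; exact hZs M1 K1 c1 hM1 hc1) (by rw [hV2]; exact hZs M2 K2 c2 hM2 hc2)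
      (by positivity) hG
  have hc0 : 0 ≤ Real.log X * Am ^ 2 * (b / X) := by
    have : 0 ≤ Real.log X := by linarith
    positivity
  rw [hZ] at hcs
  rw [← hη]
  refine (mul_le_mul_of_nonneg_left hcs hc0).trans ?_
  have e5 : Real.log X * Am ^ 2 * (b / X) * (E * η) = 108 * (Real.log X) ^ 3 * Am ^ 2 * S * X * η := by
    rw [hE, hΛ]
    field_simp
    ring
  rw [e5]
  have hL0 : 0 ≤ Real.log X := by linarith
  have e6 : η ≤ (C1 + 1) * (H ^ (-(1 / 4) : ℝ) + (X : ℝ) ^ (-(τ ^ 2 / 400))) := by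
    rw [hη]
    nlinarith
  calc 108 * (Real.log X) ^ 3 * Am ^ 2 * S * X * η ≤ 108 * (Real.log X) ^ 3 * Am ^ 2 * S * X *
        ((C1 + 1) * (H ^ (-(1 / 4) : ℝ) + (X : ℝ) ^ (-(τ ^ 2 / 400)))) :=
        mul_le_mul_of_nonneg_left e6 (by positivity)
    _ = _ := by ring

end Pool.Agent.Lib.MP_e3f158_nt.TL
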