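import Pool.Agent.Lib.MP_dd84fd_nt.JX.PlSig
import Pool.Agent.Lib.MP_e3f158_nt.TL.TwoT
import Pool.Agent.Lib.MP_e3f158_nt.TL.LamG

/-!
# TL-SigT: the pointwise lemma for `|W_{-1}|²`, one side of the arcs

Port of `JXP.pl_sigma_j` (`JX/PlSig.lean`) with `f = W_{-1}`, `g = conj W_{-1}`: `arc_j` (with `n := X`; the
decomposition does not depend on `n`) and its conjugate; `two_two_t`, `lam_two_t`, `lam_two_g` (`nn q = n`; for
type II against `conj lam`, `Bq_comm`), `lam_lam`.  Large `b` (`L^K2 < b`): only type II against type II,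
`H = L^(8T)`.  Small `b`: `1 + n b / X ≤ 2 L^K2`, so `hq q n ≥ L^(8T + 1) / 2 ≥ L^(8T)` for
`K3 = 8T + K2 + 1`.
-/

set_option autoImplicit false

namespace Pool.Agent.Lib.MP_e3f158_nt.TL

open Finset Pool.MP_67663b_nt.Odd Pool.MP_dd84fd_nt.E2 Pool.MP_dd84fd_nt.PL Pool.MP_dd84fd_nt.HX
  Pool.MP_dd84fd_nt.HXP Pool.MP_dd84fd_nt.JXP
open Pool.MP_dd84fd_nt.IX (W1 WI)
open Pool.MP_dd84fd_nt.IXP (WI_l2)
open Pool.MP_dd84fd_nt.JX (Adm DecJ)

private theorem Bq_add_right (X : ℕ) (b σ : ℝ) (n q : ℕ) (f g g' : ℕ → ℝ → ℂ)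
    (hf : ∀ a, Continuous (f a)) (hg : ∀ a, Continuous (g a)) (hg' : ∀ a, Continuous (g' a)) :
    Bq X b σ n q f (fun a x => g a x + g' a x) = Bq X b σ n q f g + Bq X b σ n q f g' := by
  rw [Bq_comm, Bq_add_left X b σ n q g g' f hg hg' hf, Bq_comm X b σ n q g f,
    Bq_comm X b σ n q g' f]

private theorem Bq_sum_right (X : ℕ) (b σ : ℝ) (n q I : ℕ) (f : ℕ → ℝ → ℂ) (g : ℕ → ℕ → ℝ → ℂ)
    (hf : ∀ a, Continuous (f a)) (hg : ∀ i a, Continuous (g i a)) :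
    Bq X b σ n q f (fun a x => ∑ i ∈ range I, g i a x) = ∑ i ∈ range I, Bq X b σ n q f (g i) := by
  rw [Bq_comm, Bq_sum_left X b σ n q I g f hg hf]
  exact sum_congr rfl fun i _ => Bq_comm _ _ _ _ _ _ _

private theorem expand (X n : ℕ) (bq : ℕ → ℝ) (σ : ℝ) (QQ : Finset ℕ) (hb : ∀ q ∈ QQ, 0 < bq q)
    (M1 E1 M2 E2 : ℕ → ℕ → ℝ → ℂ) (hM1 : ∀ q a, Continuous (M1 q a))
    (hE1 : ∀ q a, Continuous (E1 q a)) (hM2 : ∀ q a, Continuous (M2 q a))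
    (hE2 : ∀ q a, Continuous (E2 q a)) :
    ∑ q ∈ QQ, ‖Bq X (bq q) σ n q (fun a x => M1 q a x + E1 q a x)
        (fun a x => M2 q a x + E2 q a x)‖ ≤
      ∑ q ∈ QQ, ‖Bq X (bq q) σ n q (M1 q) (M2 q)‖ +
      Real.sqrt (N2 X bq QQ E1) * Real.sqrt (N2 X bq QQ (fun q a x => M2 q a x + E2 q a x)) +
      Real.sqrt (N2 X bq QQ (fun q a x => M1 q a x + E1 q a x)) * Real.sqrt (N2 X bq QQ E2) +
      Real.sqrt (N2 X bq QQ E1) * Real.sqrt (N2 X bq QQ E2) := by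
  have key : ∀ q ∈ QQ, ‖Bq X (bq q) σ n q (fun a x => M1 q a x + E1 q a x)
        (fun a x => M2 q a x + E2 q a x)‖ ≤
      ‖Bq X (bq q) σ n q (M1 q) (M2 q)‖ +
      ‖Bq X (bq q) σ n q (E1 q) (fun a x => M2 q a x + E2 q a x)‖ +
      ‖Bq X (bq q) σ n q (fun a x => M1 q a x + E1 q a x) (E2 q)‖ +
      ‖Bq X (bq q) σ n q (E1 q) (E2 q)‖ := by
    intro q _
    have h1 := Bq_add_left X (bq q) σ n q (M1 q) (E1 q) (fun a x => M2 q a x + E2 q a x)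
      (hM1 q) (hE1 q) (fun a => (hM2 q a).add (hE2 q a))
    have h2 := Bq_add_right X (bq q) σ n q (M1 q) (M2 q) (E2 q) (hM1 q) (hM2 q) (hE2 q)
    have h3 := Bq_add_left X (bq q) σ n q (M1 q) (E1 q) (E2 q) (hM1 q) (hE1 q) (hE2 q)
    have h4 : Bq X (bq q) σ n q (fun a x => M1 q a x + E1 q a x)
        (fun a x => M2 q a x + E2 q a x) =
        Bq X (bq q) σ n q (M1 q) (M2 q) +
        Bq X (bq q) σ n q (E1 q) (fun a x => M2 q a x + E2 q a x) +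
        Bq X (bq q) σ n q (fun a x => M1 q a x + E1 q a x) (E2 q) -
        Bq X (bq q) σ n q (E1 q) (E2 q) := by
      rw [h1, h2, h3]
      ring
    rw [h4]
    refine (norm_sub_le _ _).trans ?_
    have h5 := norm_add_le (Bq X (bq q) σ n q (M1 q) (M2 q) +
        Bq X (bq q) σ n q (E1 q) (fun a x => M2 q a x + E2 q a x))
        (Bq X (bq q) σ n q (fun a x => M1 q a x + E1 q a x) (E2 q))
    have h6 := norm_add_le (Bq X (bq q) σ n q (M1 q) (M2 q))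
        (Bq X (bq q) σ n q (E1 q) (fun a x => M2 q a x + E2 q a x))
    linarith
  refine (sum_le_sum key).trans ?_
  rw [sum_add_distrib, sum_add_distrib, sum_add_distrib]
  have c1 : ∑ q ∈ QQ, ‖Bq X (bq q) σ n q (E1 q) (fun a x => M2 q a x + E2 q a x)‖ ≤
      Real.sqrt (N2 X bq QQ E1) * Real.sqrt (N2 X bq QQ (fun q a x => M2 q a x + E2 q a x)) :=
    Bq_cauchy X bq σ n QQ hb E1 (fun q a x => M2 q a x + E2 q a x) hE1
      (fun q a => (hM2 q a).add (hE2 q a))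
  have c2 : ∑ q ∈ QQ, ‖Bq X (bq q) σ n q (fun a x => M1 q a x + E1 q a x) (E2 q)‖ ≤
      Real.sqrt (N2 X bq QQ (fun q a x => M1 q a x + E1 q a x)) * Real.sqrt (N2 X bq QQ E2) :=
    Bq_cauchy X bq σ n QQ hb (fun q a x => M1 q a x + E1 q a x) E2
      (fun q a => (hM1 q a).add (hE1 q a)) hE2
  have c3 := Bq_cauchy X bq σ n QQ hb E1 E2 hE1 hE2
  linarith

private theorem sum_one (X n I : ℕ) (bq : ℕ → ℝ) (σ : ℝ) (QQ : Finset ℕ)
    (g : ℕ → ℕ → ℝ → ℂ) (hg : ∀ q a, Continuous (g q a))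
    (F : ℕ → ℕ → ℕ → ℝ → ℂ) (hF : ∀ i q a, Continuous (F i q a)) (R : ℝ)
    (h : ∀ i < I, ∑ q ∈ QQ, ‖Bq X (bq q) σ n q (g q) (F i q)‖ ≤ R) :
    ∑ q ∈ QQ, ‖Bq X (bq q) σ n q (g q) (fun a x => ∑ i ∈ range I, F i q a x)‖ ≤ I * R := by
  have h1 : ∀ q ∈ QQ, ‖Bq X (bq q) σ n q (g q) (fun a x => ∑ i ∈ range I, F i q a x)‖ ≤
      ∑ i ∈ range I, ‖Bq X (bq q) σ n q (g q) (F i q)‖ := by
    intro q _
    rw [Bq_sum_right X (bq q) σ n q I (g q) (fun i => F i q) (hg q) (fun i a => hF i q a)]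
    exact norm_sum_le _ _
  refine (sum_le_sum h1).trans ?_
  rw [sum_comm]
  have h2 : ∑ i ∈ range I, ∑ q ∈ QQ, ‖Bq X (bq q) σ n q (g q) (F i q)‖ ≤
      ∑ _i ∈ range I, R := sum_le_sum fun i hi => h i (mem_range.1 hi)
  rw [sum_const, card_range, nsmul_eq_mul] at h2
  exact h2

private theorem sum_two (X n I : ℕ) (bq : ℕ → ℝ) (σ : ℝ) (QQ : Finset ℕ)
    (F F' : ℕ → ℕ → ℕ → ℝ → ℂ) (hF : ∀ i q a, Continuous (F i q a))
    (hF' : ∀ i q a, Continuous (F' i q a)) (R : ℝ)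
    (h : ∀ i < I, ∀ j < I, ∑ q ∈ QQ, ‖Bq X (bq q) σ n q (F i q) (F' j q)‖ ≤ R) :
    ∑ q ∈ QQ, ‖Bq X (bq q) σ n q (fun a x => ∑ i ∈ range I, F i q a x)
      (fun a x => ∑ i ∈ range I, F' i q a x)‖ ≤ I * (I * R) := by
  refine sum_one X n I bq σ QQ (fun q a x => ∑ i ∈ range I, F i q a x)
    (fun q a => continuous_finsetSum _ fun i _ => hF i q a) F' hF' (I * R) fun j hj => ?_
  have h1 := sum_one X n I bq σ QQ (fun q => F' j q) (fun q a => hF' j q a) F hF R (fun i hi => by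
    have h2 := h i hi j hj
    refine le_trans (le_of_eq ?_) h2
    exact sum_congr rfl fun q _ => by rw [Bq_comm])
  refine le_trans (le_of_eq ?_) h1
  exact sum_congr rfl fun q _ => by rw [Bq_comm]

private theorem hroot {L : ℝ} (hL : 0 < L) (m : ℕ) :
    (L ^ (4 * m)) ^ (-(1 / 4) : ℝ) = (L ^ m)⁻¹ := by
  have h0 : 0 ≤ L ^ m := pow_nonneg hL.le m
  rw [Real.rpow_neg (pow_nonneg hL.le _), show 4 * m = m * 4 by ring, pow_mul,
    show (1 / 4 : ℝ) = ((4 : ℕ) : ℝ)⁻¹ by norm_num, Real.pow_rpow_inv_natCast h0 (by norm_num)]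

private theorem ev_pow (K : ℕ) (η : ℝ) (hη : 0 < η) :
    ∀ᶠ X : ℕ in Filter.atTop, (Real.log X) ^ K ≤ (X : ℝ) ^ η := by
  have h := (isLittleO_log_rpow_rpow_atTop (K : ℝ) hη).bound (c := 1) one_pos
  have h2 := (tendsto_natCast_atTop_atTop (R := ℝ)).eventually h
  filter_upwards [h2, Filter.eventually_ge_atTop 1] with X hX h1
  have h3 : 0 ≤ Real.log X := Real.log_nonneg (by exact_mod_cast h1)
  have h4 : 0 ≤ (X : ℝ) ^ η := Real.rpow_nonneg (Nat.cast_nonneg X) _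
  rw [one_mul, Real.norm_eq_abs, Real.norm_eq_abs, Real.rpow_natCast, abs_of_nonneg h4,
    abs_of_nonneg (pow_nonneg h3 K)] at hX
  exact hX

private theorem ev_log (c : ℝ) : ∀ᶠ X : ℕ in Filter.atTop, c ≤ Real.log X :=
  (Real.tendsto_log_atTop.comp (tendsto_natCast_atTop_atTop (R := ℝ))).eventually_ge_atTop c

/-- the size of `W` -/
private theorem W_N2 (K0 C1 : ℕ) (ww gg : ℕ → ℕ → ℝ) (hw1 : W1 K0 C1 ww gg) (D' : ℕ)
    (hD : 1 ≤ D') : ∃ X0 : ℕ, ∀ X : ℕ, X0 ≤ X → ∀ s : ℝ, |s| ≤ 1 →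
    ∀ (b N σ : ℝ) (QQ : Finset ℕ) (bq : ℕ → ℝ), 0 < b → 1 ≤ N → N * b ≤ X → (σ = 1 ∨ σ = -1) →
    Fam QQ N → (∀ q ∈ QQ, b ≤ bq q ∧ bq q ≤ 2 * b) →
    N2 X bq QQ (fun q a x => WJa ww gg s σ (wX D' X) X q a x) ≤ 4 * X * (Real.log X) ^ 3 := by
  obtain ⟨X0, h⟩ := WI_l2 K0 C1 ww gg hw1 D' hD
  refine ⟨max X0 1, fun X hX s hs b N σ QQ bq hb hN1 hNb hσ hN hbq => ?_⟩
  obtain ⟨e, h2, h3⟩ := h X ((le_max_left _ _).trans hX) s hs
  have h4 := N2_tp X ((le_max_right _ _).trans hX) b N σ hb hN1 hNb hσ QQ hN bq hbq X e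
  have h5 : (fun (q a : ℕ) (x : ℝ) => WJa ww gg s σ (wX D' X) X q a x) =
      fun (q a : ℕ) (x : ℝ) => tp X e ((a : ℝ) / q + σ * x) := by
    funext q a x
    exact h3 _
  rw [h5]
  refine h4.trans ?_
  linarith

/-- the error terms -/
private theorem err_bound {Xr L N1 N2' W1 W2 : ℝ} (A : ℕ) (hX : 0 ≤ Xr) (hL : 1 ≤ L)
    (h1 : N1 ≤ 4 * Xr / L ^ (2 * (A + 6))) (h2 : N2' ≤ 4 * Xr / L ^ (2 * (A + 6)))
    (h3 : W1 ≤ 4 * Xr * L ^ 3) (h4 : W2 ≤ 4 * Xr * L ^ 3) :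
    Real.sqrt N1 * Real.sqrt W2 + Real.sqrt W1 * Real.sqrt N2' + Real.sqrt N1 * Real.sqrt N2' ≤
      12 * (Xr / L ^ (A + 4)) := by
  have hL0 : 0 < L := by linarith
  have e1 : Real.sqrt (4 * Xr / L ^ (2 * (A + 6))) = 2 * Real.sqrt Xr / L ^ (A + 6) := by
    rw [show 4 * Xr / L ^ (2 * (A + 6)) = (2 / L ^ (A + 6)) ^ 2 * Xr by
      rw [div_pow, ← pow_mul, show (A + 6) * 2 = 2 * (A + 6) by ring]
      ring, Real.sqrt_mul (by positivity), Real.sqrt_sq (by positivity)]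
    ring
  have e2 : Real.sqrt (4 * Xr * L ^ 4) = 2 * Real.sqrt Xr * L ^ 2 := by
    rw [show 4 * Xr * L ^ 4 = (2 * L ^ 2) ^ 2 * Xr by ring, Real.sqrt_mul (by positivity),
      Real.sqrt_sq (by positivity)]
    ring
  have h34 : 4 * Xr * L ^ 3 ≤ 4 * Xr * L ^ 4 := by
    apply mul_le_mul_of_nonneg_left _ (by positivity)
    exact pow_le_pow_right₀ hL (by norm_num)
  have a1 : Real.sqrt N1 ≤ 2 * Real.sqrt Xr / L ^ (A + 6) := e1 ▸ Real.sqrt_le_sqrt h1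
  have a2 : Real.sqrt N2' ≤ 2 * Real.sqrt Xr / L ^ (A + 6) := e1 ▸ Real.sqrt_le_sqrt h2
  have a3 : Real.sqrt W1 ≤ 2 * Real.sqrt Xr * L ^ 2 := e2 ▸ Real.sqrt_le_sqrt (h3.trans h34)
  have a4 : Real.sqrt W2 ≤ 2 * Real.sqrt Xr * L ^ 2 := e2 ▸ Real.sqrt_le_sqrt (h4.trans h34)
  have hs : Real.sqrt Xr * Real.sqrt Xr = Xr := Real.mul_self_sqrt hX
  have hsn := Real.sqrt_nonneg Xr
  have hLL : L ^ 2 / L ^ (A + 6) = 1 / L ^ (A + 4) := by
    rw [show A + 6 = (A + 4) + 2 by ring, pow_add L (A + 4) 2]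
    field_simp
  have p1 : Real.sqrt N1 * Real.sqrt W2 ≤ 4 * (Xr / L ^ (A + 4)) := by
    calc Real.sqrt N1 * Real.sqrt W2
        ≤ (2 * Real.sqrt Xr / L ^ (A + 6)) * (2 * Real.sqrt Xr * L ^ 2) :=
          mul_le_mul a1 a4 (Real.sqrt_nonneg _) (by positivity)
      _ = 4 * (Real.sqrt Xr * Real.sqrt Xr) * (L ^ 2 / L ^ (A + 6)) := by ring
      _ = 4 * (Xr / L ^ (A + 4)) := by
          rw [hs, hLL]
          ring
  have p2 : Real.sqrt W1 * Real.sqrt N2' ≤ 4 * (Xr / L ^ (A + 4)) := by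
    calc Real.sqrt W1 * Real.sqrt N2'
        ≤ (2 * Real.sqrt Xr * L ^ 2) * (2 * Real.sqrt Xr / L ^ (A + 6)) :=
          mul_le_mul a3 a2 (Real.sqrt_nonneg _) (by positivity)
      _ = 4 * (Real.sqrt Xr * Real.sqrt Xr) * (L ^ 2 / L ^ (A + 6)) := by ring
      _ = 4 * (Xr / L ^ (A + 4)) := by
          rw [hs, hLL]
          ring
  have p3 : Real.sqrt N1 * Real.sqrt N2' ≤ 4 * (Xr / L ^ (A + 4)) := by
    calc Real.sqrt N1 * Real.sqrt N2'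
        ≤ (2 * Real.sqrt Xr / L ^ (A + 6)) * (2 * Real.sqrt Xr / L ^ (A + 6)) :=
          mul_le_mul a1 a2 (Real.sqrt_nonneg _) (by positivity)
      _ = 4 * ((Real.sqrt Xr * Real.sqrt Xr) / (L ^ (A + 6) * L ^ (A + 6))) := by ring
      _ ≤ 4 * (Xr / L ^ (A + 4)) := by
          rw [hs]
          apply mul_le_mul_of_nonneg_left _ (by norm_num)
          apply div_le_div_of_nonneg_left hX (by positivity)
          rw [← pow_add]
          exact pow_le_pow_right₀ hL (by omega)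
  linarith

/-- type II against type II -/
private theorem gg_bound {Xr L C2 I' h δx : ℝ} (C0 E P : ℕ) (hC2 : 0 < C2) (hX : 0 ≤ Xr)
    (hL : 1 ≤ L) (hI0 : 0 ≤ I') (hI : I' ≤ L ^ C0) (hP : P = E + (5 * C0 + 3))
    (hh : h ≤ (L ^ P)⁻¹) (hδ : δx ≤ (L ^ P)⁻¹) (h1 : 1 ≤ Xr * (L ^ P)⁻¹) :
    I' * (I' * (C2 * L ^ 3 * (L ^ C0) ^ 2 * L ^ C0 * Xr * (h + δx) + 1)) ≤
      (2 * C2 + 1) * (Xr / L ^ E) := by
  have hL0 : 0 < L := by linarith
  have hy : 0 < (L ^ P)⁻¹ := by positivity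
  have hm : 1 ≤ L ^ (3 * C0 + 3) := one_le_pow₀ hL
  have hm' : L ^ (3 * C0 + 3) = L ^ 3 * (L ^ C0) ^ 2 * L ^ C0 := by ring
  have h2 : C2 * L ^ 3 * (L ^ C0) ^ 2 * L ^ C0 * Xr * (h + δx) + 1 ≤
      (2 * C2 + 1) * L ^ (3 * C0 + 3) * (Xr * (L ^ P)⁻¹) := by
    have h3 : C2 * L ^ 3 * (L ^ C0) ^ 2 * L ^ C0 * Xr * (h + δx) ≤
        C2 * L ^ 3 * (L ^ C0) ^ 2 * L ^ C0 * Xr * (2 * (L ^ P)⁻¹) := by
      apply mul_le_mul_of_nonneg_left _ (by positivity)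
      linarith
    have h4 : 1 ≤ L ^ (3 * C0 + 3) * (Xr * (L ^ P)⁻¹) := by
      nlinarith
    have h5 : C2 * L ^ 3 * (L ^ C0) ^ 2 * L ^ C0 * Xr * (2 * (L ^ P)⁻¹) =
        2 * C2 * (L ^ (3 * C0 + 3) * (Xr * (L ^ P)⁻¹)) := by
      rw [hm']
      ring
    have h6 : (2 * C2 + 1) * L ^ (3 * C0 + 3) * (Xr * (L ^ P)⁻¹) =
        2 * C2 * (L ^ (3 * C0 + 3) * (Xr * (L ^ P)⁻¹)) + L ^ (3 * C0 + 3) * (Xr * (L ^ P)⁻¹) := by ring
    linarith
  have h7 : 0 ≤ (2 * C2 + 1) * L ^ (3 * C0 + 3) * (Xr * (L ^ P)⁻¹) := by positivity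
  calc I' * (I' * (C2 * L ^ 3 * (L ^ C0) ^ 2 * L ^ C0 * Xr * (h + δx) + 1))
      ≤ I' * (I' * ((2 * C2 + 1) * L ^ (3 * C0 + 3) * (Xr * (L ^ P)⁻¹))) := by
        apply mul_le_mul_of_nonneg_left _ hI0
        exact mul_le_mul_of_nonneg_left h2 hI0
    _ ≤ L ^ C0 * (L ^ C0 * ((2 * C2 + 1) * L ^ (3 * C0 + 3) * (Xr * (L ^ P)⁻¹))) := by
        apply mul_le_mul hI _ (by positivity) (by positivity)
        exact mul_le_mul_of_nonneg_right hI h7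
    _ = (2 * C2 + 1) * (Xr * (L ^ (5 * C0 + 3) * (L ^ P)⁻¹)) := by
        rw [show 5 * C0 + 3 = C0 + (C0 + (3 * C0 + 3)) by ring, pow_add L C0, pow_add L C0]
        ring
    _ = (2 * C2 + 1) * (Xr / L ^ E) := by
        rw [hP, pow_add L E]
        field_simp

/-- a function independent of `a` against type II -/
private theorem lt_bound {Xr L C3 C5 I' b Sg x16 : ℝ} (C0 K2 E T : ℕ) (hC3 : 0 < C3)
    (hC5 : 0 < C5) (hX : 0 ≤ Xr)
    (hL : 1 ≤ L) (hI0 : 0 ≤ I') (hI : I' ≤ L ^ C0) (hb0 : 0 < b) (hb : b ≤ L ^ K2)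
    (hT : E + (4 * C0 + 3 + K2) ≤ T)
    (hS : Sg ≤ 2 * C5 * L * ((L ^ T)⁻¹) ^ 2) (hx : x16 ≤ (L ^ T)⁻¹) (h1 : 1 ≤ Xr * (L ^ T)⁻¹) :
    I' * (C3 * L ^ 2 * L ^ C0 * L ^ C0 * Real.sqrt (L ^ C0) * (1 + b) * Xr * (Real.sqrt Sg + x16) + 1) ≤
      (2 * C3 * (2 * C5 + 2) + 1) * (Xr / L ^ E) := by
  have hL0 : 0 < L := by linarith
  have hy : 0 < (L ^ T)⁻¹ := by positivity
  have s1 : Real.sqrt (L ^ C0) ≤ L ^ C0 := by
    rw [Real.sqrt_le_left (by positivity)]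
    have : 1 ≤ L ^ C0 := one_le_pow₀ hL
    nlinarith
  have s2 : Real.sqrt Sg ≤ (2 * C5 + 1) * L * (L ^ T)⁻¹ := by
    rw [Real.sqrt_le_left (by positivity)]
    refine hS.trans ?_
    rw [mul_pow]
    apply mul_le_mul_of_nonneg_right _ (by positivity)
    nlinarith [mul_pos hC5 hL0, mul_nonneg hC5.le (sub_nonneg.2 hL), sq_nonneg (C5 * L)]
  have s3 : Real.sqrt Sg + x16 ≤ (2 * C5 + 2) * L * (L ^ T)⁻¹ := by
    have : (L ^ T)⁻¹ ≤ L * (L ^ T)⁻¹ := by nlinarith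
    nlinarith
  have s4 : 1 + b ≤ 2 * L ^ K2 := by
    have : 1 ≤ L ^ K2 := one_le_pow₀ hL
    linarith
  have s5 : C3 * L ^ 2 * L ^ C0 * L ^ C0 * Real.sqrt (L ^ C0) * (1 + b) * Xr * (Real.sqrt Sg + x16) ≤
      C3 * L ^ 2 * L ^ C0 * L ^ C0 * L ^ C0 * (2 * L ^ K2) * Xr * ((2 * C5 + 2) * L * (L ^ T)⁻¹) := by
    have t1 : C3 * L ^ 2 * L ^ C0 * L ^ C0 * Real.sqrt (L ^ C0) * (1 + b) * Xr ≤
        C3 * L ^ 2 * L ^ C0 * L ^ C0 * L ^ C0 * (2 * L ^ K2) * Xr := by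
      apply mul_le_mul_of_nonneg_right _ hX
      apply mul_le_mul _ s4 (by linarith) (by positivity)
      exact mul_le_mul_of_nonneg_left s1 (by positivity)
    have t2 : 0 ≤ C3 * L ^ 2 * L ^ C0 * L ^ C0 * Real.sqrt (L ^ C0) * (1 + b) * Xr := by
      have : 0 < 1 + b := by linarith
      positivity
    calc C3 * L ^ 2 * L ^ C0 * L ^ C0 * Real.sqrt (L ^ C0) * (1 + b) * Xr * (Real.sqrt Sg + x16)
        ≤ C3 * L ^ 2 * L ^ C0 * L ^ C0 * Real.sqrt (L ^ C0) * (1 + b) * Xr *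
          ((2 * C5 + 2) * L * (L ^ T)⁻¹) := mul_le_mul_of_nonneg_left s3 t2
      _ ≤ _ := mul_le_mul_of_nonneg_right t1 (by positivity)
  set Q := L ^ (3 * C0 + 3 + K2) * (Xr * (L ^ T)⁻¹) with hQ
  have s6 : C3 * L ^ 2 * L ^ C0 * L ^ C0 * L ^ C0 * (2 * L ^ K2) * Xr *
      ((2 * C5 + 2) * L * (L ^ T)⁻¹) = 2 * C3 * (2 * C5 + 2) * Q := by
    rw [hQ, show 3 * C0 + 3 + K2 = C0 + C0 + C0 + 2 + 1 + K2 by ring, pow_add, pow_add, pow_add,
      pow_add, pow_add]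
    ring
  have s7 : 1 ≤ Q := by
    rw [hQ]
    have : 1 ≤ L ^ (3 * C0 + 3 + K2) := one_le_pow₀ hL
    nlinarith
  have s8 : C3 * L ^ 2 * L ^ C0 * L ^ C0 * Real.sqrt (L ^ C0) * (1 + b) * Xr *
      (Real.sqrt Sg + x16) + 1 ≤ (2 * C3 * (2 * C5 + 2) + 1) * Q := by
    have : (2 * C3 * (2 * C5 + 2) + 1) * Q = 2 * C3 * (2 * C5 + 2) * Q + Q := by ring
    linarith
  have s9 : L ^ C0 * Q ≤ Xr / L ^ E := by
    rw [hQ]
    calc L ^ C0 * (L ^ (3 * C0 + 3 + K2) * (Xr * (L ^ T)⁻¹))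
        = Xr * (L ^ (4 * C0 + 3 + K2) / L ^ T) := by
          rw [show 4 * C0 + 3 + K2 = C0 + (3 * C0 + 3 + K2) by ring, pow_add L C0]
          ring
      _ ≤ Xr * (1 / L ^ E) := by
          apply mul_le_mul_of_nonneg_left _ hX
          rw [div_le_div_iff₀ (by positivity) (by positivity), one_mul, ← pow_add]
          exact pow_le_pow_right₀ hL (by omega)
      _ = Xr / L ^ E := by ring
  have hQ0 : 0 ≤ Q := by linarith
  calc I' * (C3 * L ^ 2 * L ^ C0 * L ^ C0 * Real.sqrt (L ^ C0) * (1 + b) * Xr *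
        (Real.sqrt Sg + x16) + 1)
      ≤ I' * ((2 * C3 * (2 * C5 + 2) + 1) * Q) := mul_le_mul_of_nonneg_left s8 hI0
    _ ≤ L ^ C0 * ((2 * C3 * (2 * C5 + 2) + 1) * Q) :=
        mul_le_mul_of_nonneg_right hI (by positivity)
    _ = (2 * C3 * (2 * C5 + 2) + 1) * (L ^ C0 * Q) := by ring
    _ ≤ (2 * C3 * (2 * C5 + 2) + 1) * (Xr / L ^ E) :=
        mul_le_mul_of_nonneg_left s9 (by positivity)

/-- two functions independent of `a` -/
private theorem ll_bound {Xr L C4 C5 b Sg : ℝ} (C0 K2 E T : ℕ) (hC4 : 0 < C4)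
    (hC5 : 0 < C5) (hX : 0 ≤ Xr) (hL : 1 ≤ L) (hb0 : 0 < b) (hb : b ≤ L ^ K2)
    (hT : E + (2 * C0 + 1 + K2) ≤ T) (hS : Sg ≤ 2 * C5 * L * ((L ^ T)⁻¹) ^ 2) :
    C4 * (L ^ C0) ^ 2 * b * Xr * Sg ≤ 2 * C4 * C5 * (Xr / L ^ E) := by
  have hL0 : 0 < L := by linarith
  have hy : 0 < (L ^ T)⁻¹ := by positivity
  have hy1 : (L ^ T)⁻¹ ≤ 1 := inv_le_one_of_one_le₀ (one_le_pow₀ hL)
  have h1 : C4 * (L ^ C0) ^ 2 * b * Xr * Sg ≤
      C4 * (L ^ C0) ^ 2 * L ^ K2 * Xr * (2 * C5 * L * (L ^ T)⁻¹) := by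
    have t1 : C4 * (L ^ C0) ^ 2 * b * Xr ≤ C4 * (L ^ C0) ^ 2 * L ^ K2 * Xr := by
      apply mul_le_mul_of_nonneg_right _ hX
      exact mul_le_mul_of_nonneg_left hb (by positivity)
    have t2 : Sg ≤ 2 * C5 * L * (L ^ T)⁻¹ := by
      refine hS.trans ?_
      apply mul_le_mul_of_nonneg_left _ (by positivity)
      nlinarith
    calc C4 * (L ^ C0) ^ 2 * b * Xr * Sg
        ≤ C4 * (L ^ C0) ^ 2 * b * Xr * (2 * C5 * L * (L ^ T)⁻¹) :=
          mul_le_mul_of_nonneg_left t2 (by positivity)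
      _ ≤ _ := mul_le_mul_of_nonneg_right t1 (by positivity)
  refine h1.trans ?_
  calc C4 * (L ^ C0) ^ 2 * L ^ K2 * Xr * (2 * C5 * L * (L ^ T)⁻¹)
      = 2 * C4 * C5 * (Xr * (L ^ (2 * C0 + 1 + K2) / L ^ T)) := by
        rw [pow_add L (2 * C0 + 1), pow_succ L (2 * C0)]
        ring
    _ ≤ 2 * C4 * C5 * (Xr * (1 / L ^ E)) := by
        apply mul_le_mul_of_nonneg_left _ (by positivity)
        apply mul_le_mul_of_nonneg_left _ hX
        rw [div_le_div_iff₀ (by positivity) (by positivity), one_mul, ← pow_add]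
        exact pow_le_pow_right₀ hL (by omega)
    _ = 2 * C4 * C5 * (Xr / L ^ E) := by ring

private theorem four (X n : ℕ) (bq : ℕ → ℝ) (σ : ℝ) (QQ : Finset ℕ)
    (l1 l2 G G' : ℕ → ℕ → ℝ → ℂ) (h1 : ∀ q a, Continuous (l1 q a)) (h2 : ∀ q a, Continuous (l2 q a))
    (hG : ∀ q a, Continuous (G q a)) (hG' : ∀ q a, Continuous (G' q a)) :
    ∑ q ∈ QQ, ‖Bq X (bq q) σ n q (fun a x => l1 q a x + G q a x) (fun a x => l2 q a x + G' q a x)‖ ≤
      ∑ q ∈ QQ, ‖Bq X (bq q) σ n q (l1 q) (l2 q)‖ + ∑ q ∈ QQ, ‖Bq X (bq q) σ n q (l1 q) (G' q)‖ +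
      ∑ q ∈ QQ, ‖Bq X (bq q) σ n q (l2 q) (G q)‖ + ∑ q ∈ QQ, ‖Bq X (bq q) σ n q (G q) (G' q)‖ := by
  rw [← sum_add_distrib, ← sum_add_distrib, ← sum_add_distrib]
  refine sum_le_sum fun q _ => ?_
  have e1 := Bq_add_left X (bq q) σ n q (l1 q) (G q) (fun a x => l2 q a x + G' q a x)
    (h1 q) (hG q) (fun a => (h2 q a).add (hG' q a))
  have e2 := Bq_add_right X (bq q) σ n q (l1 q) (l2 q) (G' q) (h1 q) (h2 q) (hG' q)
  have e3 := Bq_add_right X (bq q) σ n q (G q) (l2 q) (G' q) (hG q) (h2 q) (hG' q)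
  have e4 := Bq_comm X (bq q) σ n q (G q) (l2 q)
  rw [e1, e2, e3, e4]
  have t1 := norm_add_le (Bq X (bq q) σ n q (l1 q) (l2 q) + Bq X (bq q) σ n q (l1 q) (G' q))
    (Bq X (bq q) σ n q (l2 q) (G q) + Bq X (bq q) σ n q (G q) (G' q))
  have t2 := norm_add_le (Bq X (bq q) σ n q (l1 q) (l2 q)) (Bq X (bq q) σ n q (l1 q) (G' q))
  have t3 := norm_add_le (Bq X (bq q) σ n q (l2 q) (G q)) (Bq X (bq q) σ n q (G q) (G' q))
  linarith

private theorem conj_cont {f : ℝ → ℂ} (hf : Continuous f) :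
    Continuous fun x => (starRingEnd ℂ) (f x) :=
  Complex.continuous_conj.comp hf

private theorem N2_conj (X : ℕ) (bq : ℕ → ℝ) (QQ : Finset ℕ) (f : ℕ → ℕ → ℝ → ℂ) :
    N2 X bq QQ (fun q a x => (starRingEnd ℂ) (f q a x)) = N2 X bq QQ f := by
  unfold N2
  refine sum_congr rfl fun q _ => sum_congr rfl fun a _ => ?_
  apply intervalIntegral.integral_congr
  intro x _
  show ‖(starRingEnd ℂ) (f q a x)‖ ^ 2 = ‖f q a x‖ ^ 2
  rw [RCLike.norm_conj]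

theorem pl_sigma_t (A : ℕ) : ∃ B : ℕ, ∀ K0 C1 C2 : ℕ, ∃ K3 : ℕ, ∀ th e τ : ℝ, Adm th e τ →
    ∀ ww gg : ℕ → ℕ → ℝ, W1 K0 C1 ww gg → DecJ B C2 th e τ ww → ∀ A1 D' : ℕ, 1 ≤ D' →
    ∃ X0 : ℕ, ∀ X : ℕ, X0 ≤ X → ∀ (n : ℕ) (b N σ : ℝ) (QQ : Finset ℕ) (bq : ℕ → ℝ), 1 ≤ n →
    n ≤ X → StdJ X X th e A1 b N σ QQ bq →
    (∀ q ∈ QQ, (Real.log X) ^ K3 ≤ (hq q n : ℝ) * (1 + n * b / X)) →
    ∑ q ∈ QQ, ‖Bq X (bq q) σ n q (WJa ww gg (-1) σ (wX D' X) X q)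
      (fun a x => (starRingEnd ℂ) (WJa ww gg (-1) σ (wX D' X) X q a x))‖ ≤
      X / (Real.log X) ^ A := by
  obtain ⟨AE, hAE⟩ : ∃ AE, AE = 2 * (A + 6) := ⟨_, rfl⟩
  obtain ⟨B, harc⟩ := arc_j AE
  refine ⟨B, fun K0 C1 C2' => ?_⟩
  obtain ⟨C0, harc⟩ := harc K0 C1 C2'
  obtain ⟨C2, hC2, htt⟩ := two_two_t
  obtain ⟨C3, hC3, hlt⟩ := lam_two_g
  obtain ⟨C3', hC3', hlt'⟩ := lam_two_t
  obtain ⟨C4, hC4, hll⟩ := lam_lam
  obtain ⟨C5, hC5, hds⟩ := div_sum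
  obtain ⟨P, hP⟩ : ∃ P, P = (A + 4) + (5 * C0 + 3) := ⟨_, rfl⟩
  obtain ⟨K2, hK2⟩ : ∃ K2, K2 = 4 * (AE + C0 + P) := ⟨_, rfl⟩
  obtain ⟨T, hT⟩ : ∃ T, T = (A + 4) + (4 * C0 + 3 + K2) + P := ⟨_, rfl⟩
  refine ⟨8 * T + K2 + 1, fun th e τ hadm ww gg hw1 hdc A1 D' hD' => ?_⟩
  obtain ⟨Xa, ha⟩ := harc th e τ hadm ww gg hw1 hdc A1 D' hD'
  obtain ⟨Xt, ht⟩ := htt th e τ A1 hadm
  obtain ⟨Xl, hl⟩ := hlt th e τ A1 hadm
  obtain ⟨Xl', hl'⟩ := hlt' th e τ A1 hadm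
  obtain ⟨Xw, hw⟩ := W_N2 K0 C1 ww gg hw1 D' hD'
  obtain ⟨hadm1, hadm2, he0, hτ1, hτ2⟩ := hadm
  have hτ0 : 0 < τ := by linarith
  obtain ⟨Ct, hCt⟩ : ∃ Ct, Ct = 12 + (2 * C2 + 1) + (2 * C3 * (2 * C5 + 2) + 1) +
    (2 * C3' * (2 * C5 + 2) + 1) + 2 * C4 * C5 := ⟨_, rfl⟩
  have ev := (((ev_log (max 2 Ct)).and (ev_pow T (1 / 20) (by norm_num))).and
    (ev_pow T (τ ^ 2 / 400) (by positivity))).and
    (Filter.eventually_ge_atTop (max (max Xa Xt) (max (max Xl Xw) (max 1 Xl'))))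
  obtain ⟨X0, h0⟩ := Filter.eventually_atTop.1 ev
  refine ⟨X0, fun X hX n b N σ QQ bq hn1 hnX hstd hcase => ?_⟩
  obtain ⟨⟨⟨hLm, hx16⟩, hxe⟩, hXm⟩ := h0 X hX
  have hXa : Xa ≤ X := ((le_max_left _ _).trans (le_max_left _ _)).trans hXm
  have hXt : Xt ≤ X := ((le_max_right _ _).trans (le_max_left _ _)).trans hXm
  have hXl : Xl ≤ X :=
    (((le_max_left _ _).trans (le_max_left _ _)).trans (le_max_right _ _)).trans hXm
  have hXw : Xw ≤ X :=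
    (((le_max_right _ _).trans (le_max_left _ _)).trans (le_max_right _ _)).trans hXm
  have hX1' : 1 ≤ X :=
    (((le_max_left _ _).trans (le_max_right _ _)).trans (le_max_right _ _)).trans hXm
  have hXl' : Xl' ≤ X :=
    (((le_max_right _ _).trans (le_max_right _ _)).trans (le_max_right _ _)).trans hXm
  have hX1 : (1 : ℝ) ≤ X := by exact_mod_cast hX1'
  have hX0 : (0 : ℝ) < X := by linarith
  obtain ⟨L, hLdef⟩ : ∃ L, L = Real.log (X : ℝ) := ⟨_, rfl⟩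
  rw [← hLdef] at hLm hx16 hxe hcase ⊢
  have hL2 : 2 ≤ L := (le_max_left _ _).trans hLm
  have hL1 : 1 ≤ L := by linarith
  have hLC : Ct ≤ L := (le_max_right _ _).trans hLm
  have hL0 : 0 < L := by linarith
  have hTX : L ^ T ≤ X := by
    refine hx16.trans ?_
    calc (X : ℝ) ^ (1 / 20 : ℝ) ≤ (X : ℝ) ^ (1 : ℝ) :=
          Real.rpow_le_rpow_of_exponent_le hX1 (by norm_num)
      _ = X := Real.rpow_one _
  have hLX : ∀ k : ℕ, k ≤ T → L ^ k ≤ X := fun k hk => (pow_le_pow_right₀ hL1 hk).trans hTX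
  have hLT0 : 0 < L ^ T := by positivity
  have hyT : (X : ℝ) ^ (-(τ / 10)) ≤ (L ^ T)⁻¹ := by
    rw [Real.rpow_neg hX0.le]
    refine inv_anti₀ hLT0 (hxe.trans (Real.rpow_le_rpow_of_exponent_le hX1 ?_))
    nlinarith
  have hyE : (X : ℝ) ^ (-(τ ^ 2 / 400)) ≤ (L ^ T)⁻¹ := by
    rw [Real.rpow_neg hX0.le]
    exact inv_anti₀ hLT0 hxe
  have hPT : (L ^ T)⁻¹ ≤ (L ^ P)⁻¹ :=
    inv_anti₀ (by positivity) (pow_le_pow_right₀ hL1 (by omega))
  have h1T : 1 ≤ (X : ℝ) * (L ^ T)⁻¹ := by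
    rw [← div_eq_mul_inv, one_le_div hLT0]
    exact hTX
  have h1P : 1 ≤ (X : ℝ) * (L ^ P)⁻¹ := h1T.trans (mul_le_mul_of_nonneg_left hPT hX0.le)
  have hstd' := hstd
  obtain ⟨-, -, hσ, hbl, hN1, hNb, hFam, hcard, hbq⟩ := hstd'
  have hb0 : 0 < b := by
    refine lt_of_lt_of_le ?_ hbl
    rw [← hLdef]
    exact Real.rpow_pos_of_pos hL0 _
  have hNbX : N * b ≤ X := by
    refine hNb.trans ?_
    calc (X : ℝ) ^ (1 - th + 3 / 2 * e) ≤ (X : ℝ) ^ (1 : ℝ) :=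
          Real.rpow_le_rpow_of_exponent_le hX1 (by linarith)
      _ = X := Real.rpow_one _
  have hnX' : (n : ℝ) ≤ X := by exact_mod_cast hnX
  have hbq0 : ∀ q ∈ QQ, 0 < bq q := fun q hq' => lt_of_lt_of_le hb0 (hbq q hq').1
  have hq1 : ∀ q ∈ QQ, 1 ≤ q := hFam.1
  have hm1 : |(-1 : ℝ)| ≤ 1 := by norm_num
  have hwN := hw X hXw (-1) hm1 b N σ QQ bq hb0 hN1 hNbX hσ hFam hbq
  rw [← hLdef] at hwN
  obtain ⟨I, M, K, MM, ca, c, hI, hBlk, hdec⟩ := ha X hXa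
  rw [← hLdef] at hI hBlk hdec
  obtain ⟨F, hF⟩ : ∃ F : ℕ → ℕ → ℕ → ℝ → ℂ, F = fun i q =>
    f2f (MM i) (ca i) (tp (K i) (cq q (c i))) σ q := ⟨_, rfl⟩
  obtain ⟨F', hF'⟩ : ∃ F' : ℕ → ℕ → ℕ → ℝ → ℂ, F' = fun i q a x =>
    (starRingEnd ℂ) (F i q a x) := ⟨_, rfl⟩
  have hFc : ∀ i q a, Continuous (F i q a) := by
    intro i q a
    rw [hF]
    exact f2f_cont _ _ _ _ _ _ _
  have hFc' : ∀ i q a, Continuous (F' i q a) := by
    intro i q a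
    rw [hF']
    exact conj_cont (hFc i q a)
  have hGc : ∀ q a, Continuous fun x => ∑ i ∈ range I, F i q a x := fun q a =>
    continuous_finsetSum _ fun i _ => hFc i q a
  have hGc' : ∀ q a, Continuous fun x => ∑ i ∈ range I, F' i q a x := fun q a =>
    continuous_finsetSum _ fun i _ => hFc' i q a
  have hGconj : ∀ q a x, ∑ i ∈ range I, F' i q a x =
      (starRingEnd ℂ) (∑ i ∈ range I, F i q a x) := by
    intro q a x
    rw [hF', map_sum]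
  have hWc : ∀ q a, Continuous fun x => WJa ww gg (-1) σ (wX D' X) X q a x := fun q a =>
    WJa_cont ww gg (-1) σ (wX D' X) X q a
  have hS0 : 0 ≤ L ^ C0 := by positivity
  have hS0p : 0 < L ^ C0 := by positivity
  have hSX : L ^ C0 ≤ X := hLX C0 (by omega)
  have hcase' : ∀ q ∈ QQ, L ^ (8 * T) ≤ (hq q n : ℝ) * (1 + n * b / X) := by
    intro q hq'
    refine le_trans ?_ (hcase q hq')
    exact pow_le_pow_right₀ hL1 (by omega)
  have hgg : ∑ q ∈ QQ, ‖Bq X (bq q) σ n q (fun a x => ∑ i ∈ range I, F i q a x)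
        (fun a x => ∑ i ∈ range I, F' i q a x)‖ ≤ (2 * C2 + 1) * (X / L ^ (A + 4)) := by
    refine (sum_two X n I bq σ QQ F F' hFc hFc' (C2 * L ^ 3 * (L ^ C0) ^ 2 * L ^ C0 * X *
      ((L ^ (8 * T)) ^ (-(1 / 4) : ℝ) + (X : ℝ) ^ (-(τ ^ 2 / 400))) + 1)
      fun i hi j hj => ?_).trans
      (gg_bound C0 (A + 4) P hC2 hX0.le hL1 (Nat.cast_nonneg I) hI hP (by
        rw [show 8 * T = 4 * (T + T) by ring, hroot hL0]
        exact inv_anti₀ (by positivity) (pow_le_pow_right₀ hL1 (by omega)))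
        (hyE.trans hPT) h1P)
    have h := ht X hXt n b N σ QQ bq hn1 hnX hstd (L ^ (8 * T)) (one_le_pow₀ hL1) hcase' (M i)
      (M j) (L ^ C0) (L ^ C0) (K i) (K j) (MM i)
      (MM j) _ _ _ _ hS0p hSX hS0 hSX (hBlk i hi) (hBlk j hj)
    rw [← hLdef] at h
    rw [hF', hF]
    exact h
  have hfin : ∀ Y : ℝ, Y ≤ Ct * (X / L ^ (A + 4)) → Y ≤ X / L ^ A := by
    intro Y hY
    refine hY.trans ?_
    calc Ct * ((X : ℝ) / L ^ (A + 4)) ≤ L ^ 4 * ((X : ℝ) / L ^ (A + 4)) := by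
          apply mul_le_mul_of_nonneg_right _ (by positivity)
          exact hLC.trans (le_self_pow₀ hL1 (by norm_num))
      _ = X / L ^ A := by
          rw [pow_add]
          field_simp
  have hXE0 : 0 ≤ (X : ℝ) / L ^ (A + 4) := by positivity
  obtain ⟨l1, hl1c, hl1b, hl1S, hl1N⟩ := hdec X b N σ QQ bq hstd (-1) hm1
  by_cases hb2 : L ^ K2 < b
  · -- large `b`
    obtain ⟨E, hE⟩ : ∃ E : ℕ → ℕ → ℝ → ℂ, E = fun q a x => WJa ww gg (-1) σ (wX D' X) X q a x -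
      ∑ i ∈ range I, F i q a x := ⟨_, rfl⟩
    obtain ⟨E', hE'⟩ : ∃ E' : ℕ → ℕ → ℝ → ℂ, E' = fun q a x => (starRingEnd ℂ) (E q a x) :=
      ⟨_, rfl⟩
    have hEc : ∀ q a, Continuous (E q a) := by
      intro q a
      rw [hE]
      exact (hWc q a).sub (hGc q a)
    have hEc' : ∀ q a, Continuous (E' q a) := by
      intro q a
      rw [hE']
      exact conj_cont (hEc q a)
    have hEN : N2 X bq QQ E ≤ 4 * X / L ^ (2 * (A + 6)) := by
      obtain ⟨E2, hE2⟩ : ∃ E2 : ℕ → ℕ → ℝ → ℂ, E2 = fun q a x =>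
        WJa ww gg (-1) σ (wX D' X) X q a x - l1 q x - ∑ i ∈ range I, F i q a x := ⟨_, rfl⟩
      have hE2c : ∀ q a, Continuous (E2 q a) := by
        intro q a
        rw [hE2]
        exact ((hWc q a).sub (hl1c q)).sub (hGc q a)
      have hE2N : N2 X bq QQ E2 ≤ X / L ^ AE := by
        rw [hE2, hF]
        exact hl1N
      have hEE : E = fun q a x => E2 q a x + (fun (q _ : ℕ) (x : ℝ) => l1 q x) q a x := by
        rw [hE, hE2]
        funext q a x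
        ring
      have h' : N2 X bq QQ E ≤ 2 * N2 X bq QQ E2 +
          2 * N2 X bq QQ (fun (q _ : ℕ) (x : ℝ) => l1 q x) := by
        rw [hEE]
        exact N2_add X bq QQ hbq0 E2 (fun (q _ : ℕ) (x : ℝ) => l1 q x) hE2c (fun q _ => hl1c q)
      refine h'.trans ?_
      have h3 : (X : ℝ) * L ^ C0 / b ≤ X / L ^ AE := by
        rw [div_le_div_iff₀ hb0 (by positivity), mul_assoc, ← pow_add]
        apply mul_le_mul_of_nonneg_left _ hX0.le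
        exact (pow_le_pow_right₀ hL1 (by omega)).trans hb2.le
      rw [← hAE]
      have h4 : 0 ≤ (X : ℝ) / L ^ AE := by positivity
      have h5 : 4 * (X : ℝ) / L ^ AE = 4 * (X / L ^ AE) := by ring
      linarith
    have hEN' : N2 X bq QQ E' ≤ 4 * X / L ^ (2 * (A + 6)) := by
      rw [hE', N2_conj]
      exact hEN
    have hWE : (fun q a x => WJa ww gg (-1) σ (wX D' X) X q a x) =
        fun q a x => (∑ i ∈ range I, F i q a x) + E q a x := by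
      rw [hE]
      funext q a x
      ring
    have hWE' : (fun q a x => (starRingEnd ℂ) (WJa ww gg (-1) σ (wX D' X) X q a x)) =
        fun q a x => (∑ i ∈ range I, F' i q a x) + E' q a x := by
      funext q a x
      have h := congrFun (congrFun (congrFun hWE q) a) x
      rw [h, map_add, hGconj, hE']
    have hW1 : N2 X bq QQ (fun q a x => (∑ i ∈ range I, F i q a x) + E q a x) ≤
        4 * X * L ^ 3 := by
      rw [← hWE]
      exact hwN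
    have hW2 : N2 X bq QQ (fun q a x => (∑ i ∈ range I, F' i q a x) + E' q a x) ≤
        4 * X * L ^ 3 := by
      rw [← hWE', N2_conj]
      exact hwN
    have hexp := expand X n bq σ QQ hbq0 (fun q a x => ∑ i ∈ range I, F i q a x) E
      (fun q a x => ∑ i ∈ range I, F' i q a x) E' hGc hEc hGc' hEc'
    have herr := err_bound A hX0.le hL1 hEN hEN' hW1 hW2
    have hgoal : ∑ q ∈ QQ, ‖Bq X (bq q) σ n q (WJa ww gg (-1) σ (wX D' X) X q)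
        (fun a x => (starRingEnd ℂ) (WJa ww gg (-1) σ (wX D' X) X q a x))‖ =
        ∑ q ∈ QQ, ‖Bq X (bq q) σ n q (fun a x => (∑ i ∈ range I, F i q a x) + E q a x)
        (fun a x => (∑ i ∈ range I, F' i q a x) + E' q a x)‖ := by
      refine sum_congr rfl fun q _ => ?_
      have e1 := congrFun hWE q
      have e2 := congrFun hWE' q
      rw [← e1, ← e2]
    apply hfin
    rw [hgoal, hCt]
    refine hexp.trans ?_
    have hc1 : 0 ≤ 2 * C3 * (2 * C5 + 2) + 1 := by positivity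
    have hc1' : 0 ≤ 2 * C3' * (2 * C5 + 2) + 1 := by positivity
    have hc2 : 0 ≤ 2 * C4 * C5 := by positivity
    have hc3 := mul_nonneg hc1 hXE0
    have hc3' := mul_nonneg hc1' hXE0
    have hc4 := mul_nonneg hc2 hXE0
    linarith
  · -- small `b`
    have hb2' : b ≤ L ^ K2 := not_lt.1 hb2
    have hqq : ∀ q ∈ QQ, L ^ (8 * T) ≤ (hq q n : ℝ) := by
      intro q hq'
      have h1 := hcase q hq'
      have h2 : (n : ℝ) * b / X ≤ b := by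
        rw [div_le_iff₀ hX0, mul_comm b]
        exact mul_le_mul_of_nonneg_right hnX' hb0.le
      have h3 : 1 ≤ L ^ K2 := one_le_pow₀ hL1
      have h4 : 1 + (n : ℝ) * b / X ≤ 2 * L ^ K2 := by linarith
      have h5 : (0 : ℝ) ≤ (hq q n : ℝ) := Nat.cast_nonneg _
      have h6 : L ^ (8 * T) * (L * L ^ K2) ≤ (hq q n : ℝ) * (2 * L ^ K2) := by
        calc L ^ (8 * T) * (L * L ^ K2) = L ^ (8 * T + K2 + 1) := by ring
          _ ≤ (hq q n : ℝ) * (1 + n * b / X) := h1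
          _ ≤ (hq q n : ℝ) * (2 * L ^ K2) := mul_le_mul_of_nonneg_left h4 h5
      have h7 : 0 < L ^ K2 := by positivity
      have h8 : L ^ (8 * T) * (2 * L ^ K2) ≤ L ^ (8 * T) * (L * L ^ K2) := by
        apply mul_le_mul_of_nonneg_left _ (by positivity)
        exact mul_le_mul_of_nonneg_right hL2 h7.le
      exact le_of_mul_le_mul_right (h8.trans h6) (by positivity)
    obtain ⟨l2, hl2⟩ : ∃ l2 : ℕ → ℝ → ℂ, l2 = fun q x => (starRingEnd ℂ) (l1 q x) := ⟨_, rfl⟩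
    have hl2c : ∀ q, Continuous (l2 q) := by
      intro q
      rw [hl2]
      exact conj_cont (hl1c q)
    have hl2b : ∀ q ∈ QQ, ∀ x, ‖l2 q x‖ ≤ L ^ C0 * X / q := by
      intro q hq' x
      rw [hl2]
      show ‖(starRingEnd ℂ) (l1 q x)‖ ≤ _
      rw [RCLike.norm_conj]
      exact hl1b q hq' x
    have hSg : ∑ q ∈ QQ, 1 / ((q : ℝ) * (hq q n : ℝ) ^ (1 / 4 : ℝ)) ≤
        2 * C5 * L * ((L ^ T)⁻¹) ^ 2 := by
      refine (hds n QQ (L ^ (8 * T)) hn1 (one_le_pow₀ hL1) fun q hq' =>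
        ⟨hq1 q hq', hqq q hq'⟩).trans ?_
      rw [show 8 * T = 4 * (T + T) by ring, hroot hL0, pow_add, mul_inv]
      have h3 : 1 + Real.log n ≤ 2 * L := by
        have : Real.log n ≤ L := by
          rw [hLdef]
          exact Real.log_le_log (by exact_mod_cast hn1) hnX'
        linarith
      have h4 : C5 * (1 + Real.log n) ≤ C5 * (2 * L) := mul_le_mul_of_nonneg_left h3 hC5.le
      calc C5 * (1 + Real.log n) * ((L ^ T)⁻¹ * (L ^ T)⁻¹)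
          ≤ C5 * (2 * L) * ((L ^ T)⁻¹ * (L ^ T)⁻¹) :=
            mul_le_mul_of_nonneg_right h4 (by positivity)
        _ = 2 * C5 * L * ((L ^ T)⁻¹) ^ 2 := by ring
    have hLT : ∑ q ∈ QQ, ‖Bq X (bq q) σ n q (fun _ x => l2 q x)
          (fun a x => ∑ i ∈ range I, F i q a x)‖ ≤
          (2 * C3 * (2 * C5 + 2) + 1) * (X / L ^ (A + 4)) := by
      refine (sum_one X n I bq σ QQ (fun q _ x => l2 q x) (fun q _ => hl2c q) F hFc
        (C3 * L ^ 2 * L ^ C0 * L ^ C0 * Real.sqrt (L ^ C0) * (1 + b) * X *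
        (Real.sqrt (∑ q ∈ QQ, 1 / ((q : ℝ) * (hq q n : ℝ) ^ (1 / 4 : ℝ))) +
          (X : ℝ) ^ (-(τ / 10))) + 1) fun i hi => ?_).trans
        (lt_bound C0 K2 (A + 4) T hC3 hC5 hX0.le hL1 (Nat.cast_nonneg I) hI hb0 hb2'
          (by omega) hSg hyT h1T)
      have h := hl X hXl (fun _ => n) b N σ QQ bq hstd (fun q _ => ⟨hn1, hnX⟩) l2 (L ^ C0) hl2c
        hS0 hSX hl2b (M i) (L ^ C0) (L ^ C0) (K i) (MM i) _ _ hS0 hSX hS0 hSX (hBlk i hi)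
      rw [← hLdef] at h
      rw [hF]
      exact h
    have hLT' : ∑ q ∈ QQ, ‖Bq X (bq q) σ n q (fun _ x => l1 q x)
          (fun a x => ∑ i ∈ range I, F' i q a x)‖ ≤
          (2 * C3' * (2 * C5 + 2) + 1) * (X / L ^ (A + 4)) := by
      refine (sum_one X n I bq σ QQ (fun q _ x => l1 q x) (fun q _ => hl1c q) F' hFc'
        (C3' * L ^ 2 * L ^ C0 * L ^ C0 * Real.sqrt (L ^ C0) * (1 + b) * X *
        (Real.sqrt (∑ q ∈ QQ, 1 / ((q : ℝ) * (hq q n : ℝ) ^ (1 / 4 : ℝ))) +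
          (X : ℝ) ^ (-(τ / 10))) + 1) fun i hi => ?_).trans
        (lt_bound C0 K2 (A + 4) T hC3' hC5 hX0.le hL1 (Nat.cast_nonneg I) hI hb0 hb2'
          (by omega) hSg hyT h1T)
      have h := hl' X hXl' n b N σ QQ bq hn1 hnX hstd l1 (L ^ C0) hl1c
        hS0 hSX hl1b (M i) (L ^ C0) (L ^ C0) (K i) (MM i) _ _ hS0 hSX hS0 hSX (hBlk i hi)
      rw [← hLdef] at h
      rw [hF', hF]
      exact h
    have hLL : ∑ q ∈ QQ, ‖Bq X (bq q) σ n q (fun _ x => l1 q x) (fun _ x => l2 q x)‖ ≤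
        2 * C4 * C5 * (X / L ^ (A + 4)) :=
      (hll X n b σ QQ bq hX1' hb0 hσ hq1 hn1 hbq l1 l2 (L ^ C0) hl1c hl2c hS0
        hl1b hl2b).trans
        (ll_bound C0 K2 (A + 4) T hC4 hC5 hX0.le hL1 hb0 hb2' (by omega) hSg)
    obtain ⟨E1, hE1⟩ : ∃ E1 : ℕ → ℕ → ℝ → ℂ, E1 = fun q a x =>
      WJa ww gg (-1) σ (wX D' X) X q a x - l1 q x - ∑ i ∈ range I, F i q a x := ⟨_, rfl⟩
    obtain ⟨E2, hE2⟩ : ∃ E2 : ℕ → ℕ → ℝ → ℂ, E2 = fun q a x => (starRingEnd ℂ) (E1 q a x) :=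
      ⟨_, rfl⟩
    have hE1c : ∀ q a, Continuous (E1 q a) := by
      intro q a
      rw [hE1]
      exact ((hWc q a).sub (hl1c q)).sub (hGc q a)
    have hE2c : ∀ q a, Continuous (E2 q a) := by
      intro q a
      rw [hE2]
      exact conj_cont (hE1c q a)
    have h4X : (X : ℝ) / L ^ AE ≤ 4 * X / L ^ (2 * (A + 6)) := by
      rw [← hAE]
      have h4 : 0 ≤ (X : ℝ) / L ^ AE := by positivity
      have h5 : 4 * (X : ℝ) / L ^ AE = 4 * (X / L ^ AE) := by ring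
      linarith
    have hE1N : N2 X bq QQ E1 ≤ 4 * X / L ^ (2 * (A + 6)) := by
      refine le_trans ?_ h4X
      rw [hE1, hF]
      exact hl1N
    have hE2N : N2 X bq QQ E2 ≤ 4 * X / L ^ (2 * (A + 6)) := by
      rw [hE2, N2_conj]
      exact hE1N
    have hWE1 : (fun q a x => WJa ww gg (-1) σ (wX D' X) X q a x) =
        fun q a x => (l1 q x + ∑ i ∈ range I, F i q a x) + E1 q a x := by
      rw [hE1]
      funext q a x
      ring
    have hWE2 : (fun q a x => (starRingEnd ℂ) (WJa ww gg (-1) σ (wX D' X) X q a x)) =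
        fun q a x => (l2 q x + ∑ i ∈ range I, F' i q a x) + E2 q a x := by
      funext q a x
      have h := congrFun (congrFun (congrFun hWE1 q) a) x
      rw [h, map_add, map_add, hGconj, hE2, hl2]
    have hW1 : N2 X bq QQ (fun q a x => (l1 q x + ∑ i ∈ range I, F i q a x) + E1 q a x) ≤
        4 * X * L ^ 3 := by
      rw [← hWE1]
      exact hwN
    have hW2 : N2 X bq QQ (fun q a x => (l2 q x + ∑ i ∈ range I, F' i q a x) + E2 q a x) ≤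
        4 * X * L ^ 3 := by
      rw [← hWE2, N2_conj]
      exact hwN
    have hexp := expand X n bq σ QQ hbq0 (fun q a x => l1 q x + ∑ i ∈ range I, F i q a x) E1
      (fun q a x => l2 q x + ∑ i ∈ range I, F' i q a x) E2
      (fun q a => (hl1c q).add (hGc q a)) hE1c (fun q a => (hl2c q).add (hGc' q a)) hE2c
    have herr := err_bound A hX0.le hL1 hE1N hE2N hW1 hW2
    have hfour := four X n bq σ QQ (fun q _ x => l1 q x) (fun q _ x => l2 q x)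
      (fun q a x => ∑ i ∈ range I, F i q a x) (fun q a x => ∑ i ∈ range I, F' i q a x)
      (fun q _ => hl1c q) (fun q _ => hl2c q) hGc hGc'
    have hgoal : ∑ q ∈ QQ, ‖Bq X (bq q) σ n q (WJa ww gg (-1) σ (wX D' X) X q)
        (fun a x => (starRingEnd ℂ) (WJa ww gg (-1) σ (wX D' X) X q a x))‖ =
        ∑ q ∈ QQ, ‖Bq X (bq q) σ n q
          (fun a x => (l1 q x + ∑ i ∈ range I, F i q a x) + E1 q a x)
          (fun a x => (l2 q x + ∑ i ∈ range I, F' i q a x) + E2 q a x)‖ := by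
      refine sum_congr rfl fun q _ => ?_
      have e1 := congrFun hWE1 q
      have e2 := congrFun hWE2 q
      rw [← e1, ← e2]
    apply hfin
    rw [hgoal, hCt]
    refine hexp.trans ?_
    linarith

end Pool.Agent.Lib.MP_e3f158_nt.TL
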