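import Pool.Agent.Lib.MP_e3f158_nt.TL.Conc
import Pool.Agent.Lib.MP_e3f158_nt.TL.PlT
import Pool.Agent.Lib.MP_e3f158_nt.TL.OvS
import Pool.Agent.Lib.MP_e3f158_nt.TP.Greedy

/-!
# MP_e3f158_nt, Theorem T2: large values of `PhU` are covered by `(log X)^C` progressions
-/

set_option autoImplicit false

namespace Pool.Agent.Lib.MP_e3f158_nt.TL

open Finset Filter Pool.MP_67663b_nt.Odd Pool.MP_dd84fd_nt.En Pool.MP_dd84fd_nt.E2
  Pool.MP_dd84fd_nt.LS Pool.MP_dd84fd_nt.GX Pool.MP_dd84fd_nt.HX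
open Pool.MP_dd84fd_nt.IX (W1 MajI cfI)
open Pool.MP_dd84fd_nt.JX (Adm DecJ)
open Pool.MP_dd84fd_nt.LX (PhU)
open Pool.Agent.Lib.MP_e3f158_nt.TP (greedy)

theorem con_all : ConP := con_p (pair_p pl_t ov_p) hv_p

open Classical in
theorem cov_l (A CV : ℕ) : ∃ B : ℕ, ∀ K0 C1 C2 : ℕ, ∃ C : ℕ, ∀ (K : ℕ) (th e τ : ℝ),
    Adm th e τ → ∀ ww gg : ℕ → ℕ → ℝ, W1 K0 C1 ww gg → DecJ B C2 th e τ ww → MajI ww gg →
    ∃ D0 : ℕ, ∀ D' : ℕ, D0 ≤ D' → ∃ X0 : ℕ, ∀ X : ℕ, X0 ≤ X → ∀ (G : ℕ) [NeZero G],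
    X ^ 10 ≤ G → ∀ U : ZMod G → ℂ, VBH G X CV U → ∀ S : Finset ℕ, S ⊆ Icc 1 X →
    (∀ n ∈ S, (X : ℝ) / (Real.log X) ^ A <
      ‖PhU G X U (cfI ww gg (-1) (wX D' X) X) (fun _ => 1) n‖) →
    ∃ PP : Finset (ℤ × ℕ × ℕ),
      (∀ p ∈ PP, 1 ≤ p.2.1 ∧ (p.2.1 : ℝ) ≤ (X : ℝ) ^ (1 - th + 3 * e) ∧
        (X : ℝ) ^ (th - 3 * e) ≤ (p.2.2 : ℝ) ∧ (p.2.2 : ℝ) ≤ X / (Real.log X) ^ K) ∧
      (PP.card : ℝ) ≤ (Real.log X) ^ C ∧
      ((S.filter fun n => ∀ p ∈ PP, ¬ apm p n).card : ℝ) ≤ (X : ℝ) ^ (th - e / 5) := by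
  obtain ⟨B, hB⟩ := con_all A CV
  refine ⟨B, fun K0 C1 C2 => ?_⟩
  obtain ⟨C, hC⟩ := hB K0 C1 C2
  refine ⟨C + 3, fun K th e τ hA ww gg hW hD hM => ?_⟩
  obtain ⟨ht1, ht2, he0, hτ1, hτ2⟩ := id hA
  obtain ⟨D0, h0⟩ := hC K th e τ hA ww gg hW hD hM
  refine ⟨D0, fun D' hD' => ?_⟩
  obtain ⟨X0, hX0⟩ := h0 D' hD'
  obtain ⟨X1, hX1⟩ := MP_log_large 2
  refine ⟨max X0 (max X1 1), fun X hX G hGz hG U hU S hS hbig => ?_⟩
  have hL2 : (2 : ℝ) ≤ Real.log X := hX1 X (by omega)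
  have hXpos : 1 ≤ X := by omega
  have hX' : (0 : ℝ) < X := by exact_mod_cast hXpos
  have hXge : (1 : ℝ) ≤ X := by exact_mod_cast hXpos
  set L : ℝ := Real.log X with hL
  have hL0 : 0 < L := by linarith
  have hM : (1 : ℝ) ≤ (X : ℝ) ^ (th - e / 5) := Real.one_le_rpow hXge (by linarith)
  obtain ⟨PP, h1, h2, h3⟩ := greedy apm (fun _ => (L ^ (C + 1))⁻¹) (fun _ => by positivity)
    ((X : ℝ) ^ (th - e / 5)) hM
    (fun p => 1 ≤ p.2.1 ∧ (p.2.1 : ℝ) ≤ (X : ℝ) ^ (1 - th + 3 * e) ∧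
        (X : ℝ) ^ (th - 3 * e) ≤ (p.2.2 : ℝ) ∧
        (p.2.2 : ℝ) ≤ X / L ^ K) S (by
    intro E hES hEM
    obtain ⟨c, q, T, q1, q2, q3, q4, q5⟩ := hX0 X (by omega) G hG U hU E (hES.trans hS) hEM
      (fun n hn => hbig n (hES hn))
    refine ⟨(c, q, T), ⟨q1, q2, q3, q4⟩, ?_⟩
    have h6 : inAP E c q T = E.filter (apm (c, q, T)) := by
      unfold inAP
      ext n
      simp only [mem_filter]
      rfl
    rw [h6] at q5
    have hE0 : (0 : ℝ) < E.card := by linarith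
    have hI0 : (0 : ℝ) < (E.filter (apm (c, q, T))).card := by
      by_contra hcon
      push Not at hcon
      have : L ^ C * ((E.filter (apm (c, q, T))).card : ℝ) ≤ 0 :=
        mul_nonpos_of_nonneg_of_nonpos (pow_nonneg hL0.le _) hcon
      linarith
    rw [inv_mul_lt_iff₀ (by positivity)]
    calc (E.card : ℝ) ≤ L ^ C * ((E.filter (apm (c, q, T))).card : ℝ) := q5
      _ < L * (L ^ C * ((E.filter (apm (c, q, T))).card : ℝ)) := by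
          have : 0 < L ^ C * ((E.filter (apm (c, q, T))).card : ℝ) :=
            mul_pos (pow_pos hL0 _) hI0
          nlinarith
      _ = L ^ (C + 1) * ((E.filter (apm (c, q, T))).card : ℝ) := by ring)
  have hSN : (S.card : ℝ) ≤ X := by
    have := card_le_card hS
    rw [Nat.card_Icc, Nat.add_sub_cancel] at this
    exact_mod_cast this
  have hlS : Real.log S.card ≤ L := by
    rcases Nat.eq_zero_or_pos S.card with h0 | h0
    · rw [h0]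
      simp
      linarith
    · exact Real.log_le_log (by exact_mod_cast h0) hSN
  refine ⟨PP, h1, ?_, h3.le⟩
  rw [sum_const, nsmul_eq_mul, mul_inv_le_iff₀ (by positivity)] at h2
  calc (PP.card : ℝ) ≤ (Real.log S.card + 1) * L ^ (C + 1) := h2
    _ ≤ (L + 1) * L ^ (C + 1) := mul_le_mul_of_nonneg_right (by linarith) (by positivity)
    _ ≤ (L * L) * L ^ (C + 1) := mul_le_mul_of_nonneg_right (by nlinarith) (by positivity)
    _ = L ^ (C + 3) := by ring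

end Pool.Agent.Lib.MP_e3f158_nt.TL
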