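import Pool.Agent.Lib.MP_e3f158_nt.TT.EvL

/-!
# MP_e3f158_nt, Theorem T2: even integers, from Theorem L, number of progressions (helper33)
-/

set_option autoImplicit false

namespace Pool.Agent.Lib.MP_e3f158_nt.TL

open Finset Filter Pool.MP_dd84fd_nt.En Pool.MP_dd84fd_nt.E2 Pool.MP_dd84fd_nt.LS
open Pool.MP_dd84fd_nt.GX Pool.Agent.Lib.MP_e3f158_nt
open Pool.Agent.Lib.MP_e3f158_nt.TT (FinLS SJ_big evL_scale g_le_one)

open Classical in
theorem evenL (hL : FinLS) : ∃ C0 : ℕ, ∀ (K : ℕ) (th : ℝ), 1 / 5 < th → th < 1 / 3 →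
    ∀ᶠ N : ℕ in atTop, ∃ PP : Finset (ℤ × ℕ × ℕ),
      (∀ p ∈ PP, 1 ≤ p.2.1 ∧ (p.2.1 : ℝ) ≤ (N : ℝ) ^ (4 / 5 : ℝ) ∧
        (N : ℝ) ^ (1 / 5 : ℝ) ≤ (p.2.2 : ℝ) ∧ (p.2.2 : ℝ) ≤ N / (Real.log N) ^ K) ∧
      (PP.card : ℝ) ≤ (Real.log (3 * N : ℕ)) ^ C0 ∧
      (((Icc 1 (3 * N)).filter fun n => N < n ∧ n ≤ 2 * N ∧ Even n ∧ ¬ HasRep 0 0 n ∧
        ∀ p ∈ PP, ¬ apm p n).card : ℝ) ≤ ((3 * N : ℕ) : ℝ) ^ th := by
  obtain ⟨C0, hC0⟩ := hL
  refine ⟨C0, fun K th h1 h2 => ?_⟩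
  obtain ⟨θL, hθL⟩ : ∃ t : ℝ, t = (1 / 5 + th) / 2 := ⟨_, rfl⟩
  have t1 : 1 / 5 < θL := by rw [hθL]; linarith
  have t2 : θL < th := by rw [hθL]; linarith
  obtain ⟨K', hK'⟩ : ∃ k : ℕ, k = K + 1 := ⟨_, rfl⟩
  have k1 : K + 1 ≤ K' := hK'.ge
  obtain ⟨X0, hX0⟩ := hC0 θL (th - θL) t1.le (by linarith) (by linarith) K'
  filter_upwards [evL_scale C0 K' θL 1 t1, SJ_big, eventually_ge_atTop X0] with N s f1 f2
  obtain ⟨s1, s2, s3, s4, s5, -⟩ := s
  obtain ⟨D, d1, d2, d3⟩ := hX0 (3 * N) (by omega)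
  have hN : (1 : ℝ) ≤ N := by exact_mod_cast s1
  have hN0 : (0 : ℝ) < N := by linarith
  have hlogle : Real.log N ≤ Real.log (3 * N : ℕ) :=
    Real.log_le_log (by linarith) (by push_cast; linarith)
  generalize hM : Real.log ((3 * N : ℕ) : ℝ) = M at s3 s5 d1 d2 hlogle ⊢
  have hM0 : 0 < M := by linarith
  have hM1 : 1 ≤ M := by linarith
  -- facts about `d`
  have hd : ∀ d ∈ D, 1 ≤ d ∧ (d : ℝ) ≤ (N : ℝ) ^ (4 / 5 : ℝ) ∧
      (N : ℝ) ^ (1 / 5 : ℝ) ≤ ((2 * N / d + 1 : ℕ) : ℝ) ∧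
      ((2 * N / d + 1 : ℕ) : ℝ) ≤ 3 * N / d := by
    intro d hd
    obtain ⟨e1, e2⟩ := d2 d hd
    have e3 : (1 : ℝ) ≤ d := (one_le_pow₀ hM1).trans e1
    have e4 : 1 ≤ d := by exact_mod_cast e3
    have e5 : (d : ℝ) ≤ (N : ℝ) ^ (4 / 5 : ℝ) := e2.trans s4
    have e6 : (N : ℝ) ^ (4 / 5 : ℝ) ≤ N := by
      calc (N : ℝ) ^ (4 / 5 : ℝ) ≤ (N : ℝ) ^ (1 : ℝ) :=
            Real.rpow_le_rpow_of_exponent_le hN (by norm_num)
        _ = N := Real.rpow_one _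
    have e7 : (N : ℝ) = (N : ℝ) ^ (1 / 5 : ℝ) * (N : ℝ) ^ (4 / 5 : ℝ) := by
      rw [← Real.rpow_add hN0]
      norm_num
    have hd0 : (0 : ℝ) < d := by linarith
    refine ⟨e4, e5, ?_, ?_⟩
    · have e8 : (2 * N : ℝ) / d < ((2 * N / d + 1 : ℕ) : ℝ) := by
        have h9 := Nat.lt_div_mul_add (a := 2 * N) (b := d) e4
        rw [div_lt_iff₀ hd0]
        have h10 : 2 * N < (2 * N / d + 1) * d := by
          calc 2 * N < 2 * N / d * d + d := h9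
            _ = (2 * N / d + 1) * d := by ring
        exact_mod_cast h10
      refine le_trans ?_ e8.le
      rw [le_div_iff₀ hd0]
      have : (N : ℝ) ^ (1 / 5 : ℝ) * d ≤ (N : ℝ) ^ (1 / 5 : ℝ) * (N : ℝ) ^ (4 / 5 : ℝ) := by
        gcongr
      rw [← e7] at this
      linarith
    · push_cast
      have e8 : ((2 * N / d : ℕ) : ℝ) ≤ ((2 * N : ℕ) : ℝ) / (d : ℕ) := Nat.cast_div_le
      push_cast at e8
      have e9 : 1 ≤ (N : ℝ) / d := by
        rw [le_div_iff₀ hd0]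
        linarith
      have e10 : 3 * (N : ℝ) / d = 2 * N / d + N / d := by ring
      linarith
  obtain ⟨PP, hPP⟩ : ∃ P : Finset (ℤ × ℕ × ℕ), P = D.image fun d => ((0 : ℤ), d, 2 * N / d + 1) :=
    ⟨_, rfl⟩
  refine ⟨PP, ?_, ?_, ?_⟩
  · intro p hp
    rw [hPP, mem_image] at hp
    obtain ⟨d, hdD, rfl⟩ := hp
    obtain ⟨e1, e2, e3, e4⟩ := hd d hdD
    refine ⟨e1, e2, e3, e4.trans ?_⟩
    have e5 := (d2 d hdD).1
    have e6 : 3 * (Real.log N) ^ K ≤ (d : ℝ) := by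
      refine le_trans ?_ e5
      calc 3 * (Real.log N) ^ K ≤ M * M ^ K := by gcongr
        _ = M ^ (K + 1) := by ring
        _ ≤ M ^ K' := pow_le_pow_right₀ hM1 k1
    have hd0 : (0 : ℝ) < d := by exact_mod_cast e1
    have hl0 : 0 < Real.log N := by linarith
    rw [div_le_div_iff₀ hd0 (by positivity)]
    calc 3 * (N : ℝ) * Real.log N ^ K = N * (3 * Real.log N ^ K) := by ring
      _ ≤ N * d := by gcongr
  · rw [hPP]
    exact le_trans (by exact_mod_cast card_image_le) d1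
  · have h3 := d3 (fun n => N < n ∧ n ≤ 2 * N ∧ Even n ∧ ¬ HasRep 0 0 n ∧ ∀ p ∈ PP, ¬ apm p n)
      inferInstance (by
        rintro n ⟨n1, n2, n3, n4, n5⟩
        refine ⟨n3, ?_, ?_⟩
        · intro d hdD _ hdn
          obtain ⟨i, hi⟩ := hdn
          refine n5 (0, d, 2 * N / d + 1) ?_ ⟨i, ?_, ?_⟩
          · rw [hPP]
            exact mem_image_of_mem _ hdD
          · show i < 2 * N / d + 1
            have e1 := (hd d hdD).1
            have : i ≤ 2 * N / d := by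
              rw [Nat.le_div_iff_mul_le (by omega)]
              calc i * d = n := by rw [hi]; ring
                _ ≤ 2 * N := n2
            omega
          · show (n : ℤ) = 0 + i * (d : ℤ)
            rw [hi]
            push_cast
            ring
        · have e1 := f1 n n1 n2
          have e2 : (g n : ℝ) ≤ 1 := by exact_mod_cast g_le_one n4
          generalize SS n * JJ n = Y at e1 ⊢
          have e3 : (1 - 3 * θL) ^ 3 ≤ (2 / 5) ^ 3 := by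
            apply pow_le_pow_left₀ (by linarith) (by linarith)
          have e4 : 4 * (1 - 3 * θL) ^ 3 * Y ≤ 4 * (2 / 5) ^ 3 * Y := by
            gcongr
          rw [abs_sub_comm]
          refine lt_of_lt_of_le ?_ (le_abs_self _)
          norm_num at e4
          linarith)
    rw [show θL + (th - θL) = th by ring] at h3
    exact h3

end Pool.Agent.Lib.MP_e3f158_nt.TL
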