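import Pool.Agent.Lib.MP_e3f158_nt.TT.Final
import Pool.Agent.Lib.MP_e3f158_nt.TL.Cov
import Pool.Agent.Lib.MP_e3f158_nt.TL.EvL

/-!
# MP_e3f158_nt, Theorem T2: the final step (helper33)
-/

set_option autoImplicit false

namespace Pool.Agent.Lib.MP_e3f158_nt.TL

open Finset Filter Pool.MP_dd84fd_nt.En Pool.MP_dd84fd_nt.E2 Pool.MP_dd84fd_nt.GX
  Pool.Agent.Lib.MP_e3f158_nt Pool.Agent.Lib.MP_e3f158_nt.G Pool.Agent.Lib.MP_e3f158_nt.U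
  Pool.Agent.Lib.MP_e3f158_nt.TP
open Pool.Agent.Lib.MP_e3f158_nt.TT (FinLS conv_t scale_t SH SH_sub SH_le goodH every_H exc_H)

theorem card_fat (H : ℕ) (PP : Finset (ℤ × ℕ × ℕ)) :
    ((fat H PP).card : ℝ) ≤ (H + 1) * PP.card := by
  have h := sum_fat H PP (fun _ => (1 : ℝ)) (fun _ => by norm_num)
  simpa using h

/-- the number of progressions -/
theorem scale_c (Kg A : ℕ) : ∀ᶠ N : ℕ in atTop,
    (Real.log (Real.log (3 * N : ℕ))) ^ Kg + 1 ≤ Real.log (3 * N : ℕ) ∧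
    (A : ℝ) + 2 ≤ Real.log (3 * N : ℕ) := by
  have hlog : Tendsto (fun N : ℕ => Real.log (N : ℝ)) atTop atTop :=
    Real.tendsto_log_atTop.comp tendsto_natCast_atTop_atTop
  have h3N : Tendsto (fun N : ℕ => 3 * N) atTop atTop :=
    tendsto_id.const_mul_atTop' (by norm_num)
  have hlog3 : Tendsto (fun N : ℕ => Real.log ((3 * N : ℕ) : ℝ)) atTop atTop := hlog.comp h3N
  have e1 : ∀ᶠ x : ℝ in atTop, (Real.log x) ^ Kg ≤ 1 / 2 * x := by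
    have h1 : (fun x : ℝ => (Real.log x) ^ Kg) =o[atTop] (fun x : ℝ => x) :=
      Real.isLittleO_pow_log_id_atTop
    filter_upwards [h1.bound (show (0 : ℝ) < 1 / 2 by norm_num), eventually_ge_atTop 1] with x hx hx1
    have hl : 0 ≤ Real.log x := Real.log_nonneg hx1
    rw [Real.norm_of_nonneg (by positivity), Real.norm_of_nonneg (by linarith)] at hx
    exact hx
  filter_upwards [hlog3.eventually e1, hlog3.eventually_ge_atTop (A + 2)] with N f1 f2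
  have hA : (0 : ℝ) ≤ A := Nat.cast_nonneg A
  exact ⟨by linarith, f2⟩

theorem thin_small (hC : CovL) (hL : FinLS) : ∃ K₀ : ℕ, ∀ A : ℕ, ∃ E : ℕ, ∀ (K : ℕ) (θ : ℝ),
    1 / 5 < θ → θ < 1 / 3 → ∃ C : ℕ,
    ∀ᶠ N : ℕ in atTop, ∃ P : Finset (ℤ × ℕ × ℕ),
      (∀ p ∈ P, 1 ≤ p.2.1 ∧ (p.2.1 : ℝ) ≤ (N : ℝ) ^ (4 / 5 : ℝ) ∧
        (N : ℝ) ^ (1 / 5 : ℝ) ≤ (p.2.2 : ℝ) ∧ (p.2.2 : ℝ) ≤ N / (Real.log N) ^ K) ∧
      (P.card : ℝ) ≤ (Real.log N) ^ E ∧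
      ∃ EX : Finset ℕ, (EX.card : ℝ) ≤ (N : ℝ) ^ θ ∧
        ∀ n : ℕ, N < n → n ≤ 2 * N → (∀ p ∈ P, ¬ apm p n) → n ∉ EX →
        (Even n → HasRep 0 0 n) ∧ ∀ a ≤ A,
        (HasRep a 0 n ∨ ∀ S : Finset ℕ, (∀ r ∈ S, (∃ x : ℕ, 1 ≤ x ∧ ipr a x = r) ∧ 2 * r ≤ N ∧
            ∀ p : ℕ, p.Prime → p ∣ n - r → (Real.log N) ^ C < (p : ℝ)) →
            (S.card : ℝ) < N / (Real.log N) ^ A) ∧
        ∃ m : ℕ, Even m ∧ n < m ∧ (m : ℝ) ≤ n + (Real.log (Real.log N)) ^ K₀ ∧ HasRep a 0 m := by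
  classical
  obtain ⟨Kg, hKg⟩ := every_H
  obtain ⟨C0, hev⟩ := evenL hL
  refine ⟨Kg + 1, fun A => ?_⟩
  obtain ⟨B, hB⟩ : ∃ B : ℕ, B = A + 4 := ⟨_, rfl⟩
  obtain ⟨Cc, hC⟩ := hC (B + 2)
  refine ⟨Cc + C0 + 3, fun K θ hθ1 hθ2 => ?_⟩
  obtain ⟨t, ht⟩ : ∃ t : ℝ, t = (1 / 5 + θ) / 2 := ⟨_, rfl⟩
  have t1 : 1 / 5 < t := by rw [ht]; linarith
  have t2 : t < θ := by rw [ht]; linarith
  obtain ⟨D1, h1⟩ := hC (K + 1) t t1 (by linarith)
  obtain ⟨D, hD⟩ : ∃ D : ℕ, D = max 1 D1 := ⟨_, rfl⟩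
  have hD0 : 1 ≤ D := by rw [hD]; exact le_max_left _ _
  have hD1 : D1 ≤ D := by rw [hD]; exact le_max_right _ _
  obtain ⟨X1, hX1⟩ := h1 D hD1
  have h3N : Tendsto (fun N : ℕ => 3 * N) atTop atTop :=
    tendsto_id.const_mul_atTop' (by norm_num)
  have e1 : ∀ᶠ N : ℕ in atTop, ∀ a ∈ range (A + 1), ∀ x : ℕ, 3 * N ≤ 4 * x →
      x + ⌊(Real.log (Real.log (3 * N : ℕ))) ^ Kg⌋₊ ≤ 3 * N →
      ∃ n ∈ Ioc x (x + ⌊(Real.log (Real.log (3 * N : ℕ))) ^ Kg⌋₊), Even n ∧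
      ((3 * N : ℕ) : ℝ) / (Real.log (3 * N : ℕ)) ^ (a + 4) ≤
        ((goodH a (wX D (3 * N)) (3 * N) n).card : ℝ) := by
    rw [eventually_all_finset]
    intro a _
    exact h3N.eventually (hKg a D hD0)
  have e2 := h3N.eventually (exc_H B)
  refine ⟨D + 1, ?_⟩
  filter_upwards [e1, e2, scale_t Kg D (A + 2) t θ 1 t2 (by linarith), eventually_ge_atTop X1,
    hev K t t1 (by linarith), scale_t 1 (Cc + C0 + 2) 1 t θ 1 t2 (by linarith),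
    scale_c Kg A] with N g1 g2 g3 g4 g5 g6 g7
  obtain ⟨s1, s2, s3, s4, s5, s6, s7, s8, s9⟩ := g3
  obtain ⟨-, -, -, s10, -⟩ := g6
  obtain ⟨s11, s12⟩ := g7
  obtain ⟨PP2, p2, w2, u2⟩ := g5
  have hcast : ((3 * N : ℕ) : ℝ) = 3 * (N : ℝ) := by push_cast; ring
  obtain ⟨X, hX⟩ : ∃ X : ℕ, X = 3 * N := ⟨_, rfl⟩
  have hN1 : 1 ≤ N := by omega
  have hlogle : Real.log N ≤ Real.log (3 * N : ℕ) :=
    Real.log_le_log (by exact_mod_cast (by omega : 0 < N)) (by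
      rw [hcast]
      have : (0 : ℝ) ≤ N := Nat.cast_nonneg N
      linarith)
  -- the coverings
  have hcov := fun a => hX1 (3 * N) (by omega) (SH a (3 * N)) (SH_sub _ _) (fun r hr => SH_le hr)
  choose PPf p1 w1 u1 using hcov
  have hconv := conv_t K N hN1 s2 s3
  rw [← hX] at hcast g1 g2 s3 s4 s5 s6 s7 s8 s9 s10 s11 s12 w2 u2 p1 w1 u1 hlogle hconv
  have hwX : ((wX D X : ℕ) : ℝ) ≤ (Real.log (X : ℝ)) ^ D := Nat.floor_le (by positivity)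
  obtain ⟨M, hM⟩ : ∃ M : ℝ, M = Real.log (X : ℝ) := ⟨_, rfl⟩
  rw [← hM] at g1 g2 s3 s4 s5 s6 s7 s8 s9 s10 s11 s12 w2 p1 w1 u1 hlogle hwX hconv
  obtain ⟨Hr, hHr⟩ : ∃ Hr : ℝ, Hr = (Real.log M) ^ Kg := ⟨_, rfl⟩
  rw [← hHr] at g1 s5 s6 s7 s8 s9 s11
  obtain ⟨H, hH⟩ : ∃ H : ℕ, H = ⌊Hr⌋₊ := ⟨_, rfl⟩
  rw [← hH] at g1
  have hHle : (H : ℝ) ≤ Hr := by rw [hH]; exact Nat.floor_le s7
  have hN' : (1 : ℝ) ≤ N := by exact_mod_cast hN1
  have hXpos : (0 : ℝ) < X := by rw [hcast]; linarith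
  have hHN : H ≤ N := by exact_mod_cast hHle.trans s6
  set Uf : ℕ → Finset ℕ := fun a => ((Icc 1 X).filter fun n => X ≤ 3 * n ∧
        RA (SH a X) n + X / M ^ (B + 2) < 2 / 5 * Rz (wX D X) (SH a X) n).filter
          fun n => ∀ p ∈ PPf a, ¬ apm p n with hUf
  set PP1 := (range (A + 1)).biUnion PPf with hPP1
  set U1 := (range (A + 1)).biUnion Uf with hU1
  set U2 := (Icc 1 X).filter fun n => N < n ∧ n ≤ 2 * N ∧ Even n ∧ ¬ HasRep 0 0 n ∧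
        ∀ p ∈ PP2, ¬ apm p n with hU2
  have hu1 : (U1.card : ℝ) ≤ (A + 1) * (X : ℝ) ^ t := by
    have := card_biUnion_le_mul (A + 1) Uf ((X : ℝ) ^ t) u1
    push_cast at this
    exact this
  have hw1 : (PP1.card : ℝ) ≤ (A + 1) * M ^ Cc := by
    have := sum_biUnion_le_mul (A + 1) PPf (fun _ => (1 : ℝ)) (M ^ Cc)
      (fun _ => by norm_num) (fun a => by simpa using w1 a)
    push_cast at this
    simpa using this
  have hM0 : 0 < M := by linarith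
  have hpp : ∀ p ∈ fat H (PP1 ∪ PP2), 1 ≤ p.2.1 ∧ (p.2.1 : ℝ) ≤ (N : ℝ) ^ (4 / 5 : ℝ) ∧
      (N : ℝ) ^ (1 / 5 : ℝ) ≤ (p.2.2 : ℝ) ∧ (p.2.2 : ℝ) ≤ N / (Real.log N) ^ K := by
    intro p hp
    obtain ⟨p', hp', he⟩ := mem_fat hp
    rw [he]
    rcases mem_union.1 hp' with h | h
    · rw [hPP1, mem_biUnion] at h
      obtain ⟨a, _, h⟩ := h
      obtain ⟨a1, a2, a3, a4⟩ := p1 a p' h
      obtain ⟨b1, b2, b3⟩ := hconv p'.2.1 p'.2.2 a2 a3 a4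
      exact ⟨a1, b1, b2, b3⟩
    · exact p2 p' h
  have hM1 : 1 ≤ M := by linarith
  have hww : ((fat H (PP1 ∪ PP2)).card : ℝ) ≤ (Real.log N) ^ (Cc + C0 + 3) := by
    refine (card_fat H (PP1 ∪ PP2)).trans ?_
    have h5 : ((PP1 ∪ PP2).card : ℝ) ≤ M * M ^ (Cc + C0) := by
      have h6 : ((PP1 ∪ PP2).card : ℝ) ≤ PP1.card + PP2.card := by
        exact_mod_cast card_union_le _ _
      have h7 : M ^ Cc ≤ M ^ (Cc + C0) := pow_le_pow_right₀ hM1 (by omega)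
      have h8 : M ^ C0 ≤ M ^ (Cc + C0) := pow_le_pow_right₀ hM1 (by omega)
      have hA0 : (0 : ℝ) ≤ A := Nat.cast_nonneg A
      calc ((PP1 ∪ PP2).card : ℝ) ≤ (A + 1) * M ^ Cc + M ^ C0 := by linarith
        _ ≤ (A + 1) * M ^ (Cc + C0) + M ^ (Cc + C0) := by
            refine add_le_add (mul_le_mul_of_nonneg_left h7 (by linarith)) h8
        _ = (A + 2) * M ^ (Cc + C0) := by ring
        _ ≤ M * M ^ (Cc + C0) := mul_le_mul_of_nonneg_right s12 (by positivity)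
    calc ((H : ℝ) + 1) * ((PP1 ∪ PP2).card : ℝ) ≤ M * (M * M ^ (Cc + C0)) :=
          mul_le_mul (by linarith) h5 (Nat.cast_nonneg _) hM0.le
      _ = M ^ (Cc + C0 + 2) := by ring
      _ ≤ (Real.log N) ^ (Cc + C0 + 3) := s10
  refine ⟨fat H (PP1 ∪ PP2), hpp, hww, ?_⟩
  refine ⟨(U1 ∪ U2) ∪ (Icc 1 H).biUnion (fun h => U1.image (fun n => n - h)), ?_, ?_⟩
  · -- the size of the exceptional set
    have h5 : (((U1 ∪ U2) ∪ (Icc 1 H).biUnion (fun h => U1.image (fun n => n - h))).card : ℝ) ≤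
        U1.card + U2.card + H * U1.card := by
      have h6 : ((Icc 1 H).biUnion (fun h => U1.image (fun n => n - h))).card ≤ H * U1.card := by
        refine card_biUnion_le.trans ?_
        calc ∑ h ∈ Icc 1 H, (U1.image (fun n => n - h)).card ≤ ∑ h ∈ Icc 1 H, U1.card :=
              sum_le_sum fun h _ => card_image_le
          _ = H * U1.card := by rw [sum_const, Nat.card_Icc, Nat.add_sub_cancel, smul_eq_mul]
      have h7 := card_union_le (U1 ∪ U2) ((Icc 1 H).biUnion (fun h => U1.image (fun n => n - h)))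
      have h8 := card_union_le U1 U2
      have h9 : ((U1 ∪ U2) ∪ (Icc 1 H).biUnion (fun h => U1.image (fun n => n - h))).card ≤
          U1.card + U2.card + H * U1.card := by omega
      exact_mod_cast h9
    refine h5.trans (le_trans ?_ s9)
    have h6 : 0 ≤ (X : ℝ) ^ t := by positivity
    have hA0 : (0 : ℝ) ≤ A := Nat.cast_nonneg A
    calc (U1.card : ℝ) + U2.card + H * U1.card ≤
        (A + 1) * (X : ℝ) ^ t + (X : ℝ) ^ t + Hr * ((A + 1) * (X : ℝ) ^ t) := by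
          refine add_le_add (add_le_add hu1 u2) (mul_le_mul hHle hu1 (Nat.cast_nonneg _) s7)
      _ ≤ ((A + 2 : ℕ) : ℝ) * ((Hr + 2) * (X : ℝ) ^ t) := by
          push_cast
          have h7 : 0 ≤ Hr * (X : ℝ) ^ t := mul_nonneg s7 h6
          have h8 : 0 ≤ (A : ℝ) * (X : ℝ) ^ t := mul_nonneg hA0 h6
          nlinarith
  · intro n hn1 hn2 hnP hnE
    rw [mem_union, mem_union] at hnE
    push Not at hnE
    obtain ⟨⟨hnU1, hnU2⟩, hnI⟩ := hnE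
    have hnX : n ≤ X := by omega
    -- membership of `U1`
    have keyU1 : ∀ a ≤ A, ∀ m : ℕ, 1 ≤ m → m ≤ X → X ≤ 3 * m → ¬ HasRep a 0 m →
        (X : ℝ) / M ^ B ≤ ((goodH a (wX D X) X m).card : ℝ) → (∀ p ∈ PP1, ¬ apm p m) →
        m ∈ U1 := by
      intro a ha m hm1 hm2 hm6 hm3 hm4 hm5
      rw [hU1, mem_biUnion]
      refine ⟨a, by rw [mem_range]; omega, ?_⟩
      rw [hUf]
      show m ∈ ((Icc 1 X).filter fun n => X ≤ 3 * n ∧
        RA (SH a X) n + X / M ^ (B + 2) < 2 / 5 * Rz (wX D X) (SH a X) n).filter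
          fun n => ∀ p ∈ PPf a, ¬ apm p n
      rw [mem_filter, mem_filter, mem_Icc]
      refine ⟨⟨⟨hm1, hm2⟩, hm6, g2 a (wX D X) m hm2 hm3 hm4⟩, fun p hp => hm5 p ?_⟩
      rw [hPP1, mem_biUnion]
      exact ⟨a, by rw [mem_range]; omega, hp⟩
    have hPP : ∀ p ∈ PP1 ∪ PP2, ¬ apm p n := by
      intro p hp hpn
      exact hnP (shf 0 p) (shf_mem_fat (Nat.zero_le _) hp) (apm_shf (by simp) hpn)
    refine ⟨?_, fun a ha => ⟨?_, ?_⟩⟩
    · intro hev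
      by_contra hcon
      refine hnU2 ?_
      rw [hU2, mem_filter, mem_Icc]
      exact ⟨⟨by omega, hnX⟩, hn1, hn2, hev, hcon, fun p hp => hPP p (mem_union_right _ hp)⟩
    · by_contra hcon
      rw [not_or] at hcon
      obtain ⟨c1, c2⟩ := hcon
      push Not at c2
      obtain ⟨S, hS, hSc⟩ := c2
      refine hnU1 (keyU1 a ha n (by omega) hnX (by omega) c1 ?_
        (fun p hp => hPP p (mem_union_left _ hp)))
      have h5 : S ⊆ goodH a (wX D X) X n := by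
        intro r hr
        obtain ⟨⟨x, hx, hxr⟩, hrn, hrp⟩ := hS r hr
        have hr1 : 1 ≤ r := by
          rw [← hxr]
          exact (ipr_prime a x).one_le
        unfold goodH good
        rw [mem_filter, mem_filter, mem_Icc]
        refine ⟨⟨⟨hr1, by omega⟩, ⟨x, hx, hxr⟩, by omega, ?_⟩, by omega⟩
        rw [coprime_primorial_iff]
        intro p hpp hpz hpd
        have h6 := hrp p hpp hpd
        have h7 : (p : ℝ) ≤ M ^ D := le_trans (by exact_mod_cast hpz) hwX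
        linarith
      have h6 : (S.card : ℝ) ≤ ((goodH a (wX D X) X n).card : ℝ) := by
        exact_mod_cast card_le_card h5
      refine le_trans ?_ (hSc.trans h6)
      have h7 : M ^ (A + 1) ≤ M ^ B := pow_le_pow_right₀ (by linarith) (by omega)
      calc (X : ℝ) / M ^ B ≤ X / M ^ (A + 1) := by gcongr
        _ ≤ N / (Real.log N) ^ A := by
          rw [hcast, div_le_div_iff₀ (by positivity) (by positivity), pow_succ]
          have h8 : (Real.log N) ^ A ≤ M ^ A := by gcongr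
          have h9 : 3 * (Real.log N) ^ A ≤ M * M ^ A :=
            mul_le_mul s3 h8 (by positivity) (by linarith)
          calc 3 * (N : ℝ) * (Real.log N) ^ A = N * (3 * (Real.log N) ^ A) := by ring
            _ ≤ N * (M * M ^ A) := by gcongr
            _ = _ := by ring
    · obtain ⟨m, hm, hmev, hmg⟩ := g1 a (by rw [mem_range]; omega) n (by omega) (by omega)
      have hm' : n < m ∧ m ≤ n + H := mem_Ioc.1 hm
      refine ⟨m, hmev, hm'.1, ?_, ?_⟩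
      · have h5 : (m : ℝ) ≤ n + H := by exact_mod_cast hm'.2
        linarith
      · by_contra hcon
        have h6 : (X : ℝ) / M ^ B ≤ ((goodH a (wX D X) X m).card : ℝ) := by
          refine le_trans ?_ hmg
          have h7 : M ^ (a + 4) ≤ M ^ B := pow_le_pow_right₀ (by linarith) (by omega)
          gcongr
        by_cases hcov : ∀ p ∈ PP1, ¬ apm p m
        · have h7 := keyU1 a ha m (by omega) (by omega) (by omega) hcon h6 hcov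
          refine hnI ?_
          rw [mem_biUnion]
          refine ⟨m - n, by rw [mem_Icc]; omega, ?_⟩
          rw [mem_image]
          exact ⟨m, h7, by omega⟩
        · push Not at hcov
          obtain ⟨p, hp, hpm⟩ := hcov
          exact hnP (shf (m - n) p) (shf_mem_fat (by omega) (mem_union_left _ hp))
            (apm_shf (by omega) hpm)

/-- The final theorem of Theorem T2 -/
theorem thin_l (hC : CovL) (hL : FinLS) : ∃ K₀ : ℕ, ∀ A : ℕ, ∃ E : ℕ, ∀ (K : ℕ) (θ : ℝ),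
    1 / 5 < θ → ∃ C : ℕ,
    ∀ᶠ N : ℕ in atTop, ∃ P : Finset (ℤ × ℕ × ℕ),
      (∀ p ∈ P, 1 ≤ p.2.1 ∧ (p.2.1 : ℝ) ≤ (N : ℝ) ^ (4 / 5 : ℝ) ∧
        (N : ℝ) ^ (1 / 5 : ℝ) ≤ (p.2.2 : ℝ) ∧ (p.2.2 : ℝ) ≤ N / (Real.log N) ^ K) ∧
      (P.card : ℝ) ≤ (Real.log N) ^ E ∧
      ∃ EX : Finset ℕ, (EX.card : ℝ) ≤ (N : ℝ) ^ θ ∧
        ∀ n : ℕ, N < n → n ≤ 2 * N → (∀ p ∈ P, ¬ apm p n) → n ∉ EX →
        (Even n → HasRep 0 0 n) ∧ ∀ a ≤ A,
        (HasRep a 0 n ∨ ∀ S : Finset ℕ, (∀ r ∈ S, (∃ x : ℕ, 1 ≤ x ∧ ipr a x = r) ∧ 2 * r ≤ N ∧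
            ∀ p : ℕ, p.Prime → p ∣ n - r → (Real.log N) ^ C < (p : ℝ)) →
            (S.card : ℝ) < N / (Real.log N) ^ A) ∧
        ∃ m : ℕ, Even m ∧ n < m ∧ (m : ℝ) ≤ n + (Real.log (Real.log N)) ^ K₀ ∧ HasRep a 0 m := by
  obtain ⟨K₀, h⟩ := thin_small hC hL
  refine ⟨K₀, fun A => ?_⟩
  obtain ⟨E, h⟩ := h A
  refine ⟨E, fun K θ hθ => ?_⟩
  obtain ⟨C, hC⟩ := h K (min θ (3 / 10)) (lt_min hθ (by norm_num))
    ((min_le_right _ _).trans_lt (by norm_num))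
  refine ⟨C, ?_⟩
  filter_upwards [hC, eventually_ge_atTop 1] with N hN hN1
  obtain ⟨P, h1, h2, EX, h4, h5⟩ := hN
  refine ⟨P, h1, h2, EX, h4.trans ?_, h5⟩
  exact Real.rpow_le_rpow_of_exponent_le (by exact_mod_cast hN1) (min_le_left _ _)

theorem result_l (hC : CovL) (hL : FinLS) :
    ∃ K₀ : ℕ, ∀ A : ℕ, ∃ E : ℕ, ∀ (K : ℕ) (θ : ℝ), 1 / 5 < θ → ∃ C : ℕ,
    ∀ᶠ N : ℕ in Filter.atTop, ∃ P : Finset (ℤ × ℕ × ℕ),
      (∀ p ∈ P, 1 ≤ p.2.1 ∧ (p.2.1 : ℝ) ≤ (N : ℝ) ^ (4 / 5 : ℝ) ∧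
        (N : ℝ) ^ (1 / 5 : ℝ) ≤ (p.2.2 : ℝ) ∧ (p.2.2 : ℝ) ≤ N / Real.log N ^ K) ∧
      (P.card : ℝ) ≤ Real.log N ^ E ∧
      (Set.ncard {n : ℕ | N < n ∧ n ≤ 2 * N ∧
        (∀ p ∈ P, ∀ i : ℕ, i < p.2.2 → (n : ℤ) ≠ p.1 + i * p.2.1) ∧
        ¬ ((Even n → HasRep 0 0 n) ∧ ∀ a ≤ A,
          (HasRep a 0 n ∨ (Set.ncard {r : ℕ | (∃ x : ℕ, 1 ≤ x ∧ ipr a x = r) ∧ 2 * r ≤ N ∧
              ∀ p : ℕ, p.Prime → p ∣ n - r → Real.log N ^ C < (p : ℝ)} : ℝ) <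
            N / Real.log N ^ A) ∧
          ∃ m : ℕ, Even m ∧ n < m ∧ (m : ℝ) ≤ n + Real.log (Real.log N) ^ K₀ ∧
            HasRep a 0 m)} : ℝ) ≤ (N : ℝ) ^ θ := by
  classical
  obtain ⟨K₀, h⟩ := thin_l hC hL
  refine ⟨K₀, fun A => ?_⟩
  obtain ⟨E, h⟩ := h A
  refine ⟨E, fun K θ hθ => ?_⟩
  obtain ⟨C, hC⟩ := h K θ hθ
  refine ⟨C, ?_⟩
  filter_upwards [hC] with N hN
  obtain ⟨P, h1, h2, EX, h4, h5⟩ := hN
  refine ⟨P, h1, h2, le_trans ?_ h4⟩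
  norm_cast
  rw [← Set.ncard_coe_finset]
  refine Set.ncard_le_ncard ?_ (Finset.finite_toSet _)
  rintro n ⟨hn1, hn2, hn3, hn4⟩
  by_contra hn5
  rw [Finset.mem_coe] at hn5
  obtain ⟨k1, k2⟩ := h5 n hn1 hn2 (by
    rintro p hp ⟨i, hi, hi2⟩
    exact hn3 p hp i hi hi2) hn5
  refine hn4 ⟨k1, fun a ha => ⟨?_, (k2 a ha).2⟩⟩
  rcases (k2 a ha).1 with k3 | k3
  · exact Or.inl k3
  · right
    have hfin : {r : ℕ | (∃ x : ℕ, 1 ≤ x ∧ ipr a x = r) ∧ 2 * r ≤ N ∧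
        ∀ p : ℕ, p.Prime → p ∣ n - r → Real.log N ^ C < (p : ℝ)}.Finite := by
      refine (Set.finite_lt_nat n).subset ?_
      rintro r ⟨_, hr, _⟩
      show r < n
      omega
    rw [Set.ncard_eq_toFinset_card _ hfin]
    exact k3 hfin.toFinset fun r hr => by simpa using hr

end Pool.Agent.Lib.MP_e3f158_nt.TL
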