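import Pool.Agent.Lib.MP_e3f158_nt.TL.GDefs
import Pool.Agent.Lib.MP_e3f158_nt.TL.Cover
import Pool.Agent.Lib.MP_e3f158_nt.TT.Cov

/-!
# MP_e3f158_nt, Theorem T2 with general parameters: the covering statement from a family
-/

set_option autoImplicit false

namespace Pool.Agent.Lib.MP_e3f158_nt.TL

open Finset Filter Pool.MP_67663b_nt.Odd Pool.MP_dd84fd_nt.En Pool.MP_dd84fd_nt.E2
  Pool.MP_dd84fd_nt.LS Pool.MP_dd84fd_nt.GX Pool.MP_dd84fd_nt.HX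
open Pool.MP_dd84fd_nt.IX (W1 MajI cfI fI WI)
open Pool.MP_dd84fd_nt.JX (Adm DecJ)
open Pool.MP_dd84fd_nt.LX (PhU phU_co)
open Pool.MP_dd84fd_nt.IY (X5)
open Pool.MP_dd84fd_nt
open Pool.Agent.Lib.MP_e3f158_nt.U
open Pool.Agent.Lib.MP_e3f158_nt.TT (cvv_ind vbh_ind)

open Classical in
theorem covGL (t0 a0 : ℝ) (hF : FamGL t0 a0) : CovGL t0 a0 := by
  intro A
  obtain ⟨B, hB⟩ := cov_l A 0
  obtain ⟨K0, C1, C2, hFB⟩ := hF B
  obtain ⟨C, hB⟩ := hB K0 C1 C2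
  refine ⟨C, fun K θ hθ1 hθ2 => ?_⟩
  obtain ⟨th, hth, hthθ', e, τ, hA, he4, ww, gg, hW, hD, hM, Xf, hXf⟩ :=
    hFB ((t0 + θ) / 2) (by linarith) (by linarith)
  have hthθ : th ≤ θ := by linarith
  obtain ⟨ht1, ht2, he0, hτ1, hτ2⟩ := id hA
  obtain ⟨D0, hD0⟩ := hB K th e τ hA ww gg hW hD hM
  refine ⟨D0, fun D' hD' => ?_⟩
  obtain ⟨X1, h1⟩ := hD0 D' hD'
  obtain ⟨X6, h6⟩ := IY.X5_ge
  obtain ⟨X7, h7⟩ := MP_log_large 2
  obtain ⟨δ, hδ⟩ : ∃ δ : ℝ, δ = th - t0 - 3 * e := ⟨_, rfl⟩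
  have hδ0 : 0 < δ := by rw [hδ]; linarith
  obtain ⟨X8, h8⟩ := MP_log_pow 256 0 (ε := δ) hδ0
  refine ⟨max (max X1 Xf) (max (max X6 X7) (max X8 2)),
    fun X hX R hR hR6 => ?_⟩
  simp only [max_le_iff] at hX
  obtain ⟨⟨g1, g2⟩, ⟨g6, g7⟩, g8, g9⟩ := hX
  have hX1 : 1 ≤ X := by omega
  have hXr : (1 : ℝ) ≤ X := by exact_mod_cast hX1
  have hX0 : (0 : ℝ) < X := by linarith
  have hL := h7 X g7
  have hpw := h8 X g8
  rw [pow_zero, mul_one] at hpw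
  obtain ⟨hz, -⟩ := h6 X g6
  have hX5 : (1 : ℝ) ≤ X5 X := by
    have : (0 : ℝ) ≤ (IY.zt X : ℝ) := Nat.cast_nonneg _
    linarith
  have hG5 : 2 * X < X ^ 10 := by
    have e2 : 2 ^ 9 ≤ X ^ 9 := Nat.pow_le_pow_left g9 9
    calc 2 * X < X ^ 9 * X := Nat.mul_lt_mul_of_pos_right (by omega) (by omega)
      _ = X ^ 10 := by ring
  have : NeZero (X ^ 10) := ⟨by omega⟩
  let bb : ℕ → ℝ := fun r => if r ∈ R then (1 : ℝ) else 0
  have hbb : ∀ n, |bb n| ≤ 1 := by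
    intro n
    show |if n ∈ R then (1 : ℝ) else 0| ≤ 1
    split_ifs <;> simp
  obtain ⟨PP, p1, p2, p3⟩ := h1 X g1 (X ^ 10) le_rfl (tr (X ^ 10) X bb)
    (vbh_ind X (X ^ 10) (by omega) bb hbb)
    ((Icc 1 X).filter fun n => X ≤ 3 * n ∧ RA R n + X / (Real.log X) ^ A <
        a0 * Rz (wX D' X) R n) (filter_subset _ _) (by
    intro n hn
    rw [mem_filter, mem_Icc] at hn
    obtain ⟨⟨n1, n2⟩, n3, n4⟩ := hn
    rw [phU_co (X ^ 10) X hG5 bb _ n n2, Complex.norm_real, Real.norm_eq_abs]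
    by_contra hcon
    push Not at hcon
    have c1 := (abs_le.1 hcon).1
    rw [cvv_ind n R (fun r hr => (mem_Icc.1 (hR hr)).1)] at c1
    have c2 : ∑ r ∈ R.filter (fun r => r < n), cfI ww gg (-1) (wX D' X) X (n - r) ≤
        RA R n - a0 * Rz (wX D' X) R n := by
      unfold RA Rz
      rw [mul_sum, ← sum_sub_distrib]
      refine sum_le_sum fun r hr => ?_
      rw [mem_filter] at hr
      have r1 := hR6 r hr.1
      obtain ⟨m, hm⟩ : ∃ m : ℕ, m = n - r := ⟨_, rfl⟩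
      rw [← hm]
      have m1 : m ≤ X := by omega
      have m2 : X ≤ 6 * m := by omega
      have m3 : X5 X < m := by
        have q1 : (X : ℝ) ≤ 6 * m := by exact_mod_cast m2
        unfold X5
        rw [div_lt_iff₀ (by positivity)]
        have q2 : (2 : ℝ) ^ 5 ≤ (Real.log X) ^ 5 := pow_le_pow_left₀ (by norm_num) hL 5
        have q3 : (0 : ℝ) < m := by linarith
        nlinarith
      have hlm : 0 < Real.log (m : ℝ) := Real.log_pos (lt_of_le_of_lt hX5 m3)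
      obtain ⟨v1, v2⟩ := hXf X g2 m m3 m1
      have v4 : 0 ≤ f1 (wX D' X) m := f1_nonneg _ _
      have v5 : a0 * f2 (wX D' X) m ≤ gg X m * f1 (wX D' X) m := by
        unfold f2
        have w1 : a0 / Real.log m ≤ gg X m := by
          rw [div_le_iff₀ hlm]
          linarith
        calc a0 * (f1 (wX D' X) m / Real.log m) = a0 / Real.log m * f1 (wX D' X) m := by ring
          _ ≤ _ := mul_le_mul_of_nonneg_right w1 v4
      unfold cfI fI
      linarith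
    linarith)
  refine ⟨PP, fun p hp => ?_, p2, p3.trans ?_⟩
  · obtain ⟨q1, q2, q3, q4⟩ := p1 p hp
    have e0 : 0 < (X : ℝ) ^ (1 - th + 3 * e) := by positivity
    have e1 : (X : ℝ) ^ (1 - t0) = (X : ℝ) ^ (1 - th + 3 * e) * (X : ℝ) ^ δ := by
      rw [← Real.rpow_add hX0]
      congr 1
      rw [hδ]
      ring
    have e2 : (X : ℝ) ^ (th - 3 * e) = (X : ℝ) ^ t0 * (X : ℝ) ^ δ := by
      rw [← Real.rpow_add hX0]
      congr 1
      rw [hδ]
      ring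
    have e3 : 0 < (X : ℝ) ^ t0 := by positivity
    refine ⟨q1, q2.trans ?_, le_trans ?_ q3, q4⟩
    · rw [e1]
      nlinarith
    · rw [e2]
      nlinarith
  · exact Real.rpow_le_rpow_of_exponent_le hXr (by linarith)

end Pool.Agent.Lib.MP_e3f158_nt.TL
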