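import Pool.Agent.Lib.MP_e3f158_nt.TT.Defs
import Pool.Agent.Lib.MP_dd84fd_nt.LX.SvFam
import Pool.Agent.Lib.MP_dd84fd_nt.IY.CW

/-!
# MP_e3f158_nt, Theorem T2 with general parameters, definitions

`CovGL t0 a0`: `CovL` with the exponent `t0` for `1/5` and the constant `a0` for `2/5`.
`FamGL t0 a0`: for some `th > t0` arbitrarily near to `t0` there is a narrow family below the primes with
density `≥ a0`.
-/

set_option autoImplicit false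

namespace Pool.Agent.Lib.MP_e3f158_nt.TL

open Finset Filter Pool.MP_dd84fd_nt.E2 Pool.MP_dd84fd_nt.GX Pool.Agent.Lib.MP_e3f158_nt.U
open Pool.MP_dd84fd_nt.IX (W1 MajI)
open Pool.MP_dd84fd_nt.JX (Adm DecJ)
open Pool.MP_dd84fd_nt.IY (X5)

open Classical in
/-- for an ARBITRARY set `R ⊆ [1, X/6]`: outside `(log X)^C` thin progressions and outside `X^θ`
integers the number of representations `n = r + prime`, `r ∈ R`, is at least `a0` times the prediction,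
up to `X/(log X)^A` -/
def CovGL (t0 a0 : ℝ) : Prop := ∀ A : ℕ, ∃ C : ℕ, ∀ (K : ℕ) (θ : ℝ), t0 < θ → θ < 1 / 3 → ∃ D0 : ℕ,
  ∀ D' : ℕ, D0 ≤ D' → ∃ X0 : ℕ, ∀ X : ℕ, X0 ≤ X → ∀ R : Finset ℕ, R ⊆ Icc 1 X →
    (∀ r ∈ R, 6 * r ≤ X) → ∃ PP : Finset (ℤ × ℕ × ℕ),
      (∀ p ∈ PP, 1 ≤ p.2.1 ∧ (p.2.1 : ℝ) ≤ (X : ℝ) ^ (1 - t0) / 4 ∧
        4 * (X : ℝ) ^ t0 ≤ (p.2.2 : ℝ) ∧ (p.2.2 : ℝ) ≤ X / (Real.log X) ^ K) ∧
      (PP.card : ℝ) ≤ (Real.log X) ^ C ∧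
      ((((Icc 1 X).filter fun n => X ≤ 3 * n ∧ RA R n + X / (Real.log X) ^ A <
        a0 * Rz (wX D' X) R n).filter fun n => ∀ p ∈ PP, ¬ apm p n).card : ℝ) ≤ (X : ℝ) ^ θ

/-- narrow families below the primes with density `≥ a0`, for exponents `th` near `t0` -/
def FamGL (t0 a0 : ℝ) : Prop := ∀ B : ℕ, ∃ K0 C1 C2 : ℕ, ∀ th0 : ℝ, t0 < th0 → th0 < 1 / 3 →
  ∃ th : ℝ, t0 < th ∧ th ≤ th0 ∧ ∃ e τ : ℝ, Adm th e τ ∧ 4 * e ≤ th - t0 ∧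
    ∃ ww gg : ℕ → ℕ → ℝ, W1 K0 C1 ww gg ∧ DecJ B C2 th e τ ww ∧ MajI ww gg ∧
      ∃ X0 : ℕ, ∀ X : ℕ, X0 ≤ X → ∀ m : ℕ, X5 X < m → m ≤ X →
        (ww X m ≤ if m.Prime then (1 : ℝ) else 0) ∧ a0 ≤ Real.log m * gg X m

end Pool.Agent.Lib.MP_e3f158_nt.TL
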