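import Pool.Agent.Lib.MP_dd84fd_nt.HX.FaRiem
import Pool.Agent.Lib.MP_dd84fd_nt.LX.FaFacts
import Pool.Agent.Lib.MP_dd84fd_nt.IX.GrDefs
import Pool.Agent.Lib.MP_e3f158_nt.TL.DqL

/-!
# TL-Rie: sums over `Dq` and integrals

`rie_dq`: `faarcs_pair` of `LX/FaArcs.lean` (private, copied) with `din_dq` for the indicator functions.
`ft_facts`: `FT` has period 1, Lipschitz constant `X^4`, bound `X^3`;
`FT ww gg w X n (al G j) = |tr j|² χ(- n j)`.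
`es_facts`: the same for `‖ES X w‖²` with `∑ |w n| ≤ X²` (bound `X^4`, Lipschitz constant `14 X^5`).
-/

set_option autoImplicit false

namespace Pool.Agent.Lib.MP_e3f158_nt.TL

open Finset Pool.MP_67663b_nt.Odd Pool.MP_dd84fd_nt.En Pool.MP_dd84fd_nt.E2 Pool.MP_dd84fd_nt.LS
open Pool.MP_dd84fd_nt.L2G (nrm)
open Pool.MP_dd84fd_nt.GX Pool.MP_dd84fd_nt.HX Pool.MP_dd84fd_nt.IX
open Pool.MP_dd84fd_nt.PL (rr)

theorem rie_dq (F : ℝ → ℂ) (X : ℕ) (hX : 32 ≤ X) (hper : ∀ x, F (x + 1) = F x)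
    (hF : ∀ x y, ‖F x - F y‖ ≤ 14 * (X : ℝ) ^ 5 * |x - y|) (hM : ∀ x, ‖F x‖ ≤ (X : ℝ) ^ 4)
    (G : ℕ) [NeZero G] (hG : X ^ 10 ≤ G) (QQ : Finset ℕ) (r : ℕ → ℝ)
    (hq : ∀ q ∈ QQ, 1 ≤ q ∧ (q : ℝ) ≤ X ∧ 0 ≤ r q ∧ 2 * (q : ℝ) * r q < X)
    (hc : (QQ.card : ℝ) ≤ X) :
    ‖∑ q ∈ QQ, (1 / (G : ℂ)) * ∑ j ∈ Dq G X q (r q), F (al G j) - ∑ q ∈ QQ, dsc F X q (r q)‖ ≤
      1 := by
  classical
  have hX0 : (0 : ℝ) < X := by
    have : 0 < X := by omega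
    exact_mod_cast this
  have hX32 : (32 : ℝ) ≤ X := by exact_mod_cast hX
  have hGR : (X : ℝ) ^ 10 ≤ G := by exact_mod_cast hG
  have hG0 : (0 : ℝ) < G := lt_of_lt_of_le (by positivity) hGR
  rw [← sum_sub_distrib]
  have e0 : ∀ q ∈ QQ, (1 / (G : ℂ)) * ∑ j ∈ Dq G X q (r q), F (al G j) =
      ∑ a ∈ rr q, (1 / (G : ℂ)) * ∑ j : ZMod G,
        din ((a : ℝ) / q) (r q / X) (al G j) * F (al G j) := by
    intro q hqq
    obtain ⟨h1, h2, h3, h4⟩ := hq q hqq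
    have h5 : ∑ j ∈ Dq G X q (r q), F (al G j) = ∑ j : ZMod G,
        (∑ a ∈ rr q, din ((a : ℝ) / q) (r q / X) (al G j)) * F (al G j) := by
      have h6 : ∀ j : ZMod G, (∑ a ∈ rr q, din ((a : ℝ) / q) (r q / X) (al G j)) * F (al G j) =
          if j ∈ Dq G X q (r q) then F (al G j) else 0 := by
        intro j
        rw [din_dq G X q (by omega) h1 (r q) h4 j]
        split_ifs <;> simp
      rw [sum_congr rfl fun j _ => h6 j, sum_ite_mem, univ_inter]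
    rw [h5]
    have h7 : ∀ j : ZMod G, (∑ a ∈ rr q, din ((a : ℝ) / q) (r q / X) (al G j)) * F (al G j) =
        ∑ a ∈ rr q, din ((a : ℝ) / q) (r q / X) (al G j) * F (al G j) := fun j => sum_mul _ _ _
    rw [sum_congr rfl fun j _ => h7 j, sum_comm, mul_sum]
  have e2 : ∀ q ∈ QQ, ‖(1 / (G : ℂ)) * ∑ j ∈ Dq G X q (r q), F (al G j) - dsc F X q (r q)‖ ≤
      X * ((14 * (X : ℝ) ^ 5 * 2 + 3 * (X : ℝ) ^ 4) / G) := by
    intro q hqq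
    rw [e0 q hqq]
    obtain ⟨h1, h2, h3, h4⟩ := hq q hqq
    have hq1 : (1 : ℝ) ≤ q := by exact_mod_cast h1
    have h5 : 2 * (r q / X) < 1 := by
      rw [← mul_div_assoc, div_lt_one hX0]
      nlinarith
    unfold dsc
    rw [← sum_sub_distrib]
    refine (norm_sum_le _ _).trans ?_
    have h6 : ∀ a ∈ rr q, ‖(1 / (G : ℂ)) * ∑ j : ZMod G,
        din ((a : ℝ) / q) (r q / X) (al G j) * F (al G j) -
        ∫ x in (-(r q / X))..(r q / X), F ((a : ℝ) / q + x)‖ ≤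
          (14 * (X : ℝ) ^ 5 * 2 + 3 * (X : ℝ) ^ 4) / G := fun a _ =>
      grid_disc F (14 * (X : ℝ) ^ 5) ((X : ℝ) ^ 4) hper hF hM G ((a : ℝ) / q) (r q / X)
        (by positivity) h5
    refine (sum_le_sum h6).trans ?_
    rw [sum_const, nsmul_eq_mul]
    refine mul_le_mul_of_nonneg_right ?_ (by positivity)
    have h7 : (rr q).card ≤ q := by
      unfold rr
      refine (card_filter_le _ _).trans ?_
      rw [card_range]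
    calc ((rr q).card : ℝ) ≤ q := by exact_mod_cast h7
      _ ≤ X := h2
  refine (norm_sum_le _ _).trans ((sum_le_sum e2).trans ?_)
  rw [sum_const, nsmul_eq_mul]
  have e3 : (QQ.card : ℝ) * (X * ((14 * (X : ℝ) ^ 5 * 2 + 3 * (X : ℝ) ^ 4) / G)) ≤
      X * (X * ((14 * (X : ℝ) ^ 5 * 2 + 3 * (X : ℝ) ^ 4) / G)) :=
    mul_le_mul_of_nonneg_right hc (by positivity)
  refine e3.trans ?_
  have e4 : (X : ℝ) * (X * ((14 * (X : ℝ) ^ 5 * 2 + 3 * (X : ℝ) ^ 4) / G)) =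
      (X ^ 2 * (14 * (X : ℝ) ^ 5 * 2 + 3 * (X : ℝ) ^ 4)) / G := by ring
  rw [e4, div_le_one hG0]
  refine le_trans ?_ hGR
  have e5 : (X : ℝ) ^ 2 * (14 * (X : ℝ) ^ 5 * 2 + 3 * (X : ℝ) ^ 4) =
      (X : ℝ) ^ 6 * (28 * X + 3) := by ring
  have e6 : (X : ℝ) ^ 10 = (X : ℝ) ^ 6 * X ^ 4 := by ring
  rw [e5, e6]
  refine mul_le_mul_of_nonneg_left ?_ (by positivity)
  have e7 : (32 : ℝ) ^ 3 ≤ (X : ℝ) ^ 3 := pow_le_pow_left₀ (by norm_num) hX32 3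
  have e8 : (X : ℝ) ^ 4 = X ^ 3 * X := by ring
  rw [e8]
  nlinarith

private theorem rie_chi (G : ℕ) [NeZero G] (n : ℕ) (j : ZMod G) :
    (ZMod.stdAddChar (-((n : ZMod G) * j)) : ℂ) = ee (-((n : ℝ) * al G j)) := by
  rw [← conj_chi, chi_ee]
  unfold ee al
  rw [← Complex.exp_conj]
  congr 1
  simp only [map_mul, Complex.conj_I, Complex.conj_ofReal, map_ofNat]
  push_cast
  ring

private theorem rie_sq (a b : ℂ) (M l : ℝ) (ha : ‖a‖ ≤ M) (hb : ‖b‖ ≤ M) (hl : ‖a - b‖ ≤ l) :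
    |‖a‖ ^ 2 - ‖b‖ ^ 2| ≤ 2 * M * l := by
  have h1 : |‖a‖ - ‖b‖| ≤ l := (abs_norm_sub_norm_le a b).trans hl
  have h2 : ‖a‖ ^ 2 - ‖b‖ ^ 2 = (‖a‖ + ‖b‖) * (‖a‖ - ‖b‖) := by ring
  rw [h2, abs_mul, abs_of_nonneg (by positivity)]
  have h3 : ‖a‖ + ‖b‖ ≤ 2 * M := by linarith
  exact mul_le_mul h3 h1 (abs_nonneg _) (by linarith [norm_nonneg a])

theorem ft_facts (K0 C1 : ℕ) (ww gg : ℕ → ℕ → ℝ) (hW : W1 K0 C1 ww gg) (D' : ℕ) :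
    ∃ X0 : ℕ, ∀ X : ℕ, X0 ≤ X → ∀ n : ℕ, n ≤ X →
      (∀ x, FT ww gg (wX D' X) X n (x + 1) = FT ww gg (wX D' X) X n x) ∧
      (∀ x y, ‖FT ww gg (wX D' X) X n x - FT ww gg (wX D' X) X n y‖ ≤ (X : ℝ) ^ 4 * |x - y|) ∧
      (∀ x, ‖FT ww gg (wX D' X) X n x‖ ≤ (X : ℝ) ^ 3) := by
  obtain ⟨X1, hX1⟩ := Pool.MP_dd84fd_nt.LX.wi_facts K0 C1 ww gg hW D'
  obtain ⟨X2, hX2⟩ := MP_log_pow 21 4 (show (0 : ℝ) < 1 by norm_num)
  refine ⟨max (max X1 X2) 1, fun X hX n hn => ?_⟩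
  have h1 : X1 ≤ X := by omega
  have h2 : X2 ≤ X := by omega
  have h3 : 1 ≤ X := by omega
  obtain ⟨p1, b1, l1⟩ := hX1 X h1 (-1) (by norm_num)
  have hlog : 21 * Real.log (X : ℝ) ^ 4 ≤ X := by
    have := hX2 X h2
    rwa [Real.rpow_one] at this
  have hX0 : (0 : ℝ) < X := by exact_mod_cast h3
  have hnX : (n : ℝ) ≤ X := by exact_mod_cast hn
  obtain ⟨w, hw⟩ : ∃ w : ℕ, w = wX D' X := ⟨_, rfl⟩
  rw [← hw] at p1 b1 l1 ⊢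
  obtain ⟨A, hA⟩ : ∃ A : ℝ → ℂ, A = WI ww gg (-1) w X := ⟨_, rfl⟩
  have hF : ∀ x, FT ww gg w X n x = ((‖A x‖ ^ 2 : ℝ) : ℂ) * ee (-((n : ℝ) * x)) := by
    intro x
    rw [hA]
    rfl
  rw [← hA] at p1 b1 l1
  have hb2 : ∀ x, ‖A x‖ ^ 2 ≤ (X * Real.log X ^ 2) ^ 2 := fun x =>
    pow_le_pow_left₀ (norm_nonneg _) (b1 x) 2
  refine ⟨?_, ?_, ?_⟩
  · intro x
    rw [hF, hF, p1]
    congr 1
    have : -((n : ℝ) * (x + 1)) = -((n : ℝ) * x) + ((-(n : ℤ) : ℤ) : ℝ) := by push_cast; ring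
    rw [this, ee_add_int]
  · intro x y
    rw [hF, hF]
    have e : ((‖A x‖ ^ 2 : ℝ) : ℂ) * ee (-((n : ℝ) * x)) -
        ((‖A y‖ ^ 2 : ℝ) : ℂ) * ee (-((n : ℝ) * y)) =
        (((‖A x‖ ^ 2 - ‖A y‖ ^ 2 : ℝ)) : ℂ) * ee (-((n : ℝ) * x)) +
        ((‖A y‖ ^ 2 : ℝ) : ℂ) * (ee (-((n : ℝ) * x)) - ee (-((n : ℝ) * y))) := by
      push_cast
      ring
    rw [e]
    refine (norm_add_le _ _).trans ?_
    have c1 : ‖(((‖A x‖ ^ 2 - ‖A y‖ ^ 2 : ℝ)) : ℂ) * ee (-((n : ℝ) * x))‖ ≤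
        2 * (X * Real.log X ^ 2) * (7 * (X : ℝ) ^ 2 * Real.log X ^ 2 * |x - y|) := by
      rw [norm_mul, norm_ee, mul_one, Complex.norm_real, Real.norm_eq_abs]
      exact rie_sq _ _ _ _ (b1 x) (b1 y) (l1 x y)
    have c2 : ‖((‖A y‖ ^ 2 : ℝ) : ℂ) * (ee (-((n : ℝ) * x)) - ee (-((n : ℝ) * y)))‖ ≤
        (X * Real.log X ^ 2) ^ 2 * (7 * (X * |x - y|)) := by
      rw [norm_mul, Complex.norm_real, Real.norm_eq_abs, abs_of_nonneg (by positivity)]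
      refine mul_le_mul (hb2 y) ?_ (norm_nonneg _) (by positivity)
      refine (Pool.MP_dd84fd_nt.FA.ee_lip _ _).trans ?_
      have e2 : -((n : ℝ) * x) - -((n : ℝ) * y) = -((n : ℝ) * (x - y)) := by ring
      rw [e2, abs_neg, abs_mul, abs_of_nonneg (Nat.cast_nonneg n)]
      gcongr
    have habs := abs_nonneg (x - y)
    calc _ ≤ 2 * (X * Real.log X ^ 2) * (7 * (X : ℝ) ^ 2 * Real.log X ^ 2 * |x - y|) +
          (X * Real.log X ^ 2) ^ 2 * (7 * (X * |x - y|)) := add_le_add c1 c2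
      _ = (21 * Real.log (X : ℝ) ^ 4) * ((X : ℝ) ^ 3 * |x - y|) := by ring
      _ ≤ X * ((X : ℝ) ^ 3 * |x - y|) := by gcongr
      _ = _ := by ring
  · intro x
    rw [hF, norm_mul, norm_ee, mul_one, Complex.norm_real, Real.norm_eq_abs,
      abs_of_nonneg (by positivity)]
    calc ‖A x‖ ^ 2 ≤ (X * Real.log X ^ 2) ^ 2 := hb2 x
      _ = (1 * Real.log (X : ℝ) ^ 4) * (X : ℝ) ^ 2 := by ring
      _ ≤ (21 * Real.log (X : ℝ) ^ 4) * (X : ℝ) ^ 2 := by gcongr; norm_num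
      _ ≤ X * (X : ℝ) ^ 2 := by gcongr
      _ = _ := by ring

theorem ft_grid (G : ℕ) [NeZero G] (ww gg : ℕ → ℕ → ℝ) (w X n : ℕ) (j : ZMod G) :
    FT ww gg w X n (al G j) = ((‖tr G X (cfI ww gg (-1) w X) j‖ ^ 2 : ℝ) : ℂ) *
      ZMod.stdAddChar (-((n : ZMod G) * j)) := by
  rw [rie_chi, Pool.MP_dd84fd_nt.LX.tr_cfI]
  rfl

theorem es_facts (X : ℕ) (hX : 32 ≤ X) (w : ℕ → ℝ) (hw : ∑ n ∈ Icc 1 X, |w n| ≤ (X : ℝ) ^ 2) :
    (∀ x, ‖ES X w (x + 1)‖ ^ 2 = ‖ES X w x‖ ^ 2) ∧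
    (∀ x y, |‖ES X w x‖ ^ 2 - ‖ES X w y‖ ^ 2| ≤ 14 * (X : ℝ) ^ 5 * |x - y|) ∧
    (∀ x, ‖ES X w x‖ ^ 2 ≤ (X : ℝ) ^ 4) ∧
    ∀ (G : ℕ) [NeZero G] (j : ZMod G), tr G X w j = ES X w (al G j) := by
  have hX0 : (0 : ℝ) < X := by
    have : 0 < X := by omega
    exact_mod_cast this
  have hb : ∀ x, ‖ES X w x‖ ≤ (X : ℝ) ^ 2 := by
    intro x
    unfold ES
    refine (norm_sum_le _ _).trans (le_trans (le_of_eq ?_) hw)
    refine sum_congr rfl fun n _ => ?_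
    rw [norm_mul, norm_ee, mul_one, Complex.norm_real, Real.norm_eq_abs]
  have hl : ∀ x y, ‖ES X w x - ES X w y‖ ≤ 7 * (X : ℝ) ^ 3 * |x - y| := by
    intro x y
    unfold ES
    rw [← sum_sub_distrib]
    refine (norm_sum_le _ _).trans ?_
    have h1 : ∀ n ∈ Icc 1 X, ‖(w n : ℂ) * ee ((n : ℝ) * x) - (w n : ℂ) * ee ((n : ℝ) * y)‖ ≤
        |w n| * (7 * (X * |x - y|)) := by
      intro n hn
      obtain ⟨hn1, hn2⟩ := mem_Icc.mp hn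
      rw [← mul_sub, norm_mul, Complex.norm_real, Real.norm_eq_abs]
      refine mul_le_mul_of_nonneg_left ?_ (abs_nonneg _)
      refine (Pool.MP_dd84fd_nt.FA.ee_lip _ _).trans ?_
      rw [← mul_sub, abs_mul, abs_of_nonneg (Nat.cast_nonneg n)]
      have : (n : ℝ) ≤ X := by exact_mod_cast hn2
      gcongr
    refine (sum_le_sum h1).trans ?_
    rw [← sum_mul]
    calc (∑ n ∈ Icc 1 X, |w n|) * (7 * (X * |x - y|)) ≤ (X : ℝ) ^ 2 * (7 * (X * |x - y|)) :=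
          mul_le_mul_of_nonneg_right hw (by positivity)
      _ = _ := by ring
  refine ⟨fun x => by rw [ES_per], fun x y => ?_, fun x => ?_, fun G _ j => ?_⟩
  · refine (rie_sq _ _ _ _ (hb x) (hb y) (hl x y)).trans (le_of_eq ?_)
    ring
  · calc ‖ES X w x‖ ^ 2 ≤ ((X : ℝ) ^ 2) ^ 2 := pow_le_pow_left₀ (norm_nonneg _) (hb x) 2
      _ = _ := by ring
  · rw [tr_ee]
    rfl

end Pool.Agent.Lib.MP_e3f158_nt.TL
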