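import Pool.Agent.Lib.MP_dd84fd_nt.JX.GT1
import Pool.Agent.Lib.MP_e3f158_nt.TL.Rie

/-!
# TL-OvI (0.8 h, uses Rie): type I sums on the overlaps

`j ∈ Dq q r ∩ Dq q' r'`: `α - a/q - z = x`, `α - a'/q' - z' = x'`, `|x - x'| ≥ 1/(q q')` (`fd_dist`,
`IX.fr_dist`: `≥ 1/lcm ≥ 1/(q q')`), so `|x| ≥ 1/(2 q q')` or `|x'| ≥ 1/(2 q q')`: `j ∈ An q r u` or
`j ∈ An q' r' u`, `u = 1/(2 q q')`, `An q r u = {j : ∃ a z, u ≤ |α - a/q - z| ≤ r/X}`.
Mass of `F = ‖ES X f‖²` on `An q r u`: `≤ ∑_a (1/G) ∑_j (din (a/q) (r/X) - din (a/q) (u/2)) F(α_j)`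
(if `u/2 > r/X`, `An` is empty) `≤ ∑_a ∫_{u/2 ≤ |x| ≤ r/X} F(a/q + x) + 1` (`HX.grid_disc`, `es_facts`).
`bv_type1`: `‖ES‖ ≤ B (X/ht + R)`, `R = ⌊ZJ⌋₊`, `B = C1 L^(2C+1)`; `JXP.ht_mass` (`JX/HtMass.lean`, line 725, `σ = ± 1`,
`u := u/2 = 1/(4 q q')`, `v := r/X`, `c1 = B R`, `c2 = B`): `≤ 2 B² R² q r/X + 160 B² (1+L)² (4 q' + q (1 + r))`,
`q', q (1 + r) ≤ 8 P0`, `R² P0/X ≤ 4 X^(1-38e)` (`gt1_num` in `JX/GT1.lean`).  All `≤ X^(1-7e)` for large `X`.
Numerics must hold for all `th > 1/8` (`P0I ≤ X^(89/100)`), `e ≤ 1/10000`.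
-/

set_option autoImplicit false

namespace Pool.Agent.Lib.MP_e3f158_nt.TL

open Finset Pool.MP_67663b_nt.Odd Pool.MP_dd84fd_nt.En Pool.MP_dd84fd_nt.E2 Pool.MP_dd84fd_nt.LS
open Pool.MP_dd84fd_nt.L2G (nrm)
open Pool.MP_dd84fd_nt.GX Pool.MP_dd84fd_nt.HX Pool.MP_dd84fd_nt.IX
open Pool.MP_dd84fd_nt.PL (rr)
open Pool.MP_dd84fd_nt.JX (Adm ZJ lv)

open Classical in
private noncomputable def ovir (c r α : ℝ) : ℝ := if ∃ z : ℤ, |α - c - z| ≤ r then 1 else 0

private theorem ovi_din (c r α : ℝ) : din c r α = ((ovir c r α : ℝ) : ℂ) := by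
  unfold din ovir
  split_ifs <;> simp

private theorem ovi_grid (F : ℝ → ℝ) (lam M : ℝ) (hper : ∀ x, F (x + 1) = F x)
    (hF : ∀ x y, |F x - F y| ≤ lam * |x - y|) (hM : ∀ x, |F x| ≤ M) (G : ℕ) [NeZero G]
    (c r : ℝ) (hr : 0 ≤ r) (hr2 : 2 * r < 1) :
    |(1 / (G : ℝ)) * ∑ j : ZMod G, ovir c r (al G j) * F (al G j) -
      ∫ x in (-r)..r, F (c + x)| ≤ (lam * 2 + 3 * M) / G := by
  have h := grid_disc (fun x => ((F x : ℝ) : ℂ)) lam M (fun x => by simp only [hper])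
    (fun x y => by rw [← Complex.ofReal_sub, Complex.norm_real]; exact hF x y)
    (fun x => by rw [Complex.norm_real]; exact hM x) G c r hr hr2
  have e1 : (1 / (G : ℂ)) * ∑ j : ZMod G, din c r (al G j) * ((F (al G j) : ℝ) : ℂ) =
      (((1 / (G : ℝ)) * ∑ j : ZMod G, ovir c r (al G j) * F (al G j) : ℝ) : ℂ) := by
    push_cast
    simp only [ovi_din]
  have e2 : (∫ x in (-r)..r, ((F (c + x) : ℝ) : ℂ)) =
      ((∫ x in (-r)..r, F (c + x) : ℝ) : ℂ) := intervalIntegral.integral_ofReal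
  rw [e1, e2, ← Complex.ofReal_sub, Complex.norm_real] at h
  exact h

private theorem ovi_mass (F : ℝ → ℝ) (lam M : ℝ) (hc : Continuous F) (hnn : ∀ x, 0 ≤ F x)
    (hper : ∀ x, F (x + 1) = F x)
    (hF : ∀ x y, |F x - F y| ≤ lam * |x - y|) (hM : ∀ x, |F x| ≤ M) (G : ℕ) [NeZero G]
    (q : ℕ) (u v : ℝ) (hu : 0 ≤ u) (huv : u ≤ v) (hv : 2 * v < 1) (S : Finset (ZMod G))
    (hS : ∀ j ∈ S, ∃ a ∈ rr q, ∃ z : ℤ, u < |al G j - (a : ℝ) / q - z| ∧
      |al G j - (a : ℝ) / q - z| ≤ v) :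
    (1 / (G : ℝ)) * ∑ j ∈ S, F (al G j) ≤
      ∑ a ∈ rr q, ((∫ x in u..v, F ((a : ℝ) / q + x)) + ∫ x in u..v, F ((a : ℝ) / q - x)) +
        q * (2 * ((lam * 2 + 3 * M) / G)) := by
  classical
  have hG : 0 < G := Nat.pos_of_ne_zero (NeZero.ne G)
  have hGr : (0 : ℝ) < G := by exact_mod_cast hG
  have hmono : ∀ c α : ℝ, 0 ≤ ovir c v α - ovir c u α := by
    intro c α
    unfold ovir
    split_ifs with h1 h2 h3
    · norm_num
    · norm_num
    · exfalso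
      obtain ⟨z, hz⟩ := h3
      exact h1 ⟨z, hz.trans huv⟩
    · norm_num
  have s1 : ∑ j ∈ S, F (al G j) ≤
      ∑ j : ZMod G, ∑ a ∈ rr q, (ovir ((a : ℝ) / q) v (al G j) - ovir ((a : ℝ) / q) u (al G j)) *
        F (al G j) := by
    have h0 : ∀ j : ZMod G, ∀ a ∈ rr q, 0 ≤ (ovir ((a : ℝ) / q) v (al G j) -
        ovir ((a : ℝ) / q) u (al G j)) * F (al G j) :=
      fun j a _ => mul_nonneg (hmono _ _) (hnn _)
    calc ∑ j ∈ S, F (al G j) ≤ ∑ j ∈ S, ∑ a ∈ rr q, (ovir ((a : ℝ) / q) v (al G j) -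
          ovir ((a : ℝ) / q) u (al G j)) * F (al G j) := by
          refine sum_le_sum fun j hj => ?_
          obtain ⟨a, ha, z, hz1, hz2⟩ := hS j hj
          have h1 : ovir ((a : ℝ) / q) v (al G j) = 1 := by
            unfold ovir
            rw [if_pos ⟨z, hz2⟩]
          have h2 : ovir ((a : ℝ) / q) u (al G j) = 0 := by
            unfold ovir
            rw [if_neg]
            rintro ⟨z', hz'⟩
            have h3 : z ≠ z' := by
              rintro rfl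
              linarith
            have h4 : (1 : ℝ) ≤ |(z : ℝ) - z'| := by
              have : (1 : ℤ) ≤ |z - z'| := Int.one_le_abs (sub_ne_zero.2 h3)
              exact_mod_cast this
            have h5 : |(z : ℝ) - z'| ≤ |al G j - (a : ℝ) / q - z| +
                |al G j - (a : ℝ) / q - z'| := by
              have : (z : ℝ) - z' = -(al G j - (a : ℝ) / q - z) + (al G j - (a : ℝ) / q - z') := by
                ring
              rw [this]
              refine (abs_add_le _ _).trans ?_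
              rw [abs_neg]
            linarith
          have h6 := single_le_sum (h0 j) ha
          simp only [h1, h2, sub_zero, one_mul] at h6
          exact h6
      _ ≤ _ := sum_le_sum_of_subset_of_nonneg (subset_univ _)
          (fun j _ _ => sum_nonneg (h0 j))
  have s2 : (1 / (G : ℝ)) * ∑ j : ZMod G, ∑ a ∈ rr q, (ovir ((a : ℝ) / q) v (al G j) -
        ovir ((a : ℝ) / q) u (al G j)) * F (al G j) =
      ∑ a ∈ rr q, ((1 / (G : ℝ)) * ∑ j : ZMod G, ovir ((a : ℝ) / q) v (al G j) * F (al G j) -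
        (1 / (G : ℝ)) * ∑ j : ZMod G, ovir ((a : ℝ) / q) u (al G j) * F (al G j)) := by
    rw [sum_comm, mul_sum]
    refine sum_congr rfl fun a _ => ?_
    rw [← mul_sub, ← sum_sub_distrib]
    congr 1
    exact sum_congr rfl fun j _ => by ring
  have s3 : ∀ a ∈ rr q,
      ((1 / (G : ℝ)) * ∑ j : ZMod G, ovir ((a : ℝ) / q) v (al G j) * F (al G j) -
        (1 / (G : ℝ)) * ∑ j : ZMod G, ovir ((a : ℝ) / q) u (al G j) * F (al G j)) ≤
      ((∫ x in u..v, F ((a : ℝ) / q + x)) + ∫ x in u..v, F ((a : ℝ) / q - x)) +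
        2 * ((lam * 2 + 3 * M) / G) := by
    intro a _
    have g1 := ovi_grid F lam M hper hF hM G ((a : ℝ) / q) v (hu.trans huv) hv
    have g2 := ovi_grid F lam M hper hF hM G ((a : ℝ) / q) u hu (by linarith)
    have hcx : Continuous fun x : ℝ => F ((a : ℝ) / q + x) :=
      hc.comp (continuous_const.add continuous_id)
    have ii : ∀ s t : ℝ, IntervalIntegrable (fun x : ℝ => F ((a : ℝ) / q + x))
        MeasureTheory.volume s t := fun s t => hcx.intervalIntegrable _ _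
    have e1 : (∫ x in (-v)..v, F ((a : ℝ) / q + x)) = (∫ x in (-v)..(-u), F ((a : ℝ) / q + x)) +
        (∫ x in (-u)..u, F ((a : ℝ) / q + x)) + ∫ x in u..v, F ((a : ℝ) / q + x) := by
      rw [intervalIntegral.integral_add_adjacent_intervals (ii _ _) (ii _ _),
        intervalIntegral.integral_add_adjacent_intervals (ii _ _) (ii _ _)]
    have e2 : (∫ x in (-v)..(-u), F ((a : ℝ) / q + x)) = ∫ x in u..v, F ((a : ℝ) / q - x) := by
      have := intervalIntegral.integral_comp_neg (a := u) (b := v)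
        (fun x : ℝ => F ((a : ℝ) / q + x))
      rw [← this]
      simp only [sub_eq_add_neg]
    rw [abs_le] at g1 g2
    linarith [g1.2, g2.1]
  have hcard : ((rr q).card : ℝ) ≤ q := by
    have hsub : rr q ⊆ range q := by
      unfold rr
      exact filter_subset _ _
    have := card_le_card hsub
    rw [card_range] at this
    exact_mod_cast this
  have hlam : 0 ≤ lam := by
    have := (abs_nonneg _).trans (hF 0 1)
    simpa using this
  have hM0 : 0 ≤ M := (abs_nonneg _).trans (hM 0)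
  have herr : 0 ≤ 2 * ((lam * 2 + 3 * M) / (G : ℝ)) := by positivity
  calc (1 / (G : ℝ)) * ∑ j ∈ S, F (al G j) ≤ (1 / (G : ℝ)) * ∑ j : ZMod G, ∑ a ∈ rr q,
        (ovir ((a : ℝ) / q) v (al G j) - ovir ((a : ℝ) / q) u (al G j)) * F (al G j) :=
        mul_le_mul_of_nonneg_left s1 (by positivity)
    _ ≤ ∑ a ∈ rr q, (((∫ x in u..v, F ((a : ℝ) / q + x)) + ∫ x in u..v, F ((a : ℝ) / q - x)) +
        2 * ((lam * 2 + 3 * M) / G)) := by
        rw [s2]
        exact sum_le_sum s3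
    _ = ∑ a ∈ rr q, ((∫ x in u..v, F ((a : ℝ) / q + x)) + ∫ x in u..v, F ((a : ℝ) / q - x)) +
        (rr q).card * (2 * ((lam * 2 + 3 * M) / G)) := by
        rw [sum_add_distrib, sum_const, nsmul_eq_mul]
    _ ≤ _ := by
        have := mul_le_mul_of_nonneg_right hcard herr
        linarith

private theorem ovi_num (th e τ : ℝ) (hA : Adm th e τ) (C : ℕ) (C1 : ℝ) :
    ∃ X0 : ℕ, ∀ X : ℕ, X0 ≤ X → 64 ≤ X ∧ 1 ≤ Real.log X ∧ 8 * P0I th e X < X ∧
      ZJ th e X ≤ X ∧ (Real.log X) ^ C * (Real.log X) ^ C * ZJ th e X ≤ X ∧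
      30720 * (C1 * (Real.log X) ^ C * (Real.log X) ^ C * Real.log X) ^ 2 * (Real.log X) ^ 2 *
        P0I th e X ≤ (X : ℝ) ^ (1 - 7 * e) / 4 ∧
      4 * (C1 * (Real.log X) ^ C * (Real.log X) ^ C * Real.log X) ^ 2 * (ZJ th e X) ^ 2 *
        (4 * P0I th e X / X) ≤ (X : ℝ) ^ (1 - 7 * e) / 8 ∧ 1 ≤ (X : ℝ) ^ (1 - 7 * e) / 8 := by
  obtain ⟨a1, a2, a3, a4, a5⟩ := hA
  obtain ⟨X1, h1⟩ := MP_log_large 1
  obtain ⟨X2, h2⟩ := MP_log_pow 2 (2 * C) (ε := 1 / 4) (by norm_num)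
  obtain ⟨X3, h3⟩ := MP_log_pow (4 * 30720 * C1 ^ 2) (4 * C + 4) (ε := 1 / 20) (by norm_num)
  obtain ⟨X4, h4⟩ := MP_log_pow (512 * C1 ^ 2) (4 * C + 2) (ε := e) a3
  obtain ⟨X5, h5⟩ := MP_log_pow 9 0 (ε := 1 / 20) (by norm_num)
  refine ⟨max (max X1 X2) (max (max X3 X4) (max X5 64)), fun X hX => ?_⟩
  simp only [max_le_iff] at hX
  obtain ⟨⟨g1, g2⟩, ⟨g3, g4⟩, g5, g6⟩ := hX
  have k1 := h1 X g1
  have k2 := h2 X g2
  have k3 := h3 X g3
  have k4 := h4 X g4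
  have k5 := h5 X g5
  rw [pow_zero, mul_one] at k5
  have hX0 : (0 : ℝ) < X := by exact_mod_cast (by omega : 0 < X)
  have hX1 : (1 : ℝ) ≤ X := by exact_mod_cast (by omega : 1 ≤ X)
  have hX64 : (64 : ℝ) ≤ X := by exact_mod_cast g6
  have hle : ∀ s t : ℝ, s ≤ t → (X : ℝ) ^ s ≤ (X : ℝ) ^ t :=
    fun s t h => Real.rpow_le_rpow_of_exponent_le hX1 h
  set L := Real.log (X : ℝ) with hL
  have hL0 : 0 < L := by linarith
  have hlv : (X : ℝ) ^ (lv th e) ≤ (X : ℝ) ^ (3 / 4 : ℝ) := by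
    refine hle _ _ ((min_le_right _ _).trans ?_)
    linarith
  have hsplit : (X : ℝ) ^ (1 / 4 : ℝ) * (X : ℝ) ^ (3 / 4 : ℝ) = X := by
    rw [← Real.rpow_add hX0]
    norm_num
  have hB : (C1 * L ^ C * L ^ C * L) ^ 2 = C1 ^ 2 * L ^ (4 * C + 2) := by
    rw [show 4 * C + 2 = C * 2 + C * 2 + 2 by ring, pow_add, pow_add, pow_mul]
    ring
  have hZ2 : L ^ C * L ^ C * ZJ th e X ≤ X := by
    unfold ZJ
    calc L ^ C * L ^ C * (2 * (X : ℝ) ^ (lv th e)) = (2 * L ^ (2 * C)) * (X : ℝ) ^ (lv th e) := by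
          rw [show 2 * C = C + C by ring, pow_add]
          ring
      _ ≤ (X : ℝ) ^ (1 / 4 : ℝ) * (X : ℝ) ^ (3 / 4 : ℝ) :=
          mul_le_mul k2 hlv (by positivity) (by positivity)
      _ = X := hsplit
  refine ⟨g6, k1, ?_, ?_, hZ2, ?_, ?_, ?_⟩
  · have hP : 0 < P0I th e X := by unfold P0I; positivity
    calc 8 * P0I th e X < 9 * P0I th e X := by linarith
      _ ≤ (X : ℝ) ^ (1 / 20 : ℝ) * P0I th e X := mul_le_mul_of_nonneg_right k5 hP.le
      _ ≤ X := by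
          unfold P0I
          rw [← Real.rpow_add hX0]
          nth_rewrite 2 [← Real.rpow_one (X : ℝ)]
          exact hle _ _ (by linarith)
  · have hZ0 : 0 ≤ ZJ th e X := by unfold ZJ; positivity
    have hLC : 1 ≤ L ^ C := one_le_pow₀ k1
    have : 1 ≤ L ^ C * L ^ C := by nlinarith
    nlinarith
  · rw [hB]
    have hP : 0 ≤ P0I th e X := by unfold P0I; positivity
    have e1 : 30720 * (C1 ^ 2 * L ^ (4 * C + 2)) * L ^ 2 * P0I th e X =
        (4 * 30720 * C1 ^ 2) * L ^ (4 * C + 4) * P0I th e X / 4 := by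
      rw [show 4 * C + 4 = (4 * C + 2) + 2 by ring, pow_add L (4 * C + 2) 2]
      ring
    rw [e1]
    refine div_le_div_of_nonneg_right ?_ (by norm_num)
    calc (4 * 30720 * C1 ^ 2) * L ^ (4 * C + 4) * P0I th e X ≤
          (X : ℝ) ^ (1 / 20 : ℝ) * P0I th e X := mul_le_mul_of_nonneg_right k3 hP
      _ ≤ (X : ℝ) ^ (1 - 7 * e) := by
          unfold P0I
          rw [← Real.rpow_add hX0]
          exact hle _ _ (by linarith)
  · rw [hB]
    have e1 : 4 * (C1 ^ 2 * L ^ (4 * C + 2)) * (ZJ th e X) ^ 2 * (4 * P0I th e X / X) =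
        (512 * C1 ^ 2) * L ^ (4 * C + 2) * ((X : ℝ) ^ (lv th e) * (X : ℝ) ^ (lv th e) *
          P0I th e X / X) / 8 := by
      unfold ZJ
      ring
    rw [e1]
    refine div_le_div_of_nonneg_right ?_ (by norm_num)
    have e2 : (X : ℝ) ^ (lv th e) * (X : ℝ) ^ (lv th e) * P0I th e X / X ≤
        (X : ℝ) ^ (1 - 38 * e) := by
      rw [div_le_iff₀ hX0]
      unfold P0I
      rw [← Real.rpow_add hX0, ← Real.rpow_add hX0]
      nth_rewrite 3 [← Real.rpow_one (X : ℝ)]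
      rw [← Real.rpow_add hX0]
      refine hle _ _ ?_
      have : lv th e ≤ (1 + th) / 2 - 20 * e := min_le_right _ _
      linarith
    calc (512 * C1 ^ 2) * L ^ (4 * C + 2) * ((X : ℝ) ^ (lv th e) * (X : ℝ) ^ (lv th e) *
          P0I th e X / X) ≤ (X : ℝ) ^ e * (X : ℝ) ^ (1 - 38 * e) := by
          refine mul_le_mul k4 e2 ?_ (by positivity)
          unfold P0I
          positivity
      _ ≤ (X : ℝ) ^ (1 - 7 * e) := by
          rw [← Real.rpow_add hX0]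
          exact hle _ _ (by linarith)
  · have h6 : (8 : ℝ) ≤ (X : ℝ) ^ (1 - 7 * e) := by
      calc (8 : ℝ) = (64 : ℝ) ^ (1 / 2 : ℝ) := by
            rw [show (64 : ℝ) = 8 ^ (2 : ℕ) by norm_num, ← Real.rpow_natCast,
              ← Real.rpow_mul (by norm_num)]
            norm_num
        _ ≤ (X : ℝ) ^ (1 / 2 : ℝ) := Real.rpow_le_rpow (by norm_num) hX64 (by norm_num)
        _ ≤ (X : ℝ) ^ (1 - 7 * e) := hle _ _ (by linarith)
    linarith

theorem ov_i (th e τ : ℝ) (hA : Adm th e τ) (C : ℕ) : ∃ X0 : ℕ, ∀ X : ℕ, X0 ≤ X →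
    ∀ (G : ℕ) [NeZero G], X ^ 10 ≤ G → ∀ γ α : ℕ → ℝ, (∀ n, |γ n| ≤ (Real.log X) ^ C) →
    ∑ n ∈ Ico 1 X, |γ (n + 1) - γ n| ≤ (Real.log X) ^ C → (∀ l, |α l| ≤ (Real.log X) ^ C) →
    (∀ l : ℕ, ZJ th e X < l → α l = 0) → ∀ (q q' : ℕ) (r r' : ℝ),
    q ≠ q' → 1 ≤ q → 1 ≤ q' → 1 ≤ r → 1 ≤ r' → (q : ℝ) * r ≤ 4 * P0I th e X →
    (q' : ℝ) * r' ≤ 4 * P0I th e X →
    Ov G X (fun n => γ n * ∑ l ∈ n.divisors, α l) q q' r r' ≤ (X : ℝ) ^ (1 - 7 * e) := by
  classical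
  obtain ⟨C1, hC1, X1, hX1⟩ := bv_type1
  obtain ⟨X2, hX2⟩ := ovi_num th e τ hA C C1
  refine ⟨max X1 X2, fun X hX G _ hGX γ α hγ hBV hα hα0 q q' r r' hne hq hq' hr hr' hqr hqr' => ?_⟩
  simp only [max_le_iff] at hX
  obtain ⟨g1, g2⟩ := hX
  obtain ⟨k0, k1, k2, k3, k4, k5, k6, k7⟩ := hX2 X g2
  have hX0 : (0 : ℝ) < X := by exact_mod_cast (by omega : 0 < X)
  have hX1r : (1 : ℝ) ≤ X := by exact_mod_cast (by omega : 1 ≤ X)
  have hX64 : (64 : ℝ) ≤ X := by exact_mod_cast k0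
  set L := Real.log (X : ℝ) with hL
  have hL0 : 0 < L := by linarith
  have hP0 : 0 ≤ P0I th e X := by unfold P0I; positivity
  have hZ0 : 0 ≤ ZJ th e X := by unfold ZJ; positivity
  set f : ℕ → ℝ := fun n => γ n * ∑ l ∈ n.divisors, α l with hf
  set B : ℝ := C1 * L ^ C * L ^ C * L with hB
  have hB0 : 0 < B := by positivity
  have hR : ⌊ZJ th e X⌋₊ ≤ X := by
    have : ((⌊ZJ th e X⌋₊ : ℕ) : ℝ) ≤ X := (Nat.floor_le hZ0).trans k3
    exact_mod_cast this
  have hRZ : ((⌊ZJ th e X⌋₊ : ℕ) : ℝ) ≤ ZJ th e X := Nat.floor_le hZ0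
  set R : ℝ := ((⌊ZJ th e X⌋₊ : ℕ) : ℝ) with hRdef
  have hR0 : 0 ≤ R := Nat.cast_nonneg _
  have hpt : ∀ θ, ‖ES X f θ‖ ≤ B * R + B * ((X : ℝ) / ht X θ) := by
    intro θ
    have h1 := hX1 X g1 γ α (L ^ C) (L ^ C) ⌊ZJ th e X⌋₊ hR hγ hBV hα
      (fun l hl => hα0 l (Nat.lt_of_floor_lt hl)) θ
    refine h1.trans (le_of_eq ?_)
    rw [hB, hRdef]
    ring
  -- the size of f
  have hfs : ∀ n, |f n| ≤ X := by
    intro n
    have h1 : |∑ l ∈ n.divisors, α l| ≤ L ^ C * R := by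
      have h2 : ∑ l ∈ n.divisors, |α l| ≤ ∑ l ∈ Icc 1 ⌊ZJ th e X⌋₊, |α l| := by
        have h3 : ∑ l ∈ n.divisors, |α l| =
            ∑ l ∈ n.divisors.filter (fun l => l ≤ ⌊ZJ th e X⌋₊), |α l| := by
          symm
          refine sum_subset (filter_subset _ _) fun l hl hl' => ?_
          have h4 : ¬ l ≤ ⌊ZJ th e X⌋₊ := fun h => hl' (mem_filter.2 ⟨hl, h⟩)
          rw [hα0 l (Nat.lt_of_floor_lt (not_le.1 h4)), abs_zero]
        rw [h3]
        refine sum_le_sum_of_subset_of_nonneg ?_ fun _ _ _ => abs_nonneg _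
        intro l hl
        rw [mem_filter] at hl
        exact mem_Icc.2 ⟨Nat.pos_of_mem_divisors hl.1, hl.2⟩
      calc |∑ l ∈ n.divisors, α l| ≤ ∑ l ∈ n.divisors, |α l| := abs_sum_le_sum_abs _ _
        _ ≤ ∑ l ∈ Icc 1 ⌊ZJ th e X⌋₊, |α l| := h2
        _ ≤ ∑ _l ∈ Icc 1 ⌊ZJ th e X⌋₊, L ^ C := sum_le_sum fun l _ => hα l
        _ = L ^ C * R := by
            rw [sum_const, Nat.card_Icc, nsmul_eq_mul, hRdef, Nat.add_sub_cancel]
            ring
    calc |f n| = |γ n| * |∑ l ∈ n.divisors, α l| := abs_mul _ _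
      _ ≤ L ^ C * (L ^ C * R) := mul_le_mul (hγ n) h1 (abs_nonneg _) (by positivity)
      _ ≤ L ^ C * (L ^ C * ZJ th e X) := by
          refine mul_le_mul_of_nonneg_left ?_ (by positivity)
          exact mul_le_mul_of_nonneg_left hRZ (by positivity)
      _ = L ^ C * L ^ C * ZJ th e X := by ring
      _ ≤ X := k4
  have hfs2 : ∑ n ∈ Icc 1 X, |f n| ≤ (X : ℝ) ^ 2 := by
    calc ∑ n ∈ Icc 1 X, |f n| ≤ ∑ _n ∈ Icc 1 X, (X : ℝ) := sum_le_sum fun n _ => hfs n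
      _ = (X : ℝ) ^ 2 := by
          rw [sum_const, Nat.card_Icc, nsmul_eq_mul, Nat.add_sub_cancel]
          ring
  obtain ⟨f1, f2, f3, f4⟩ := es_facts X (by omega) f hfs2
  have f4' := f4 G
  have hcF : Continuous fun x : ℝ => ‖ES X f x‖ ^ 2 := (ES_cont X f).norm.pow 2
  have hGr : (X : ℝ) ^ 10 ≤ G := by exact_mod_cast hGX
  have hG0 : (0 : ℝ) < G := lt_of_lt_of_le (by positivity) hGr
  -- one side
  have side : ∀ (q q' : ℕ) (r r' : ℝ), 1 ≤ q → 1 ≤ q' → 1 ≤ r → 1 ≤ r' →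
      (q : ℝ) * r ≤ 4 * P0I th e X → (q' : ℝ) * r' ≤ 4 * P0I th e X →
      ∀ S : Finset (ZMod G), (∀ j ∈ S, ∃ a ∈ rr q, ∃ z : ℤ,
        1 / (4 * (q : ℝ) * q') < |al G j - (a : ℝ) / q - z| ∧
        |al G j - (a : ℝ) / q - z| ≤ r / X) →
      (1 / (G : ℝ)) * ∑ j ∈ S, ‖ES X f (al G j)‖ ^ 2 ≤ (X : ℝ) ^ (1 - 7 * e) / 2 := by
    intro q q' r r' hq hq' hr hr' hqr hqr' S hS
    have hq0 : (1 : ℝ) ≤ q := by exact_mod_cast hq
    have hq0' : (1 : ℝ) ≤ q' := by exact_mod_cast hq'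
    have hqp : (0 : ℝ) < q := by linarith
    have hqp' : (0 : ℝ) < q' := by linarith
    set u : ℝ := 1 / (4 * (q : ℝ) * q') with hu
    have hu0 : 0 < u := by positivity
    set v : ℝ := r / X with hv
    have hXpos : 0 ≤ (X : ℝ) ^ (1 - 7 * e) := by positivity
    rcases lt_or_ge v u with huv | huv
    · have hSe : S = ∅ := by
        refine eq_empty_iff_forall_notMem.2 fun j hj => ?_
        obtain ⟨a, _, z, h1, h2⟩ := hS j hj
        linarith
      rw [hSe, sum_empty, mul_zero]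
      positivity
    have hrP : r ≤ 4 * P0I th e X := by nlinarith
    have hqP : (q : ℝ) ≤ 4 * P0I th e X := by nlinarith
    have hqP' : (q' : ℝ) ≤ 4 * P0I th e X := by nlinarith
    have hv1 : 2 * v < 1 := by
      rw [hv, ← mul_div_assoc, div_lt_one hX0]
      linarith
    have hqX : q ≤ X := by
      have : (q : ℝ) ≤ X := by linarith
      exact_mod_cast this
    have m1 := ovi_mass (fun x => ‖ES X f x‖ ^ 2) (14 * (X : ℝ) ^ 5) ((X : ℝ) ^ 4) hcF
      (fun x => by positivity) f1 f2 (fun x => by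
        rw [abs_of_nonneg (by positivity)]
        exact f3 x) G q u v hu0.le huv hv1 S hS
    have m2 := Pool.MP_dd84fd_nt.JXP.ht_mass X q 1 u v (by omega) hq hqX (Or.inl rfl) hu0.le huv
      (by linarith) (fun a x => ES X f ((a : ℝ) / q + x))
      (fun a => (ES_cont X f).comp (continuous_const.add continuous_id)) (B * R) B
      (by positivity) hB0.le (fun a _ x _ _ => by rw [one_mul]; exact hpt _)
    have m3 := Pool.MP_dd84fd_nt.JXP.ht_mass X q (-1) u v (by omega) hq hqX (Or.inr rfl) hu0.le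
      huv (by linarith) (fun a x => ES X f ((a : ℝ) / q - x))
      (fun a => (ES_cont X f).comp (continuous_const.sub continuous_id)) (B * R) B
      (by positivity) hB0.le (fun a _ x _ _ => by
        rw [show (a : ℝ) / q + -1 * x = (a : ℝ) / q - x by ring]
        exact hpt _)
    rw [sum_add_distrib] at m1
    have n1 : 2 * (B * R) ^ 2 * q * (v - u) ≤
        2 * B ^ 2 * (ZJ th e X) ^ 2 * (4 * P0I th e X / X) := by
      have h1 : (q : ℝ) * (v - u) ≤ 4 * P0I th e X / X := by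
        calc (q : ℝ) * (v - u) ≤ q * v := mul_le_mul_of_nonneg_left (by linarith) hqp.le
          _ = q * r / X := by rw [hv]; ring
          _ ≤ 4 * P0I th e X / X := div_le_div_of_nonneg_right hqr hX0.le
      have h2 : R ^ 2 ≤ (ZJ th e X) ^ 2 := pow_le_pow_left₀ hR0 hRZ 2
      calc 2 * (B * R) ^ 2 * q * (v - u) = 2 * B ^ 2 * R ^ 2 * (q * (v - u)) := by ring
        _ ≤ 2 * B ^ 2 * (ZJ th e X) ^ 2 * (4 * P0I th e X / X) := by
            refine mul_le_mul ?_ h1 (mul_nonneg hqp.le (by linarith)) (by positivity)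
            exact mul_le_mul_of_nonneg_left h2 (by positivity)
    have n2 : 160 * B ^ 2 * (1 + L) ^ 2 * ((X : ℝ) / (q * (1 + X * u)) + q * (1 + X * v)) ≤
        15360 * B ^ 2 * L ^ 2 * P0I th e X := by
      have h1 : (X : ℝ) / (q * (1 + X * u)) ≤ 4 * q' := by
        rw [div_le_iff₀ (by positivity)]
        have h2 : 4 * (q' : ℝ) * (q * (1 + X * u)) = 4 * q' * q + X := by
          rw [hu]
          field_simp
        rw [h2]
        have : 0 ≤ 4 * (q' : ℝ) * q := by positivity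
        linarith
      have h3 : (q : ℝ) * (1 + X * v) ≤ 2 * (q * r) := by
        have : (X : ℝ) * v = r := by rw [hv]; field_simp
        rw [this]
        nlinarith
      have h4 : (1 + L) ^ 2 ≤ 4 * L ^ 2 := by nlinarith
      have h5 : (X : ℝ) / (q * (1 + X * u)) + q * (1 + X * v) ≤ 24 * P0I th e X := by linarith
      have h6 : 0 ≤ (X : ℝ) / (q * (1 + X * u)) + q * (1 + X * v) := by
        have : 0 ≤ v := by rw [hv]; positivity
        positivity
      calc 160 * B ^ 2 * (1 + L) ^ 2 * ((X : ℝ) / (q * (1 + X * u)) + q * (1 + X * v)) ≤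
            160 * B ^ 2 * (4 * L ^ 2) * (24 * P0I th e X) := by
            refine mul_le_mul ?_ h5 h6 (by positivity)
            exact mul_le_mul_of_nonneg_left h4 (by positivity)
        _ = 15360 * B ^ 2 * L ^ 2 * P0I th e X := by ring
    have n3 : (q : ℝ) * (2 * ((14 * (X : ℝ) ^ 5 * 2 + 3 * (X : ℝ) ^ 4) / G)) ≤ 1 := by
      have h1 : (14 * (X : ℝ) ^ 5 * 2 + 3 * (X : ℝ) ^ 4) / G ≤
          (14 * (X : ℝ) ^ 5 * 2 + 3 * (X : ℝ) ^ 4) / (X : ℝ) ^ 10 :=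
        div_le_div_of_nonneg_left (by positivity) (by positivity) hGr
      have hqX' : (q : ℝ) ≤ X := by exact_mod_cast hqX
      have h2 : 14 * (X : ℝ) ^ 5 * 2 + 3 * (X : ℝ) ^ 4 ≤ 31 * (X : ℝ) ^ 5 := by
        have : (X : ℝ) ^ 5 = X ^ 4 * X := by ring
        have h3 : (X : ℝ) ^ 4 ≤ X ^ 4 * X := le_mul_of_one_le_right (by positivity) hX1r
        linarith
      have h4 : (14 * (X : ℝ) ^ 5 * 2 + 3 * (X : ℝ) ^ 4) / (X : ℝ) ^ 10 ≤
          31 * (X : ℝ) ^ 5 / (X : ℝ) ^ 10 := div_le_div_of_nonneg_right h2 (by positivity)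
      calc (q : ℝ) * (2 * ((14 * (X : ℝ) ^ 5 * 2 + 3 * (X : ℝ) ^ 4) / G)) ≤
            X * (2 * (31 * (X : ℝ) ^ 5 / (X : ℝ) ^ 10)) := by
            refine mul_le_mul hqX' ?_ (by positivity) hX0.le
            linarith
        _ = 62 / (X : ℝ) ^ 4 := by
            field_simp
            ring
        _ ≤ 1 := by
            rw [div_le_one (by positivity)]
            calc (62 : ℝ) ≤ X := by linarith
              _ = X ^ 1 := (pow_one _).symm
              _ ≤ X ^ 4 := pow_le_pow_right₀ hX1r (by norm_num)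
    have n4 : 2 * (15360 * B ^ 2 * L ^ 2 * P0I th e X) ≤ (X : ℝ) ^ (1 - 7 * e) / 4 := by
      have : 2 * (15360 * B ^ 2 * L ^ 2 * P0I th e X) =
          30720 * B ^ 2 * L ^ 2 * P0I th e X := by ring
      rw [this]
      exact k5
    have n5 : 2 * (2 * B ^ 2 * (ZJ th e X) ^ 2 * (4 * P0I th e X / X)) ≤
        (X : ℝ) ^ (1 - 7 * e) / 8 := by
      have : 2 * (2 * B ^ 2 * (ZJ th e X) ^ 2 * (4 * P0I th e X / X)) =
          4 * B ^ 2 * (ZJ th e X) ^ 2 * (4 * P0I th e X / X) := by ring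
      rw [this]
      exact k6
    linarith
  -- the splitting
  set D : Finset (ZMod G) := Dq G X q r ∩ Dq G X q' r' with hD
  have hOv : Ov G X f q q' r r' = (1 / (G : ℝ)) * ∑ j ∈ D, ‖ES X f (al G j)‖ ^ 2 := by
    unfold Ov
    congr 1
    exact sum_congr rfl fun j _ => by rw [f4' j]
  rw [hOv]
  set P : ZMod G → Prop := fun j => ∃ a ∈ rr q, ∃ z : ℤ,
        1 / (4 * (q : ℝ) * q') < |al G j - (a : ℝ) / q - z| ∧
        |al G j - (a : ℝ) / q - z| ≤ r / X with hPdef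
  rw [← sum_filter_add_sum_filter_not D P, mul_add]
  have t1 := side q q' r r' hq hq' hr hr' hqr hqr' (D.filter P) (fun j hj => (mem_filter.1 hj).2)
  have t2 := side q' q r' r hq' hq hr' hr hqr' hqr (D.filter (fun j => ¬ P j)) (fun j hj => by
    rw [mem_filter] at hj
    obtain ⟨hj1, hj2⟩ := hj
    rw [hD, mem_inter] at hj1
    obtain ⟨hj3, hj4⟩ := hj1
    unfold Dq at hj3 hj4
    rw [mem_filter] at hj3 hj4
    obtain ⟨-, a, ha, z, hz⟩ := hj3
    obtain ⟨-, a', ha', z', hz'⟩ := hj4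
    refine ⟨a', ha', z', ?_, hz'⟩
    by_contra h
    rw [not_lt] at h
    have h1 : |al G j - (a : ℝ) / q - z| ≤ 1 / (4 * (q : ℝ) * q') := by
      by_contra h2
      exact hj2 ⟨a, ha, z, not_le.1 h2, hz⟩
    have h3 := fr_dist hq hq' ha ha' (fun h => hne h.1) (z' - z)
    have hq0 : (0 : ℝ) < q := by exact_mod_cast hq
    have hq0' : (0 : ℝ) < q' := by exact_mod_cast hq'
    have h4 : 1 / ((q : ℝ) * q') ≤ 1 / (Nat.lcm q q' : ℝ) := by
      refine one_div_le_one_div_of_le ?_ ?_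
      · exact_mod_cast Nat.lcm_pos (by omega) (by omega)
      · have : Nat.lcm q q' ≤ q * q' :=
          Nat.le_of_dvd (by positivity) (Nat.lcm_dvd_mul q q')
        exact_mod_cast this
    have h5 : |(a : ℝ) / q - (a' : ℝ) / q' - ((z' - z : ℤ) : ℝ)| ≤
        |al G j - (a : ℝ) / q - z| + |al G j - (a' : ℝ) / q' - z'| := by
      have h6 : (a : ℝ) / q - (a' : ℝ) / q' - ((z' - z : ℤ) : ℝ) =
          -(al G j - (a : ℝ) / q - z) + (al G j - (a' : ℝ) / q' - z') := by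
        push_cast
        ring
      rw [h6]
      refine (abs_add_le _ _).trans ?_
      rw [abs_neg]
    have h7 : 1 / (4 * (q : ℝ) * q') + 1 / (4 * (q' : ℝ) * q) = 1 / (2 * ((q : ℝ) * q')) := by
      field_simp
      norm_num
    have h8 : 1 / (2 * ((q : ℝ) * q')) < 1 / ((q : ℝ) * q') := by
      refine one_div_lt_one_div_of_lt (by positivity) ?_
      have : 0 < (q : ℝ) * q' := by positivity
      linarith
    linarith)
  linarith

end Pool.Agent.Lib.MP_e3f158_nt.TL
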