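import Pool.Agent.Lib.MP_e3f158_nt.TL.PairA
import Pool.Agent.Lib.MP_e3f158_nt.TL.Rie
import Pool.Agent.Lib.MP_dd84fd_nt.LX.Cen
import Pool.Agent.Lib.MP_dd84fd_nt.E2.MinorP

/-!
# MP_e3f158_nt, Theorem T2: the pair lemma
-/

set_option autoImplicit false

namespace Pool.Agent.Lib.MP_e3f158_nt.TL

open Finset Pool.MP_67663b_nt.Odd Pool.MP_dd84fd_nt.En Pool.MP_dd84fd_nt.E2 Pool.MP_dd84fd_nt.LS
open Pool.MP_dd84fd_nt.L2G (nrm)
open Pool.MP_dd84fd_nt.GX Pool.MP_dd84fd_nt.HX Pool.MP_dd84fd_nt.IX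
open Pool.MP_dd84fd_nt.PL (rr hq)
open Pool.MP_dd84fd_nt.JX (Adm DecJ Str qq_factsJ)
open Pool.MP_dd84fd_nt.LX (dscG centre_l)

/-- a double sum of indicator functions -/
theorem tt_split (G : ℕ) [NeZero G] (Q1 Q2 : Finset ℕ) (s s' : ℕ → Finset (ZMod G))
    (f : ZMod G → ℂ) :
    (1 / (G : ℂ)) * ∑ j : ZMod G, (∑ q ∈ Q1, open Classical in (if j ∈ s q then (1 : ℂ) else 0)) *
      (∑ q ∈ Q2, open Classical in (if j ∈ s' q then (1 : ℂ) else 0)) * f j =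
    ∑ q ∈ Q1, ∑ q' ∈ Q2, (1 / (G : ℂ)) * ∑ j ∈ s q ∩ s' q', f j := by
  classical
  have h1 : ∀ j : ZMod G, (∑ q ∈ Q1, (if j ∈ s q then (1 : ℂ) else 0)) *
      (∑ q ∈ Q2, (if j ∈ s' q then (1 : ℂ) else 0)) * f j =
      ∑ q ∈ Q1, ∑ q' ∈ Q2, (if j ∈ s q ∩ s' q' then f j else 0) := by
    intro j
    rw [sum_mul_sum, sum_mul]
    refine sum_congr rfl fun q _ => ?_
    rw [sum_mul]
    refine sum_congr rfl fun q' _ => ?_
    by_cases ha : j ∈ s q <;> by_cases hb : j ∈ s' q' <;> simp [ha, hb]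
  have h2 : ∀ j : ZMod G, (1 / (G : ℂ)) * ((∑ q ∈ Q1, (if j ∈ s q then (1 : ℂ) else 0)) *
      (∑ q ∈ Q2, (if j ∈ s' q then (1 : ℂ) else 0)) * f j) =
      ∑ q ∈ Q1, ∑ q' ∈ Q2, (if j ∈ s q ∩ s' q' then (1 / (G : ℂ)) * f j else 0) := by
    intro j
    rw [h1 j, mul_sum]
    refine sum_congr rfl fun q _ => ?_
    rw [mul_sum]
    refine sum_congr rfl fun q' _ => ?_
    rw [mul_ite, mul_zero]
  rw [Finset.mul_sum, sum_congr rfl fun j _ => h2 j, sum_comm]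
  refine sum_congr rfl fun q _ => ?_
  rw [sum_comm]
  refine sum_congr rfl fun q' _ => ?_
  rw [← sum_filter, mul_sum]
  refine sum_congr ?_ fun _ _ => rfl
  ext j
  simp

/-- the sign of `n' - n` does not matter for the norm -/
theorem sgn_norm (G : ℕ) [NeZero G] (Q : Finset ℕ) (s : ℕ → Finset (ZMod G)) (w : ZMod G → ℝ)
    (n n' : ℕ) :
    ‖∑ q ∈ Q, (1 / (G : ℂ)) * ∑ j ∈ s q, ((w j : ℝ) : ℂ) *
        ZMod.stdAddChar (((n' : ZMod G) - (n : ZMod G)) * j)‖ =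
      ‖∑ q ∈ Q, (1 / (G : ℂ)) * ∑ j ∈ s q, ((w j : ℝ) : ℂ) *
        ZMod.stdAddChar (-((nd n n' : ZMod G) * j))‖ := by
  rcases le_total n' n with h | h
  · have e1 : ((n' : ZMod G) - (n : ZMod G)) = -(nd n n' : ZMod G) := by
      have h1 : nd n n' = n - n' := by
        unfold nd
        omega
      rw [h1, Nat.cast_sub h]
      ring
    rw [e1]
    simp only [neg_mul]
  · have e1 : ((n' : ZMod G) - (n : ZMod G)) = (nd n n' : ZMod G) := by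
      have h1 : nd n n' = n' - n := by
        unfold nd
        omega
      rw [h1, Nat.cast_sub h]
    rw [e1]
    rw [← RCLike.norm_conj]
    congr 1
    rw [map_sum]
    refine sum_congr rfl fun q _ => ?_
    rw [map_mul, map_sum, map_div₀, map_one, Complex.conj_natCast]
    congr 1
    refine sum_congr rfl fun j _ => ?_
    rw [map_mul, Complex.conj_ofReal, conj_chi]

theorem ft_cont (ww gg : ℕ → ℕ → ℝ) (w X n : ℕ) : Continuous (FT ww gg w X n) := by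
  have h1 := wi_cont ww gg (-1) w X
  unfold FT
  have h2 : Continuous ee := by
    unfold ee
    fun_prop
  fun_prop

theorem ft_norm (ww gg : ℕ → ℕ → ℝ) (w X n : ℕ) (θ : ℝ) :
    ‖FT ww gg w X n θ‖ = ‖WI ww gg (-1) w X θ‖ ^ 2 := by
  unfold FT
  rw [norm_mul, norm_ee, mul_one, Complex.norm_real, Real.norm_eq_abs, abs_of_nonneg (by positivity)]

/-- `dsc` of a real function -/
theorem dsc_real (g : ℝ → ℝ) (X q : ℕ) (v : ℝ) :
    dsc (fun x => ((g x : ℝ) : ℂ)) X q v = ((dscG g X q v : ℝ) : ℂ) := by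
  unfold dsc dscG
  rw [Complex.ofReal_sum]
  refine sum_congr rfl fun a _ => ?_
  rw [← intervalIntegral.integral_ofReal, neg_div]

theorem diag_split (Q1 Q2 : Finset ℕ) (T : ℕ → ℕ → ℂ) :
    ∑ q ∈ Q1, ∑ q' ∈ Q2, T q q' =
      ∑ q ∈ Q1 ∩ Q2, T q q + ∑ q ∈ Q1, ∑ q' ∈ Q2.filter (fun q' => ¬ q' = q), T q q' := by
  classical
  rw [← Finset.sum_ite_mem, ← sum_add_distrib]
  refine sum_congr rfl fun q _ => ?_
  rw [← sum_filter_add_sum_filter_not Q2 (fun q' => q' = q)]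
  congr 1
  rw [Finset.filter_eq']
  split_ifs <;> simp

theorem t_le_ov (G : ℕ) [NeZero G] (X : ℕ) (u : ℕ → ℝ) (q q' : ℕ) (r r' : ℝ) (χ : ZMod G → ℂ)
    (hχ : ∀ j, ‖χ j‖ ≤ 1) :
    ‖(1 / (G : ℂ)) * ∑ j ∈ Dq G X q r ∩ Dq G X q' r', ((‖tr G X u j‖ ^ 2 : ℝ) : ℂ) * χ j‖ ≤
      Ov G X u q q' r r' := by
  unfold Ov
  rw [norm_mul]
  have e1 : ‖(1 / (G : ℂ))‖ = 1 / (G : ℝ) := by
    rw [norm_div, norm_one, Complex.norm_natCast]
  rw [e1]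
  refine mul_le_mul_of_nonneg_left ?_ (by positivity)
  refine (norm_sum_le _ _).trans (sum_le_sum fun j _ => ?_)
  rw [norm_mul, Complex.norm_real, Real.norm_eq_abs, abs_of_nonneg (by positivity)]
  exact mul_le_of_le_one_right (by positivity) (hχ j)

theorem pair_num (th e τ : ℝ) (hA : Adm th e τ) (A : ℕ) : ∃ X0 : ℕ, ∀ X : ℕ, X0 ≤ X →
    32 ≤ X ∧ 16 ≤ Real.log (X : ℝ) ∧ 4 * (X : ℝ) ^ (1 - th + 3 / 2 * e) < X ∧
    (X : ℝ) ^ (e / 2) * ((X : ℝ) ^ (e / 2) * (X : ℝ) ^ (1 - 6 * e)) ≤ X / (Real.log X) ^ (A + 4) ∧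
    16 * (Real.log X) ^ 2 ≤ X / (Real.log X) ^ (A + 4) := by
  obtain ⟨a1, a2, a3, a4, a5⟩ := hA
  obtain ⟨X1, hX1⟩ := MP_log_large 16
  obtain ⟨X2, hX2⟩ := MP_log_pow 1 (A + 4) (show 0 < 5 * e by positivity)
  obtain ⟨X3, hX3⟩ := MP_log_pow 16 (A + 6) (show (0 : ℝ) < 1 by norm_num)
  refine ⟨max (max X1 X2) (max X3 (4 ^ 11)), fun X hX => ?_⟩
  have g1 : X1 ≤ X := by omega
  have g2 : X2 ≤ X := by omega
  have g3 : X3 ≤ X := by omega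
  have g4 : 4 ^ 11 ≤ X := by omega
  have h1 := hX1 X g1
  have h2 := hX2 X g2
  have h3 := hX3 X g3
  have h4 : ((4 : ℝ)) ^ 11 ≤ X := by exact_mod_cast g4
  have hX1r : (1 : ℝ) ≤ X := le_trans (by norm_num) h4
  have hX0 : (0 : ℝ) < X := by linarith
  have hL0 : 0 < Real.log (X : ℝ) := by linarith
  refine ⟨?_, h1, ?_, ?_, ?_⟩
  · have : (32 : ℕ) ≤ 4 ^ 11 := by norm_num
    omega
  · have h5 : (4 : ℝ) < (X : ℝ) ^ (1 / 10 : ℝ) := by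
      have h6 : ((4 : ℝ) ^ (10 : ℝ)) ^ (1 / 10 : ℝ) < (X : ℝ) ^ (1 / 10 : ℝ) :=
        Real.rpow_lt_rpow (by positivity) (lt_of_lt_of_le (by norm_num) h4) (by norm_num)
      rw [← Real.rpow_mul (by norm_num)] at h6
      norm_num at h6
      exact_mod_cast h6
    calc 4 * (X : ℝ) ^ (1 - th + 3 / 2 * e) ≤ 4 * (X : ℝ) ^ (9 / 10 : ℝ) := by
          have : (X : ℝ) ^ (1 - th + 3 / 2 * e) ≤ (X : ℝ) ^ (9 / 10 : ℝ) :=
            Real.rpow_le_rpow_of_exponent_le hX1r (by linarith)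
          linarith
      _ < (X : ℝ) ^ (1 / 10 : ℝ) * (X : ℝ) ^ (9 / 10 : ℝ) :=
          mul_lt_mul_of_pos_right h5 (Real.rpow_pos_of_pos hX0 _)
      _ = X := by
          rw [← Real.rpow_add hX0]
          norm_num
  · rw [le_div_iff₀ (by positivity), ← Real.rpow_add hX0, ← Real.rpow_add hX0]
    rw [one_mul] at h2
    calc (X : ℝ) ^ (e / 2 + (e / 2 + (1 - 6 * e))) * Real.log (X : ℝ) ^ (A + 4) ≤
        (X : ℝ) ^ (e / 2 + (e / 2 + (1 - 6 * e))) * (X : ℝ) ^ (5 * e) :=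
          mul_le_mul_of_nonneg_left h2 (by positivity)
      _ = X := by
          rw [← Real.rpow_add hX0]
          rw [show e / 2 + (e / 2 + (1 - 6 * e)) + 5 * e = 1 by ring, Real.rpow_one]
  · rw [le_div_iff₀ (by positivity)]
    rw [Real.rpow_one] at h3
    refine le_trans (le_of_eq ?_) h3
    ring

theorem pair_p (hpl : PlT) (hov : OvP) : PairP := by
  classical
  intro A
  obtain ⟨B, hB⟩ := hpl (A + 4)
  refine ⟨B, 2 * A + 20, fun K0 C1 C2 => ?_⟩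
  obtain ⟨K3, hK3⟩ := hB K0 C1 C2
  refine ⟨K3, fun th e τ hA ww gg hW hD D' C hD' => ?_⟩
  obtain ⟨A0, hcen⟩ := centre_l (A + 4)
  obtain ⟨Xc, hXc⟩ := hcen K0 C1 ww gg hW D' hD'
  obtain ⟨Xp, hXp⟩ := hK3 th e τ hA ww gg hW hD D' (A0 + 1) hD'
  obtain ⟨Xo, hXo⟩ := hov C th e τ hA
  obtain ⟨Xq, hXq⟩ := qq_factsJ th e τ hA
  obtain ⟨Xw, hXw⟩ := ws_dq th e τ hA
  obtain ⟨Xf, hXf⟩ := ft_facts K0 C1 ww gg hW D'
  obtain ⟨Xt, hXt⟩ := discs_t th e τ hA (A + 4) K3 A0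
  obtain ⟨Xs, hXs⟩ := Pool.MP_dd84fd_nt.LX.cf_sq K0 C1 ww gg hW D'
  obtain ⟨Xn, hXn⟩ := pair_num th e τ hA A
  refine ⟨max (max (max Xc Xp) (max Xo Xq)) (max (max Xw Xf) (max (max Xt Xs) Xn)),
    fun X hX G hG0 hG u err hu hue herr n hn n' hn' hne Λ Λ' bb bb' hΛ hbb hΛb hΛ' hbb' hΛb' => ?_⟩
  have gc : Xc ≤ X := by omega
  have gp : Xp ≤ X := by omega
  have go : Xo ≤ X := by omega
  have gq : Xq ≤ X := by omega
  have gw : Xw ≤ X := by omega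
  have gf : Xf ≤ X := by omega
  have gt : Xt ≤ X := by omega
  have gs : Xs ≤ X := by omega
  have gn : Xn ≤ X := by omega
  obtain ⟨q1, q2, q3, q4⟩ := hXq X gq Λ bb hΛ hbb hΛb
  obtain ⟨q1', q2', q3', _⟩ := hXq X gq Λ' bb' hΛ' hbb' hΛb'
  obtain ⟨n1, n2, n3, n4, n5⟩ := hXn X gn
  have hω := hXw X gw Λ bb hΛ hbb hΛb G
  have hω' := hXw X gw Λ' bb' hΛ' hbb' hΛb' G
  set L : ℝ := Real.log (X : ℝ) with hLd
  set P : ℝ := (X : ℝ) ^ (1 - th + 3 / 2 * e) with hP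
  have hPI : P0I th e X = P := rfl
  have hX1 : 1 ≤ X := by omega
  have hXr : (1 : ℝ) ≤ X := by exact_mod_cast hX1
  have hX0 : (0 : ℝ) < X := by linarith
  have hL0 : 0 < L := by linarith
  have hL1 : 1 ≤ L := by linarith
  have hP0 : 0 < P := by positivity
  obtain ⟨Q1, hQ1d⟩ : ∃ Q1 : Finset ℕ, Q1 = QQi th e X Λ := ⟨_, rfl⟩
  obtain ⟨Q2, hQ2d⟩ : ∃ Q2 : Finset ℕ, Q2 = QQi th e X Λ' := ⟨_, rfl⟩
  obtain ⟨r1, hr1d⟩ : ∃ r1 : ℕ → ℝ, r1 = fun q => rdi th e X Λ bb q := ⟨_, rfl⟩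
  obtain ⟨r2, hr2d⟩ : ∃ r2 : ℕ → ℝ, r2 = fun q => rdi th e X Λ' bb' q := ⟨_, rfl⟩
  obtain ⟨N, hNd⟩ : ∃ N : ℝ, N = (X : ℝ) ^ (e / 5) * Λ := ⟨_, rfl⟩
  obtain ⟨N', hNd'⟩ : ∃ N' : ℝ, N' = (X : ℝ) ^ (e / 5) * Λ' := ⟨_, rfl⟩
  obtain ⟨v, hv⟩ : ∃ v : ℕ → ℝ, v = cfI ww gg (-1) (wX D' X) X := ⟨_, rfl⟩
  obtain ⟨m, hm⟩ : ∃ m : ℕ, m = nd n n' := ⟨_, rfl⟩
  rw [← hQ1d, ← hNd] at q1 q2
  rw [← hQ1d] at q3 hω
  rw [← hNd] at q4
  rw [← hQ2d, ← hNd'] at q1' q2'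
  rw [← hQ2d] at q3' hω'
  have hf1 : ∀ q ∈ Q1, 1 ≤ q ∧ 1 ≤ r1 q ∧ N * r1 q ≤ P ∧ (q : ℝ) ≤ N ∧ r1 q ≤ X ∧
      (q : ℝ) ≤ X := by
    intro q hq
    obtain ⟨a1, a2, a3, a4⟩ := q1 q hq
    have h5 := q2 q hq q hq
    rw [Nat.lcm_self] at h5
    have hq1 : (1 : ℝ) ≤ q := by exact_mod_cast a1
    rw [hr1d]
    have h6 : (q : ℝ) * rdi th e X Λ bb q ≤ P :=
      (mul_le_mul_of_nonneg_right h5 (by linarith)).trans a4
    have h7 : (q : ℝ) * 1 ≤ (q : ℝ) * rdi th e X Λ bb q :=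
      mul_le_mul_of_nonneg_left a2 (by linarith)
    have h8 : 1 * rdi th e X Λ bb q ≤ (q : ℝ) * rdi th e X Λ bb q :=
      mul_le_mul_of_nonneg_right hq1 (by linarith)
    refine ⟨a1, a2, a4, h5, ?_, ?_⟩
    · show rdi th e X Λ bb q ≤ X
      linarith
    · linarith
  have hf2 : ∀ q ∈ Q2, 1 ≤ q ∧ 1 ≤ r2 q ∧ (q : ℝ) * r2 q ≤ P := by
    intro q hq
    obtain ⟨a1, a2, a3, a4⟩ := q1' q hq
    have h5 := q2' q hq q hq
    rw [Nat.lcm_self] at h5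
    rw [hr2d]
    exact ⟨a1, a2, (mul_le_mul_of_nonneg_right h5 (by linarith)).trans a4⟩
  have hω1 : ∀ j : ZMod G, 1 - wSI G th e X Λ bb j =
      ∑ q ∈ Q1, (if j ∈ Dq G X q (r1 q) then (1 : ℂ) else 0) := by
    intro j
    rw [hω j, hr1d]
  have hω2 : ∀ j : ZMod G, 1 - wSI G th e X Λ' bb' j =
      ∑ q ∈ Q2, (if j ∈ Dq G X q (r2 q) then (1 : ℂ) else 0) := by
    intro j
    rw [hω' j, hr2d]
  obtain ⟨χ, hχ⟩ : ∃ χ : ZMod G → ℂ, χ = fun j =>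
    ZMod.stdAddChar (((n' : ZMod G) - (n : ZMod G)) * j) := ⟨_, rfl⟩
  have hχ1 : ∀ j, ‖χ j‖ ≤ 1 := by
    intro j
    rw [hχ]
    exact (chi_norm G _).le
  -- the decomposition of `TT2`
  obtain ⟨T, hT⟩ : ∃ T : ℕ → ℕ → ℂ, T = fun q q' => (1 / (G : ℂ)) *
    ∑ j ∈ Dq G X q (r1 q) ∩ Dq G X q' (r2 q'), ((‖tr G X u j‖ ^ 2 : ℝ) : ℂ) * χ j := ⟨_, rfl⟩
  have hTT : TT2 G X u (fun j => 1 - wSI G th e X Λ bb j) (fun j => 1 - wSI G th e X Λ' bb' j)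
      n n' = ∑ q ∈ Q1, ∑ q' ∈ Q2, T q q' := by
    have h1 := tt_split G Q1 Q2 (fun q => Dq G X q (r1 q)) (fun q => Dq G X q (r2 q))
      (fun j => ((‖tr G X u j‖ ^ 2 : ℝ) : ℂ) * χ j)
    rw [hT]
    rw [← h1]
    unfold TT2
    congr 1
    refine sum_congr rfl fun j _ => ?_
    beta_reduce
    rw [hω1 j, hω2 j, hχ, mul_assoc]
  obtain ⟨Q, hQ⟩ : ∃ Q : Finset ℕ, Q = Q1 ∩ Q2 := ⟨_, rfl⟩
  obtain ⟨ρ, hρ⟩ : ∃ ρ : ℕ → ℝ, ρ = fun q => min (r1 q) (r2 q) := ⟨_, rfl⟩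
  have hQs1 : Q ⊆ Q1 := by rw [hQ]; exact inter_subset_left
  have hQs2 : Q ⊆ Q2 := by rw [hQ]; exact inter_subset_right
  have hρ1 : ∀ q ∈ Q, 1 ≤ ρ q ∧ ρ q ≤ r1 q := by
    intro q hq
    rw [hρ]
    exact ⟨le_min (hf1 q (hQs1 hq)).2.1 (hf2 q (hQs2 hq)).2.1, min_le_left _ _⟩
  have hN1 : ∀ q ∈ Q, N * ρ q ≤ P := by
    intro q hq
    obtain ⟨b1, b2, b3, b4, _, _⟩ := hf1 q (hQs1 hq)
    have hN0 : 0 ≤ N := by
      have : (0 : ℝ) ≤ q := Nat.cast_nonneg q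
      linarith
    exact (mul_le_mul_of_nonneg_left (hρ1 q hq).2 hN0).trans b3
  have hN00 : 0 ≤ N := by
    rw [hNd]
    positivity
  have hlcm : ∀ q ∈ Q, ∀ q' ∈ Q, (Nat.lcm q q' : ℝ) ≤ N := fun q hq q' hq' =>
    q2 q (hQs1 hq) q' (hQs1 hq')
  have hcard : (Q.card : ℝ) ≤ (X : ℝ) ^ (e / 2) :=
    le_trans (by exact_mod_cast Finset.card_le_card hQs1) q3
  -- disjointness
  have hdis : ∀ (s : ℕ → ℝ) (QQ : Finset ℕ), QQ ⊆ Q → (∀ q ∈ QQ, s q ≤ 2 * ρ q) →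
      ∀ q ∈ QQ, ∀ q' ∈ QQ, q ≠ q' → Disjoint (Dq G X q (s q)) (Dq G X q' (s q')) := by
    intro s QQ hQQ hs q hq q' hq' hqq
    have hq1 := (hf1 q (hQs1 (hQQ hq))).1
    have hq1' := (hf1 q' (hQs1 (hQQ hq'))).1
    refine dq_disj G X q q' hX1 hq1 hq1' hqq _ _ ?_
    have h1 := hlcm q (hQQ hq) q' (hQQ hq')
    have h2 := hN1 q (hQQ hq)
    have h3 := hN1 q' (hQQ hq')
    have h4 := (hρ1 q (hQQ hq)).1
    have h5 := (hρ1 q' (hQQ hq')).1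
    have h6 := hs q hq
    have h7 := hs q' hq'
    calc (Nat.lcm q q' : ℝ) * (s q + s q') ≤ (Nat.lcm q q' : ℝ) * (2 * ρ q + 2 * ρ q') :=
          mul_le_mul_of_nonneg_left (by linarith) (Nat.cast_nonneg _)
      _ ≤ N * (2 * ρ q + 2 * ρ q') := mul_le_mul_of_nonneg_right h1 (by linarith)
      _ = 2 * (N * ρ q) + 2 * (N * ρ q') := by ring
      _ ≤ 4 * P := by linarith
      _ < X := n3
  -- the off-diagonal terms
  have hoff : ‖∑ q ∈ Q1, ∑ q' ∈ Q2.filter (fun q' => ¬ q' = q), T q q'‖ ≤ X / L ^ (A + 4) := by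
    have h1 : ∀ q ∈ Q1, ‖∑ q' ∈ Q2.filter (fun q' => ¬ q' = q), T q q'‖ ≤
        (X : ℝ) ^ (e / 2) * (X : ℝ) ^ (1 - 6 * e) := by
      intro q hq
      obtain ⟨b1, b2, b3, b4, b5, b6⟩ := hf1 q hq
      have h2 : ∀ q' ∈ Q2.filter (fun q' => ¬ q' = q), ‖T q q'‖ ≤ (X : ℝ) ^ (1 - 6 * e) := by
        intro q' hq'
        obtain ⟨hq'1, hq'2⟩ := mem_filter.1 hq'
        obtain ⟨c1, c2, c3⟩ := hf2 q' hq'1
        rw [hT]
        refine (t_le_ov G X u q q' (r1 q) (r2 q') χ hχ1).trans ?_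
        refine hXo X go G hG u hu q q' (r1 q) (r2 q') (Ne.symm hq'2) b1 c1 b2 c2 ?_ ?_
        · rw [hPI]
          have : (q : ℝ) * r1 q ≤ N * r1 q := mul_le_mul_of_nonneg_right b4 (by linarith)
          linarith
        · rw [hPI]
          linarith
      refine (norm_sum_le _ _).trans ((sum_le_sum h2).trans ?_)
      rw [sum_const, nsmul_eq_mul]
      refine mul_le_mul_of_nonneg_right ?_ (by positivity)
      exact le_trans (by exact_mod_cast card_le_card (filter_subset _ _)) q3'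
    refine (norm_sum_le _ _).trans ((sum_le_sum h1).trans ?_)
    rw [sum_const, nsmul_eq_mul]
    refine le_trans (mul_le_mul_of_nonneg_right q3 (by positivity)) n4
  -- the diagonal terms
  have hdiag : ∑ q ∈ Q1 ∩ Q2, T q q =
      ∑ q ∈ Q, (1 / (G : ℂ)) * ∑ j ∈ Dq G X q (ρ q), ((‖tr G X u j‖ ^ 2 : ℝ) : ℂ) * χ j := by
    rw [← hQ]
    refine sum_congr rfl fun q _ => ?_
    rw [hT, hρ]
    simp only
    rw [dq_inter]
  -- replace `u` by `v`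
  have hXG : X < G := by
    have h1 : X < X ^ 10 := by
      calc X = X ^ 1 := (pow_one X).symm
        _ < X ^ 10 := Nat.pow_lt_pow_right (by omega) (by norm_num)
    omega
  have hE : nm2 G (tr G X err) ≤ X / L ^ (2 * A + 20) := by
    unfold nm2
    rw [parseval G X hXG]
    exact herr
  have hV : nm2 G (tr G X v) ≤ X * L ^ 4 := by
    unfold nm2
    rw [parseval G X hXG, hv]
    exact hXs X gs (-1) (by norm_num)
  have hE0 : 0 ≤ nm2 G (tr G X err) := by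
    unfold nm2
    positivity
  have hvue : ∀ n ∈ Icc 1 X, v n = u n + err n := by
    rw [hv]
    exact hue
  obtain ⟨SU, hSU⟩ : ∃ SU : ℂ, SU = ∑ q ∈ Q, (1 / (G : ℂ)) * ∑ j ∈ Dq G X q (ρ q),
    ((‖tr G X u j‖ ^ 2 : ℝ) : ℂ) * χ j := ⟨_, rfl⟩
  obtain ⟨SV, hSV⟩ : ∃ SV : ℂ, SV = ∑ q ∈ Q, (1 / (G : ℂ)) * ∑ j ∈ Dq G X q (ρ q),
    ((‖tr G X v j‖ ^ 2 : ℝ) : ℂ) * χ j := ⟨_, rfl⟩
  have hrep : ‖SU - SV‖ ≤ 2 * (X / L ^ (A + 4)) := by
    have h1 := repl_err G X v u err hvue Q (fun q => Dq G X q (ρ q))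
      (hdis ρ Q (Finset.Subset.refl _) (fun q hq => by linarith [(hρ1 q hq).1])) χ hχ1 (L ^ (A + 8))
      (one_le_pow₀ hL1)
    rw [← hSU, ← hSV] at h1
    refine h1.trans ?_
    have h2 : 2 * L ^ (A + 8) * nm2 G (tr G X err) ≤ X / L ^ (A + 4) := by
      calc 2 * L ^ (A + 8) * nm2 G (tr G X err) ≤
          2 * L ^ (A + 8) * (X / L ^ (2 * A + 20)) := mul_le_mul_of_nonneg_left hE (by positivity)
        _ ≤ L * L ^ (A + 8) * (X / L ^ (2 * A + 20)) := by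
            refine mul_le_mul_of_nonneg_right ?_ (by positivity)
            exact mul_le_mul_of_nonneg_right (by linarith) (by positivity)
        _ = X / L ^ (A + 11) := by
            have : L ^ (2 * A + 20) = L * L ^ (A + 8) * L ^ (A + 11) := by ring
            rw [this]
            field_simp
        _ ≤ X / L ^ (A + 4) := div_le_div_of_nonneg_left hX0.le (by positivity)
            (pow_le_pow_right₀ hL1 (by omega))
    have h3 : nm2 G (tr G X v) / L ^ (A + 8) ≤ X / L ^ (A + 4) := by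
      calc nm2 G (tr G X v) / L ^ (A + 8) ≤ (X * L ^ 4) / L ^ (A + 8) :=
            div_le_div_of_nonneg_right hV (by positivity)
        _ = X / L ^ (A + 4) := by
            have : L ^ (A + 8) = L ^ 4 * L ^ (A + 4) := by ring
            rw [this]
            field_simp
    linarith
  -- the sum over the grid
  have hn1 := mem_Icc.1 hn
  have hn1' := mem_Icc.1 hn'
  have hm1 : 1 ≤ m := by
    rw [hm]
    unfold nd
    omega
  have hmX : m ≤ X := by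
    rw [hm]
    unfold nd
    omega
  obtain ⟨F, hF⟩ : ∃ F : ℝ → ℂ, F = FT ww gg (wX D' X) X m := ⟨_, rfl⟩
  obtain ⟨f1, f2, f3⟩ := hXf X gf m hmX
  rw [← hF] at f1 f2 f3
  have hFc : Continuous F := by
    rw [hF]
    exact ft_cont ww gg _ X m
  have hFg : ∀ j : ZMod G, F (al G j) = ((‖tr G X v j‖ ^ 2 : ℝ) : ℂ) *
      ZMod.stdAddChar (-((m : ZMod G) * j)) := by
    intro j
    rw [hF, hv]
    exact ft_grid G ww gg _ X m j
  have hX4 : (X : ℝ) ^ 4 ≤ 14 * (X : ℝ) ^ 5 := by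
    calc (X : ℝ) ^ 4 = 1 * (X : ℝ) ^ 4 := (one_mul _).symm
      _ ≤ (14 * X) * (X : ℝ) ^ 4 := mul_le_mul_of_nonneg_right (by linarith) (by positivity)
      _ = 14 * (X : ℝ) ^ 5 := by ring
  have hX3 : (X : ℝ) ^ 3 ≤ (X : ℝ) ^ 4 := pow_le_pow_right₀ hXr (by norm_num)
  have hcX : ∀ QQ : Finset ℕ, QQ ⊆ Q → (QQ.card : ℝ) ≤ X := by
    intro QQ hQQ
    have h1 : (QQ.card : ℝ) ≤ Q.card := by exact_mod_cast card_le_card hQQ
    refine (h1.trans hcard).trans ?_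
    calc (X : ℝ) ^ (e / 2) ≤ (X : ℝ) ^ (1 : ℝ) :=
          Real.rpow_le_rpow_of_exponent_le hXr
            (by linarith [hA.1, hA.2.1, hA.2.2.1, hA.2.2.2.1, hA.2.2.2.2])
      _ = X := Real.rpow_one _
  have hVF : ‖SV‖ ≤ ‖∑ q ∈ Q, dsc F X q (ρ q)‖ + 1 := by
    have h1 := rie_dq F X n1 f1 (fun x y => (f2 x y).trans
      (mul_le_mul_of_nonneg_right hX4 (abs_nonneg _))) (fun x => (f3 x).trans hX3) G hG Q ρ
      (fun q hq => by
        obtain ⟨b1, b2, b3, b4, b5, b6⟩ := hf1 q (hQs1 hq)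
        have c1 := (hρ1 q hq).1
        have c2 := hN1 q hq
        have c3 : (q : ℝ) * ρ q ≤ N * ρ q := mul_le_mul_of_nonneg_right b4 (by linarith)
        refine ⟨b1, b6, by linarith, ?_⟩
        calc 2 * (q : ℝ) * ρ q = 2 * ((q : ℝ) * ρ q) := by ring
          _ ≤ 4 * P := by linarith
          _ < X := n3) (hcX Q (Finset.Subset.refl _))
    have h2 := sgn_norm G Q (fun q => Dq G X q (ρ q)) (fun j => ‖tr G X v j‖ ^ 2) n n'
    have h3 : ‖SV‖ = ‖∑ q ∈ Q, (1 / (G : ℂ)) * ∑ j ∈ Dq G X q (ρ q), F (al G j)‖ := by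
      rw [hSV, hχ]
      beta_reduce
      rw [h2, ← hm]
      congr 1
      refine sum_congr rfl fun q _ => ?_
      congr 1
      exact sum_congr rfl fun j _ => (hFg j).symm
    rw [h3]
    have h4 := norm_sub_norm_le (∑ q ∈ Q, (1 / (G : ℂ)) * ∑ j ∈ Dq G X q (ρ q), F (al G j))
      (∑ q ∈ Q, dsc F X q (ρ q))
    linarith
  -- the discs
  obtain ⟨S, hS⟩ : ∃ S : ℝ, S = ∑ p ∈ RS th e X K3 Λ Λ' n n', Mq G X u p.1 (2 ^ p.2) := ⟨_, rfl⟩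
  have hS0 : 0 ≤ S := by
    rw [hS]
    exact sum_nonneg fun p _ => mq_nonneg G X u _ _
  have hcentre : ∑ q ∈ Q, dscG (fun x => ‖F x‖) X q (1 / L ^ A0) ≤ X / L ^ (A + 4) := by
    have h1 := hXc X gc (-1) (by norm_num) Q N (fun q hq => (hf1 q (hQs1 hq)).1) hlcm
      (q4.trans (by linarith))
    refine le_trans (le_of_eq ?_) h1
    refine sum_congr rfl fun q _ => ?_
    unfold dscG
    refine sum_congr rfl fun a _ => ?_
    refine intervalIntegral.integral_congr fun x _ => ?_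
    show ‖F ((a : ℝ) / q + x)‖ = _
    rw [hF, ft_norm]
  have hbad : ∀ (k : ℕ) (QQ : Finset ℕ), QQ ⊆ Q → k < Nat.log 2 X + 2 →
      (∀ q ∈ QQ, (2 : ℝ) ^ k ≤ 2 * ρ q ∧ (q : ℝ) ≤ L ^ K3 * (Nat.gcd q m : ℝ) ∧
        (m : ℝ) * 2 ^ k ≤ 4 * X * L ^ K3) →
      ∑ q ∈ QQ, dscG (fun x => ‖F x‖) X q (2 ^ k) ≤
        2 * S + (2 * (X / L ^ (2 * A + 20)) + 1) := by
    intro k QQ hQQ hk hrel
    have h2k : (0 : ℝ) < 2 ^ k := by positivity
    -- the sum over the grid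
    have h1 := rie_dq (fun x => ((‖F x‖ : ℝ) : ℂ)) X n1 (fun x => by
      show ((‖F (x + 1)‖ : ℝ) : ℂ) = ((‖F x‖ : ℝ) : ℂ)
      rw [f1]) (fun x y => by
      show ‖((‖F x‖ : ℝ) : ℂ) - ((‖F y‖ : ℝ) : ℂ)‖ ≤ _
      rw [← Complex.ofReal_sub, Complex.norm_real, Real.norm_eq_abs]
      exact (abs_norm_sub_norm_le _ _).trans ((f2 x y).trans
        (mul_le_mul_of_nonneg_right hX4 (abs_nonneg _)))) (fun x => by
      show ‖((‖F x‖ : ℝ) : ℂ)‖ ≤ _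
      rw [Complex.norm_real, norm_norm]
      exact (f3 x).trans hX3) G hG QQ (fun _ => (2 : ℝ) ^ k)
      (fun q hq => by
        have hqQ := hQQ hq
        obtain ⟨b1, b2, b3, b4, b5, b6⟩ := hf1 q (hQs1 hqQ)
        have c1 := (hρ1 q hqQ).1
        have c2 := hN1 q hqQ
        have c3 : (q : ℝ) * ρ q ≤ N * ρ q := mul_le_mul_of_nonneg_right b4 (by linarith)
        have c4 := (hrel q hq).1
        have hq0 : (0 : ℝ) ≤ q := Nat.cast_nonneg q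
        refine ⟨b1, b6, h2k.le, ?_⟩
        calc 2 * (q : ℝ) * 2 ^ k ≤ 2 * (q : ℝ) * (2 * ρ q) :=
              mul_le_mul_of_nonneg_left c4 (by linarith)
          _ = 4 * ((q : ℝ) * ρ q) := by ring
          _ ≤ 4 * P := by linarith
          _ < X := n3) (hcX QQ hQQ)
    have h2 : ∑ q ∈ QQ, (1 / (G : ℂ)) * ∑ j ∈ Dq G X q (2 ^ k), ((‖F (al G j)‖ : ℝ) : ℂ) =
        ((∑ q ∈ QQ, Mq G X v q (2 ^ k) : ℝ) : ℂ) := by
      rw [Complex.ofReal_sum]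
      refine sum_congr rfl fun q _ => ?_
      unfold Mq
      rw [Complex.ofReal_mul, Complex.ofReal_sum, Complex.ofReal_div, Complex.ofReal_one,
        Complex.ofReal_natCast]
      congr 1
      refine sum_congr rfl fun j _ => ?_
      rw [hFg j, norm_mul, chi_norm, mul_one, Complex.norm_real, Real.norm_eq_abs,
        abs_of_nonneg (by positivity)]
    have h3 : ∑ q ∈ QQ, dsc (fun x => ((‖F x‖ : ℝ) : ℂ)) X q (2 ^ k) =
        ((∑ q ∈ QQ, dscG (fun x => ‖F x‖) X q (2 ^ k) : ℝ) : ℂ) := by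
      rw [Complex.ofReal_sum]
      exact sum_congr rfl fun q _ => dsc_real (fun x => ‖F x‖) X q (2 ^ k)
    beta_reduce at h1
    rw [h2, h3, ← Complex.ofReal_sub, Complex.norm_real, Real.norm_eq_abs] at h1
    have h4 := (abs_le.1 h1).1
    -- `Mq` for `v`
    have h5 : ∑ q ∈ QQ, Mq G X v q (2 ^ k) ≤
        2 * ∑ q ∈ QQ, Mq G X u q (2 ^ k) + 2 * ∑ q ∈ QQ, Mq G X err q (2 ^ k) := by
      rw [mul_sum, mul_sum, ← sum_add_distrib]
      exact sum_le_sum fun q _ => mq_split G X v u err hvue q _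
    have h6 : ∑ q ∈ QQ, Mq G X err q (2 ^ k) ≤ X / L ^ (2 * A + 20) :=
      (mq_disj G X err QQ (fun _ => (2 : ℝ) ^ k)
        (hdis (fun _ => (2 : ℝ) ^ k) QQ hQQ (fun q hq => (hrel q hq).1))).trans hE
    have h7 : ∑ q ∈ QQ, Mq G X u q (2 ^ k) ≤ S := by
      have hinj : Set.InjOn (fun q : ℕ => (q, k)) (QQ : Set ℕ) := by
        intro a _ b _ hab
        exact (Prod.mk.inj hab).1
      have h8 : ∑ q ∈ QQ, Mq G X u q (2 ^ k) =
          ∑ p ∈ QQ.image (fun q : ℕ => (q, k)), Mq G X u p.1 (2 ^ p.2) := by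
        rw [sum_image hinj]
      rw [h8, hS]
      refine sum_le_sum_of_subset_of_nonneg ?_ fun p _ _ => mq_nonneg G X u _ _
      intro p hp
      obtain ⟨q, hq, rfl⟩ := mem_image.1 hp
      have hqQ := hQQ hq
      obtain ⟨b1, b2, b3, b4, b5, b6⟩ := hf1 q (hQs1 hqQ)
      have c1 := (hρ1 q hqQ).1
      have c2 := hN1 q hqQ
      have c3 : (q : ℝ) * ρ q ≤ N * ρ q := mul_le_mul_of_nonneg_right b4 (by linarith)
      obtain ⟨c4, c5, c6⟩ := hrel q hq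
      unfold RS
      rw [mem_filter, mem_product, mem_inter, mem_range]
      refine ⟨⟨⟨?_, ?_⟩, hk⟩, ?_, ?_, ?_⟩
      · rw [← hQ1d]
        exact hQs1 hqQ
      · rw [← hQ2d]
        exact hQs2 hqQ
      · show (q : ℝ) * 2 ^ k ≤ 2 * P0I th e X
        rw [hPI]
        calc (q : ℝ) * 2 ^ k ≤ (q : ℝ) * (2 * ρ q) :=
              mul_le_mul_of_nonneg_left c4 (Nat.cast_nonneg _)
          _ = 2 * ((q : ℝ) * ρ q) := by ring
          _ ≤ 2 * P := by linarith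
      · show (q : ℝ) ≤ (Real.log X) ^ K3 * (Nat.gcd q (nd n n') : ℝ)
        rw [← hm]
        exact c5
      · show (nd n n' : ℝ) * 2 ^ k ≤ 4 * X * (Real.log X) ^ K3
        rw [← hm]
        exact c6
    linarith
  have hdisc := hXt X gt m hm1 hmX F hFc (by
    intro QQ N b bq h1 h2 h3 h4 h5 h6
    rw [hF]
    exact hXp X gp m hm1 hmX QQ N b bq h1 h2 h3 h4 h5 h6) Q ρ N
    (fun q hq => ⟨(hf1 q (hQs1 hq)).1, (hρ1 q hq).1,
      (hρ1 q hq).2.trans (hf1 q (hQs1 hq)).2.2.2.2.1, hN1 q hq⟩) hlcm hN00 hcard hcentre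
    (2 * S + (2 * (X / L ^ (2 * A + 20)) + 1)) (by positivity) hbad
  rw [hTT, diag_split Q1 Q2 T, hdiag, ← hSU, ← hS]
  have hfin1 : ‖SU‖ ≤ ‖SU - SV‖ + ‖SV‖ := by
    have := norm_add_le (SU - SV) SV
    rwa [sub_add_cancel] at this
  have hE2 : X / L ^ (2 * A + 20) ≤ X / L ^ (A + 4) :=
    div_le_div_of_nonneg_left hX0.le (by positivity) (pow_le_pow_right₀ hL1 (by omega))
  have hE3 : 1 ≤ X / L ^ (A + 4) := by
    have : (1 : ℝ) ≤ 16 * L ^ 2 := by nlinarith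
    linarith
  obtain ⟨Y, hY⟩ : ∃ Y : ℝ, Y = X / L ^ (A + 4) := ⟨_, rfl⟩
  rw [← hY] at hoff hrep hdisc hE2 hE3
  have hY0 : 0 ≤ Y := by linarith
  have h8 : 8 * L ^ 2 * (Y + (2 * S + (2 * (X / L ^ (2 * A + 20)) + 1))) ≤
      8 * L ^ 2 * (4 * Y + 2 * S) :=
    mul_le_mul_of_nonneg_left (by linarith) (by positivity)
  have h9 : 16 * L ^ 2 * S ≤ L ^ 3 * S := by
    refine mul_le_mul_of_nonneg_right ?_ hS0
    calc 16 * L ^ 2 ≤ L * L ^ 2 := mul_le_mul_of_nonneg_right n2 (by positivity)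
      _ = L ^ 3 := by ring
  have h10 : (32 * L ^ 2 + 6) * Y ≤ X / L ^ A := by
    have h11 : 32 * L ^ 2 + 6 ≤ L ^ 4 := by
      have h12 : (256 : ℝ) ≤ L ^ 2 := by nlinarith
      have h13 : L ^ 4 = L ^ 2 * L ^ 2 := by ring
      rw [h13]
      nlinarith
    calc (32 * L ^ 2 + 6) * Y ≤ L ^ 4 * Y := mul_le_mul_of_nonneg_right h11 hY0
      _ = X / L ^ A := by
          rw [hY, pow_add]
          field_simp
  refine (norm_add_le _ _).trans ?_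
  have e1 : 8 * L ^ 2 * (4 * Y + 2 * S) = 32 * L ^ 2 * Y + 16 * L ^ 2 * S := by ring
  have e2 : (32 * L ^ 2 + 6) * Y = 32 * L ^ 2 * Y + 6 * Y := by ring
  linarith

end Pool.Agent.Lib.MP_e3f158_nt.TL
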