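import Pool.Agent.Lib.MP_dd84fd_nt.LX.FaBound
import Pool.Agent.Lib.MP_dd84fd_nt.LX.FaFacts
import Pool.Agent.Lib.MP_e3f158_nt.TL.DqL

/-!
# MP_e3f158_nt, Theorem T2: dyadic annuli of the discs, masses over disjoint sets
-/

set_option autoImplicit false

namespace Pool.Agent.Lib.MP_e3f158_nt.TL

open Finset Pool.MP_67663b_nt.Odd Pool.MP_dd84fd_nt.En Pool.MP_dd84fd_nt.E2 Pool.MP_dd84fd_nt.LS
open Pool.MP_dd84fd_nt.L2G (nrm)
open Pool.MP_dd84fd_nt.GX Pool.MP_dd84fd_nt.HX Pool.MP_dd84fd_nt.IX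
open Pool.MP_dd84fd_nt.PL (rr hq)
open Pool.MP_dd84fd_nt.JX (Adm qq_factsJ)
open Pool.MP_dd84fd_nt.LX (dscG dsc_leG ann_leG)

theorem pa_logbig (K : ℝ) : ∃ X0 : ℕ, ∀ X : ℕ, X0 ≤ X → K ≤ Real.log (X : ℝ) := by
  have h : Filter.Tendsto (fun n : ℕ => Real.log (n : ℝ)) Filter.atTop Filter.atTop :=
    Real.tendsto_log_atTop.comp tendsto_natCast_atTop_atTop
  exact Filter.eventually_atTop.1 (h.eventually_ge_atTop K)

theorem pa_exI (A0 : ℕ) : ∃ X0 : ℕ, ∀ X : ℕ, X0 ≤ X → ∃ I : ℕ,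
    2 * (Real.log X) ^ A0 ≤ (2 : ℝ) ^ I ∧ (2 : ℝ) ^ I ≤ (Real.log X) ^ (A0 + 1) ∧
    (I : ℝ) ≤ Real.log X := by
  obtain ⟨X1, hX1⟩ := pa_logbig 6
  have hlit : (fun L : ℝ => ((A0 : ℝ) + 1) * Real.log L) =o[Filter.atTop] (id : ℝ → ℝ) :=
    Asymptotics.IsLittleO.const_mul_left Real.isLittleO_log_id_atTop _
  have hev : ∀ᶠ L : ℝ in Filter.atTop, ‖((A0 : ℝ) + 1) * Real.log L‖ ≤ 1 / 2 * ‖L‖ :=
    hlit.def (by norm_num)
  have h : Filter.Tendsto (fun n : ℕ => Real.log (n : ℝ)) Filter.atTop Filter.atTop :=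
    Real.tendsto_log_atTop.comp tendsto_natCast_atTop_atTop
  obtain ⟨X2, hX2⟩ := Filter.eventually_atTop.1 (h.eventually hev)
  refine ⟨max X1 X2, fun X hX => ?_⟩
  have h1 : 6 ≤ Real.log (X : ℝ) := hX1 X ((le_max_left _ _).trans hX)
  have h2 := hX2 X ((le_max_right _ _).trans hX)
  set L : ℝ := Real.log (X : ℝ) with hL
  have hL0 : 0 < L := by linarith
  have hp1 : 1 ≤ L ^ A0 := one_le_pow₀ (by linarith)
  set m : ℕ := ⌈2 * L ^ A0⌉₊ with hm
  have hm1 : 2 * L ^ A0 ≤ (m : ℝ) := Nat.le_ceil _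
  have hm2 : (m : ℝ) ≤ 2 * L ^ A0 + 1 := (Nat.ceil_lt_add_one (by positivity)).le
  have hm3 : 1 < m := by
    have : (1 : ℝ) < (m : ℝ) := by linarith
    exact_mod_cast this
  have h3 : 2 * L ^ A0 ≤ (2 : ℝ) ^ (Nat.clog 2 m) := by
    have : (m : ℝ) ≤ (2 : ℝ) ^ (Nat.clog 2 m) := by
      exact_mod_cast Nat.le_pow_clog (by norm_num) m
    linarith
  have h4 : (2 : ℝ) ^ (Nat.clog 2 m) ≤ L ^ (A0 + 1) := by
    have h5 : 2 ^ (Nat.clog 2 m).pred < m := Nat.pow_pred_clog_lt_self (by norm_num) hm3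
    have h6 : 0 < Nat.clog 2 m := Nat.clog_pos (by norm_num) hm3
    have h7 : 2 ^ (Nat.clog 2 m) ≤ 2 * m := by
      obtain ⟨k, hk⟩ := Nat.exists_eq_succ_of_ne_zero h6.ne'
      rw [hk] at h5 ⊢
      rw [Nat.pred_succ] at h5
      rw [pow_succ]
      omega
    have h8 : (2 : ℝ) ^ (Nat.clog 2 m) ≤ 2 * m := by exact_mod_cast h7
    calc (2 : ℝ) ^ (Nat.clog 2 m) ≤ 2 * m := h8
      _ ≤ 2 * (2 * L ^ A0 + 1) := by linarith
      _ ≤ 6 * L ^ A0 := by linarith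
      _ ≤ L * L ^ A0 := by gcongr
      _ = L ^ (A0 + 1) := by ring
  refine ⟨Nat.clog 2 m, h3, h4, ?_⟩
  have h9 : ((Nat.clog 2 m : ℕ) : ℝ) * Real.log 2 ≤ ((A0 : ℝ) + 1) * Real.log L := by
    have := Real.log_le_log (by positivity) h4
    rw [Real.log_pow, Real.log_pow] at this
    push_cast at this
    exact this
  have h10 : ((A0 : ℝ) + 1) * Real.log L ≤ 1 / 2 * L := by
    have h11 := (le_abs_self _).trans (h2 : |((A0 : ℝ) + 1) * Real.log L| ≤ 1 / 2 * |L|)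
    rw [Real.norm_eq_abs, abs_of_pos hL0] at h11
    exact h11
  have h12 : (1 : ℝ) / 2 ≤ Real.log 2 := by
    have := Real.log_two_gt_d9
    linarith
  have h13 : ((Nat.clog 2 m : ℕ) : ℝ) * (1 / 2) ≤ ((Nat.clog 2 m : ℕ) : ℝ) * Real.log 2 :=
    mul_le_mul_of_nonneg_left h12 (Nat.cast_nonneg _)
  linarith

theorem dq_inter (G : ℕ) [NeZero G] (X q : ℕ) (r r' : ℝ) :
    Dq G X q r ∩ Dq G X q r' = Dq G X q (min r r') := by
  rcases le_total r r' with h | h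
  · rw [min_eq_left h, Finset.inter_eq_left]
    exact dq_mono G X q h
  · rw [min_eq_right h, Finset.inter_eq_right]
    exact dq_mono G X q h

theorem mq_nonneg (G : ℕ) [NeZero G] (X : ℕ) (v : ℕ → ℝ) (q : ℕ) (r : ℝ) : 0 ≤ Mq G X v q r := by
  unfold Mq
  positivity

theorem ov_nonneg (G : ℕ) [NeZero G] (X : ℕ) (v : ℕ → ℝ) (q q' : ℕ) (r r' : ℝ) :
    0 ≤ Ov G X v q q' r r' := by
  unfold Ov
  positivity

/-- masses over disjoint sets -/
theorem sum_disj (G : ℕ) [NeZero G] (Q : Finset ℕ) (s : ℕ → Finset (ZMod G))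
    (hd : ∀ q ∈ Q, ∀ q' ∈ Q, q ≠ q' → Disjoint (s q) (s q')) (f : ZMod G → ℝ)
    (hf : ∀ j, 0 ≤ f j) :
    ∑ q ∈ Q, (1 / (G : ℝ)) * ∑ j ∈ s q, f j ≤ (1 / (G : ℝ)) * ∑ j : ZMod G, f j := by
  classical
  rw [← mul_sum]
  refine mul_le_mul_of_nonneg_left ?_ (by positivity)
  rw [← Finset.sum_biUnion (fun q hq q' hq' hne => hd q hq q' hq' hne)]
  exact Finset.sum_le_sum_of_subset_of_nonneg (Finset.subset_univ _) fun j _ _ => hf j

theorem mq_disj (G : ℕ) [NeZero G] (X : ℕ) (v : ℕ → ℝ) (Q : Finset ℕ) (r : ℕ → ℝ)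
    (hd : ∀ q ∈ Q, ∀ q' ∈ Q, q ≠ q' → Disjoint (Dq G X q (r q)) (Dq G X q' (r q'))) :
    ∑ q ∈ Q, Mq G X v q (r q) ≤ nm2 G (tr G X v) := by
  unfold Mq nm2
  exact sum_disj G Q (fun q => Dq G X q (r q)) hd (fun j => ‖tr G X v j‖ ^ 2) fun j => by positivity

theorem tr_split (G : ℕ) [NeZero G] (X : ℕ) (v u err : ℕ → ℝ)
    (h : ∀ n ∈ Icc 1 X, v n = u n + err n) (j : ZMod G) :
    tr G X v j = tr G X u j + tr G X err j := by
  unfold tr
  rw [← Finset.sum_add_distrib]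
  refine Finset.sum_congr rfl fun m hm => ?_
  rw [h m hm]
  push_cast
  ring

theorem mq_split (G : ℕ) [NeZero G] (X : ℕ) (v u err : ℕ → ℝ)
    (h : ∀ n ∈ Icc 1 X, v n = u n + err n) (q : ℕ) (r : ℝ) :
    Mq G X v q r ≤ 2 * Mq G X u q r + 2 * Mq G X err q r := by
  unfold Mq
  rw [← mul_assoc, ← mul_assoc, mul_comm 2 (1 / (G : ℝ)), mul_assoc, mul_assoc, ← mul_add]
  refine mul_le_mul_of_nonneg_left ?_ (by positivity)
  rw [mul_sum, mul_sum, ← sum_add_distrib]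
  refine sum_le_sum fun j _ => ?_
  rw [tr_split G X v u err h j]
  have h1 := norm_add_le (tr G X u j) (tr G X err j)
  have h2 := norm_nonneg (tr G X u j)
  have h3 := norm_nonneg (tr G X err j)
  have h4 := norm_nonneg (tr G X u j + tr G X err j)
  nlinarith [sq_nonneg (‖tr G X u j‖ - ‖tr G X err j‖)]

theorem chi_norm (G : ℕ) [NeZero G] (x : ZMod G) : ‖(ZMod.stdAddChar x : ℂ)‖ = 1 :=
  AddChar.norm_apply _ x

/-- the error of replacing `û` by `v̂` over disjoint sets -/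
theorem repl_err (G : ℕ) [NeZero G] (X : ℕ) (v u err : ℕ → ℝ)
    (h : ∀ n ∈ Icc 1 X, v n = u n + err n) (Q : Finset ℕ) (s : ℕ → Finset (ZMod G))
    (hd : ∀ q ∈ Q, ∀ q' ∈ Q, q ≠ q' → Disjoint (s q) (s q')) (χ : ZMod G → ℂ)
    (hχ : ∀ j, ‖χ j‖ ≤ 1) (T : ℝ) (hT : 1 ≤ T) :
    ‖∑ q ∈ Q, (1 / (G : ℂ)) * ∑ j ∈ s q, ((‖tr G X u j‖ ^ 2 : ℝ) : ℂ) * χ j -
      ∑ q ∈ Q, (1 / (G : ℂ)) * ∑ j ∈ s q, ((‖tr G X v j‖ ^ 2 : ℝ) : ℂ) * χ j‖ ≤
      2 * T * nm2 G (tr G X err) + nm2 G (tr G X v) / T := by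
  have hT0 : 0 < T := by linarith
  have hG : (0 : ℝ) < G := by exact_mod_cast Nat.pos_of_ne_zero (NeZero.ne G)
  have hp : ∀ j, |‖tr G X u j‖ ^ 2 - ‖tr G X v j‖ ^ 2| ≤
      2 * T * ‖tr G X err j‖ ^ 2 + ‖tr G X v j‖ ^ 2 / T := by
    intro j
    have e1 := tr_split G X v u err h j
    set a := ‖tr G X u j‖ with ha
    set b := ‖tr G X v j‖ with hb
    set c := ‖tr G X err j‖ with hc
    have ha0 : 0 ≤ a := norm_nonneg _
    have hb0 : 0 ≤ b := norm_nonneg _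
    have hc0 : 0 ≤ c := norm_nonneg _
    have h1 : |a - b| ≤ c := by
      have h2 := abs_norm_sub_norm_le (tr G X u j) (tr G X v j)
      refine h2.trans (le_of_eq ?_)
      rw [e1, hc]
      rw [show tr G X u j - (tr G X u j + tr G X err j) = -(tr G X err j) by ring, norm_neg]
    have h2 : a ≤ b + c := by linarith [(abs_le.1 h1).2]
    have h3 : |a ^ 2 - b ^ 2| ≤ c * (2 * b + c) := by
      have : a ^ 2 - b ^ 2 = (a - b) * (a + b) := by ring
      rw [this, abs_mul, abs_of_nonneg (by linarith : 0 ≤ a + b)]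
      exact mul_le_mul h1 (by linarith) (by linarith) hc0
    refine h3.trans ?_
    have h4 : 2 * b * c ≤ b ^ 2 / T + T * c ^ 2 := by
      have h5 : 0 ≤ (b - T * c) ^ 2 / T := by positivity
      have h6 : (b - T * c) ^ 2 / T = b ^ 2 / T - 2 * b * c + T * c ^ 2 := by
        field_simp
        ring
      linarith
    have h7 : c ^ 2 ≤ T * c ^ 2 := le_mul_of_one_le_left (by positivity) hT
    linarith
  rw [← sum_sub_distrib]
  have h1 : ∀ q ∈ Q, ‖(1 / (G : ℂ)) * ∑ j ∈ s q, ((‖tr G X u j‖ ^ 2 : ℝ) : ℂ) * χ j -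
      (1 / (G : ℂ)) * ∑ j ∈ s q, ((‖tr G X v j‖ ^ 2 : ℝ) : ℂ) * χ j‖ ≤
      (1 / (G : ℝ)) * ∑ j ∈ s q, (2 * T * ‖tr G X err j‖ ^ 2 + ‖tr G X v j‖ ^ 2 / T) := by
    intro q _
    rw [← mul_sub, ← sum_sub_distrib, norm_mul]
    have e1 : ‖(1 / (G : ℂ))‖ = 1 / (G : ℝ) := by
      rw [norm_div, norm_one, Complex.norm_natCast]
    rw [e1]
    refine mul_le_mul_of_nonneg_left ?_ (by positivity)
    refine (norm_sum_le _ _).trans (sum_le_sum fun j _ => ?_)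
    rw [← sub_mul, norm_mul, ← Complex.ofReal_sub, Complex.norm_real, Real.norm_eq_abs]
    calc |‖tr G X u j‖ ^ 2 - ‖tr G X v j‖ ^ 2| * ‖χ j‖ ≤
        |‖tr G X u j‖ ^ 2 - ‖tr G X v j‖ ^ 2| * 1 :=
          mul_le_mul_of_nonneg_left (hχ j) (abs_nonneg _)
      _ ≤ _ := by
          rw [mul_one]
          exact hp j
  refine (norm_sum_le _ _).trans ((sum_le_sum h1).trans ?_)
  refine (sum_disj G Q s hd (fun j => 2 * T * ‖tr G X err j‖ ^ 2 + ‖tr G X v j‖ ^ 2 / T)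
    fun j => by positivity).trans (le_of_eq ?_)
  unfold nm2
  rw [sum_add_distrib, ← mul_sum, ← sum_div]
  ring

/-- the dyadic decomposition of the discs -/
theorem discs_t (th e τ : ℝ) (hA : Adm th e τ) (A K3 A0 : ℕ) :
    ∃ X0 : ℕ, ∀ X : ℕ, X0 ≤ X → ∀ m : ℕ, 1 ≤ m → m ≤ X → ∀ F : ℝ → ℂ, Continuous F →
    (∀ (QQ : Finset ℕ) (N b : ℝ) (bq : ℕ → ℝ), (∀ q ∈ QQ, 1 ≤ q ∧ b ≤ bq q ∧ bq q ≤ 2 * b) →
      (∀ q ∈ QQ, ∀ q' ∈ QQ, (Nat.lcm q q' : ℝ) ≤ N) → (QQ.card : ℝ) ≤ (X : ℝ) ^ (e / 2) →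
      1 / (Real.log X) ^ (A0 + 1) ≤ b → N * b ≤ (X : ℝ) ^ (1 - th + 3 / 2 * e) →
      (∀ q ∈ QQ, (Real.log X) ^ K3 ≤ (hq q m : ℝ) * (1 + m * b / X)) →
      ∑ q ∈ QQ, ‖∑ a ∈ rr q, ((∫ x in (bq q / X)..(2 * bq q / X), F ((a : ℝ) / q + x)) +
        ∫ x in (bq q / X)..(2 * bq q / X), F ((a : ℝ) / q - x))‖ ≤
        X / (Real.log X) ^ A) →
    ∀ (Q : Finset ℕ) (ρ : ℕ → ℝ) (N : ℝ),
      (∀ q ∈ Q, 1 ≤ q ∧ 1 ≤ ρ q ∧ ρ q ≤ X ∧ N * ρ q ≤ (X : ℝ) ^ (1 - th + 3 / 2 * e)) →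
      (∀ q ∈ Q, ∀ q' ∈ Q, (Nat.lcm q q' : ℝ) ≤ N) → 0 ≤ N → (Q.card : ℝ) ≤ (X : ℝ) ^ (e / 2) →
      ∑ q ∈ Q, dscG (fun x => ‖F x‖) X q (1 / (Real.log X) ^ A0) ≤ X / (Real.log X) ^ A →
      ∀ Bd : ℝ, 0 ≤ Bd → (∀ (k : ℕ) (QQ : Finset ℕ), QQ ⊆ Q → k < Nat.log 2 X + 2 →
        (∀ q ∈ QQ, (2 : ℝ) ^ k ≤ 2 * ρ q ∧ (q : ℝ) ≤ (Real.log X) ^ K3 * (Nat.gcd q m : ℝ) ∧
          (m : ℝ) * 2 ^ k ≤ 4 * X * (Real.log X) ^ K3) →
        ∑ q ∈ QQ, dscG (fun x => ‖F x‖) X q (2 ^ k) ≤ Bd) →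
      ‖∑ q ∈ Q, dsc F X q (ρ q)‖ ≤
        8 * (Real.log X) ^ 2 * (X / (Real.log X) ^ A + Bd) + X / (Real.log X) ^ A := by
  classical
  obtain ⟨X4, hX4⟩ := pa_exI A0
  obtain ⟨X5, hX5⟩ := pa_logbig 6
  refine ⟨max X4 (max X5 1), fun X hX m hm1 hmX F hFc hpl Q ρ N hQ1 hQ2 hN0 hQ3 hce Bd hBd
    hbad => ?_⟩
  have g4 : X4 ≤ X := by omega
  have g5 : X5 ≤ X := by omega
  have g6 : 1 ≤ X := by omega
  obtain ⟨I, hI1, hI2, hI3⟩ := hX4 X g4
  have hL6 := hX5 X g5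
  obtain ⟨a1, a2, a3, a4, a5⟩ := hA
  set L : ℝ := Real.log (X : ℝ) with hLd
  have hL0 : 0 < L := by linarith
  have hXr : (1 : ℝ) ≤ X := by exact_mod_cast g6
  have hX0 : (0 : ℝ) < X := by linarith
  have hmr : (m : ℝ) ≤ X := by exact_mod_cast hmX
  -- the index `c`
  set cc : ℕ → ℕ := fun q => Nat.log 2 ⌊ρ q⌋₊ with hcc
  have hcc1 : ∀ q ∈ Q, (2 : ℝ) ^ (cc q) ≤ ρ q ∧ ρ q ≤ 2 ^ (cc q + 1) := by
    intro q hq
    obtain ⟨_, h2, _, _⟩ := hQ1 q hq
    have h3 : ⌊ρ q⌋₊ ≠ 0 := by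
      have : 1 ≤ ⌊ρ q⌋₊ := Nat.le_floor (by exact_mod_cast h2)
      omega
    constructor
    · have h4 : 2 ^ (cc q) ≤ ⌊ρ q⌋₊ := Nat.pow_log_le_self 2 h3
      calc (2 : ℝ) ^ (cc q) ≤ (⌊ρ q⌋₊ : ℝ) := by exact_mod_cast h4
        _ ≤ _ := Nat.floor_le (by linarith)
    · have h4 : ⌊ρ q⌋₊ < 2 ^ (cc q + 1) := Nat.lt_pow_succ_log_self (by norm_num) _
      have h5 : ρ q < (⌊ρ q⌋₊ : ℝ) + 1 := Nat.lt_floor_add_one _
      have h6 : (⌊ρ q⌋₊ : ℝ) + 1 ≤ 2 ^ (cc q + 1) := by exact_mod_cast h4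
      linarith
  have hcc2 : ∀ q ∈ Q, cc q < Nat.log 2 X + 1 := by
    intro q hq
    have h1 : ⌊ρ q⌋₊ ≤ X := by
      have := Nat.floor_le_floor (hQ1 q hq).2.2.1
      rwa [Nat.floor_natCast] at this
    exact Nat.lt_succ_of_le (Nat.log_mono_right h1)
  -- the decomposition
  have hsplit : ∑ q ∈ Q, dsc F X q (ρ q) =
      ∑ c ∈ range (Nat.log 2 X + 1), ∑ t ∈ range (c + I),
        ∑ q ∈ Q.filter (fun q => cc q = c), ann F X q
          (ρ q / 2 ^ (t + 1)) (2 * (ρ q / 2 ^ (t + 1))) +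
      ∑ q ∈ Q, dsc F X q (ρ q / 2 ^ (cc q + I)) := by
    have h1 : ∀ q ∈ Q, dsc F X q (ρ q) =
        ∑ t ∈ range (cc q + I), ann F X q
          (ρ q / 2 ^ (t + 1)) (2 * (ρ q / 2 ^ (t + 1))) +
        dsc F X q (ρ q / 2 ^ (cc q + I)) :=
      fun q _ => dsc_split F hFc X q _ (cc q + I)
    rw [Finset.sum_congr rfl h1, Finset.sum_add_distrib]
    congr 1
    have h2 : ∀ c ∈ range (Nat.log 2 X + 1), ∑ t ∈ range (c + I),
        ∑ q ∈ Q.filter (fun q => cc q = c), ann F X q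
          (ρ q / 2 ^ (t + 1)) (2 * (ρ q / 2 ^ (t + 1))) =
        ∑ q ∈ Q.filter (fun q => cc q = c), ∑ t ∈ range (cc q + I), ann F X q
          (ρ q / 2 ^ (t + 1)) (2 * (ρ q / 2 ^ (t + 1))) := by
      intro c _
      rw [Finset.sum_comm]
      refine Finset.sum_congr rfl fun q hq => ?_
      rw [(Finset.mem_filter.1 hq).2]
    rw [Finset.sum_congr rfl h2]
    exact (Finset.sum_fiberwise_of_maps_to
      (fun q hq => Finset.mem_range.2 (hcc2 q hq)) _).symm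
  have hE0 : 0 ≤ (X : ℝ) / L ^ A := by positivity
  rw [hsplit]
  refine (norm_add_le _ _).trans ?_
  -- centre
  have hcentre : ‖∑ q ∈ Q, dsc F X q (ρ q / 2 ^ (cc q + I))‖ ≤ X / L ^ A := by
    refine (norm_sum_le _ _).trans ?_
    refine le_trans (Finset.sum_le_sum fun q hq => ?_) hce
    obtain ⟨h2, h3⟩ := hcc1 q hq
    have h4 : 0 ≤ ρ q / 2 ^ (cc q + I) :=
      div_nonneg (le_trans (by positivity) h2) (by positivity)
    refine dsc_leG F hFc X q g6 _ (1 / L ^ A0) h4 ?_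
    calc ρ q / 2 ^ (cc q + I) ≤ 2 ^ (cc q + 1) / 2 ^ (cc q + I) := by gcongr
      _ = 2 / 2 ^ I := by
        rw [pow_add, pow_add]
        field_simp
      _ ≤ 1 / L ^ A0 := by
        rw [div_le_div_iff₀ (by positivity) (by positivity)]
        linarith
  -- one pair `(c, t)`
  have hone : ∀ c ∈ range (Nat.log 2 X + 1), ∀ t ∈ range (c + I),
      ‖∑ q ∈ Q.filter (fun q => cc q = c), ann F X q
          (ρ q / 2 ^ (t + 1)) (2 * (ρ q / 2 ^ (t + 1)))‖ ≤ X / L ^ A + Bd := by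
    intro c hc t ht
    rw [Finset.mem_range] at hc ht
    set Qc := Q.filter (fun q => cc q = c) with hQc
    have hsubc : Qc ⊆ Q := Finset.filter_subset _ _
    rcases Finset.eq_empty_or_nonempty Qc with hQe | ⟨q0, hq0⟩
    · rw [hQe, Finset.sum_empty, norm_zero]
      positivity
    have hr : ∀ q ∈ Qc, (2 : ℝ) ^ c ≤ ρ q ∧ ρ q ≤ 2 ^ (c + 1) := by
      intro q hq
      obtain ⟨h3, h4⟩ := Finset.mem_filter.1 hq
      have h5 := hcc1 q h3
      rw [h4] at h5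
      exact h5
    set b : ℝ := 2 ^ c / 2 ^ (t + 1) with hb
    have hb0 : 0 < b := by positivity
    have hbq : ∀ q ∈ Qc, 1 ≤ q ∧ b ≤ ρ q / 2 ^ (t + 1) ∧ ρ q / 2 ^ (t + 1) ≤ 2 * b := by
      intro q hq
      obtain ⟨h2, h3⟩ := hr q hq
      refine ⟨(hQ1 q (hsubc hq)).1, ?_, ?_⟩
      · rw [hb]
        gcongr
      · have : 2 * b = 2 ^ (c + 1) / 2 ^ (t + 1) := by
          rw [hb, pow_succ (2 : ℝ) c]
          ring
        rw [this]
        gcongr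
    have hbI : 1 / L ^ (A0 + 1) ≤ b := by
      have h1 : (1 : ℝ) / L ^ (A0 + 1) ≤ 1 / 2 ^ I := by
        apply one_div_le_one_div_of_le (by positivity) hI2
      refine h1.trans ?_
      rw [hb, div_le_div_iff₀ (by positivity) (by positivity), one_mul, ← pow_add]
      exact pow_le_pow_right₀ (by norm_num) (by omega)
    have hNb : N * b ≤ (X : ℝ) ^ (1 - th + 3 / 2 * e) := by
      obtain ⟨h2, _⟩ := hr q0 hq0
      refine le_trans ?_ (hQ1 q0 (hsubc hq0)).2.2.2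
      apply mul_le_mul_of_nonneg_left _ hN0
      refine le_trans ?_ h2
      rw [hb]
      exact div_le_self (by positivity) (one_le_pow₀ (by norm_num))
    rw [← Finset.sum_filter_add_sum_filter_not Qc
      (fun q : ℕ => L ^ K3 ≤ (hq q m : ℝ) * (1 + m * b / X))]
    refine (norm_add_le _ _).trans (add_le_add ?_ ?_)
    · refine (norm_sum_le _ _).trans ?_
      have hsub : Qc.filter (fun q : ℕ => L ^ K3 ≤ (hq q m : ℝ) * (1 + m * b / X)) ⊆ Qc :=
        Finset.filter_subset _ _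
      exact hpl _ N b (fun q => ρ q / 2 ^ (t + 1)) (fun q hq => hbq q (hsub hq))
        (fun q hq q' hq' => hQ2 q (hsubc (hsub hq)) q' (hsubc (hsub hq')))
        (le_trans (by exact_mod_cast Finset.card_le_card (hsub.trans hsubc)) hQ3) hbI hNb
        (fun q hq => (Finset.mem_filter.1 hq).2)
    · refine (norm_sum_le _ _).trans ?_
      have hsub : Qc.filter (fun q : ℕ => ¬ (L ^ K3 ≤ (hq q m : ℝ) * (1 + m * b / X))) ⊆ Qc :=
        Finset.filter_subset _ _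
      have hk1 : c + 1 - t < Nat.log 2 X + 2 := by omega
      have h8 := hbad (c + 1 - t)
        (Qc.filter (fun q : ℕ => ¬ (L ^ K3 ≤ (hq q m : ℝ) * (1 + m * b / X))))
        (hsub.trans hsubc) hk1 (fun q hq' => by
          have hqQc := hsub hq'
          have hq1 : 1 ≤ q := (hbq q hqQc).1
          have hn := not_le.1 (Finset.mem_filter.1 hq').2
          have hg0 : 0 < Nat.gcd q m := Nat.gcd_pos_of_pos_left _ (by omega)
          have hgr : (0 : ℝ) < (Nat.gcd q m : ℝ) := by exact_mod_cast hg0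
          have hdv : hq q m * Nat.gcd q m = q := by
            unfold hq
            exact Nat.div_mul_cancel (Nat.gcd_dvd_left q m)
          have hh1 : 1 ≤ hq q m := by
            rcases Nat.eq_zero_or_pos (hq q m) with h0 | h0
            · rw [h0, zero_mul] at hdv
              omega
            · exact h0
          have hh1r : (1 : ℝ) ≤ (hq q m : ℝ) := by exact_mod_cast hh1
          have hmb : 0 ≤ (m : ℝ) * b / X := by positivity
          have hK : (hq q m : ℝ) ≤ L ^ K3 := by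
            refine le_trans ?_ hn.le
            exact le_mul_of_one_le_right (by positivity) (by linarith)
          have hK1 : (m : ℝ) * b / X ≤ L ^ K3 := by
            refine le_trans ?_ hn.le
            calc (m : ℝ) * b / X = 1 * ((m : ℝ) * b / X) := (one_mul _).symm
              _ ≤ (hq q m : ℝ) * (1 + (m : ℝ) * b / X) :=
                mul_le_mul hh1r (by linarith) hmb (by linarith)
          have hL1 : 1 ≤ L ^ K3 := one_le_pow₀ (by linarith)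
          refine ⟨?_, ?_, ?_⟩
          · calc (2 : ℝ) ^ (c + 1 - t) ≤ 2 ^ (c + 1) :=
                  pow_le_pow_right₀ (by norm_num) (by omega)
              _ = 2 * 2 ^ c := by ring
              _ ≤ 2 * ρ q := by linarith [(hr q hqQc).1]
          · calc (q : ℝ) = (hq q m : ℝ) * (Nat.gcd q m : ℝ) := by exact_mod_cast hdv.symm
              _ ≤ L ^ K3 * (Nat.gcd q m : ℝ) := mul_le_mul_of_nonneg_right hK hgr.le
          · by_cases htc : t ≤ c + 1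
            · have e1 : (2 : ℝ) ^ (c + 1 - t) = 4 * b := by
                have e2 : (2 : ℝ) ^ (c + 1 - t) * 2 ^ (t + 1) = 2 ^ (c + 2) := by
                  rw [← pow_add]
                  congr 1
                  omega
                rw [hb, mul_div_assoc', eq_div_iff (by positivity), e2]
                ring
              rw [e1]
              rw [div_le_iff₀ hX0] at hK1
              linarith
            · have e1 : c + 1 - t = 0 := by omega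
              rw [e1, pow_zero, mul_one]
              have : (X : ℝ) * 1 ≤ X * L ^ K3 := mul_le_mul_of_nonneg_left hL1 hX0.le
              linarith)
      refine le_trans (Finset.sum_le_sum fun q hq' => ?_) h8
      obtain ⟨h9, h10, h11⟩ := hbq q (hsub hq')
      have h12 : 0 ≤ ρ q / 2 ^ (t + 1) := hb0.le.trans h10
      refine ann_leG F hFc X q g6 _ _ _ h12 (by linarith) ?_
      by_cases htc : t ≤ c + 1
      · have e1 : (2 : ℝ) ^ (c + 1 - t) = 4 * b := by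
          have e2 : (2 : ℝ) ^ (c + 1 - t) * 2 ^ (t + 1) = 2 ^ (c + 2) := by
            rw [← pow_add]
            congr 1
            omega
          rw [hb, mul_div_assoc', eq_div_iff (by positivity), e2]
          ring
        rw [e1]
        linarith
      · have e1 : c + 1 - t = 0 := by omega
        rw [e1, pow_zero]
        have h13 : 2 * b ≤ 1 / 2 := by
          rw [hb, mul_div_assoc', div_le_div_iff₀ (by positivity) (by positivity)]
          calc 2 * (2 : ℝ) ^ c * 2 = 2 ^ (c + 2) := by ring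
            _ ≤ 2 ^ (t + 1) := pow_le_pow_right₀ (by norm_num) (by omega)
            _ = 1 * 2 ^ (t + 1) := (one_mul _).symm
        linarith
  have hT : ((Nat.log 2 X + 1 : ℕ) : ℝ) ≤ 2 * L := by
    have h1 : 2 ^ (Nat.log 2 X) ≤ X := Nat.pow_log_le_self 2 (by omega)
    have h2 : (2 : ℝ) ^ (Nat.log 2 X) ≤ X := by exact_mod_cast h1
    have h3 := Real.log_le_log (by positivity) h2
    rw [Real.log_pow] at h3
    have h4 : (2 : ℝ) / 3 ≤ Real.log 2 := by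
      have := Real.log_two_gt_d9
      linarith
    have h5 : ((Nat.log 2 X : ℕ) : ℝ) * (2 / 3) ≤ ((Nat.log 2 X : ℕ) : ℝ) * Real.log 2 :=
      mul_le_mul_of_nonneg_left h4 (Nat.cast_nonneg _)
    push_cast
    linarith
  have hann : ‖∑ c ∈ range (Nat.log 2 X + 1), ∑ t ∈ range (c + I),
        ∑ q ∈ Q.filter (fun q => cc q = c), ann F X q
          (ρ q / 2 ^ (t + 1)) (2 * (ρ q / 2 ^ (t + 1)))‖ ≤
      (2 * L) * ((4 * L) * (X / L ^ A + Bd)) := by
    refine (norm_sum_le _ _).trans ?_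
    have h1 : ∀ c ∈ range (Nat.log 2 X + 1), ‖∑ t ∈ range (c + I),
        ∑ q ∈ Q.filter (fun q => cc q = c), ann F X q
          (ρ q / 2 ^ (t + 1)) (2 * (ρ q / 2 ^ (t + 1)))‖ ≤
        (4 * L) * (X / L ^ A + Bd) := by
      intro c hc
      refine (norm_sum_le _ _).trans ?_
      refine (Finset.sum_le_sum (hone c hc)).trans ?_
      rw [Finset.sum_const, Finset.card_range, nsmul_eq_mul]
      apply mul_le_mul_of_nonneg_right _ (by positivity)
      have hc' : c ≤ Nat.log 2 X := Nat.lt_succ_iff.1 (Finset.mem_range.1 hc)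
      have hc'' : (c : ℝ) ≤ ((Nat.log 2 X + 1 : ℕ) : ℝ) := by exact_mod_cast hc'.trans (Nat.le_succ _)
      push_cast at hc'' hT ⊢
      linarith
    refine (Finset.sum_le_sum h1).trans ?_
    rw [Finset.sum_const, Finset.card_range, nsmul_eq_mul]
    exact mul_le_mul_of_nonneg_right hT (by positivity)
  refine (add_le_add hann hcentre).trans (le_of_eq ?_)
  ring

end Pool.Agent.Lib.MP_e3f158_nt.TL
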